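import Pool.Agent.H38.MSD.Mnl
import Pool.Agent.H87.SLO.Tup
import Pool.Agent.H19.BFL.Stmts

/-!
# Mates

`tup p X k`: the own sample `v 0` and `k` mates with the same `X`. If a covector `φ`, function of `X`,
expresses `f` through the vectors `d` at every sample, then with high probability the own vectors are
combinations of those of the mates, and the own `f` is the same combination of the `f` of the mates;
the coefficients are linear functions of the own vector which depend on the vectors of the mates only.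
-/

set_option autoImplicit false

namespace Pool.MSD

open Matrix Finset
open Pool.Agent.H49.Ent Pool.Agent.H32.Dense Pool.STK Pool.SLO
open Pool.BFL (Pb)

section

variable {Ω : Type} {J m k : ℕ} (d : Ω → Fin J → Fin m → ℝ)

/-- All the vectors of the samples. -/
def ar (v : Fin (k + 1) → Ω) (x : Fin (k + 1) × Fin J) : Fin m → ℝ := d (v x.1) x.2

/-- The array of the vectors of the mates. -/
def unc (D : Fin k → Fin J → Fin m → ℝ) (x : Fin k × Fin J) : Fin m → ℝ := D x.1 x.2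

/-- The largest minor of order `r` needs the sample `j`. -/
def Bd (ε : ℕ → ℝ) (r : ℕ) (v : Fin (k + 1) → Ω) (j : Fin (k + 1)) : Prop :=
  Rk (ar d v) ε r ∧ ¬∃ (ρ : Fin r → Fin m) (s : Fin r → Fin (k + 1) × Fin J),
    (∀ b, (s b).1 ≠ j) ∧ ∀ (ρ' : Fin r → Fin m) (s' : Fin r → Fin (k + 1) × Fin J),
      |mn (ar d v) ρ' s'| ≤ |mn (ar d v) ρ s|

open Classical in
theorem Bd_card (ε : ℕ → ℝ) (r : ℕ) (v : Fin (k + 1) → Ω) :
    (univ.filter fun j => Bd d ε r v j).card ≤ r := by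
  by_cases h : Rk (ar d v) ε r
  · obtain ⟨ρ, s, -, hmax⟩ := exists_mx (ar d v) h.1
    have h1 : (univ.filter fun j => Bd d ε r v j) ⊆ univ.image fun b => (s b).1 := by
      intro j hj
      rw [Finset.mem_filter] at hj
      by_contra hcon
      refine hj.2.2 ⟨ρ, s, fun b hb => hcon ?_, hmax⟩
      rw [Finset.mem_image]
      exact ⟨b, Finset.mem_univ _, hb⟩
    refine (Finset.card_le_card h1).trans (Finset.card_image_le.trans ?_)
    rw [Finset.card_univ, Fintype.card_fin]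
  · have h1 : (univ.filter fun j => Bd d ε r v j) = ∅ := by
      refine Finset.filter_eq_empty_iff.2 fun j _ hj => h hj.1
    rw [h1]
    exact Nat.zero_le _

/-- The change of the family by a permutation. -/
def pm (σ : Equiv.Perm (Fin (k + 1))) (x : Fin (k + 1) × Fin J) : Fin (k + 1) × Fin J :=
  (σ x.1, x.2)

theorem mn_pm (σ : Equiv.Perm (Fin (k + 1))) (v : Fin (k + 1) → Ω) {r : ℕ} (ρ : Fin r → Fin m)
    (s : Fin r → Fin (k + 1) × Fin J) :
    mn (ar d (v ∘ σ)) ρ s = mn (ar d v) ρ (fun b => pm σ (s b)) := rfl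

theorem mn_pm' (σ : Equiv.Perm (Fin (k + 1))) (v : Fin (k + 1) → Ω) {r : ℕ} (ρ : Fin r → Fin m)
    (s : Fin r → Fin (k + 1) × Fin J) :
    mn (ar d v) ρ s = mn (ar d (v ∘ σ)) ρ (fun b => pm σ.symm (s b)) := by
  rw [mn_pm]
  congr 1
  funext b
  unfold pm
  simp

theorem Rk_pm (ε : ℕ → ℝ) (r : ℕ) (σ : Equiv.Perm (Fin (k + 1))) (v : Fin (k + 1) → Ω) :
    Rk (ar d (v ∘ σ)) ε r ↔ Rk (ar d v) ε r := by
  constructor
  · rintro ⟨⟨ρ, s, h1⟩, h2⟩
    refine ⟨⟨ρ, fun b => pm σ (s b), h1⟩, fun ρ' s' => ?_⟩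
    rw [mn_pm' d σ]
    exact h2 _ _
  · rintro ⟨⟨ρ, s, h1⟩, h2⟩
    refine ⟨⟨ρ, fun b => pm σ.symm (s b), ?_⟩, fun ρ' s' => ?_⟩
    · rw [← mn_pm' d σ]
      exact h1
    · rw [mn_pm]
      exact h2 _ _

theorem Bd_pm (ε : ℕ → ℝ) (r : ℕ) (σ : Equiv.Perm (Fin (k + 1))) (v : Fin (k + 1) → Ω)
    (j : Fin (k + 1)) : Bd d ε r (v ∘ σ) j ↔ Bd d ε r v (σ j) := by
  unfold Bd
  rw [Rk_pm]
  refine and_congr_right fun _ => not_congr ?_
  constructor
  · rintro ⟨ρ, s, h1, h2⟩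
    refine ⟨ρ, fun b => pm σ (s b), fun b hb => h1 b (σ.injective hb), fun ρ' s' => ?_⟩
    rw [mn_pm' d σ v ρ' s']
    exact h2 _ _
  · rintro ⟨ρ, s, h1, h2⟩
    refine ⟨ρ, fun b => pm σ.symm (s b), fun b hb => h1 b ?_, fun ρ' s' => ?_⟩
    · have h3 : σ (σ.symm (s b).1) = σ j := congrArg σ hb
      rwa [Equiv.apply_symm_apply] at h3
    · rw [← mn_pm' d σ, mn_pm]
      exact h2 _ _

/-! ### The coefficients -/

open Classical in
/-- The largest minor of the array. -/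
noncomputable def sel (ε : ℝ) (r : ℕ) (D : Fin k → Fin J → Fin m → ℝ) :
    Option ((Fin r → Fin m) × (Fin r → Fin k × Fin J)) :=
  if h : ∃ x : (Fin r → Fin m) × (Fin r → Fin k × Fin J), ε ≤ |mn (unc D) x.1 x.2| ∧
    ∀ (ρ' : Fin r → Fin m) (s' : Fin r → Fin k × Fin J), |mn (unc D) ρ' s'| ≤
      |mn (unc D) x.1 x.2| then some h.choose else none

open Classical in
/-- The coefficients. -/
noncomputable def Psi (ε : ℝ) (r : ℕ) (D : Fin k → Fin J → Fin m → ℝ) (i : Fin k) (l : Fin J)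
    (v : Fin m) : ℝ :=
  match sel ε r D with
  | none => 0
  | some x => ∑ b : Fin r, if x.2 b = (i, l) then lf (unc D) x.1 x.2 b v else 0

theorem sel_spec {ε : ℝ} {r : ℕ} {D : Fin k → Fin J → Fin m → ℝ}
    {x : (Fin r → Fin m) × (Fin r → Fin k × Fin J)} (h : sel ε r D = some x) :
    ε ≤ |mn (unc D) x.1 x.2| ∧
    ∀ (ρ' : Fin r → Fin m) (s' : Fin r → Fin k × Fin J), |mn (unc D) ρ' s'| ≤
      |mn (unc D) x.1 x.2| := by
  unfold sel at h
  split_ifs at h with h1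
  rw [Option.some.injEq] at h
  rw [← h]
  exact h1.choose_spec

theorem Psi_le {ε : ℝ} (hε : 0 < ε) {r : ℕ} (D : Fin k → Fin J → Fin m → ℝ)
    (hD : ∀ i l v, |D i l v| ≤ 1) (i : Fin k) (l : Fin J) (v : Fin m) :
    |Psi ε r D i l v| ≤ r * (r * (r.factorial / ε)) := by
  classical
  have h0 : (0 : ℝ) ≤ r * (r.factorial / ε) := by positivity
  have h1 : (0 : ℝ) ≤ r * (r * (r.factorial / ε)) := by positivity
  unfold Psi
  cases hs : sel ε r D with
  | none =>
    simp only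
    rw [abs_zero]
    exact h1
  | some x =>
    simp only
    refine (Finset.abs_sum_le_sum_abs _ _).trans ?_
    calc _ ≤ ∑ _b : Fin r, (r * ((r.factorial : ℝ) / ε)) := by
          refine Finset.sum_le_sum fun b _ => ?_
          split_ifs
          · exact lf_le (unc D) (fun t i => hD _ _ _) hε (sel_spec hs).1 b v
          · rw [abs_zero]
            exact h0
      _ = r * (r * (r.factorial / ε)) := by
          rw [Finset.sum_const, Finset.card_univ, Fintype.card_fin, nsmul_eq_mul]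

/-- The combination. -/
theorem Psi_sum {ε : ℝ} {r : ℕ} {D : Fin k → Fin J → Fin m → ℝ}
    {x : (Fin r → Fin m) × (Fin r → Fin k × Fin J)} (h : sel ε r D = some x) (w : Fin m → ℝ)
    (F : Fin k → Fin J → ℝ) : ∑ i, ∑ l, (∑ v, Psi ε r D i l v * w v) * F i l =
      ∑ b, cf (unc D) x.1 x.2 w b * F (x.2 b).1 (x.2 b).2 := by
  classical
  have e1 : ∀ i l, (∑ v, Psi ε r D i l v * w v) * F i l =
      ∑ b, if x.2 b = (i, l) then cf (unc D) x.1 x.2 w b * F i l else 0 := by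
    intro i l
    have e2 : ∀ v, Psi ε r D i l v = ∑ b : Fin r, if x.2 b = (i, l) then
        lf (unc D) x.1 x.2 b v else 0 := by
      intro v
      unfold Psi
      rw [h]
    have e3 : ∑ v, Psi ε r D i l v * w v = ∑ b, if x.2 b = (i, l) then
        cf (unc D) x.1 x.2 w b else 0 := by
      rw [Finset.sum_congr rfl fun v _ => by rw [e2 v, Finset.sum_mul], Finset.sum_comm]
      refine Finset.sum_congr rfl fun b _ => ?_
      by_cases hb : x.2 b = (i, l)
      · rw [if_pos hb, cf_lf]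
        exact Finset.sum_congr rfl fun v _ => by rw [if_pos hb]
      · rw [if_neg hb]
        exact Finset.sum_eq_zero fun v _ => by rw [if_neg hb, zero_mul]
    rw [e3, Finset.sum_mul]
    exact Finset.sum_congr rfl fun b _ => by split_ifs <;> simp
  rw [Finset.sum_congr rfl fun i _ => Finset.sum_congr rfl fun l _ => e1 i l]
  rw [← Fintype.sum_prod_type' (f := fun (i : Fin k) (l : Fin J) =>
    ∑ b, if x.2 b = (i, l) then cf (unc D) x.1 x.2 w b * F i l else 0), Finset.sum_comm]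
  refine Finset.sum_congr rfl fun b _ => ?_
  rw [Finset.sum_eq_single (x.2 b)]
  · rw [if_pos rfl]
  · intro y _ hy
    rw [if_neg]
    intro h1
    exact hy h1.symm
  · intro h1
    exact absurd (Finset.mem_univ _) h1

/-- **The deterministic step.** -/
theorem mates_det {ε : ℕ → ℝ} (hp : ∀ r, 0 < ε r) {r : ℕ} {v : Fin (k + 1) → Ω}
    (hR : Rk (ar d v) ε r) (hb : ¬Bd d ε r v 0) {f : Ω → Fin J → ℝ} {φ : Fin m → ℝ} {tol B : ℝ}
    (hφ : ∀ i, |φ i| ≤ B)
    (hf : ∀ i l, |f (v i) l - ∑ a, φ a * d (v i) l a| ≤ tol) (l : Fin J) :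
    |f (v 0) l - ∑ i, ∑ l', (∑ a, Psi (ε r) r (fun i => d (v (Fin.succ i))) i l' a * d (v 0) l a) *
      f (v (Fin.succ i)) l'| ≤ (r + 1) * tol + m * (B * (ε (r + 1) / ε r)) := by
  classical
  have hB : m * B * (ε (r + 1) / ε r) = m * (B * (ε (r + 1) / ε r)) := by ring
  obtain ⟨D, hD⟩ : ∃ D : Fin k → Fin J → Fin m → ℝ, D = fun i => d (v (Fin.succ i)) := ⟨_, rfl⟩
  rw [← hD]
  -- the lift of the columns
  have lift : ∀ (ρ : Fin r → Fin m) (s : Fin r → Fin k × Fin J),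
      mn (unc D) ρ s = mn (ar d v) ρ (fun b => ((s b).1.succ, (s b).2)) := by
    intro ρ s
    rw [hD]
    rfl
  -- the largest minor among the mates is the largest minor
  have hmx : ∃ (ρ : Fin r → Fin m) (s : Fin r → Fin k × Fin J),
      ∀ (ρ' : Fin r → Fin m) (s' : Fin r → Fin (k + 1) × Fin J),
        |mn (ar d v) ρ' s'| ≤ |mn (unc D) ρ s| := by
    have h1 : ∃ (ρ : Fin r → Fin m) (s : Fin r → Fin (k + 1) × Fin J),
        (∀ b, (s b).1 ≠ 0) ∧ ∀ (ρ' : Fin r → Fin m) (s' : Fin r → Fin (k + 1) × Fin J),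
        |mn (ar d v) ρ' s'| ≤ |mn (ar d v) ρ s| := by
      by_contra hcon
      exact hb ⟨hR, hcon⟩
    obtain ⟨ρ, s, h2, h3⟩ := h1
    refine ⟨ρ, fun b => ((s b).1.pred (h2 b), (s b).2), fun ρ' s' => ?_⟩
    rw [lift]
    simp only [Fin.succ_pred]
    exact h3 ρ' s'
  obtain ⟨ρ₀, s₀, h0⟩ := hmx
  have hε0 : ε r ≤ |mn (unc D) ρ₀ s₀| := by
    obtain ⟨ρ, s, h1⟩ := hR.1
    exact h1.trans (h0 ρ s)
  have hex : ∃ x : (Fin r → Fin m) × (Fin r → Fin k × Fin J), ε r ≤ |mn (unc D) x.1 x.2| ∧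
      ∀ (ρ' : Fin r → Fin m) (s' : Fin r → Fin k × Fin J), |mn (unc D) ρ' s'| ≤
        |mn (unc D) x.1 x.2| :=
    ⟨(ρ₀, s₀), hε0, fun ρ' s' => by
      rw [lift ρ' s']
      exact h0 _ _⟩
  obtain ⟨x, hx⟩ : ∃ x, sel (ε r) r D = some x := by
    unfold sel
    rw [dif_pos hex]
    exact ⟨_, rfl⟩
  obtain ⟨x1, x2⟩ := sel_spec hx
  -- the largest minor of all
  have hall : ∀ (ρ' : Fin r → Fin m) (s' : Fin r → Fin (k + 1) × Fin J),
      |mn (ar d v) ρ' s'| ≤ |mn (ar d v) x.1 (fun b => ((x.2 b).1.succ, (x.2 b).2))| := by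
    intro ρ' s'
    rw [← lift]
    exact (h0 ρ' s').trans (x2 ρ₀ s₀)
  have hne : mn (ar d v) x.1 (fun b => ((x.2 b).1.succ, (x.2 b).2)) ≠ 0 := by
    rw [← lift]
    intro h1
    rw [h1, abs_zero] at x1
    linarith [hp r]
  have ecf : ∀ w, cf (unc D) x.1 x.2 w =
      cf (ar d v) x.1 (fun b => ((x.2 b).1.succ, (x.2 b).2)) w := by
    intro w
    rw [hD]
    rfl
  have hc1 : ∀ b, |cf (unc D) x.1 x.2 (d (v 0) l) b| ≤ 1 := by
    intro b
    rw [ecf]
    exact cf_le (ar d v) hne (t := (0, l)) (fun b => hall _ _) b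
  have hc2 : ∀ a, |d (v 0) l a - ∑ b, cf (unc D) x.1 x.2 (d (v 0) l) b *
      d (v (x.2 b).1.succ) (x.2 b).2 a| ≤ ε (r + 1) / ε r := by
    intro a
    rw [ecf]
    obtain ⟨ρ', s', h1⟩ := cf_err (ar d v) hne ((0 : Fin (k + 1)), l) a
    have h2 := (hR.2 ρ' s').le
    have h3 : ε r ≤ |mn (ar d v) x.1 (fun b => ((x.2 b).1.succ, (x.2 b).2))| := by
      rw [← lift]
      exact x1
    calc _ = _ := h1
      _ ≤ ε (r + 1) / ε r := div_le_div₀ (hp _).le h2 (hp r) h3
  rw [Psi_sum hx]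
  have e1 : f (v 0) l - ∑ b, cf (unc D) x.1 x.2 (d (v 0) l) b *
      f (v (x.2 b).1.succ) (x.2 b).2 =
      (f (v 0) l - ∑ a, φ a * d (v 0) l a) -
      (∑ b, cf (unc D) x.1 x.2 (d (v 0) l) b * (f (v (x.2 b).1.succ) (x.2 b).2 -
        ∑ a, φ a * d (v (x.2 b).1.succ) (x.2 b).2 a)) +
      ∑ a, φ a * (d (v 0) l a - ∑ b, cf (unc D) x.1 x.2 (d (v 0) l) b *
        d (v (x.2 b).1.succ) (x.2 b).2 a) := by
    have e2 : ∑ b, cf (unc D) x.1 x.2 (d (v 0) l) b * (f (v (x.2 b).1.succ) (x.2 b).2 -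
        ∑ a, φ a * d (v (x.2 b).1.succ) (x.2 b).2 a) =
        (∑ b, cf (unc D) x.1 x.2 (d (v 0) l) b * f (v (x.2 b).1.succ) (x.2 b).2) -
        ∑ b, cf (unc D) x.1 x.2 (d (v 0) l) b *
          ∑ a, φ a * d (v (x.2 b).1.succ) (x.2 b).2 a := by
      rw [← Finset.sum_sub_distrib]
      exact Finset.sum_congr rfl fun b _ => by ring
    have e3 : ∑ a, φ a * (d (v 0) l a - ∑ b, cf (unc D) x.1 x.2 (d (v 0) l) b *
        d (v (x.2 b).1.succ) (x.2 b).2 a) = (∑ a, φ a * d (v 0) l a) -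
        ∑ a, φ a * ∑ b, cf (unc D) x.1 x.2 (d (v 0) l) b *
          d (v (x.2 b).1.succ) (x.2 b).2 a := by
      rw [← Finset.sum_sub_distrib]
      exact Finset.sum_congr rfl fun a _ => by ring
    have e4 : ∑ b, cf (unc D) x.1 x.2 (d (v 0) l) b *
          ∑ a, φ a * d (v (x.2 b).1.succ) (x.2 b).2 a =
        ∑ a, φ a * ∑ b, cf (unc D) x.1 x.2 (d (v 0) l) b *
          d (v (x.2 b).1.succ) (x.2 b).2 a := by
      simp only [Finset.mul_sum]
      rw [Finset.sum_comm]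
      refine Finset.sum_congr rfl fun a _ => Finset.sum_congr rfl fun b _ => ?_
      ring
    rw [e2, e3, e4]
    ring
  have b1 : |∑ b, cf (unc D) x.1 x.2 (d (v 0) l) b * (f (v (x.2 b).1.succ) (x.2 b).2 -
        ∑ a, φ a * d (v (x.2 b).1.succ) (x.2 b).2 a)| ≤ r * tol := by
    refine (Finset.abs_sum_le_sum_abs _ _).trans ?_
    calc _ ≤ ∑ _b : Fin r, tol := by
          refine Finset.sum_le_sum fun b _ => ?_
          rw [abs_mul]
          calc _ ≤ 1 * tol := mul_le_mul (hc1 b) (hf _ _) (abs_nonneg _) zero_le_one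
            _ = tol := one_mul _
      _ = r * tol := by
          rw [Finset.sum_const, Finset.card_univ, Fintype.card_fin, nsmul_eq_mul]
  have b2 : |∑ a, φ a * (d (v 0) l a - ∑ b, cf (unc D) x.1 x.2 (d (v 0) l) b *
        d (v (x.2 b).1.succ) (x.2 b).2 a)| ≤ m * (B * (ε (r + 1) / ε r)) := by
    refine (Finset.abs_sum_le_sum_abs _ _).trans ?_
    calc _ ≤ ∑ _a : Fin m, B * (ε (r + 1) / ε r) := by
          refine Finset.sum_le_sum fun a _ => ?_
          rw [abs_mul]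
          exact mul_le_mul (hφ a) (hc2 a) (abs_nonneg _) ((abs_nonneg _).trans (hφ a))
      _ = m * (B * (ε (r + 1) / ε r)) := by
          rw [Finset.sum_const, Finset.card_univ, Fintype.card_fin, nsmul_eq_mul]
  have b0 := hf 0 l
  rw [e1]
  rw [abs_le] at b0 b1 b2 ⊢
  constructor <;> linarith [b0.1, b0.2, b1.1, b1.2, b2.1, b2.2]

end

section

variable {Ω 𝒳 : Type} [Fintype Ω] {J m : ℕ} {p : Ω → ℝ}

/-- The image of an event. -/
theorem pb_map {A B : Type} [Fintype A] [Fintype B] {q : A → ℝ} {q' : B → ℝ} {φ : A → B}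
    (h : Marg q q' φ) (E : B → Prop) : Pb q (fun a => E (φ a)) = Pb q' E := by
  classical
  have h1 : Pb q' E = ∑ b, q' b * (if E b then 1 else 0) := by
    unfold Pb
    exact Finset.sum_congr rfl fun b _ => by split_ifs <;> simp
  have h2 : ∀ b, q' b = ∑ a, if φ a = b then q a else 0 := by
    intro b
    rw [← h b]
  rw [h1, Finset.sum_congr rfl fun b _ => by rw [h2 b, Finset.sum_mul], Finset.sum_comm]
  unfold Pb
  refine Finset.sum_congr rfl fun a _ => ?_
  rw [Finset.sum_eq_single (φ a)]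
  · rw [if_pos rfl]
    split_ifs <;> simp
  · intro b _ hb
    rw [if_neg (Ne.symm hb), zero_mul]
  · intro h0
    exact absurd (Finset.mem_univ _) h0

theorem pb_mono {A : Type} [Fintype A] {q : A → ℝ} (h0 : ∀ a, 0 ≤ q a) {E F : A → Prop}
    (h : ∀ a, 0 < q a → E a → F a) : Pb q E ≤ Pb q F := by
  classical
  unfold Pb
  refine Finset.sum_le_sum fun a _ => ?_
  rcases (h0 a).eq_or_lt with h1 | h1
  · rw [← h1]
    split_ifs <;> exact le_rfl
  · by_cases hE : E a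
    · rw [if_pos hE, if_pos (h a h1 hE)]
    · rw [if_neg hE]
      split_ifs
      · exact h1.le
      · exact le_rfl

theorem pb_or {A : Type} [Fintype A] {q : A → ℝ} (h0 : ∀ a, 0 ≤ q a) {E F G : A → Prop}
    (h : ∀ a, 0 < q a → E a → F a ∨ G a) : Pb q E ≤ Pb q F + Pb q G := by
  classical
  unfold Pb
  rw [← Finset.sum_add_distrib]
  refine Finset.sum_le_sum fun a _ => ?_
  rcases (h0 a).eq_or_lt with h1 | h1
  · rw [← h1]
    split_ifs <;> simp
  · by_cases hE : E a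
    · rw [if_pos hE]
      rcases h a h1 hE with hF | hG
      · rw [if_pos hF]
        split_ifs <;> linarith
      · rw [if_pos hG]
        split_ifs <;> linarith
    · rw [if_neg hE]
      split_ifs <;> linarith

theorem pb_sum {A ι : Type} [Fintype A] {q : A → ℝ} (h0 : ∀ a, 0 ≤ q a) (s : Finset ι)
    {E : A → Prop} {F : ι → A → Prop} (h : ∀ a, 0 < q a → E a → ∃ i ∈ s, F i a) :
    Pb q E ≤ ∑ i ∈ s, Pb q (F i) := by
  classical
  unfold Pb
  rw [Finset.sum_comm]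
  refine Finset.sum_le_sum fun a _ => ?_
  have hnn : ∀ i ∈ s, (0 : ℝ) ≤ if F i a then q a else 0 := fun i _ => by
    split_ifs
    · exact h0 a
    · exact le_rfl
  rcases (h0 a).eq_or_lt with h1 | h1
  · rw [← h1]
    simp
  · split_ifs with h5
    · obtain ⟨j, hj, hj'⟩ := h a h1 h5
      refine le_trans (le_of_eq ?_) (Finset.single_le_sum hnn hj)
      rw [if_pos hj']
    · exact Finset.sum_nonneg hnn

/-- **Mates.** -/
theorem mates (hp : IsLaw p) (X : Ω → 𝒳) (d : Ω → Fin J → Fin m → ℝ) (f : Ω → Fin J → ℝ)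
    (φ : 𝒳 → Fin m → ℝ) {ε : ℕ → ℝ} (hε0 : ε 0 = 1) (hε : ∀ r, 0 < ε r) {tol B ρ η : ℝ}
    (hφ : ρ ≤ Pb p (fun ω => ∀ i, |φ (X ω) i| ≤ B))
    (hf : Pb p (fun ω => (∀ i, |φ (X ω) i| ≤ B) ∧
      ∃ l, tol < |f ω l - ∑ a, φ (X ω) a * d ω l a|) ≤ η) (k : ℕ) :
    ∃ r, r ≤ m ∧ (ρ - (k + 1) * η) / (m + 1) - m / (k + 1) ≤ Pb (tup p X k) (fun v =>
      Rk (ar d v) ε r ∧ ∀ l, |f (v 0) l - ∑ i, ∑ l',
        (∑ a, Psi (ε r) r (fun i => d (v (Fin.succ i))) i l' a * d (v 0) l a) *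
          f (v (Fin.succ i)) l'| ≤ (r + 1) * tol + m * (B * (ε (r + 1) / ε r))) := by
  classical
  have t0 := tup_nonneg hp.nonneg X k
  have tL := tup_isLaw hp X k
  -- the good event
  obtain ⟨G, hG⟩ : ∃ G : (Fin (k + 1) → Ω) → Prop, G = fun v => (∀ i, |φ (X (v 0)) i| ≤ B) ∧
    ∀ i l, |f (v i) l - ∑ a, φ (X (v 0)) a * d (v i) l a| ≤ tol := ⟨_, rfl⟩
  have hG1 : ρ - (k + 1) * η ≤ Pb (tup p X k) G := by
    have h1 : Pb (tup p X k) (fun v => ∀ i, |φ (X (v 0)) i| ≤ B) =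
        Pb p (fun ω => ∀ i, |φ (X ω) i| ≤ B) :=
      pb_map (tup_marg hp.nonneg X k 0) (fun ω => ∀ i, |φ (X ω) i| ≤ B)
    have h2 : ∀ j : Fin (k + 1), Pb (tup p X k) (fun v => (∀ i, |φ (X (v j)) i| ≤ B) ∧
        ∃ l, tol < |f (v j) l - ∑ a, φ (X (v j)) a * d (v j) l a|) ≤ η := fun j => by
      rw [pb_map (tup_marg hp.nonneg X k j) (fun ω => (∀ i, |φ (X ω) i| ≤ B) ∧
        ∃ l, tol < |f ω l - ∑ a, φ (X ω) a * d ω l a|)]
      exact hf
    have h3 : Pb (tup p X k) (fun v => ∃ j, (∀ i, |φ (X (v j)) i| ≤ B) ∧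
        ∃ l, tol < |f (v j) l - ∑ a, φ (X (v j)) a * d (v j) l a|) ≤ (k + 1) * η := by
      have h4 : Pb (tup p X k) (fun v => ∃ j, (∀ i, |φ (X (v j)) i| ≤ B) ∧
          ∃ l, tol < |f (v j) l - ∑ a, φ (X (v j)) a * d (v j) l a|) ≤
          ∑ j : Fin (k + 1), Pb (tup p X k) (fun v => (∀ i, |φ (X (v j)) i| ≤ B) ∧
            ∃ l, tol < |f (v j) l - ∑ a, φ (X (v j)) a * d (v j) l a|) :=
        pb_sum t0 Finset.univ fun v _ h5 => by
          obtain ⟨j, hj⟩ := h5
          exact ⟨j, Finset.mem_univ j, hj⟩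
      refine h4.trans ((Finset.sum_le_sum fun j _ => h2 j).trans (le_of_eq ?_))
      rw [Finset.sum_const, Finset.card_univ, Fintype.card_fin, nsmul_eq_mul]
      push_cast
      ring
    have h4 : Pb (tup p X k) (fun v => ∀ i, |φ (X (v 0)) i| ≤ B) ≤ Pb (tup p X k) G +
        Pb (tup p X k) (fun v => ∃ j, (∀ i, |φ (X (v j)) i| ≤ B) ∧
        ∃ l, tol < |f (v j) l - ∑ a, φ (X (v j)) a * d (v j) l a|) := by
      refine pb_or t0 fun v hv h5 => ?_
      have hX := ((tup_pos_iff hp.nonneg X k v).1 hv).2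
      by_cases h6 : ∃ j, (∀ i, |φ (X (v j)) i| ≤ B) ∧
        ∃ l, tol < |f (v j) l - ∑ a, φ (X (v j)) a * d (v j) l a|
      · exact Or.inr h6
      · refine Or.inl ?_
        rw [hG]
        refine ⟨h5, fun i l => ?_⟩
        by_contra h7
        refine h6 ⟨i, by rw [hX i]; exact h5, l, ?_⟩
        rw [hX i]
        exact not_le.1 h7
    linarith
  -- the most frequent rank
  have hex : ∃ r ∈ Finset.range (m + 1), (ρ - (k + 1) * η) / (m + 1) ≤
      Pb (tup p X k) (fun v => G v ∧ Rk (ar d v) ε r) := by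
    by_contra hcon
    push Not at hcon
    have h1 : Pb (tup p X k) G ≤ ∑ r ∈ Finset.range (m + 1),
        Pb (tup p X k) (fun v => G v ∧ Rk (ar d v) ε r) :=
      pb_sum t0 _ fun v _ h5 => by
        obtain ⟨r, hr, hr'⟩ := exists_Rk (ar d v) hε0 hε
        exact ⟨r, Finset.mem_range.2 (by omega), h5, hr'⟩
    have h2 : ∑ r ∈ Finset.range (m + 1), Pb (tup p X k) (fun v => G v ∧ Rk (ar d v) ε r) <
        ∑ _r ∈ Finset.range (m + 1), (ρ - (k + 1) * η) / (m + 1) :=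
      Finset.sum_lt_sum_of_nonempty ⟨0, Finset.mem_range.2 (by omega)⟩ fun r hr => hcon r hr
    rw [Finset.sum_const, Finset.card_range, nsmul_eq_mul] at h2
    have h3 : ((m + 1 : ℕ) : ℝ) * ((ρ - (k + 1) * η) / (m + 1)) = ρ - (k + 1) * η := by
      push_cast
      field_simp
    rw [h3] at h2
    linarith
  obtain ⟨r, hr, hr'⟩ := hex
  rw [Finset.mem_range] at hr
  have hrm : r ≤ m := by omega
  refine ⟨r, hrm, ?_⟩
  -- exchangeability
  have hbad : Pb (tup p X k) (fun v => Bd d ε r v 0) ≤ m / (k + 1) := by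
    have h1 : ∀ j : Fin (k + 1), Pb (tup p X k) (fun v => Bd d ε r v j) =
        Pb (tup p X k) (fun v => Bd d ε r v 0) := by
      intro j
      rw [← pb_map (tup_perm hp.nonneg X (N := k) (Equiv.swap 0 j)) (fun v => Bd d ε r v 0)]
      congr 1
      funext v
      have h4 := Bd_pm d ε r (Equiv.swap 0 j) v 0
      rw [Equiv.swap_apply_left] at h4
      exact propext h4.symm
    have h2 : ∑ j : Fin (k + 1), Pb (tup p X k) (fun v => Bd d ε r v j) ≤ m := by
      unfold Pb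
      rw [Finset.sum_comm]
      refine (Finset.sum_le_sum (g := fun v => (m : ℝ) * tup p X k v) fun v _ => ?_).trans ?_
      · have h3 : ((univ.filter fun j => Bd d ε r v j).card : ℝ) ≤ m := by
          exact_mod_cast (Bd_card d ε r v).trans hrm
        have h4 := mul_le_mul_of_nonneg_right h3 (t0 v)
        rw [← nsmul_eq_mul, ← Finset.sum_const, Finset.sum_filter] at h4
        refine le_trans (le_of_eq ?_) h4
        exact Finset.sum_congr rfl fun j _ => by split_ifs <;> rfl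
      · rw [← Finset.mul_sum, tL.sum_one, mul_one]
    rw [Finset.sum_congr rfl fun j _ => h1 j, Finset.sum_const, Finset.card_univ,
      Fintype.card_fin, nsmul_eq_mul] at h2
    rw [le_div_iff₀ (by positivity)]
    push_cast at h2
    linarith
  have hfin : Pb (tup p X k) (fun v => G v ∧ Rk (ar d v) ε r) ≤ Pb (tup p X k) (fun v =>
      Rk (ar d v) ε r ∧ ∀ l, |f (v 0) l - ∑ i, ∑ l',
        (∑ a, Psi (ε r) r (fun i => d (v (Fin.succ i))) i l' a * d (v 0) l a) *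
          f (v (Fin.succ i)) l'| ≤ (r + 1) * tol + m * (B * (ε (r + 1) / ε r))) +
      Pb (tup p X k) (fun v => Bd d ε r v 0) := by
    refine pb_or t0 fun v _ h1 => ?_
    by_cases h2 : Bd d ε r v 0
    · exact Or.inr h2
    · refine Or.inl ⟨h1.2, fun l => ?_⟩
      have h3 := h1.1
      rw [hG] at h3
      exact mates_det d hε h1.2 h2 h3.1 h3.2 l
  linarith

end

end Pool.MSD
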