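import Pool.Agent.H38.MSD.Cov

/-!
# Block digits of one coordinate along a needle, and the dichotomy for a body

`blk_dig`: if the height is full in a needle of length `2 ^ (-s)` whose axis is `2 ^ (-r)`-close to the
axis of the coordinate `N`, then the digits of the coordinate `N` from `s` to `k ≤ s + r + 1` are full,
given the first `k` digits of the others. `dich`: a body contains such a needle, or there is a covector
of size `2 ^ r` with `N`-entry one which has size `2 ^ (-s)` on the body.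
-/

set_option autoImplicit false

namespace Pool.MSD

open Matrix Finset Real
open Pool.Agent.H49.Ent Pool.Agent.H32.Dense Pool.FAD Pool.STK

section

variable {W ζ δ : Type} [Fintype W] {q : W → ℝ} {n : ℕ}

/-- The constant. -/
noncomputable def Cb (n : ℕ) : ℝ :=
  n * Real.log (2 * (5 * n + 5) + 1) + n * Real.log (2 * (5 * n + 5) + 1) + Cc n (2 * n)

/-- The first `k` digits, but the first `s` digits of the coordinate `N`. -/
noncomputable def mix {n : ℕ} (N : Fin n) (s k : ℕ) (x : Fin n → ℝ) : Fin n → ℤ :=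
  Function.update (fl k x) N (fl s x N)

/-- **The digits of one block along the needle.** -/
theorem blk_dig (q0 : ∀ w, 0 ≤ q w) (q1 : ∑ w, q w = 1) {N : Fin n} {s k K r : ℕ} (hs : s ≤ k)
    (hk : k ≤ K) (hr : k ≤ s + r + 1) {v : W → Fin n → ℝ}
    (hv : ∀ w, v w ⬝ᵥ v w = 1 ∨ v w = 0) (x : W → Fin n → ℝ)
    (Z : W → ζ) (G : W → δ) (hG : Det q Z G) (dv : Det q Z v)
    (hN : ∀ w, ∀ i, i ≠ N → |v w i| ≤ 2 * ((2 : ℝ) ^ r)⁻¹) {a : ℝ}
    (hD : DF q (fun _ => fb n K) (fun w => sn s (K - s) (v w)) x Z ≤ a) :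
    Pq q (fun w => v w ≠ 0) * ((k - s) * Real.log 2) ≤
      CH q (fun w => fl k (x w)) (fun w => (mix N s k (x w), G w)) + a + Cb n := by
  classical
  have hn0 : (0 : ℝ) ≤ n := Nat.cast_nonneg n
  have hsK : s ≤ K := hs.trans hk
  have eK : s + (K - s) = K := by omega
  have ek : k + (K - k) = K := by omega
  have dS : Det q Z (fun w => sn s (K - s) (v w)) := by
    intro w w' h h' e
    simp only
    rw [dv w w' h h' e]
  have dS' : Det q Z (fun w => sn k (K - k) (v w)) := by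
    intro w w' h h' e
    simp only
    rw [dv w w' h h' e]
  have dT : Det q Z (fun _ : W => fb n K) := fun w w' _ _ _ => rfl
  -- the volumes
  have hE : ∀ r ≤ K, Ex q (fun w => lv (sn r (K - r) (v w)) - lv (fb n K)) =
      Pq q (fun w => v w ≠ 0) * ((K - r) * Real.log 2) := by
    intro r hr
    rw [Pq_eq]
    unfold Ex
    rw [Finset.sum_mul]
    refine Finset.sum_congr rfl fun w _ => ?_
    simp only
    rw [lv_sn_sub (show r + (K - r) = K by omega) (hv w)]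
    by_cases h : v w = 0
    · simp [h]
    · rw [if_pos h, if_pos h, Nat.cast_sub hr]
      ring
  have h1 := hE s hsK
  have h2 := hE k hk
  -- the coarse needle and the small one
  have key := CH_count q0 q1 (T := fun _ => fb n K) (S := fun w => sn k (K - k) (v w)) x Z dT dS'
    (fun _ => det_fb n K) (fun w => sn_det (hv w)) (c := 2 * n) (by positivity)
    (fun w => inc_sn_fb ek (hv w))
  rw [h2] at key
  -- two points with one cell of the coarse needle
  have hcell : ∀ w w', 0 < q w → 0 < q w' → Z w = Z w' →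
      cl (sn s (K - s) (v w)) (x w) = cl (sn s (K - s) (v w')) (x w') → ∀ i,
      |(x w - x w') i - (v w ⬝ᵥ (x w - x w')) * v w i| ≤ (1 + n) / (2 : ℝ) ^ K ∧
      |v w ⬝ᵥ (x w - x w')| ≤ n / (2 : ℝ) ^ s := by
    intro w w' p p' e e' i
    have e1 : v w = v w' := dv w w' p p' e
    have h3 : ∀ j, |((sn s (K - s) (v w))⁻¹ *ᵥ (x w - x w')) j| ≤ 1 := by
      intro j
      rw [Matrix.mulVec_sub, Pi.sub_apply]
      rw [← e1] at e'
      exact abs_sub_of_floor (congrFun e' j)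
    have h4 := sn_bound (hv w) h3 i
    rw [eK, mul_one, mul_one] at h4
    exact h4
  have pk : (0 : ℝ) < (2 : ℝ) ^ k := by positivity
  have ps : (0 : ℝ) < (2 : ℝ) ^ s := by positivity
  have hsr : ((2 : ℝ) ^ s)⁻¹ * ((2 : ℝ) ^ r)⁻¹ ≤ 2 * ((2 : ℝ) ^ k)⁻¹ := by
    have h3 : (2 : ℝ) ^ k ≤ (2 : ℝ) ^ s * (2 : ℝ) ^ r * 2 := by
      rw [← pow_add, ← pow_succ]
      exact pow_le_pow_right₀ (by norm_num) hr
    rw [← mul_inv]
    have pp : (0 : ℝ) < (2 : ℝ) ^ s * (2 : ℝ) ^ r := by positivity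
    rw [inv_le_iff_one_le_mul₀ pp]
    calc (1 : ℝ) = (2 : ℝ) ^ k * ((2 : ℝ) ^ k)⁻¹ := by field_simp
      _ ≤ (2 : ℝ) ^ s * (2 : ℝ) ^ r * 2 * ((2 : ℝ) ^ k)⁻¹ :=
          mul_le_mul_of_nonneg_right h3 (by positivity)
      _ = 2 * ((2 : ℝ) ^ k)⁻¹ * ((2 : ℝ) ^ s * (2 : ℝ) ^ r) := by ring
  -- the label, given the cell of the coarse needle
  have hO : CH q (fun w => mix N s k (x w)) (fun w => (cl (sn s (K - s) (v w)) (x w), Z w)) ≤
      n * Real.log (2 * (5 * n + 5) + 1) := by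
    have := CH_le_vec q0 q1 (fun w => mix N s k (x w))
      (fun w => (cl (sn s (K - s) (v w)) (x w), Z w)) (fun _ => (5 * n + 5 : ℝ)) (by
      intro w w' p p' e i
      obtain ⟨e1, e2⟩ := Prod.ext_iff.mp e
      obtain ⟨f1, f2⟩ := hcell w w' p p' e2 e1 i
      by_cases hi : i = N
      · subst hi
        unfold mix
        rw [Function.update_self, Function.update_self]
        have f5 : (1 + n) / (2 : ℝ) ^ K ≤ (1 + n) * ((2 : ℝ) ^ s)⁻¹ := by
          rw [div_eq_mul_inv]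
          refine mul_le_mul_of_nonneg_left ?_ (by linarith)
          exact inv_anti₀ ps (pow_le_pow_right₀ (by norm_num) hsK)
        have f4 : |(v w ⬝ᵥ (x w - x w')) * v w i| ≤ n * ((2 : ℝ) ^ s)⁻¹ := by
          rw [abs_mul]
          calc |v w ⬝ᵥ (x w - x w')| * |v w i| ≤ n / (2 : ℝ) ^ s * 1 :=
                mul_le_mul f2 (unit_entry (hv w) i) (abs_nonneg _) (by positivity)
            _ = n * ((2 : ℝ) ^ s)⁻¹ := by rw [mul_one, div_eq_mul_inv]
        have f6 : |x w i - x w' i| ≤ (1 + 2 * n) * ((2 : ℝ) ^ s)⁻¹ := by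
          have f7 : |(x w - x w') i| ≤ (1 + n) * ((2 : ℝ) ^ s)⁻¹ + n * ((2 : ℝ) ^ s)⁻¹ := by
            have := abs_add_le ((x w - x w') i - (v w ⬝ᵥ (x w - x w')) * v w i)
              ((v w ⬝ᵥ (x w - x w')) * v w i)
            rw [sub_add_cancel] at this
            linarith
          rw [Pi.sub_apply] at f7
          refine f7.trans (le_of_eq ?_)
          ring
        have f8 : |(2 : ℝ) ^ s * x w i - (2 : ℝ) ^ s * x w' i| ≤ 1 + 2 * n := by
          rw [← mul_sub, abs_mul, abs_of_pos ps]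
          calc (2 : ℝ) ^ s * |x w i - x w' i| ≤ (2 : ℝ) ^ s * ((1 + 2 * n) * ((2 : ℝ) ^ s)⁻¹) :=
                mul_le_mul_of_nonneg_left f6 ps.le
            _ = 1 + 2 * n := by field_simp
        have f9 := floor_sub_le f8
        exact f9.trans (by linarith)
      · unfold mix
        rw [Function.update_of_ne hi, Function.update_of_ne hi]
        have f3 := hN w i hi
        have f4 : |(v w ⬝ᵥ (x w - x w')) * v w i| ≤ 4 * n * ((2 : ℝ) ^ k)⁻¹ := by
          rw [abs_mul]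
          calc |v w ⬝ᵥ (x w - x w')| * |v w i| ≤ n / (2 : ℝ) ^ s * (2 * ((2 : ℝ) ^ r)⁻¹) :=
                mul_le_mul f2 f3 (abs_nonneg _) (by positivity)
            _ = 2 * n * (((2 : ℝ) ^ s)⁻¹ * ((2 : ℝ) ^ r)⁻¹) := by
                rw [div_eq_mul_inv]
                ring
            _ ≤ 2 * n * (2 * ((2 : ℝ) ^ k)⁻¹) := mul_le_mul_of_nonneg_left hsr (by positivity)
            _ = 4 * n * ((2 : ℝ) ^ k)⁻¹ := by ring
        have f5 : (1 + n) / (2 : ℝ) ^ K ≤ (1 + n) * ((2 : ℝ) ^ k)⁻¹ := by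
          rw [div_eq_mul_inv]
          refine mul_le_mul_of_nonneg_left ?_ (by linarith)
          exact inv_anti₀ pk (pow_le_pow_right₀ (by norm_num) hk)
        have f6 : |x w i - x w' i| ≤ (1 + 5 * n) * ((2 : ℝ) ^ k)⁻¹ := by
          have f7 : |(x w - x w') i| ≤ (1 + n) * ((2 : ℝ) ^ k)⁻¹ + 4 * n * ((2 : ℝ) ^ k)⁻¹ := by
            have := abs_add_le ((x w - x w') i - (v w ⬝ᵥ (x w - x w')) * v w i)
              ((v w ⬝ᵥ (x w - x w')) * v w i)
            rw [sub_add_cancel] at this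
            linarith
          rw [Pi.sub_apply] at f7
          refine f7.trans (le_of_eq ?_)
          ring
        have f8 : |(2 : ℝ) ^ k * x w i - (2 : ℝ) ^ k * x w' i| ≤ 1 + 5 * n := by
          rw [← mul_sub, abs_mul, abs_of_pos pk]
          calc (2 : ℝ) ^ k * |x w i - x w' i| ≤ (2 : ℝ) ^ k * ((1 + 5 * n) * ((2 : ℝ) ^ k)⁻¹) :=
                mul_le_mul_of_nonneg_left f6 pk.le
            _ = 1 + 5 * n := by field_simp
        have f9 := floor_sub_le f8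
        exact f9.trans (by linarith))
    rwa [Ex_const q1] at this
  -- the cell of the small needle, given the digits and the cell of the coarse one
  have hS : CH q (fun w => cl (sn k (K - k) (v w)) (x w))
      (fun w => (fl k (x w), (cl (sn s (K - s) (v w)) (x w), Z w))) ≤
      n * Real.log (2 * (5 * n + 5) + 1) := by
    have := CH_le_vec q0 q1 (fun w => cl (sn k (K - k) (v w)) (x w))
      (fun w => (fl k (x w), (cl (sn s (K - s) (v w)) (x w), Z w))) (fun _ => (5 * n + 5 : ℝ)) (by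
      intro w w' p p' e i
      obtain ⟨e0, e1⟩ := Prod.ext_iff.mp e
      obtain ⟨e1, e2⟩ := Prod.ext_iff.mp e1
      simp only at e0 e1 e2
      have e3 : v w = v w' := dv w w' p p' e2
      obtain ⟨f1, -⟩ := hcell w w' p p' e2 e1 i
      have pK : (0 : ℝ) < (2 : ℝ) ^ K := by positivity
      have g1 : ∀ j, |(x w - x w') j| ≤ ((2 : ℝ) ^ k)⁻¹ := by
        intro j
        have h3 : |(2 : ℝ) ^ k * x w j - (2 : ℝ) ^ k * x w' j| ≤ 1 :=
          abs_sub_of_floor (congrFun e0 j)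
        rw [← mul_sub, abs_mul, abs_of_pos pk] at h3
        rw [Pi.sub_apply, ← one_div, le_div_iff₀ pk]
        linarith
      have g2 : |v w ⬝ᵥ (x w - x w')| ≤ n * ((2 : ℝ) ^ k)⁻¹ := by
        unfold dotProduct
        calc |∑ j, v w j * (x w - x w') j| ≤ ∑ j, |v w j * (x w - x w') j| :=
              Finset.abs_sum_le_sum_abs _ _
          _ ≤ ∑ _j : Fin n, ((2 : ℝ) ^ k)⁻¹ := Finset.sum_le_sum fun j _ => by
              rw [abs_mul]
              calc |v w j| * |(x w - x w') j| ≤ 1 * ((2 : ℝ) ^ k)⁻¹ :=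
                    mul_le_mul (unit_entry (hv w) j) (g1 j) (abs_nonneg _) zero_le_one
                _ = ((2 : ℝ) ^ k)⁻¹ := one_mul _
          _ = n * ((2 : ℝ) ^ k)⁻¹ := by
              rw [Finset.sum_const, Finset.card_univ, Fintype.card_fin, nsmul_eq_mul]
      have g3 : |((sn k (K - k) (v w))⁻¹ *ᵥ (x w - x w')) i| ≤ (1 + n) + n := by
        rw [sn_inv_mulVec (hv w), ek]
        have g4 : |(2 : ℝ) ^ K * ((x w - x w') i - (v w ⬝ᵥ (x w - x w')) * v w i)| ≤ 1 + n := by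
          rw [abs_mul, abs_of_pos pK]
          rw [le_div_iff₀ pK] at f1
          linarith
        have g5 : |(2 : ℝ) ^ k * ((v w ⬝ᵥ (x w - x w')) * v w i)| ≤ n := by
          rw [abs_mul, abs_mul, abs_of_pos pk]
          calc (2 : ℝ) ^ k * (|v w ⬝ᵥ (x w - x w')| * |v w i|) ≤
                (2 : ℝ) ^ k * (n * ((2 : ℝ) ^ k)⁻¹ * 1) :=
                mul_le_mul_of_nonneg_left (mul_le_mul g2 (unit_entry (hv w) i) (abs_nonneg _)
                  (by positivity)) pk.le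
            _ = n := by field_simp
        exact (abs_add_le _ _).trans (add_le_add g4 g5)
      simp only [cl]
      rw [← e3]
      rw [Matrix.mulVec_sub, Pi.sub_apply] at g3
      exact (floor_sub_le g3).trans (by linarith))
    rwa [Ex_const q1] at this
  -- the chain of inequalities
  have c1 := mono_abs q0 (fun w => cl (fb n K) (x w)) (fun w => fl k (x w))
    (fun w => cl (sn s (K - s) (v w)) (x w)) Z
  have c1' : CH q (fun w => cl (fb n K) (x w)) (fun w => (cl (sn s (K - s) (v w)) (x w), Z w)) ≤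
      CH q (fun w => fl k (x w)) (fun w => (cl (sn s (K - s) (v w)) (x w), Z w)) +
      CH q (fun w => cl (fb n K) (x w))
        (fun w => (fl k (x w), (cl (sn s (K - s) (v w)) (x w), Z w))) :=
    CH_le_add q0 _ _ _
  have c2 := mono_abs q0 (fun w => cl (fb n K) (x w)) (fun w => cl (sn k (K - k) (v w)) (x w))
    (fun w => fl k (x w)) (fun w => (cl (sn s (K - s) (v w)) (x w), Z w))
  have c3 : CH q (fun w => cl (fb n K) (x w))
      (fun w => (cl (sn k (K - k) (v w)) (x w), (cl (sn s (K - s) (v w)) (x w), Z w))) ≤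
      CH q (fun w => cl (fb n K) (x w)) (fun w => (cl (sn k (K - k) (v w)) (x w), Z w)) :=
    CH_mono_cond q0 fun w w' _ _ e => by
      have e1 := Prod.ext_iff.mp e
      exact Prod.ext e1.1 (Prod.ext_iff.mp e1.2).2
  have c4 := mono_abs q0 (fun w => fl k (x w)) (fun w => mix N s k (x w))
    (fun w => cl (sn s (K - s) (v w)) (x w)) Z
  have c5 : CH q (fun w => fl k (x w)) (fun w => (mix N s k (x w), Z w)) ≤
      CH q (fun w => fl k (x w)) (fun w => (mix N s k (x w), G w)) :=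
    CH_mono_cond q0 fun w w' p p' e => by
      have e1 := Prod.ext_iff.mp e
      exact Prod.ext e1.1 (hG w w' p p' e1.2)
  unfold DF at hD
  rw [h1] at hD
  unfold Cb
  have e9 : Pq q (fun w => v w ≠ 0) * ((k - s) * Real.log 2) =
      Pq q (fun w => v w ≠ 0) * ((K - s) * Real.log 2) -
      Pq q (fun w => v w ≠ 0) * ((K - k) * Real.log 2) := by ring
  rw [e9]
  linarith

end

/-! ### The dichotomy -/

section

variable {n : ℕ}

/-- **The dichotomy.** -/
theorem dich (N : Fin n) (s r : ℕ) {V : Matrix (Fin n) (Fin n) ℝ} (hV : V.det ≠ 0) :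
    (∃ v, Hn N s r V v) ∨ ∃ m : Fin n → ℝ, m N = 1 ∧ (∀ i, |m i| ≤ (2 : ℝ) ^ r) ∧
      ∀ j, |∑ i, m i * V i j| ≤ ((2 : ℝ) ^ s)⁻¹ := by
  classical
  have ps : (0 : ℝ) < (2 : ℝ) ^ s := by positivity
  have pr : (0 : ℝ) < (2 : ℝ) ^ r := by positivity
  have hVi : V * V⁻¹ = 1 := Matrix.mul_nonsing_inv V (isUnit_iff_ne_zero.2 hV)
  have hVi' : V⁻¹ * V = 1 := Matrix.nonsing_inv_mul V (isUnit_iff_ne_zero.2 hV)
  obtain ⟨A, hA⟩ : ∃ A : Matrix (Fin n) (Fin n) ℝ,
    A = (((2 : ℝ) ^ s)⁻¹ * ((2 : ℝ) ^ s)⁻¹) • ((V⁻¹)ᵀ * V⁻¹) := ⟨_, rfl⟩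
  obtain ⟨D, hD⟩ : ∃ D : Matrix (Fin n) (Fin n) ℝ,
    D = Matrix.diagonal fun i => if i = N then 0 else (2 : ℝ) ^ r * (2 : ℝ) ^ r := ⟨_, rfl⟩
  have hDv : ∀ (w : Fin n → ℝ) i, (D *ᵥ w) i =
      if i = N then 0 else (2 : ℝ) ^ r * (2 : ℝ) ^ r * w i := by
    intro w i
    rw [hD, Matrix.mulVec_diagonal]
    split_ifs <;> ring
  have hAv : ∀ w : Fin n → ℝ, w ⬝ᵥ (A *ᵥ w) =
      (((2 : ℝ) ^ s)⁻¹ * ((2 : ℝ) ^ s)⁻¹) * ∑ i, (V⁻¹ *ᵥ w) i ^ 2 := by
    intro w
    rw [hA, Matrix.smul_mulVec, dotProduct_smul, smul_eq_mul, ← Matrix.mulVec_mulVec,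
      Matrix.dotProduct_mulVec, Matrix.vecMul_transpose]
    congr 1
    unfold dotProduct
    exact Finset.sum_congr rfl fun i _ => by ring
  have hDw : ∀ w : Fin n → ℝ, w ⬝ᵥ (D *ᵥ w) =
      ∑ i, if i = N then 0 else ((2 : ℝ) ^ r * w i) ^ 2 := by
    intro w
    unfold dotProduct
    refine Finset.sum_congr rfl fun i _ => ?_
    rw [hDv]
    split_ifs <;> ring
  have hdet : (A + D).det ≠ 0 := by
    intro h0
    obtain ⟨w, hw, hw0⟩ := Matrix.exists_mulVec_eq_zero_iff.2 h0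
    have h1 : w ⬝ᵥ ((A + D) *ᵥ w) = 0 := by rw [hw0, dotProduct_zero]
    rw [Matrix.add_mulVec, dotProduct_add, hAv, hDw] at h1
    have h2 : (0 : ℝ) ≤ ∑ i, if i = N then 0 else ((2 : ℝ) ^ r * w i) ^ 2 :=
      Finset.sum_nonneg fun i _ => by
        split_ifs
        · exact le_rfl
        · exact sq_nonneg _
    have h3 : (0 : ℝ) ≤ ∑ i, (V⁻¹ *ᵥ w) i ^ 2 := Finset.sum_nonneg fun i _ => sq_nonneg _
    have h4 : ∑ i, (V⁻¹ *ᵥ w) i ^ 2 = 0 := by
      have h5 : (0 : ℝ) < ((2 : ℝ) ^ s)⁻¹ * ((2 : ℝ) ^ s)⁻¹ := by positivity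
      by_contra hne
      have h6 := mul_pos h5 (lt_of_le_of_ne h3 (Ne.symm hne))
      linarith
    have h5 : V⁻¹ *ᵥ w = 0 := by
      funext i
      have h6 := (Finset.sum_eq_zero_iff_of_nonneg (fun i _ => sq_nonneg _)).1 h4 i
        (Finset.mem_univ i)
      exact pow_eq_zero_iff (two_ne_zero) |>.1 h6
    apply hw
    have h6 : V *ᵥ (V⁻¹ *ᵥ w) = w := by rw [Matrix.mulVec_mulVec, hVi, Matrix.one_mulVec]
    rw [h5, Matrix.mulVec_zero] at h6
    exact h6.symm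
  obtain ⟨v, hv⟩ : ∃ v, v = (A + D)⁻¹ *ᵥ (Pi.single N (1 : ℝ)) := ⟨_, rfl⟩
  have hAD : (A + D) *ᵥ v = Pi.single N (1 : ℝ) := by
    rw [hv, Matrix.mulVec_mulVec, Matrix.mul_nonsing_inv _ (isUnit_iff_ne_zero.2 hdet),
      Matrix.one_mulVec]
  have hAD' : ∀ i, (A *ᵥ v) i = Pi.single (M := fun _ => ℝ) N (1 : ℝ) i - (D *ᵥ v) i := by
    intro i
    have := congrFun hAD i
    rw [Matrix.add_mulVec, Pi.add_apply] at this
    linarith
  have hq : v ⬝ᵥ (A *ᵥ v) + v ⬝ᵥ (D *ᵥ v) = v N := by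
    rw [← dotProduct_add, ← Matrix.add_mulVec, hAD, dotProduct_single, mul_one]
  have hA0 : 0 ≤ v ⬝ᵥ (A *ᵥ v) := by
    rw [hAv]
    exact mul_nonneg (by positivity) (Finset.sum_nonneg fun i _ => sq_nonneg _)
  have hD0 : 0 ≤ v ⬝ᵥ (D *ᵥ v) := by
    rw [hDw]
    exact Finset.sum_nonneg fun i _ => by
        split_ifs
        · exact le_rfl
        · exact sq_nonneg _
  -- the two estimates
  have hE1 : ∀ i, (((2 : ℝ) ^ s)⁻¹ * (V⁻¹ *ᵥ v) i) ^ 2 ≤ v N := by
    intro i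
    have h1 : (V⁻¹ *ᵥ v) i ^ 2 ≤ ∑ i, (V⁻¹ *ᵥ v) i ^ 2 :=
      Finset.single_le_sum (f := fun i => (V⁻¹ *ᵥ v) i ^ 2) (fun i _ => sq_nonneg _)
        (Finset.mem_univ i)
    have h2 : (((2 : ℝ) ^ s)⁻¹ * ((2 : ℝ) ^ s)⁻¹) * (V⁻¹ *ᵥ v) i ^ 2 ≤ v ⬝ᵥ (A *ᵥ v) := by
      rw [hAv]
      exact mul_le_mul_of_nonneg_left h1 (by positivity)
    have h3 : (((2 : ℝ) ^ s)⁻¹ * (V⁻¹ *ᵥ v) i) ^ 2 =
        (((2 : ℝ) ^ s)⁻¹ * ((2 : ℝ) ^ s)⁻¹) * (V⁻¹ *ᵥ v) i ^ 2 := by ring
    linarith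
  have hE2 : ∀ i, i ≠ N → ((2 : ℝ) ^ r * v i) ^ 2 ≤ v N := by
    intro i hi
    have h1 : (if i = N then 0 else ((2 : ℝ) ^ r * v i) ^ 2) ≤
        ∑ i, if i = N then 0 else ((2 : ℝ) ^ r * v i) ^ 2 :=
      Finset.single_le_sum (f := fun i => if i = N then 0 else ((2 : ℝ) ^ r * v i) ^ 2)
        (fun i _ => by
          split_ifs
          · exact le_rfl
          · exact sq_nonneg _) (Finset.mem_univ i)
    rw [if_neg hi, ← hDw] at h1
    linarith
  have hvN : 0 ≤ v N := by linarith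
  rcases le_or_gt 1 (v N) with hc | hc
  · -- the needle
    left
    obtain ⟨ℓ, hℓ⟩ : ∃ ℓ, ℓ = Real.sqrt (v ⬝ᵥ v) := ⟨_, rfl⟩
    have hvv : v N * v N ≤ v ⬝ᵥ v := by
      unfold dotProduct
      exact Finset.single_le_sum (f := fun i => v i * v i) (fun i _ => mul_self_nonneg _)
        (Finset.mem_univ N)
    have hvv1 : 1 ≤ v ⬝ᵥ v := by nlinarith
    have hℓ2 : ℓ * ℓ = v ⬝ᵥ v := by
      rw [hℓ]
      exact Real.mul_self_sqrt (by linarith)
    have hℓ0 : 0 ≤ ℓ := by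
      rw [hℓ]
      exact Real.sqrt_nonneg _
    have hℓN : v N ≤ ℓ := by
      by_contra hcon
      rw [not_le] at hcon
      have := mul_self_lt_mul_self hℓ0 hcon
      linarith
    have hℓp : 0 < ℓ := by linarith
    have hb : ∀ (y B : ℝ), 0 < B → (B * y) ^ 2 ≤ v N → |ℓ⁻¹ * y| ≤ B⁻¹ := by
      intro y B hB hy
      have h1 : |B * y| ≤ ℓ := by
        refine abs_le_of_sq_le_sq (hy.trans ?_) hℓ0
        nlinarith
      rw [abs_mul, abs_inv, abs_of_pos hℓp]
      rw [abs_mul, abs_of_pos hB] at h1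
      rw [inv_mul_le_iff₀ hℓp, ← div_eq_mul_inv, le_div_iff₀ hB]
      linarith
    refine ⟨ℓ⁻¹ • v, ?_, ?_, ?_⟩
    · rw [smul_dotProduct, dotProduct_smul, smul_eq_mul, smul_eq_mul, ← hℓ2]
      field_simp
    · intro i hi
      rw [Pi.smul_apply, smul_eq_mul]
      have := hb (v i) ((2 : ℝ) ^ r) pr (hE2 i hi)
      have h2 : (0 : ℝ) ≤ ((2 : ℝ) ^ r)⁻¹ := by positivity
      linarith
    · intro i
      rw [Matrix.mulVec_smul, Pi.smul_apply, smul_eq_mul]
      have := hb ((V⁻¹ *ᵥ v) i) ((2 : ℝ) ^ s)⁻¹ (by positivity) (hE1 i)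
      rwa [inv_inv] at this
  · -- the covector
    right
    refine ⟨A *ᵥ v, ?_, ?_, ?_⟩
    · rw [hAD', hDv, if_pos rfl, Pi.single_eq_same, sub_zero]
    · intro i
      rw [hAD', hDv]
      by_cases hi : i = N
      · rw [if_pos hi, hi, Pi.single_eq_same, sub_zero, abs_one]
        exact one_le_pow₀ (by norm_num)
      · rw [if_neg hi, Pi.single_eq_of_ne hi, zero_sub, abs_neg]
        have h1 : |(2 : ℝ) ^ r * v i| ≤ 1 := by
          refine abs_le_of_sq_le_sq ((hE2 i hi).trans ?_) zero_le_one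
          linarith
        calc |(2 : ℝ) ^ r * (2 : ℝ) ^ r * v i| = (2 : ℝ) ^ r * |(2 : ℝ) ^ r * v i| := by
              rw [mul_assoc, abs_mul, abs_of_pos pr]
          _ ≤ (2 : ℝ) ^ r * 1 := mul_le_mul_of_nonneg_left h1 pr.le
          _ = (2 : ℝ) ^ r := mul_one _
    · intro j
      have h1 : ∑ i, (A *ᵥ v) i * V i j = ((A *ᵥ v) ᵥ* V) j := rfl
      have h2 : (A *ᵥ v) ᵥ* V = (((2 : ℝ) ^ s)⁻¹ * ((2 : ℝ) ^ s)⁻¹) • (V⁻¹ *ᵥ v) := by
        rw [hA, Matrix.smul_mulVec, Matrix.smul_vecMul, ← Matrix.mulVec_mulVec,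
          Matrix.mulVec_transpose, Matrix.vecMul_vecMul, hVi', Matrix.vecMul_one]
      rw [h1, h2, Pi.smul_apply, smul_eq_mul]
      have h3 : |((2 : ℝ) ^ s)⁻¹ * (V⁻¹ *ᵥ v) j| ≤ 1 := by
        refine abs_le_of_sq_le_sq ((hE1 j).trans ?_) zero_le_one
        linarith
      rw [mul_assoc, abs_mul, abs_of_pos (show (0 : ℝ) < ((2 : ℝ) ^ s)⁻¹ by positivity)]
      calc ((2 : ℝ) ^ s)⁻¹ * |((2 : ℝ) ^ s)⁻¹ * (V⁻¹ *ᵥ v) j| ≤ ((2 : ℝ) ^ s)⁻¹ * 1 :=
            mul_le_mul_of_nonneg_left h3 (by positivity)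
        _ = ((2 : ℝ) ^ s)⁻¹ := mul_one _

end

end Pool.MSD
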