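import Pool.Agent.H38.MSD.Trb

/-!
# LEMMA MSD: bodies of comparable volume, and the calculus of probabilities
-/

set_option autoImplicit false

namespace Pool.MSD

open Matrix Finset Real
open Pool.Agent.H49.Ent Pool.Agent.H32.Dense Pool.FAD

section Body

variable {n : ℕ}

/-- The constant of the inverse inclusion. -/
noncomputable def Cv (n : ℕ) : ℝ := n * ((n.factorial : ℝ) * ((n : ℝ) + 1) ^ n)

theorem Cv_nonneg (n : ℕ) : 0 ≤ Cv n := by
  unfold Cv
  positivity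

/-- The constant of the volumes. -/
noncomputable def Cd (n : ℕ) (c : ℝ) : ℝ := Real.log ((n.factorial : ℝ) * (c + 1) ^ n)

theorem Cd_nonneg (n : ℕ) {c : ℝ} (hc : 0 ≤ c) : 0 ≤ Cd n c := by
  unfold Cd
  refine Real.log_nonneg ?_
  have h1 : (1 : ℝ) ≤ n.factorial := by exact_mod_cast Nat.factorial_pos n
  have h2 : (1 : ℝ) ≤ (c + 1) ^ n := one_le_pow₀ (by linarith)
  nlinarith

/-- Determinants of matrices with bounded entries. -/
theorem det_bd {A : Matrix (Fin n) (Fin n) ℝ} {x : ℝ} (h : ∀ i j, |A i j| ≤ x) :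
    |A.det| ≤ (n.factorial : ℝ) * x ^ n := by
  have := Matrix.det_le (A := A) (abv := AbsoluteValue.abs) (x := x) h
  rw [Fintype.card_fin, nsmul_eq_mul] at this
  exact this

theorem lv_inv_mul {V S : Matrix (Fin n) (Fin n) ℝ} (hV : V.det ≠ 0) (hS : S.det ≠ 0) :
    (S⁻¹ * V).det ≠ 0 ∧ Real.log |(S⁻¹ * V).det| = lv V - lv S := by
  have hu := isUnit_iff_ne_zero.2 hS
  have e1 : S.det * (S⁻¹ * V).det = V.det := by
    rw [← Matrix.det_mul, ← Matrix.mul_assoc, Matrix.mul_nonsing_inv _ hu, Matrix.one_mul]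
  have h1 : (S⁻¹ * V).det ≠ 0 := by
    intro h
    rw [h, mul_zero] at e1
    exact hV e1.symm
  refine ⟨h1, ?_⟩
  unfold lv
  rw [← e1, abs_mul, Real.log_mul (abs_ne_zero.2 hS) (abs_ne_zero.2 h1)]
  ring

/-- A contained body has a smaller volume. -/
theorem lv_le {c : ℝ} {V S : Matrix (Fin n) (Fin n) ℝ} (hV : V.det ≠ 0)
    (hS : S.det ≠ 0) (h : Inc c V S) : lv V ≤ lv S + Cd n c := by
  obtain ⟨h1, h2⟩ := lv_inv_mul hV hS
  have h3 : ∀ i j, |(S⁻¹ * V) i j| ≤ c + 1 := by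
    intro i j
    have := (Finset.single_le_sum (f := fun j => |(S⁻¹ * V) i j|) (fun _ _ => abs_nonneg _)
      (Finset.mem_univ j)).trans (h i)
    linarith
  have h4 := Real.log_le_log (abs_pos.2 h1) (det_bd h3)
  unfold Cd
  linarith

/-- **The inverse inclusion.** -/
theorem inc_inv {V S : Matrix (Fin n) (Fin n) ℝ} (hV : V.det ≠ 0) (hS : S.det ≠ 0)
    (h : Inc n V S) : Inc (Cv n * Real.exp (lv S - lv V)) S V := by
  obtain ⟨h1, h2⟩ := lv_inv_mul hV hS
  have h3 : ∀ i j, |(S⁻¹ * V) i j| ≤ (n : ℝ) + 1 := by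
    intro i j
    have := (Finset.single_le_sum (f := fun j => |(S⁻¹ * V) i j|) (fun _ _ => abs_nonneg _)
      (Finset.mem_univ j)).trans (h i)
    linarith
  have e1 : V⁻¹ * S = (S⁻¹ * V)⁻¹ := by
    rw [Matrix.mul_inv_rev, Matrix.nonsing_inv_nonsing_inv _ (isUnit_iff_ne_zero.2 hS)]
  have e2 : |(S⁻¹ * V).det|⁻¹ = Real.exp (lv S - lv V) := by
    rw [← Real.exp_log (abs_pos.2 h1), h2, ← Real.exp_neg]
    congr 1
    ring
  have h4 : ∀ i j, |(S⁻¹ * V).adjugate i j| ≤ (n.factorial : ℝ) * ((n : ℝ) + 1) ^ n := by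
    intro i j
    rw [Matrix.adjugate_apply]
    refine det_bd fun k l => ?_
    by_cases hk : k = j
    · subst hk
      rw [Matrix.updateRow_self]
      by_cases hl : l = i
      · subst hl
        rw [Pi.single_eq_same, abs_one]
        have : (0 : ℝ) ≤ n := Nat.cast_nonneg n
        linarith
      · rw [Pi.single_eq_of_ne hl, abs_zero]
        positivity
    · rw [Matrix.updateRow_ne hk]
      exact h3 k l
  intro i
  rw [e1]
  have e3 : ∀ j, |(S⁻¹ * V)⁻¹ i j| = Real.exp (lv S - lv V) * |(S⁻¹ * V).adjugate i j| := by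
    intro j
    rw [Matrix.inv_def, Matrix.smul_apply, smul_eq_mul, abs_mul, Ring.inverse_eq_inv', abs_inv,
      e2]
  calc ∑ j, |(S⁻¹ * V)⁻¹ i j| = ∑ j, Real.exp (lv S - lv V) * |(S⁻¹ * V).adjugate i j| :=
        Finset.sum_congr rfl fun j _ => e3 j
    _ ≤ ∑ _j : Fin n, Real.exp (lv S - lv V) * ((n.factorial : ℝ) * ((n : ℝ) + 1) ^ n) :=
        Finset.sum_le_sum fun j _ => mul_le_mul_of_nonneg_left (h4 i j) (Real.exp_pos _).le
    _ = Cv n * Real.exp (lv S - lv V) := by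
        rw [Finset.sum_const, Finset.card_univ, Fintype.card_fin, nsmul_eq_mul]
        unfold Cv
        ring

theorem inc_one (T : Matrix (Fin n) (Fin n) ℝ) (hT : T.det ≠ 0) : Inc 1 T T := by
  intro i
  rw [Matrix.nonsing_inv_mul _ (isUnit_iff_ne_zero.2 hT)]
  have : ∑ j, |(1 : Matrix (Fin n) (Fin n) ℝ) i j| = 1 := by
    rw [Finset.sum_eq_single i]
    · simp
    · intro j _ hj
      rw [Matrix.one_apply_ne hj.symm, abs_zero]
    · intro h
      exact absurd (Finset.mem_univ i) h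
  rw [this]

theorem Ct_mono (n : ℕ) {c c' e : ℝ} (hc : 0 ≤ c) (h : c ≤ c') (he : 0 ≤ e) :
    Ct n c e ≤ Ct n c' e := by
  unfold Ct
  have h1 : c * e ≤ c' * e := mul_le_mul_of_nonneg_right h he
  have h2 : 0 ≤ c * e := mul_nonneg hc he
  have h3 : Real.log (2 * (2 + 2 * (c * e)) + 1) ≤ Real.log (2 * (2 + 2 * (c' * e)) + 1) :=
    Real.log_le_log (by linarith) (by linarith)
  have h4 := mul_le_mul_of_nonneg_left h3 (Nat.cast_nonneg n : (0 : ℝ) ≤ n)
  linarith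

theorem Cp_mono (n : ℕ) {c c' : ℝ} (hc : 0 ≤ c) (h : c ≤ c') : Cp n c ≤ Cp n c' := by
  have h0 : (0 : ℝ) ≤ n := Nat.cast_nonneg n
  have h1 : (n : ℝ) * c ≤ n * c' := mul_le_mul_of_nonneg_left h h0
  have h2 : (n : ℝ) * (n * c) ≤ n * (n * c') := mul_le_mul_of_nonneg_left h1 h0
  have h3 : 0 ≤ (n : ℝ) * (n * c) := by positivity
  have h4 : Real.log (2 + 3 * (n * (n * c))) ≤ Real.log (2 + 3 * (n * (n * c'))) :=
    Real.log_le_log (by linarith) (by linarith)
  have h5 : Real.log (2 * (c + 1) + 1) ≤ Real.log (2 * (c' + 1) + 1) :=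
    Real.log_le_log (by linarith) (by linarith)
  have h6 := mul_le_mul_of_nonneg_left h4 h0
  have h7 := mul_le_mul_of_nonneg_left h5 h0
  unfold Cp Cc
  linarith

end Body

section Prob

variable {W W' : Type} [Fintype W] [Fintype W'] {q : W → ℝ} {q' : W' → ℝ}

open Classical in
theorem Pq_eq (q : W → ℝ) (A : W → Prop) : Pq q A = Ex q (fun w => if A w then 1 else 0) := by
  unfold Pq Ex
  refine Finset.sum_congr rfl fun w _ => ?_
  change (if A w then q w else 0) = q w * (if A w then 1 else 0)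
  by_cases h : A w
  · rw [if_pos h, if_pos h, mul_one]
  · rw [if_neg h, if_neg h, mul_zero]

theorem Pq_nonneg (h0 : ∀ w, 0 ≤ q w) (A : W → Prop) : 0 ≤ Pq q A := by
  classical
  unfold Pq
  refine Finset.sum_nonneg fun w _ => ?_
  split_ifs
  · exact h0 w
  · exact le_rfl

theorem Pq_mono (h0 : ∀ w, 0 ≤ q w) {A B : W → Prop} (h : ∀ w, 0 < q w → A w → B w) :
    Pq q A ≤ Pq q B := by
  classical
  rw [Pq_eq, Pq_eq]
  refine Ex_mono h0 fun w hw => ?_
  by_cases a : A w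
  · rw [if_pos a, if_pos (h w hw a)]
  · rw [if_neg a]
    split_ifs <;> norm_num

theorem Pq_or (h0 : ∀ w, 0 ≤ q w) {A B C : W → Prop} (h : ∀ w, 0 < q w → A w → B w ∨ C w) :
    Pq q A ≤ Pq q B + Pq q C := by
  classical
  rw [Pq_eq, Pq_eq, Pq_eq, ← Ex_add]
  refine Ex_mono h0 fun w hw => ?_
  by_cases a : A w
  · rw [if_pos a]
    rcases h w hw a with b | b
    · rw [if_pos b]
      split_ifs <;> norm_num
    · rw [if_pos b]
      split_ifs <;> norm_num
  · rw [if_neg a]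
    split_ifs <;> norm_num

/-- The inequality of Markov. -/
theorem Pq_markov (h0 : ∀ w, 0 ≤ q w) {f : W → ℝ} (hf : ∀ w, 0 < q w → 0 ≤ f w) {s : ℝ}
    (hs : 0 < s) {A : W → Prop} (h : ∀ w, 0 < q w → A w → s ≤ f w) :
    Pq q A ≤ Ex q f / s := by
  classical
  rw [le_div_iff₀ hs, mul_comm, Pq_eq, ← Ex_smul]
  refine Ex_mono h0 fun w hw => ?_
  by_cases a : A w
  · rw [if_pos a, mul_one]
    exact h w hw a
  · rw [if_neg a, mul_zero]
    exact hf w hw

theorem Pq_glue_fst {Z : Type} {Z₁ : W → Z} {Z₂ : W' → Z} (h₁ : ∀ w, 0 ≤ q w)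
    (hZ : ∀ z, law q Z₁ z = law q' Z₂ z) (A : W → Prop) :
    Pq (glue q q' Z₁ Z₂) (fun w => A w.1) = Pq q A := by
  classical
  rw [Pq_eq, Pq_eq]
  exact Ex_glue_fst h₁ hZ (fun w => if A w then 1 else 0)

theorem Pq_glue_snd {Z : Type} {Z₁ : W → Z} {Z₂ : W' → Z} (h₂ : ∀ w, 0 ≤ q' w)
    (hZ : ∀ z, law q Z₁ z = law q' Z₂ z) (A : W' → Prop) :
    Pq (glue q q' Z₁ Z₂) (fun w => A w.2) = Pq q' A := by
  classical
  rw [Pq_eq, Pq_eq]
  exact Ex_glue_snd h₂ hZ (fun w => if A w then 1 else 0)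

end Prob

end Pool.MSD
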