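import Pool.Agent.H38.MSD.Piv

/-!
# The covector with entry one at the designated coordinate
-/

set_option autoImplicit false

namespace Pool.MSD

open Matrix Finset Real
open Pool.Agent.H49.Ent Pool.Agent.H32.Dense Pool.FAD Pool.STK

section

variable {Ω Q₀ γ Λ : Type} [Fintype Ω] {n : ℕ} {p : Ω → ℝ} {P : Ω → Q₀} {g : Q₀ → γ}
  {ν : Q₀ → Fin n → ℝ} {L : Ω → Λ} {η c c₀ θ g₀ δ κ : ℝ} {K : ℕ} {N : Fin n}
  {Pi : Q₀ → Matrix (Fin n) (Fin n) ℝ}

/-- **A direction along which the height is full is killed.** -/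
theorem PrfN.dir (F : PrfN p P g ν (fb n K) L η c c₀ θ g₀ δ κ N Pi) (hc : 2 * n ≤ c)
    {W ρ β : Type} [Fintype W] {q : W → ℝ} (q0 : ∀ w, 0 ≤ q w) (q1 : ∑ w, q w = 1)
    {Pt : W → Q₀} (lw : ∀ x, law q Pt x = law p P x) {R : W → ρ}
    (hR : Inf q Pt R (fun w => g (Pt w)) ≤ θ * κ) {v : W → Fin n → ℝ}
    (hv : ∀ w, v w ⬝ᵥ v w = 1 ∨ v w = 0) (dv : Det q (fun w => (R w, g (Pt w))) v)
    {Y : W → β} {a : ℝ}
    (hY : ∀ w w', 0 < q w → 0 < q w' → Y w = Y w' → R w = R w' → g (Pt w) = g (Pt w') →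
      |v w ⬝ᵥ (ν (Pt w) - ν (Pt w'))| ≤ a ∧
      ∀ i, |(ν (Pt w) - ν (Pt w')) i - (v w ⬝ᵥ (ν (Pt w) - ν (Pt w'))) * v w i| ≤
        a * ((2 : ℝ) ^ K)⁻¹)
    (hf : Pq q (fun w => v w ≠ 0) * (K * Real.log 2) + n * Real.log (2 * (2 * a + 1) + 1) -
      CH q (fun w => fl K (ν (Pt w))) (fun w => (Y w, (R w, g (Pt w)))) ≤ θ * κ) :
    Pq q (fun w => ∃ i, n * Real.exp (-(g₀ * κ)) < |(Pi (Pt w) *ᵥ v w) i|) ≤ η :=
  dir_of_dat F.dat hc q0 q1 lw hR hv dv hY hf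

/-- The covector. -/
noncomputable def cvN (N : Fin n) (R : Matrix (Fin n) (Fin n) ℝ) (i : Fin n) : ℝ :=
  R N i / R N N

theorem cvN_self {R : Matrix (Fin n) (Fin n) ℝ} (h : R N N ≠ 0) : cvN N R N = 1 :=
  div_self h

/-- The covector is bounded. -/
theorem cvN_le {R : Matrix (Fin n) (Fin n) ℝ} (hs : Rᵀ = R) (hi : R * R = R) {b : ℝ}
    (hb : Real.exp (-b) ≤ R N N) (i : Fin n) : |cvN N R i| ≤ Real.exp b := by
  have hp : 0 < R N N := lt_of_lt_of_le (Real.exp_pos _) hb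
  have hsq : R N N = ∑ j, R N j * R N j := by
    have h1 := congrFun (congrFun hi N) N
    rw [Matrix.mul_apply] at h1
    rw [← h1]
    refine Finset.sum_congr rfl fun j _ => ?_
    have h2 := congrFun (congrFun hs j) N
    rw [Matrix.transpose_apply] at h2
    rw [h2]
  have h1 : ∀ j, R N j * R N j ≤ R N N := fun j => by
    conv_rhs => rw [hsq]
    exact Finset.single_le_sum (f := fun j => R N j * R N j) (fun k _ => mul_self_nonneg _)
      (Finset.mem_univ j)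
  have h2 : R N N ≤ 1 := by
    have := h1 N
    nlinarith
  have h3 : |R N i| ≤ 1 := by
    have h4 := h1 i
    refine abs_le_of_sq_le_sq ?_ zero_le_one |>.trans le_rfl
    nlinarith
  unfold cvN
  rw [abs_div, abs_of_pos hp, div_le_iff₀ hp]
  have h5 : 1 ≤ Real.exp b * R N N := by
    have h6 := mul_le_mul_of_nonneg_left hb (Real.exp_pos b).le
    rw [← Real.exp_add, add_neg_cancel, Real.exp_zero] at h6
    exact h6
  linarith

/-- The covector kills a vector which is killed by the projection. -/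
theorem cvN_kill {R : Matrix (Fin n) (Fin n) ℝ} {b g : ℝ}
    (hb : Real.exp (-b) ≤ R N N) {v : Fin n → ℝ} (hv : |(R *ᵥ v) N| ≤ n * Real.exp (-g)) :
    |∑ i, cvN N R i * v i| ≤ n * Real.exp (-(g - b)) := by
  have hp : 0 < R N N := lt_of_lt_of_le (Real.exp_pos _) hb
  have e1 : ∑ i, cvN N R i * v i = (R *ᵥ v) N / R N N := by
    have e2 : (R *ᵥ v) N = ∑ i, R N i * v i := rfl
    rw [e2, Finset.sum_div]
    refine Finset.sum_congr rfl fun i _ => ?_
    unfold cvN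
    ring
  rw [e1, abs_div, abs_of_pos hp, div_le_iff₀ hp]
  have e3 : Real.exp (-(g - b)) = Real.exp (-g) * Real.exp b := by
    rw [← Real.exp_add]
    congr 1
    ring
  have h5 : 1 ≤ Real.exp b * R N N := by
    have h6 := mul_le_mul_of_nonneg_left hb (Real.exp_pos b).le
    rw [← Real.exp_add, add_neg_cancel, Real.exp_zero] at h6
    exact h6
  rw [e3]
  have h7 : (0 : ℝ) ≤ n * Real.exp (-g) := by positivity
  calc |(R *ᵥ v) N| ≤ n * Real.exp (-g) * 1 := by linarith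
    _ ≤ n * Real.exp (-g) * (Real.exp b * R N N) := mul_le_mul_of_nonneg_left h5 h7
    _ = n * (Real.exp (-g) * Real.exp b) * R N N := by ring

/-- **The relation at the exact point.** `v` is a direction along which the height is full. With
probability at least `c₀ / 2 - 2 η` the covector `cvN N (Pi (Pt w))` has size at most `exp (δ κ)` and
kills `v` to `n exp (-(g₀ - δ) κ)`. -/
theorem PrfN.rel (F : PrfN p P g ν (fb n K) L η c c₀ θ g₀ δ κ N Pi) (p0 : ∀ ω, 0 ≤ p ω)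
    {W : Type} [Fintype W] {q : W → ℝ} (q0 : ∀ w, 0 ≤ q w)
    {Pt : W → Q₀} (lw : ∀ x, law q Pt x = law p P x) {v : W → Fin n → ℝ}
    (h : Pq q (fun w => ∃ i, n * Real.exp (-(g₀ * κ)) < |(Pi (Pt w) *ᵥ v w) i|) ≤ η) :
    c₀ / 2 - 2 * η ≤ Pq q (fun w => Real.exp (-(δ * κ)) ≤ Pi (Pt w) N N ∧
      (∀ i, |cvN N (Pi (Pt w)) i| ≤ Real.exp (δ * κ)) ∧
      |∑ i, cvN N (Pi (Pt w)) i * v w i| ≤ n * Real.exp (-(g₀ * κ - δ * κ))) := by
  have h1 := F.piv
  rw [← Pq_law p0 q0 lw (fun x => Real.exp (-(δ * κ)) ≤ Pi x N N)] at h1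
  have h2 : Pq q (fun w => Real.exp (-(δ * κ)) ≤ Pi (Pt w) N N) ≤
      Pq q (fun w => Real.exp (-(δ * κ)) ≤ Pi (Pt w) N N ∧
      (∀ i, |cvN N (Pi (Pt w)) i| ≤ Real.exp (δ * κ)) ∧
      |∑ i, cvN N (Pi (Pt w)) i * v w i| ≤ n * Real.exp (-(g₀ * κ - δ * κ))) + η := by
    refine (Pq_or q0 (C := fun w => ∃ i, n * Real.exp (-(g₀ * κ)) <
      |(Pi (Pt w) *ᵥ v w) i|) fun w _ k => ?_).trans (add_le_add le_rfl h)
    by_cases hc : ∃ i, n * Real.exp (-(g₀ * κ)) < |(Pi (Pt w) *ᵥ v w) i|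
    · exact Or.inr hc
    · refine Or.inl ⟨k, fun i => cvN_le (F.sym _) (F.idm _) k i, cvN_kill k ?_⟩
      by_contra hh
      exact hc ⟨N, not_le.1 hh⟩
  linarith

end

end Pool.MSD
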