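import Pool.Agent.H38.MSD.Bld

/-!
# LEMMA MSD: the covector of a point, with block entropies

The block entropies of the coordinate `N` are at most `(1 - c₀) K log 2`. Then with probability at least
`c₀ / 2` there is a covector at the point, with `N`-entry one and of size at most `2 ^ r`, where `r`
is the length of the blocks, which kills the body of every datum up to `exp (- c₀ / 8 K log 2)`.
-/

set_option autoImplicit false

namespace Pool.MSD

open Matrix Finset Real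
open Pool.Agent.H49.Ent Pool.Agent.H32.Dense Pool.FAD Pool.STK

section Fl

variable {n : ℕ}

/-- The digits are nested. -/
theorem fl_nest {s k : ℕ} (h : s ≤ k) {x x' : Fin n → ℝ} {i : Fin n}
    (e : fl k x i = fl k x' i) : fl s x i = fl s x' i := by
  have key : ∀ y : Fin n → ℝ, fl s y i = fl k y i / ((2 ^ (k - s) : ℕ) : ℤ) := by
    intro y
    have h1 : fl k y i = ⌊((2 ^ (k - s) : ℕ) : ℝ) * ((2 : ℝ) ^ s * y i)⌋ := by
      change ⌊(2 : ℝ) ^ k * y i⌋ = _
      congr 1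
      have h2 : (2 : ℝ) ^ k = (2 : ℝ) ^ (k - s) * (2 : ℝ) ^ s := by
        rw [← pow_add, Nat.sub_add_cancel h]
      rw [h2]
      push_cast
      ring
    rw [h1, Int.natCast_mul_floor_div_cancel (by positivity)]
    rfl
  rw [key x, key x', e]

theorem mix_nest {N : Fin n} {s s' k : ℕ} (h : s ≤ s') {x x' : Fin n → ℝ}
    (e : mix N s' k x = mix N s' k x') : mix N s k x = mix N s k x' := by
  funext i
  have h1 := congrFun e i
  unfold mix at h1 ⊢
  by_cases hi : i = N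
  · subst hi
    rw [Function.update_self, Function.update_self] at h1 ⊢
    exact fl_nest h h1
  · rw [Function.update_of_ne hi, Function.update_of_ne hi] at h1 ⊢
    exact h1

end Fl

section

variable {Ω Q₀ γ Λ : Type} [Fintype Ω] {n : ℕ} {p : Ω → ℝ} {P : Ω → Q₀} {g : Q₀ → γ}
  {ν : Q₀ → Fin n → ℝ} {L : Ω → Λ} {ε M c c' θ κ : ℝ} {Vs : Q₀ → Matrix (Fin n) (Fin n) ℝ}

/-- **One block.** -/
theorem piv_blk {K : ℕ} (p0 : ∀ ω, 0 ≤ p ω)
    (F : Fld p P g ν (fb n K) L ε M c c' θ κ Vs)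
    (hc' : 0 ≤ c') {N : Fin n} {s t k r l : ℕ}
    (hst : Real.exp (ε * κ) * (2 : ℝ) ^ s ≤ (2 : ℝ) ^ t) (hlt : l ≤ t) (htk : t ≤ k) (hkK : k ≤ K)
    (hr : k ≤ t + r + 1) :
    (Pq p (fun ω => ∃ v, Hn N s r (Vs (P ω)) v) - ε) * ((k - t) * Real.log 2) ≤
      CH p (fun ω => fl k (ν (P ω))) (fun ω => (mix N l k (ν (P ω)), g (P ω))) +
        (ε * κ + Cc n (c' + n)) + Cb n := by
  classical
  obtain ⟨D, hD⟩ := F.max
  obtain ⟨v, hv⟩ : ∃ v : D.W → Fin n → ℝ, v = fun w =>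
    if h : ∃ v, Hn N t r (D.V w) v then h.choose else 0 := ⟨_, rfl⟩
  have hv1 : ∀ w, v w = 0 ∨ Hn N t r (D.V w) (v w) := by
    intro w
    rw [hv]
    simp only
    by_cases h : ∃ v, Hn N t r (D.V w) v
    · rw [dif_pos h]
      exact Or.inr h.choose_spec
    · rw [dif_neg h]
      exact Or.inl rfl
  have hv2 : ∀ w, (∃ v, Hn N t r (D.V w) v) → v w ≠ 0 := by
    intro w h
    have e : v w = h.choose := by
      rw [hv]
      simp only
      rw [dif_pos h]
    rw [e]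
    intro e0
    have h1 := h.choose_spec.1
    rw [e0] at h1
    simp at h1
  have hu : ∀ w, v w ⬝ᵥ v w = 1 ∨ v w = 0 := fun w => by
    rcases hv1 w with h | h
    · exact Or.inr h
    · exact Or.inl h.1
  have dv : Det D.κ (fun w => (D.R w, g (D.Pt w))) v := by
    intro w w' a a' e
    have e1 : D.V w = D.V w' := D.dV w w' a a' e
    rw [hv]
    simp only
    rw [e1]
  have eK : t + (K - t) = K := by omega
  have hinc : ∀ w, Inc (c' + n) (sn t (K - t) (v w)) (D.V w) := by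
    intro w
    refine inc_sn eK (D.inc w) (hu w) fun i => ?_
    rcases hv1 w with h | h
    · rw [h, Matrix.mulVec_zero, Pi.zero_apply, abs_zero]
      positivity
    · exact h.2.2 i
  have dS : Det D.κ (fun w => (D.R w, g (D.Pt w))) (fun w => sn t (K - t) (v w)) := by
    intro w w' a a' e
    simp only
    rw [dv w w' a a' e]
  have hn0 : (0 : ℝ) ≤ n := Nat.cast_nonneg n
  have hDF := DF_mono D.k0 D.k1 (T := fun _ => fb n K) (W := fun w => sn t (K - t) (v w))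
    (S := D.V) (fun w => ν (D.Pt w)) (fun w => (D.R w, g (D.Pt w))) dS D.dV
    (fun w => sn_det (hu w)) D.nz (a := c' + n) (by linarith) hinc
  have key := blk_dig D.k0 D.k1 (N := N) htk hkK hr hu (fun w => ν (D.Pt w))
    (fun w => (D.R w, g (D.Pt w))) (fun w => g (D.Pt w))
    (fun w w' _ _ e => (Prod.ext_iff.mp e).2) dv (fun w i hi => by
      rcases hv1 w with h | h
      · rw [h, Pi.zero_apply, abs_zero]
        positivity
      · exact h.2.1 i hi) (a := ε * κ + Cc n (c' + n)) (by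
      have := D.df
      linarith)
  have e1 : CH D.κ (fun w => fl k (ν (D.Pt w))) (fun w => (mix N t k (ν (D.Pt w)),
      g (D.Pt w))) = CH p (fun ω => fl k (ν (P ω)))
      (fun ω => (mix N t k (ν (P ω)), g (P ω))) :=
    CH_Pt D p0 (fun x => fl k (ν x)) (fun x => (mix N t k (ν x), g x))
  rw [e1] at key
  have e2 : CH p (fun ω => fl k (ν (P ω))) (fun ω => (mix N t k (ν (P ω)), g (P ω))) ≤
      CH p (fun ω => fl k (ν (P ω))) (fun ω => (mix N l k (ν (P ω)), g (P ω))) :=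
    CH_mono_cond p0 fun w w' _ _ e => by
      have e1 := Prod.ext_iff.mp e
      exact Prod.ext (mix_nest hlt e1.1) e1.2
  -- the probability
  have hpr : Pq p (fun ω => ∃ v, Hn N s r (Vs (P ω)) v) ≤ Pq D.κ (fun w => v w ≠ 0) + ε := by
    rw [← Pq_law p0 D.k0 D.lw (fun x => ∃ v, Hn N s r (Vs x) v)]
    refine (Pq_or D.k0 (B := fun w => v w ≠ 0) (C := fun w =>
      ¬Inc (Real.exp (ε * κ)) (Vs (D.Pt w)) (D.V w)) fun w _ h => ?_).trans
      (add_le_add le_rfl hD)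
    by_contra hcon
    rw [not_or, not_not] at hcon
    obtain ⟨c1, c2⟩ := hcon
    refine hv2 w ?_ c1
    obtain ⟨u, hu1, hu2, hu3⟩ := h
    refine ⟨u, hu1, hu2, fun i => ?_⟩
    rw [not_not] at c2
    have hVs : (Vs (D.Pt w)) * (Vs (D.Pt w))⁻¹ = 1 :=
      Matrix.mul_nonsing_inv _ (isUnit_iff_ne_zero.2 (F.nz _))
    have e3 : (D.V w)⁻¹ *ᵥ u = ((D.V w)⁻¹ * Vs (D.Pt w)) *ᵥ ((Vs (D.Pt w))⁻¹ *ᵥ u) := by
      rw [Matrix.mulVec_mulVec, Matrix.mul_assoc, hVs, Matrix.mul_one]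
    rw [e3]
    have e4 : (((D.V w)⁻¹ * Vs (D.Pt w)) *ᵥ ((Vs (D.Pt w))⁻¹ *ᵥ u)) i =
      ∑ j, ((D.V w)⁻¹ * Vs (D.Pt w)) i j * ((Vs (D.Pt w))⁻¹ *ᵥ u) j := rfl
    rw [e4]
    calc |∑ j, ((D.V w)⁻¹ * Vs (D.Pt w)) i j * ((Vs (D.Pt w))⁻¹ *ᵥ u) j| ≤
          ∑ j, |((D.V w)⁻¹ * Vs (D.Pt w)) i j * ((Vs (D.Pt w))⁻¹ *ᵥ u) j| :=
          Finset.abs_sum_le_sum_abs _ _
      _ ≤ ∑ j, |((D.V w)⁻¹ * Vs (D.Pt w)) i j| * (2 : ℝ) ^ s :=
          Finset.sum_le_sum fun j _ => by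
            rw [abs_mul]
            exact mul_le_mul_of_nonneg_left (hu3 j) (abs_nonneg _)
      _ = (∑ j, |((D.V w)⁻¹ * Vs (D.Pt w)) i j|) * (2 : ℝ) ^ s := by rw [Finset.sum_mul]
      _ ≤ Real.exp (ε * κ) * (2 : ℝ) ^ s := mul_le_mul_of_nonneg_right (c2 i) (by positivity)
      _ ≤ (2 : ℝ) ^ t := hst
  have hks : 0 ≤ ((k : ℝ) - t) * Real.log 2 := by
    have : (t : ℝ) ≤ k := by exact_mod_cast htk
    exact mul_nonneg (by linarith) (Real.log_nonneg (by norm_num))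
  have h9 := mul_le_mul_of_nonneg_right (show
    Pq p (fun ω => ∃ v, Hn N s r (Vs (P ω)) v) - ε ≤
      Pq D.κ (fun w => v w ≠ 0) by linarith) hks
  linarith

end

/-- The line is the point. -/
theorem lin_triv {Ω Q₀ γ : Type} [Fintype Ω] {n : ℕ} {p : Ω → ℝ} (P : Ω → Q₀) (g : Q₀ → γ)
    (ν : Q₀ → Fin n → ℝ) (T : Matrix (Fin n) (Fin n) ℝ) (p0 : ∀ ω, 0 ≤ p ω)
    (p1 : ∑ ω, p ω = 1) : Lin p P g ν T P (fun x => x) (fun _ => ()) (fun _ _ _ _ => 0) 0 0 := by
  refine ⟨p0, p1, fun ω ω' _ _ e => ?_, ?_, ?_, ?_⟩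
  · change g (P ω) = g (P ω')
    rw [show P ω = P ω' from e]
  · have h1 : CH p (fun ω => g (P ω)) (fun ω => g (P ω)) ≤ 0 := by
      have h3 : H p (fun ω => (g (P ω), g (P ω))) ≤ H p (fun ω => g (P ω)) :=
        H_mono p0 fun ω ω' _ _ e => Prod.ext e e
      unfold CH
      linarith
    have h2 := CH_nonneg p0 (fun ω => g (P ω)) P
    linarith
  · have h1 : CH p (fun ω => ν (P ω)) (fun ω => g (P ω)) ≤
        CH p (fun ω => ν (P ω)) (fun ω => ((), g (P ω))) :=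
      CH_mono_cond p0 fun w w' _ _ e => Prod.ext rfl e
    linarith
  · intro ω ω' _ _ e i
    have e1 : P ω = P ω' := e
    rw [e1]
    have e2 : (ν (P ω') - ν (P ω') - fun _ => (0 : ℝ)) = 0 := by
      funext j
      simp
    rw [e2, Matrix.mulVec_zero, Pi.zero_apply, abs_zero]

/-- **The covector of the point.** -/
theorem covN (n : ℕ) {η c c₀ M : ℝ} (hη : 0 < η) (hc : 1 ≤ c) (hc₀ : 0 < c₀) (hc₀1 : c₀ ≤ 1)
    (hM : 1 ≤ M) {B : ℕ} (hB : 0 < B) : ∃ θ : ℝ, 0 < θ ∧ ∃ K₀ : ℕ, ∀ K : ℕ, K₀ ≤ K →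
    ∀ {Ω Q₀ γ : Type} [Fintype Ω] {p : Ω → ℝ} {P : Ω → Q₀} {g : Q₀ → γ}
      {ν : Q₀ → Fin n → ℝ} {N : Fin n} {l : ℕ → ℕ} {r : ℕ}, (∀ ω, 0 ≤ p ω) → ∑ ω, p ω = 1 →
      CH p (fun ω => fl K (ν (P ω))) (fun ω => g (P ω)) ≤ M * (K * Real.log 2) →
      l 0 = 0 → l B = K → (∀ j, l j ≤ l (j + 1)) → (∀ j, l (j + 1) ≤ l j + r + 1) →
      ∑ j ∈ Finset.range B, CH p (fun ω => fl (l (j + 1)) (ν (P ω)))
        (fun ω => (mix N (l j) (l (j + 1)) (ν (P ω)), g (P ω))) ≤
        (1 - c₀) * (K * Real.log 2) →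
      ∃ Cv : Q₀ → Fin n → ℝ, (∀ x, Cv x = 0 ∨ (Cv x N = 1 ∧ ∀ i, |Cv x i| ≤ (2 : ℝ) ^ r)) ∧
        c₀ / 2 ≤ Pq p (fun ω => Cv (P ω) ≠ 0) ∧
        ∀ D : Dtm p P g ν (fb n K) (θ * (K * Real.log 2)) c,
          Pq D.κ (fun w => ∃ j, Real.exp (-(c₀ / 8 * (K * Real.log 2))) <
            |∑ i, Cv (D.Pt w) i * D.V w i j|) ≤ η := by
  classical
  have hn0 : (0 : ℝ) ≤ n := Nat.cast_nonneg n
  have hBR : (0 : ℝ) < B := by exact_mod_cast hB
  have hB1 : (1 : ℝ) ≤ B := by exact_mod_cast hB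
  have hlog2 := Real.log_two_gt_d9
  have hlog2' := Real.log_two_lt_d9
  have hl0 : (0 : ℝ) < Real.log 2 := by linarith
  obtain ⟨ε, hε⟩ : ∃ ε : ℝ, ε = min (min 1 η) (c₀ / (128 * B)) := ⟨_, rfl⟩
  have hε0 : 0 < ε := by
    rw [hε]
    exact lt_min (lt_min one_pos hη) (by positivity)
  have hε1 : ε ≤ 1 := by
    rw [hε]
    exact (min_le_left _ _).trans (min_le_left _ _)
  have hε2 : ε ≤ η := by
    rw [hε]
    exact (min_le_left _ _).trans (min_le_right _ _)
  have hε3 : ε * B ≤ c₀ / 128 := by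
    have h1 : ε ≤ c₀ / (128 * B) := by
      rw [hε]
      exact min_le_right _ _
    have h2 := mul_le_mul_of_nonneg_right h1 hBR.le
    have h3 : c₀ / (128 * B) * B = c₀ / 128 := by field_simp
    linarith
  have hε4 : ε ≤ c₀ / 128 := by
    have h1 := mul_le_mul_of_nonneg_left hB1 hε0.le
    linarith
  obtain ⟨θ, κ₁, c', hθ, hκ₁, hc', hbody⟩ := msd_body n hε0 hε1 hM hc (le_refl (0 : ℝ))
  obtain ⟨Q, hQ⟩ : ∃ Q : ℝ, Q = B * (|Cc n (c' + n)| + |Cb n| + 1) + Real.log (n + 1) + 1 :=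
    ⟨_, rfl⟩
  have hQ0 : 0 ≤ Q := by
    rw [hQ]
    have h1 : 0 ≤ Real.log ((n : ℝ) + 1) := Real.log_nonneg (by linarith)
    positivity
  obtain ⟨K₀, hK₀⟩ := exists_nat_gt ((κ₁ + 128 * Q / c₀) / Real.log 2)
  refine ⟨θ, hθ, K₀, ?_⟩
  intro K hK Ω Q₀ γ _ p P g ν N l r p0 p1 hH hl hlB hlm hlr hNF
  obtain ⟨κ, hκ⟩ : ∃ κ : ℝ, κ = K * Real.log 2 := ⟨_, rfl⟩
  rw [← hκ] at hH hNF ⊢
  have hκ1 : κ₁ + 128 * Q / c₀ ≤ κ := by
    rw [div_lt_iff₀ hl0] at hK₀
    have h1 : (K₀ : ℝ) * Real.log 2 ≤ K * Real.log 2 :=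
      mul_le_mul_of_nonneg_right (by exact_mod_cast hK) hl0.le
    rw [hκ]
    linarith
  have hQc : 0 ≤ 128 * Q / c₀ := by positivity
  have hκ0 : 0 < κ := by linarith
  have hQκ : Q ≤ c₀ * κ / 128 := by
    have h1 : 128 * Q / c₀ ≤ κ := by linarith
    rw [div_le_iff₀ hc₀] at h1
    linarith
  obtain ⟨Vs, F⟩ := hbody κ (by linarith) (lin_triv P g ν (fb n K) p0 p1) (det_fb n K) le_rfl
    (by positivity) (by
    have e1 : CH p (fun ω => cl (fb n K) (ν (P ω))) (fun ω => g (P ω)) =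
        CH p (fun ω => fl K (ν (P ω))) (fun ω => g (P ω)) := by
      congr 1
      funext ω
      exact cl_fb K _
    rw [e1]
    exact hH)
  -- the numbers
  obtain ⟨s₀, hs₀⟩ : ∃ s₀ : ℕ, s₀ = ⌊c₀ / 4 * K⌋₊ := ⟨_, rfl⟩
  obtain ⟨e₀, he₀⟩ : ∃ e₀ : ℕ, e₀ = ⌈ε * K⌉₊ := ⟨_, rfl⟩
  have hK0 : (0 : ℝ) ≤ K := Nat.cast_nonneg K
  have hs1 : (s₀ : ℝ) ≤ c₀ / 4 * K := by
    rw [hs₀]
    exact Nat.floor_le (by positivity)
  have hs2 : c₀ / 4 * K < s₀ + 1 := by
    rw [hs₀]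
    exact Nat.lt_floor_add_one _
  have he1 : ε * K ≤ e₀ := by
    rw [he₀]
    exact Nat.le_ceil _
  have he2 : (e₀ : ℝ) < ε * K + 1 := by
    rw [he₀]
    exact Nat.ceil_lt_add_one (by positivity)
  have hs₀K : s₀ ≤ K := by
    have h1 : (s₀ : ℝ) ≤ K := by
      have h2 : c₀ / 4 * K ≤ 1 * K := mul_le_mul_of_nonneg_right (by linarith) hK0
      linarith
    exact_mod_cast h1
  have hpow : ∀ m : ℕ, (2 : ℝ) ^ m = Real.exp (m * Real.log 2) := fun m => by
    rw [mul_comm, Real.exp_mul, Real.exp_log (by norm_num), Real.rpow_natCast]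
  have hexp : ∀ s : ℕ, Real.exp (ε * κ) * (2 : ℝ) ^ s ≤ (2 : ℝ) ^ (s + e₀) := by
    intro s
    rw [pow_add, mul_comm]
    refine mul_le_mul_of_nonneg_left ?_ (by positivity)
    rw [hpow e₀]
    refine Real.exp_le_exp.2 ?_
    rw [hκ]
    have := mul_le_mul_of_nonneg_right he1 hl0.le
    linarith
  -- the covector
  obtain ⟨Cv, hCv⟩ : ∃ Cv : Q₀ → Fin n → ℝ, Cv = fun x =>
    if h : ∃ m : Fin n → ℝ, m N = 1 ∧ (∀ i, |m i| ≤ (2 : ℝ) ^ r) ∧
      ∀ j, |∑ i, m i * Vs x i j| ≤ ((2 : ℝ) ^ s₀)⁻¹ then h.choose else 0 := ⟨_, rfl⟩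
  have hCv1 : ∀ x, Cv x = 0 ∨ (Cv x N = 1 ∧ (∀ i, |Cv x i| ≤ (2 : ℝ) ^ r) ∧
      ∀ j, |∑ i, Cv x i * Vs x i j| ≤ ((2 : ℝ) ^ s₀)⁻¹) := by
    intro x
    by_cases h : ∃ m : Fin n → ℝ, m N = 1 ∧ (∀ i, |m i| ≤ (2 : ℝ) ^ r) ∧
      ∀ j, |∑ i, m i * Vs x i j| ≤ ((2 : ℝ) ^ s₀)⁻¹
    · right
      have e : Cv x = h.choose := by
        rw [hCv]
        simp only
        rw [dif_pos h]
      rw [e]
      exact h.choose_spec
    · left
      rw [hCv]
      simp only
      rw [dif_neg h]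
  have hCv2 : ∀ x, (∃ m : Fin n → ℝ, m N = 1 ∧ (∀ i, |m i| ≤ (2 : ℝ) ^ r) ∧
      ∀ j, |∑ i, m i * Vs x i j| ≤ ((2 : ℝ) ^ s₀)⁻¹) → Cv x ≠ 0 := by
    intro x h
    have e : Cv x = h.choose := by
      rw [hCv]
      simp only
      rw [dif_pos h]
    intro e0
    have h1 := h.choose_spec.1
    rw [← e, e0] at h1
    simp at h1
  refine ⟨Cv, fun x => ?_, ?_, fun D => ?_⟩
  · rcases hCv1 x with h | h
    · exact Or.inl h
    · exact Or.inr ⟨h.1, h.2.1⟩
  · -- the probability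
    obtain ⟨X, hX⟩ : ∃ X, X = Pq p (fun ω => Cv (P ω) ≠ 0) := ⟨_, rfl⟩
    rw [← hX]
    have hXc := Pq_compl p1 (fun ω => Cv (P ω) ≠ 0)
    rw [← hX] at hXc
    obtain ⟨ρ, hρ⟩ : ∃ ρ, ρ = 1 - X - ε := ⟨_, rfl⟩
    rcases le_or_gt ρ 0 with hρ0 | hρ0
    · linarith
    obtain ⟨m, hm⟩ : ∃ m : ℕ → ℕ, m = fun j => max (l j) s₀ := ⟨_, rfl⟩
    have hblk : ∀ j ∈ Finset.range B, ρ * (((m (j + 1) : ℝ) - m j - e₀) * Real.log 2) ≤
        CH p (fun ω => fl (l (j + 1)) (ν (P ω)))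
          (fun ω => (mix N (l j) (l (j + 1)) (ν (P ω)), g (P ω))) +
        (ε * κ + |Cc n (c' + n)|) + |Cb n| := by
      intro j hj
      have hCH := CH_nonneg p0 (fun ω => fl (l (j + 1)) (ν (P ω)))
        (fun ω => (mix N (l j) (l (j + 1)) (ν (P ω)), g (P ω)))
      have hεκ : 0 ≤ ε * κ := by positivity
      rcases le_or_gt ((m (j + 1) : ℝ) - m j - e₀) 0 with h0 | h0
      · have h1 : ρ * (((m (j + 1) : ℝ) - m j - e₀) * Real.log 2) ≤ 0 :=
          mul_nonpos_of_nonneg_of_nonpos hρ0.le (mul_nonpos_of_nonpos_of_nonneg h0 hl0.le)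
        have h2 := abs_nonneg (Cc n (c' + n))
        have h3 := abs_nonneg (Cb n)
        linarith
      · have h1 : m j + e₀ < m (j + 1) := by
          have : (m j : ℝ) + e₀ < m (j + 1) := by linarith
          exact_mod_cast this
        have h2 : s₀ ≤ m j := by
          rw [hm]
          exact le_max_right _ _
        have h3 : l j ≤ m j := by
          rw [hm]
          exact le_max_left _ _
        have h4 : m (j + 1) = l (j + 1) := by
          rw [hm] at h1 h2 ⊢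
          simp only at h1 h2 ⊢
          rcases le_total (l (j + 1)) s₀ with h5 | h5
          · rw [max_eq_right h5] at h1
            omega
          · exact max_eq_left h5
        have hlK : ∀ i, i ≤ B → l i ≤ K := by
          intro i hi
          rw [← hlB]
          have : ∀ d, l i ≤ l (i + d) := by
            intro d
            induction d with
            | zero => exact le_rfl
            | succ d ih => exact ih.trans (hlm _)
          have h5 := this (B - i)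
          rwa [show i + (B - i) = B by omega] at h5
        rw [Finset.mem_range] at hj
        have h6 := piv_blk p0 F hc'.le (N := N) (s := m j) (t := m j + e₀) (k := l (j + 1))
          (r := r) (l := l j) (hexp _) (by omega) (by omega) (hlK _ (by omega)) (by
          have := hlr j
          omega)
        have h7 : 1 - X ≤ Pq p (fun ω => ∃ v, Hn N (m j) r (Vs (P ω)) v) := by
          have h8 : Pq p (fun ω => ¬Cv (P ω) ≠ 0) ≤
              Pq p (fun ω => ∃ v, Hn N (m j) r (Vs (P ω)) v) := by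
            refine Pq_mono p0 fun ω _ hω => ?_
            rcases dich N (m j) r (F.nz (P ω)) with h9 | h9
            · exact h9
            · exfalso
              refine hω (hCv2 _ ?_)
              obtain ⟨a, ha1, ha2, ha3⟩ := h9
              refine ⟨a, ha1, ha2, fun i => (ha3 i).trans ?_⟩
              exact inv_anti₀ (by positivity) (pow_le_pow_right₀ (by norm_num) h2)
          linarith
        have h8 : (0 : ℝ) ≤ (((l (j + 1) : ℝ)) - ((m j + e₀ : ℕ) : ℝ)) * Real.log 2 := by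
          refine mul_nonneg ?_ hl0.le
          have : ((m j + e₀ : ℕ) : ℝ) ≤ (l (j + 1) : ℝ) := by
            rw [← h4]
            exact_mod_cast h1.le
          linarith
        have h9 := mul_le_mul_of_nonneg_right (show ρ ≤
          Pq p (fun ω => ∃ v, Hn N (m j) r (Vs (P ω)) v) - ε by linarith) h8
        have e1 : ρ * (((m (j + 1) : ℝ) - m j - e₀) * Real.log 2) =
            ρ * ((((l (j + 1) : ℝ)) - ((m j + e₀ : ℕ) : ℝ)) * Real.log 2) := by
          rw [h4]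
          push_cast
          ring
        rw [e1]
        have h10 := le_abs_self (Cc n (c' + n))
        have h11 := le_abs_self (Cb n)
        linarith
    have hsum := Finset.sum_le_sum hblk
    rw [Finset.sum_add_distrib, Finset.sum_add_distrib, ← Finset.mul_sum, ← Finset.sum_mul,
      Finset.sum_sub_distrib] at hsum
    have htel : ∑ j ∈ Finset.range B, ((m (j + 1) : ℝ) - m j) = (K : ℝ) - s₀ := by
      rw [Finset.sum_range_sub (fun j => (m j : ℝ)), hm]
      simp only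
      rw [hlB, hl, max_eq_left hs₀K, max_eq_right (Nat.zero_le _)]
    rw [htel, Finset.sum_const, Finset.sum_const, Finset.sum_const, Finset.card_range,
      nsmul_eq_mul, nsmul_eq_mul, nsmul_eq_mul] at hsum
    -- the numbers
    have n1 : (s₀ : ℝ) * Real.log 2 ≤ c₀ / 4 * κ := by
      have := mul_le_mul_of_nonneg_right hs1 hl0.le
      rw [hκ]
      linarith
    have hBQ : (B : ℝ) * (|Cc n (c' + n)| + |Cb n| + 1) ≤ Q := by
      rw [hQ]
      have h1 : 0 ≤ Real.log ((n : ℝ) + 1) := Real.log_nonneg (by linarith)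
      linarith
    have n2 : (B : ℝ) * e₀ * Real.log 2 ≤ c₀ * κ / 128 + c₀ * κ / 128 := by
      have h1 : (B : ℝ) * e₀ * Real.log 2 ≤ B * (ε * K + 1) * Real.log 2 :=
        mul_le_mul_of_nonneg_right (mul_le_mul_of_nonneg_left he2.le hBR.le) hl0.le
      have h2 : (B : ℝ) * (ε * K + 1) * Real.log 2 = ε * B * κ + B * Real.log 2 := by
        rw [hκ]
        ring
      have h3 := mul_le_mul_of_nonneg_right hε3 hκ0.le
      have h4 : (B : ℝ) * Real.log 2 ≤ B * (|Cc n (c' + n)| + |Cb n| + 1) := by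
        refine mul_le_mul_of_nonneg_left ?_ hBR.le
        have h5 := abs_nonneg (Cc n (c' + n))
        have h6 := abs_nonneg (Cb n)
        linarith
      linarith
    have n3 : (B : ℝ) * (ε * κ + |Cc n (c' + n)|) + B * |Cb n| ≤
        c₀ * κ / 128 + c₀ * κ / 128 := by
      have h3 := mul_le_mul_of_nonneg_right hε3 hκ0.le
      have h4 : (B : ℝ) * |Cc n (c' + n)| + B * |Cb n| ≤ B * (|Cc n (c' + n)| + |Cb n| + 1) := by
        have : (B : ℝ) * (|Cc n (c' + n)| + |Cb n| + 1) =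
            B * |Cc n (c' + n)| + B * |Cb n| + B := by ring
        linarith
      have h5 : (B : ℝ) * (ε * κ + |Cc n (c' + n)|) = ε * B * κ + B * |Cc n (c' + n)| := by ring
      linarith
    have n4 : (1 - 9 / 32 * c₀) * κ ≤ ((K : ℝ) - s₀ - B * e₀) * Real.log 2 := by
      have e1 : ((K : ℝ) - s₀ - B * e₀) * Real.log 2 =
          κ - s₀ * Real.log 2 - B * e₀ * Real.log 2 := by
        rw [hκ]
        ring
      rw [e1]
      linarith
    have n5 : ρ * ((1 - 9 / 32 * c₀) * κ) ≤ (1 - 31 / 32 * c₀) * κ := by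
      have h1 := mul_le_mul_of_nonneg_left n4 hρ0.le
      linarith
    have n6 : ρ * (1 - 9 / 32 * c₀) ≤ 1 - 31 / 32 * c₀ := by
      refine le_of_mul_le_mul_right ?_ hκ0
      linarith
    have n7 : ρ ≤ 1 - 22 / 32 * c₀ := by
      have h1 : 1 - 31 / 32 * c₀ ≤ (1 - 22 / 32 * c₀) * (1 - 9 / 32 * c₀) := by
        nlinarith [mul_pos hc₀ hc₀]
      have h2 : (0 : ℝ) < 1 - 9 / 32 * c₀ := by linarith
      exact le_of_mul_le_mul_right (n6.trans h1) h2
    linarith
  · -- the data are killed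
    have h1 := F.dat D
    refine (Pq_mono D.k0 fun w _ k => ?_).trans (h1.trans hε2)
    intro hinc
    obtain ⟨j, hj⟩ := k
    refine absurd hj (not_lt.2 ?_)
    rcases hCv1 (D.Pt w) with h | h
    · rw [h]
      simp only [Pi.zero_apply, zero_mul, Finset.sum_const_zero, abs_zero]
      exact (Real.exp_pos _).le
    · have hVs : (Vs (D.Pt w)) * (Vs (D.Pt w))⁻¹ = 1 :=
        Matrix.mul_nonsing_inv _ (isUnit_iff_ne_zero.2 (F.nz _))
      have e3 : ∑ i, Cv (D.Pt w) i * D.V w i j = ∑ a, (∑ i, Cv (D.Pt w) i * Vs (D.Pt w) i a) *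
          ((Vs (D.Pt w))⁻¹ * D.V w) a j := by
        have e4 : D.V w = Vs (D.Pt w) * ((Vs (D.Pt w))⁻¹ * D.V w) := by
          rw [← Matrix.mul_assoc, hVs, Matrix.one_mul]
        calc ∑ i, Cv (D.Pt w) i * D.V w i j = ∑ i, Cv (D.Pt w) i *
              (Vs (D.Pt w) * ((Vs (D.Pt w))⁻¹ * D.V w)) i j := by rw [← e4]
          _ = ∑ i, ∑ a, Cv (D.Pt w) i * Vs (D.Pt w) i a * ((Vs (D.Pt w))⁻¹ * D.V w) a j := by
              refine Finset.sum_congr rfl fun i _ => ?_
              rw [Matrix.mul_apply, Finset.mul_sum]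
              exact Finset.sum_congr rfl fun a _ => by ring
          _ = _ := by
              rw [Finset.sum_comm]
              exact Finset.sum_congr rfl fun a _ => by rw [Finset.sum_mul]
      rw [e3]
      calc |∑ a, (∑ i, Cv (D.Pt w) i * Vs (D.Pt w) i a) * ((Vs (D.Pt w))⁻¹ * D.V w) a j| ≤
            ∑ a, |(∑ i, Cv (D.Pt w) i * Vs (D.Pt w) i a) * ((Vs (D.Pt w))⁻¹ * D.V w) a j| :=
            Finset.abs_sum_le_sum_abs _ _
        _ ≤ ∑ _a : Fin n, ((2 : ℝ) ^ s₀)⁻¹ * Real.exp (ε * κ) :=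
            Finset.sum_le_sum fun a _ => by
              rw [abs_mul]
              refine mul_le_mul (h.2.2 a) ?_ (abs_nonneg _) (by positivity)
              exact (Finset.single_le_sum (f := fun j => |((Vs (D.Pt w))⁻¹ * D.V w) a j|)
                (fun _ _ => abs_nonneg _) (Finset.mem_univ j)).trans (hinc a)
        _ = n * (((2 : ℝ) ^ s₀)⁻¹ * Real.exp (ε * κ)) := by
            rw [Finset.sum_const, Finset.card_univ, Fintype.card_fin, nsmul_eq_mul]
        _ ≤ Real.exp (Real.log (n + 1)) * (Real.exp (-(s₀ * Real.log 2)) *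
              Real.exp (ε * κ)) := by
            rw [hpow s₀, ← Real.exp_neg, Real.exp_log (by positivity)]
            exact mul_le_mul_of_nonneg_right (by linarith) (by positivity)
        _ = Real.exp (Real.log (n + 1) + (-(s₀ * Real.log 2) + ε * κ)) := by
            rw [← Real.exp_add, ← Real.exp_add]
        _ ≤ Real.exp (-(c₀ / 8 * κ)) := by
            refine Real.exp_le_exp.2 ?_
            have h2 : Real.log ((n : ℝ) + 1) + 1 ≤ Q := by
              rw [hQ]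
              have : 0 ≤ (B : ℝ) * (|Cc n (c' + n)| + |Cb n| + 1) := by positivity
              linarith
            have h3 : c₀ / 4 * κ ≤ s₀ * Real.log 2 + Real.log 2 := by
              have := mul_le_mul_of_nonneg_right hs2.le hl0.le
              rw [hκ]
              linarith
            have h4 := mul_le_mul_of_nonneg_right hε4 hκ0.le
            linarith

end Pool.MSD
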