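import Pool.Agent.H32.Dense.EntX

/-!
# Entropy lemmas for LEMMA MSD

`P` is the point, `R, R₂` are values which are conditionally independent given the point, `G` is a
function of the point.
-/

set_option autoImplicit false

namespace Pool.MSD

open Finset Real
open Pool.Agent.H49.Ent Pool.Agent.H32.Dense

open Classical in
/-- The probability of an event. -/
noncomputable def Pq {W : Type} [Fintype W] (q : W → ℝ) (A : W → Prop) : ℝ :=
  ∑ w, if A w then q w else 0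

section

variable {W Q₀ ρ ρ' γ α β : Type} [Fintype W] {q : W → ℝ}

/-- The information of `R` about the point `P`, given `G`. -/
noncomputable def Inf (q : W → ℝ) (P : W → Q₀) (R : W → ρ) (G : W → γ) : ℝ :=
  CH q P G - CH q P (fun w => (R w, G w))

/-- In terms of the entropy of `R`. -/
theorem Inf_eq (h0 : ∀ w, 0 ≤ q w) (P : W → Q₀) (R : W → ρ) (G : W → γ) (hG : Det q P G) :
    Inf q P R G = CH q R G - CH q R P := by
  unfold Inf CH
  have e1 : H q (fun w => (P w, G w)) = H q P :=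
    H_congr h0 (fun w w' a b h => Prod.ext h (hG w w' a b h))
      (fun w w' _ _ h => (Prod.ext_iff.mp h).1)
  have e2 : H q (fun w => (P w, (R w, G w))) = H q (fun w => (R w, P w)) := by
    refine H_congr h0 (fun w w' a b h => ?_) (fun w w' a b h => ?_)
    · have h1 := Prod.ext_iff.mp h
      exact Prod.ext h1.2 (Prod.ext h1.1 (hG w w' a b h1.2))
    · have h1 := Prod.ext_iff.mp h
      exact Prod.ext (Prod.ext_iff.mp h1.2).1 h1.1
  rw [e1, e2]
  ring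

theorem Inf_nonneg (h0 : ∀ w, 0 ≤ q w) (P : W → Q₀) (R : W → ρ) (G : W → γ) :
    0 ≤ Inf q P R G := by
  unfold Inf
  have : CH q P (fun w => (R w, G w)) ≤ CH q P G :=
    CH_mono_cond h0 fun w w' _ _ h => (Prod.ext_iff.mp h).2
  linarith

/-- The information of two conditionally independent values. -/
theorem Inf_pair (h0 : ∀ w, 0 ≤ q w) (P : W → Q₀) (R : W → ρ) (R' : W → ρ') (G : W → γ)
    (hG : Det q P G)
    (hci : H q (fun w => (R w, P w)) + H q (fun w => (R' w, P w)) ≤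
      H q (fun w => ((R w, R' w), P w)) + H q P) :
    Inf q P (fun w => (R w, R' w)) G ≤ Inf q P R G + Inf q P R' G := by
  rw [Inf_eq h0 P _ G hG, Inf_eq h0 P R G hG, Inf_eq h0 P R' G hG]
  have h1 : H q (fun w => ((R w, R' w), G w)) + H q G ≤ H q (fun w => (R w, G w)) +
      H q (fun w => (R' w, G w)) := by
    refine submod h0 (fun w w' _ _ h => (Prod.ext_iff.mp h).2)
      (fun w w' _ _ h => (Prod.ext_iff.mp h).2) (fun w w' _ _ h => ?_)
    have h1 := Prod.ext_iff.mp h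
    have h2 := Prod.ext_iff.mp h1.1
    have h3 := Prod.ext_iff.mp h1.2
    exact Prod.ext (Prod.ext h2.1 h3.1) h2.2
  unfold CH
  linarith

/-- A second value, conditionally independent given the point, decreases the entropy of a function
of the point and the first value by its information about the point at most. -/
theorem ci_loss (h0 : ∀ w, 0 ≤ q w) (P : W → Q₀) (R : W → ρ) (R' : W → ρ') (G : W → γ)
    (X : W → α) (Y : W → β) (hG : Det q P G) (hX : Det q (fun w => (R w, P w)) X)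
    (hY : Det q (fun w => (R w, P w)) Y)
    (hci : H q (fun w => (R w, P w)) + H q (fun w => (R' w, P w)) ≤
      H q (fun w => ((R w, R' w), P w)) + H q P) :
    CH q X (fun w => (Y w, (R w, G w))) - Inf q P R' G ≤
      CH q X (fun w => (Y w, ((R w, R' w), G w))) := by
  rw [Inf_eq h0 P R' G hG]
  have s1 : H q (fun w => ((R w, R' w), P w)) + H q (fun w => (X w, (Y w, (R w, G w)))) ≤
      H q (fun w => (R w, P w)) + H q (fun w => (X w, (Y w, ((R w, R' w), G w)))) := by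
    refine submod h0 (fun w w' a b h => ?_) (fun w w' _ _ h => ?_) (fun w w' _ _ h => ?_)
    · have h1 := Prod.ext_iff.mp h
      exact Prod.ext (hX w w' a b h) (Prod.ext (hY w w' a b h)
        (Prod.ext h1.1 (hG w w' a b h1.2)))
    · have h1 := Prod.ext_iff.mp h
      have h2 := Prod.ext_iff.mp h1.2
      have h3 := Prod.ext_iff.mp h2.2
      have h4 := Prod.ext_iff.mp h3.1
      exact Prod.ext h1.1 (Prod.ext h2.1 (Prod.ext h4.1 h3.2))
    · have h1 := Prod.ext_iff.mp h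
      have h2 := Prod.ext_iff.mp h1.1
      have h3 := Prod.ext_iff.mp h1.2
      have h4 := Prod.ext_iff.mp h3.2
      have h5 := Prod.ext_iff.mp h4.2
      exact Prod.ext h5.1 h2.2
  have s2 : H q (fun w => (Y w, ((R w, R' w), G w))) + H q G ≤
      H q (fun w => (Y w, (R w, G w))) + H q (fun w => (R' w, G w)) := by
    refine submod h0 (fun w w' a b h => ?_) (fun w w' _ _ h => ?_) (fun w w' _ _ h => ?_)
    · exact (Prod.ext_iff.mp (Prod.ext_iff.mp h).2).2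
    · exact (Prod.ext_iff.mp h).2
    · have h1 := Prod.ext_iff.mp h
      have h2 := Prod.ext_iff.mp h1.1
      have h3 := Prod.ext_iff.mp h2.2
      have h4 := Prod.ext_iff.mp h1.2
      exact Prod.ext h2.1 (Prod.ext (Prod.ext h3.1 h4.1) h3.2)
  unfold CH
  linarith

end

section Glue

variable {W₁ W₂ Q₀ ρ ρ' α β : Type} [Fintype W₁] [Fintype W₂] {p₁ : W₁ → ℝ} {p₂ : W₂ → ℝ}
  {Z₁ : W₁ → Q₀} {Z₂ : W₂ → Q₀}

/-- Conditional independence in a glued law. -/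
theorem glue_ci (h₁ : ∀ ω, 0 ≤ p₁ ω) (h₂ : ∀ ω, 0 ≤ p₂ ω)
    (hZ : ∀ z, law p₁ Z₁ z = law p₂ Z₂ z) (X : W₁ → α) (Y : W₂ → β) :
    H (glue p₁ p₂ Z₁ Z₂) (fun w => (X w.1, Z₁ w.1)) +
      H (glue p₁ p₂ Z₁ Z₂) (fun w => (Y w.2, Z₁ w.1)) =
      H (glue p₁ p₂ Z₁ Z₂) (fun w => ((X w.1, Y w.2), Z₁ w.1)) +
      H (glue p₁ p₂ Z₁ Z₂) (fun w => Z₁ w.1) := by
  have hg : ∀ w, 0 ≤ glue p₁ p₂ Z₁ Z₂ w := glue_nonneg h₁ h₂
  have hs : ∀ w, 0 < glue p₁ p₂ Z₁ Z₂ w → Z₁ w.1 = Z₂ w.2 := fun w hw =>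
    ((glue_pos_iff h₁ h₂ w).1 hw).2.2
  have e1 := H_glue_pair h₁ h₂ hZ (X := fun ω => (X ω, Z₁ ω)) (Y := fun ω => (Y ω, Z₂ ω))
    (fun _ _ _ _ h => (Prod.ext_iff.mp h).2) (fun _ _ _ _ h => (Prod.ext_iff.mp h).2)
  have e2 : H (glue p₁ p₂ Z₁ Z₂) (fun w => ((X w.1, Z₁ w.1), (Y w.2, Z₂ w.2))) =
      H (glue p₁ p₂ Z₁ Z₂) (fun w => ((X w.1, Y w.2), Z₁ w.1)) := by
    refine H_congr hg (fun w w' a b h => ?_) (fun w w' _ _ h => ?_)
    · have h1 := Prod.ext_iff.mp h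
      have h2 := Prod.ext_iff.mp h1.1
      have h3 : Z₁ w.1 = Z₁ w'.1 := h1.2
      exact Prod.ext (Prod.ext h2.1 h3) (Prod.ext h2.2 (by
        change Z₂ w.2 = Z₂ w'.2
        rw [← hs w a, ← hs w' b, h3]))
    · have h1 := Prod.ext_iff.mp h
      have h2 := Prod.ext_iff.mp h1.1
      have h3 := Prod.ext_iff.mp h1.2
      exact Prod.ext (Prod.ext h2.1 h3.1) h2.2
  have e3 : H (glue p₁ p₂ Z₁ Z₂) (fun w => (Y w.2, Z₁ w.1)) =
      H (glue p₁ p₂ Z₁ Z₂) (fun w => (Y w.2, Z₂ w.2)) := by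
    refine H_congr hg (fun w w' a b h => ?_) (fun w w' a b h => ?_)
    · have h1 := Prod.ext_iff.mp h
      exact Prod.ext h1.1 (by
        change Z₁ w.1 = Z₁ w'.1
        rw [hs w a, hs w' b]
        exact h1.2)
    · have h1 := Prod.ext_iff.mp h
      exact Prod.ext h1.1 (by
        change Z₂ w.2 = Z₂ w'.2
        rw [← hs w a, ← hs w' b]
        exact h1.2)
  have e4 := H_glue_fst h₁ hZ (fun ω => (X ω, Z₁ ω))
  have e5 := H_glue_snd h₂ hZ (fun ω => (Y ω, Z₂ ω))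
  have e6 := H_glue_fst h₁ hZ Z₁
  rw [← e2, e1, e3, e4, e5, e6]
  ring

theorem Ex_glue_fst (h₁ : ∀ ω, 0 ≤ p₁ ω) (hZ : ∀ z, law p₁ Z₁ z = law p₂ Z₂ z) (f : W₁ → ℝ) :
    Ex (glue p₁ p₂ Z₁ Z₂) (fun w => f w.1) = Ex p₁ f := by
  unfold Ex
  rw [Fintype.sum_prod_type]
  refine Finset.sum_congr rfl fun ω _ => ?_
  change ∑ y, glue p₁ p₂ Z₁ Z₂ (ω, y) * f ω = p₁ ω * f ω
  rw [← Finset.sum_mul, glue_fst h₁ hZ]

theorem Ex_glue_snd (h₂ : ∀ ω, 0 ≤ p₂ ω) (hZ : ∀ z, law p₁ Z₁ z = law p₂ Z₂ z) (f : W₂ → ℝ) :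
    Ex (glue p₁ p₂ Z₁ Z₂) (fun w => f w.2) = Ex p₂ f := by
  unfold Ex
  rw [Fintype.sum_prod_type, Finset.sum_comm]
  refine Finset.sum_congr rfl fun ω _ => ?_
  change ∑ y, glue p₁ p₂ Z₁ Z₂ (y, ω) * f ω = p₂ ω * f ω
  rw [← Finset.sum_mul, glue_snd h₂ hZ]

theorem CH_glue_fst (h₁ : ∀ ω, 0 ≤ p₁ ω) (hZ : ∀ z, law p₁ Z₁ z = law p₂ Z₂ z) (X : W₁ → α)
    (Y : W₁ → β) : CH (glue p₁ p₂ Z₁ Z₂) (fun w => X w.1) (fun w => Y w.1) = CH p₁ X Y := by
  unfold CH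
  rw [H_glue_fst h₁ hZ (fun ω => (X ω, Y ω)), H_glue_fst h₁ hZ Y]

theorem CH_glue_snd (h₂ : ∀ ω, 0 ≤ p₂ ω) (hZ : ∀ z, law p₁ Z₁ z = law p₂ Z₂ z) (X : W₂ → α)
    (Y : W₂ → β) : CH (glue p₁ p₂ Z₁ Z₂) (fun w => X w.2) (fun w => Y w.2) = CH p₂ X Y := by
  unfold CH
  rw [H_glue_snd h₂ hZ (fun ω => (X ω, Y ω)), H_glue_snd h₂ hZ Y]

end Glue

end Pool.MSD
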