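import Pool.Agent.H5.FAD.Sum
import Pool.Agent.H38.MSD.Ent

/-!
# LEMMA MSD: data at the points, and the join of two data

A datum is a value `R` with a kernel from the points and a body `V`, a function of `R` and of the
context `g` of the point; `R` has little information about the point, and the height `ν` is full in
the body `V` down to the fine body `T`, given `R` and `g`.
-/

set_option autoImplicit false

namespace Pool.MSD

open Matrix Finset Real
open Pool.Agent.H49.Ent Pool.Agent.H32.Dense Pool.FAD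

/-- **Data at the points.** -/
structure Dtm {Ω Q₀ γ : Type} [Fintype Ω] {n : ℕ} (p : Ω → ℝ) (P : Ω → Q₀) (g : Q₀ → γ)
    (ν : Q₀ → Fin n → ℝ) (T : Matrix (Fin n) (Fin n) ℝ) (a c : ℝ) where
  /-- the space -/
  W : Type
  ft : Fintype W
  /-- the law -/
  κ : W → ℝ
  k0 : ∀ w, 0 ≤ κ w
  k1 : ∑ w, κ w = 1
  /-- the point -/
  Pt : W → Q₀
  lw : ∀ x, law κ Pt x = law p P x
  ρ : Type
  /-- the value -/
  R : W → ρ
  /-- the body -/
  V : W → Matrix (Fin n) (Fin n) ℝ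
  dV : Det κ (fun w => (R w, g (Pt w))) V
  nz : ∀ w, (V w).det ≠ 0
  inc : ∀ w, Inc c T (V w)
  inf : Inf κ Pt R (fun w => g (Pt w)) ≤ a
  df : DF κ (fun _ => T) V (fun w => ν (Pt w)) (fun w => (R w, g (Pt w))) ≤ a

attribute [instance] Dtm.ft

section Supp

variable {W α β : Type} [Fintype W] {q : W → ℝ}

theorem H_supp (h0 : ∀ w, 0 ≤ q w) {X Y : W → α} (h : ∀ w, 0 < q w → X w = Y w) :
    H q X = H q Y :=
  H_congr h0 (fun w w' a b e => by rw [h w a, h w' b, e])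
    (fun w w' a b e => by rw [← h w a, ← h w' b, e])

theorem CH_supp (h0 : ∀ w, 0 ≤ q w) {X X' : W → α} {Y Y' : W → β}
    (h : ∀ w, 0 < q w → X w = X' w) (h' : ∀ w, 0 < q w → Y w = Y' w) :
    CH q X Y = CH q X' Y' := by
  unfold CH
  rw [H_supp h0 (X := fun w => (X w, Y w)) (Y := fun w => (X' w, Y' w)) (fun w hw => by
    rw [h w hw, h' w hw]), H_supp h0 h']

theorem Ex_supp (h0 : ∀ w, 0 ≤ q w) {f f' : W → ℝ} (h : ∀ w, 0 < q w → f w = f' w) :
    Ex q f = Ex q f' :=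
  le_antisymm (Ex_mono h0 fun w hw => (h w hw).le) (Ex_mono h0 fun w hw => (h w hw).ge)

end Supp

section

variable {Ω Q₀ γ : Type} [Fintype Ω] {n : ℕ} {p : Ω → ℝ} {P : Ω → Q₀} {g : Q₀ → γ}
  {ν : Q₀ → Fin n → ℝ} {T : Matrix (Fin n) (Fin n) ℝ} {a a' c : ℝ}

theorem Cp_nonneg (n : ℕ) {c : ℝ} (hc : 0 ≤ c) : 0 ≤ Cp n c := by
  have h1 : ∀ x : ℝ, 0 ≤ x → 0 ≤ (n : ℝ) * Real.log (2 * (x + 1) + 1) := fun x hx =>
    mul_nonneg (Nat.cast_nonneg n) (Real.log_nonneg (by linarith))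
  have h2 : 0 ≤ (n : ℝ) * Real.log (2 + 3 * (n * (n * c))) :=
    mul_nonneg (Nat.cast_nonneg n) (Real.log_nonneg (by
      have : 0 ≤ (n : ℝ) * (n * c) := by positivity
      linarith))
  have h3 := h1 n (Nat.cast_nonneg n)
  have h4 := h1 c hc
  unfold Cp Cc
  linarith

theorem Dtm.a0 (D : Dtm p P g ν T a c) : 0 ≤ a := (Inf_nonneg D.k0 _ _ _).trans D.inf

/-- The weaker levels. -/
def Dtm.mono (D : Dtm p P g ν T a c) {c' : ℝ} (ha : a ≤ a') (hc : c ≤ c') :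
    Dtm p P g ν T a' c' :=
  ⟨D.W, D.ft, D.κ, D.k0, D.k1, D.Pt, D.lw, D.ρ, D.R, D.V, D.dV, D.nz,
    fun w => (D.inc w).mono hc, D.inf.trans ha, D.df.trans ha⟩

/-- The law of the join: conditionally independent given the point. -/
noncomputable def jl (D : Dtm p P g ν T a c) (D' : Dtm p P g ν T a' c) : D.W × D'.W → ℝ :=
  glue D.κ D'.κ D.Pt D'.Pt

theorem jl_eq (D : Dtm p P g ν T a c) (D' : Dtm p P g ν T a' c) (z : Q₀) :
    law D.κ D.Pt z = law D'.κ D'.Pt z := by rw [D.lw, D'.lw]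

theorem jl_nonneg (D : Dtm p P g ν T a c) (D' : Dtm p P g ν T a' c) (w : D.W × D'.W) :
    0 ≤ jl D D' w := glue_nonneg D.k0 D'.k0 w

theorem jl_sum (D : Dtm p P g ν T a c) (D' : Dtm p P g ν T a' c) : ∑ w, jl D D' w = 1 := by
  unfold jl
  rw [sum_glue D.k0 (jl_eq D D'), D.k1]

theorem jl_pos (D : Dtm p P g ν T a c) (D' : Dtm p P g ν T a' c) {w : D.W × D'.W}
    (h : 0 < jl D D' w) : 0 < D.κ w.1 ∧ 0 < D'.κ w.2 ∧ D.Pt w.1 = D'.Pt w.2 :=
  (glue_pos_iff D.k0 D'.k0 w).1 h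

/-- Conditional independence of the two values. -/
theorem jl_ci (D : Dtm p P g ν T a c) (D' : Dtm p P g ν T a' c) :
    H (jl D D') (fun w => (D.R w.1, D.Pt w.1)) + H (jl D D') (fun w => (D'.R w.2, D.Pt w.1)) ≤
      H (jl D D') (fun w => ((D.R w.1, D'.R w.2), D.Pt w.1)) + H (jl D D') (fun w => D.Pt w.1) :=
  (glue_ci D.k0 D'.k0 (jl_eq D D') D.R D'.R).le

theorem jl_inf1 (D : Dtm p P g ν T a c) (D' : Dtm p P g ν T a' c) :
    Inf (jl D D') (fun w => D.Pt w.1) (fun w => D.R w.1) (fun w => g (D.Pt w.1)) ≤ a := by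
  have h := D.inf
  unfold Inf at h ⊢
  unfold jl
  rw [CH_glue_fst D.k0 (jl_eq D D') D.Pt (fun w => g (D.Pt w)),
    CH_glue_fst D.k0 (jl_eq D D') D.Pt (fun w => (D.R w, g (D.Pt w)))]
  exact h

theorem jl_inf2 (D : Dtm p P g ν T a c) (D' : Dtm p P g ν T a' c) :
    Inf (jl D D') (fun w => D.Pt w.1) (fun w => D'.R w.2) (fun w => g (D.Pt w.1)) ≤ a' := by
  have h := D'.inf
  have e : ∀ w, 0 < jl D D' w → D.Pt w.1 = D'.Pt w.2 := fun w hw => (jl_pos D D' hw).2.2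
  unfold Inf at h ⊢
  rw [CH_supp (jl_nonneg D D') (X' := fun w => D'.Pt w.2) (Y' := fun w => g (D'.Pt w.2))
      e (fun w hw => by rw [e w hw]),
    CH_supp (jl_nonneg D D') (X' := fun w => D'.Pt w.2)
      (Y' := fun w => (D'.R w.2, g (D'.Pt w.2))) e (fun w hw => by simp only [e w hw])]
  unfold jl
  rw [CH_glue_snd D'.k0 (jl_eq D D') D'.Pt (fun w => g (D'.Pt w)),
    CH_glue_snd D'.k0 (jl_eq D D') D'.Pt (fun w => (D'.R w, g (D'.Pt w)))]
  exact h

/-- The deficit of the first body in the join. -/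
theorem jl_df1 (D : Dtm p P g ν T a c) (D' : Dtm p P g ν T a' c) :
    DF (jl D D') (fun _ => T) (fun w => D.V w.1) (fun w => ν (D.Pt w.1))
      (fun w => ((D.R w.1, D'.R w.2), g (D.Pt w.1))) ≤ a + a' := by
  have h := D.df
  unfold DF at h ⊢
  have e1 : Ex (jl D D') (fun w => lv (D.V w.1) - lv T) =
      Ex D.κ (fun w => lv (D.V w) - lv T) :=
    Ex_glue_fst D.k0 (jl_eq D D') (fun w => lv (D.V w) - lv T)
  have e2 : CH (jl D D') (fun w => cl T (ν (D.Pt w.1)))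
      (fun w => (cl (D.V w.1) (ν (D.Pt w.1)), (D.R w.1, g (D.Pt w.1)))) =
      CH D.κ (fun w => cl T (ν (D.Pt w))) (fun w => (cl (D.V w) (ν (D.Pt w)),
        (D.R w, g (D.Pt w)))) :=
    CH_glue_fst D.k0 (jl_eq D D') (fun w => cl T (ν (D.Pt w)))
      (fun w => (cl (D.V w) (ν (D.Pt w)), (D.R w, g (D.Pt w))))
  have e3 := ci_loss (jl_nonneg D D') (fun w => D.Pt w.1) (fun w => D.R w.1)
    (fun w => D'.R w.2) (fun w => g (D.Pt w.1)) (fun w => cl T (ν (D.Pt w.1)))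
    (fun w => cl (D.V w.1) (ν (D.Pt w.1))) (fun _ _ _ _ h => congrArg g h)
    (fun w w' _ _ h => by
      have h1 := Prod.ext_iff.mp h
      simp only at h1 ⊢
      rw [h1.2])
    (fun w w' u v h => by
      have h1 := Prod.ext_iff.mp h
      simp only at h1 ⊢
      have h2 : D.V w.1 = D.V w'.1 := D.dV w.1 w'.1 (jl_pos D D' u).1 (jl_pos D D' v).1
        (by simp only; rw [h1.1, h1.2])
      rw [h1.2, h2]) (jl_ci D D')
  have e4 := jl_inf2 D D'
  linarith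

/-- The deficit of the second body in the join. -/
theorem jl_df2 (D : Dtm p P g ν T a c) (D' : Dtm p P g ν T a' c) :
    DF (jl D D') (fun _ => T) (fun w => D'.V w.2) (fun w => ν (D.Pt w.1))
      (fun w => ((D.R w.1, D'.R w.2), g (D.Pt w.1))) ≤ a' + a := by
  have h := D'.df
  have e : ∀ w, 0 < jl D D' w → D.Pt w.1 = D'.Pt w.2 := fun w hw => (jl_pos D D' hw).2.2
  unfold DF at h ⊢
  have e1 : Ex (jl D D') (fun w => lv (D'.V w.2) - lv T) =
      Ex D'.κ (fun w => lv (D'.V w) - lv T) :=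
    Ex_glue_snd D'.k0 (jl_eq D D') (fun w => lv (D'.V w) - lv T)
  have e2 : CH (jl D D') (fun w => cl T (ν (D.Pt w.1)))
      (fun w => (cl (D'.V w.2) (ν (D.Pt w.1)), (D'.R w.2, g (D.Pt w.1)))) =
      CH D'.κ (fun w => cl T (ν (D'.Pt w))) (fun w => (cl (D'.V w) (ν (D'.Pt w)),
        (D'.R w, g (D'.Pt w)))) := by
    rw [CH_supp (jl_nonneg D D') (X' := fun w => cl T (ν (D'.Pt w.2)))
      (Y' := fun w => (cl (D'.V w.2) (ν (D'.Pt w.2)), (D'.R w.2, g (D'.Pt w.2))))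
      (fun w hw => by rw [e w hw]) (fun w hw => by rw [e w hw])]
    exact CH_glue_snd D'.k0 (jl_eq D D') (fun w => cl T (ν (D'.Pt w)))
      (fun w => (cl (D'.V w) (ν (D'.Pt w)), (D'.R w, g (D'.Pt w))))
  have hci : H (jl D D') (fun w => (D'.R w.2, D.Pt w.1)) +
      H (jl D D') (fun w => (D.R w.1, D.Pt w.1)) ≤
      H (jl D D') (fun w => ((D'.R w.2, D.R w.1), D.Pt w.1)) + H (jl D D') (fun w => D.Pt w.1) := by
    have h1 := jl_ci D D'
    have h2 : H (jl D D') (fun w => ((D'.R w.2, D.R w.1), D.Pt w.1)) =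
        H (jl D D') (fun w => ((D.R w.1, D'.R w.2), D.Pt w.1)) := by
      refine H_congr (jl_nonneg D D') ?_ ?_ <;>
      · intro ω ω' _ _ h
        simp only [Prod.mk.injEq] at h ⊢
        tauto
    rw [h2]
    linarith
  have e3 := ci_loss (jl_nonneg D D') (fun w => D.Pt w.1) (fun w => D'.R w.2)
    (fun w => D.R w.1) (fun w => g (D.Pt w.1)) (fun w => cl T (ν (D.Pt w.1)))
    (fun w => cl (D'.V w.2) (ν (D.Pt w.1))) (fun _ _ _ _ h => congrArg g h)
    (fun w w' _ _ h => by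
      have h1 := Prod.ext_iff.mp h
      simp only at h1 ⊢
      rw [h1.2])
    (fun w w' u v h => by
      have h1 := Prod.ext_iff.mp h
      simp only at h1 ⊢
      have h2 : D'.V w.2 = D'.V w'.2 := D'.dV w.2 w'.2 (jl_pos D D' u).2.1
        (jl_pos D D' v).2.1 (by
          simp only
          rw [h1.1, ← e w u, ← e w' v, h1.2])
      rw [h1.2, h2]) hci
  have e4 := jl_inf1 D D'
  have e5 : CH (jl D D') (fun w => cl T (ν (D.Pt w.1)))
      (fun w => (cl (D'.V w.2) (ν (D.Pt w.1)), ((D'.R w.2, D.R w.1), g (D.Pt w.1)))) =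
      CH (jl D D') (fun w => cl T (ν (D.Pt w.1)))
      (fun w => (cl (D'.V w.2) (ν (D.Pt w.1)), ((D.R w.1, D'.R w.2), g (D.Pt w.1)))) := by
    refine CH_congr (jl_nonneg D D') ?_ ?_ ?_ ?_ <;>
    · intro ω ω' _ _ h
      simp only [Prod.mk.injEq] at h ⊢
      tauto
  linarith

theorem jl_body (D : Dtm p P g ν T a c) (D' : Dtm p P g ν T a' c) (hT : T.det ≠ 0)
    (hc : 0 ≤ c) : ∃ S : D.W × D'.W → Matrix (Fin n) (Fin n) ℝ,
    Det (jl D D') (fun w => ((D.R w.1, D'.R w.2), g (D.Pt w.1))) S ∧ (∀ w, (S w).det ≠ 0) ∧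
    (∀ w, Inc n (D.V w.1) (S w)) ∧ (∀ w, Inc n (D'.V w.2) (S w)) ∧
    DF (jl D D') (fun _ => T) S (fun w => ν (D.Pt w.1))
      (fun w => ((D.R w.1, D'.R w.2), g (D.Pt w.1))) ≤ 2 * (a + a') + Cp n c := by
  obtain ⟨S, h1, h2, h3, h4, h5⟩ := DF_pair (jl_nonneg D D') (jl_sum D D') (T := fun _ => T)
    (A := fun w => D.V w.1) (B := fun w => D'.V w.2) (fun w => ν (D.Pt w.1))
    (fun w => ((D.R w.1, D'.R w.2), g (D.Pt w.1))) (fun _ _ _ _ _ => rfl)
    (fun w w' u v h => by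
      have h1 := Prod.ext_iff.mp h
      have h2 := Prod.ext_iff.mp h1.1
      exact D.dV w.1 w'.1 (jl_pos D D' u).1 (jl_pos D D' v).1 (Prod.ext h2.1 h1.2))
    (fun w w' u v h => by
      have h1 := Prod.ext_iff.mp h
      have h2 := Prod.ext_iff.mp h1.1
      have h3 : g (D.Pt w.1) = g (D.Pt w'.1) := h1.2
      refine D'.dV w.2 w'.2 (jl_pos D D' u).2.1 (jl_pos D D' v).2.1 (Prod.ext h2.2 ?_)
      simp only
      rw [← (jl_pos D D' u).2.2, ← (jl_pos D D' v).2.2, h3])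
    (fun _ => hT) (fun w => D.nz w.1) (fun w => D'.nz w.2) hc (fun w => D.inc w.1)
    (fun w => D'.inc w.2)
  refine ⟨S, h1, h2, h3, h4, ?_⟩
  have := jl_df1 D D'
  have := jl_df2 D D'
  linarith

/-- **The join of two data.** -/
noncomputable def join (D : Dtm p P g ν T a c) (D' : Dtm p P g ν T a' c) (hT : T.det ≠ 0)
    (hc : 0 ≤ c) : Dtm p P g ν T (2 * (a + a') + Cp n c) (n * c) where
  W := D.W × D'.W
  ft := inferInstance
  κ := jl D D'
  k0 := jl_nonneg D D'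
  k1 := jl_sum D D'
  Pt := fun w => D.Pt w.1
  lw := fun x => by
    unfold jl
    rw [law_glue_fst D.k0 (jl_eq D D') D.Pt x, D.lw]
  ρ := D.ρ × D'.ρ
  R := fun w => (D.R w.1, D'.R w.2)
  V := (jl_body D D' hT hc).choose
  dV := (jl_body D D' hT hc).choose_spec.1
  nz := (jl_body D D' hT hc).choose_spec.2.1
  inc := fun w => (D.inc w.1).trans (D.nz w.1) hc ((jl_body D D' hT hc).choose_spec.2.2.1 w)
  inf := by
    have h1 := Inf_pair (jl_nonneg D D') (fun w => D.Pt w.1) (fun w => D.R w.1)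
      (fun w => D'.R w.2) (fun w => g (D.Pt w.1)) (fun _ _ _ _ h => congrArg g h)
      (jl_ci D D')
    have h2 := jl_inf1 D D'
    have h3 := jl_inf2 D D'
    have h4 := D.a0
    have h5 := D'.a0
    have h6 : 0 ≤ Cp n c := Cp_nonneg n hc
    linarith
  df := (jl_body D D' hT hc).choose_spec.2.2.2.2

theorem join_inc1 (D : Dtm p P g ν T a c) (D' : Dtm p P g ν T a' c) (hT : T.det ≠ 0)
    (hc : 0 ≤ c) (w : D.W × D'.W) : Inc n (D.V w.1) ((join D D' hT hc).V w) :=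
  (jl_body D D' hT hc).choose_spec.2.2.1 w

theorem join_inc2 (D : Dtm p P g ν T a c) (D' : Dtm p P g ν T a' c) (hT : T.det ≠ 0)
    (hc : 0 ≤ c) (w : D.W × D'.W) : Inc n (D'.V w.2) ((join D D' hT hc).V w) :=
  (jl_body D D' hT hc).choose_spec.2.2.2.1 w

end

end Pool.MSD
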