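import Pool.Agent.H38.MSD.Main
import Pool.Agent.H5.FAD.Frm

/-!
# LEMMA MSD: data with one direction

`nd K v`: the body with a long axis `v` of length `1` (`v` a unit vector or `0`), the other axes have
length `2 ^ (-K)`. If the height is full along `v`, given `R` and the context, then the closed
projection kills `v`.
-/

set_option autoImplicit false

namespace Pool.MSD

open Matrix Finset Real
open Pool.Agent.H49.Ent Pool.Agent.H32.Dense Pool.FAD Pool.STK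

section Needle

variable {n : ℕ}

/-- The needle with the axis `v`. -/
noncomputable def nd (K : ℕ) (v : Fin n → ℝ) : Matrix (Fin n) (Fin n) ℝ :=
  ((2 : ℝ) ^ K)⁻¹ • (1 + ((2 : ℝ) ^ K - 1) • vecMulVec v v)

/-- Its inverse. -/
noncomputable def ni (K : ℕ) (v : Fin n → ℝ) : Matrix (Fin n) (Fin n) ℝ :=
  (2 : ℝ) ^ K • (1 - (1 - ((2 : ℝ) ^ K)⁻¹) • vecMulVec v v)

theorem vmv_sq {v : Fin n → ℝ} (hv : v ⬝ᵥ v = 1 ∨ v = 0) :
    vecMulVec v v * vecMulVec v v = vecMulVec v v := by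
  rcases hv with h | h
  · rw [Matrix.vecMulVec_mul_vecMulVec, h, one_smul]
  · subst h
    ext i j
    simp [Matrix.mul_apply, Matrix.vecMulVec_apply]

theorem nd_mul {K : ℕ} {v : Fin n → ℝ} (hv : v ⬝ᵥ v = 1 ∨ v = 0) : nd K v * ni K v = 1 := by
  have h2 : (2 : ℝ) ^ K ≠ 0 := by positivity
  unfold nd ni
  rw [Matrix.smul_mul, Matrix.mul_smul, smul_smul, inv_mul_cancel₀ h2, one_smul]
  rw [Matrix.add_mul, Matrix.mul_sub, Matrix.mul_sub, Matrix.one_mul, Matrix.one_mul,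
    Matrix.mul_one, Matrix.smul_mul, Matrix.mul_smul, vmv_sq hv, smul_smul]
  have e : ((2 : ℝ) ^ K - 1) * (1 - ((2 : ℝ) ^ K)⁻¹) = ((2 : ℝ) ^ K - 1) -
      (1 - ((2 : ℝ) ^ K)⁻¹) := by
    field_simp
  rw [e]
  simp only [sub_smul, one_smul]
  abel

theorem nd_det {K : ℕ} {v : Fin n → ℝ} (hv : v ⬝ᵥ v = 1 ∨ v = 0) : (nd K v).det ≠ 0 := by
  intro h
  have := congrArg Matrix.det (nd_mul (K := K) hv)
  rw [Matrix.det_mul, h, zero_mul, Matrix.det_one] at this
  exact zero_ne_one this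

theorem nd_inv {K : ℕ} {v : Fin n → ℝ} (hv : v ⬝ᵥ v = 1 ∨ v = 0) : (nd K v)⁻¹ = ni K v :=
  Matrix.inv_eq_right_inv (nd_mul hv)

theorem lv_nd_one {K : ℕ} {v : Fin n → ℝ} (hv : v ⬝ᵥ v = 1) :
    lv (nd K v) = lv (fb n K) + K * Real.log 2 := by
  have h2 : (0 : ℝ) < (2 : ℝ) ^ K := by positivity
  have e : (1 + ((2 : ℝ) ^ K - 1) • vecMulVec v v).det = (2 : ℝ) ^ K := by
    have h1 : (1 + ((2 : ℝ) ^ K - 1) • vecMulVec v v) =
        1 + replicateCol Unit (((2 : ℝ) ^ K - 1) • v) * replicateRow Unit v := by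
      congr 1
      ext i j
      simp [Matrix.mul_apply, Matrix.vecMulVec_apply, mul_assoc]
    rw [h1, Matrix.det_one_add_replicateCol_mul_replicateRow, dotProduct_smul, hv, smul_eq_mul]
    ring
  unfold lv nd
  rw [Matrix.det_smul, e, Fintype.card_fin, abs_mul, abs_of_pos h2, abs_of_pos (by positivity),
    Real.log_mul (by positivity) h2.ne', Real.log_pow, Real.log_pow, Real.log_inv, Real.log_pow]
  have := lv_fb n K
  unfold lv at this
  rw [this]
  ring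

theorem nd_zero (K : ℕ) : nd K (0 : Fin n → ℝ) = fb n K := by
  unfold nd fb
  ext i j
  by_cases h : i = j
  · subst h
    simp [Matrix.vecMulVec_apply]
  · simp [Matrix.vecMulVec_apply, Matrix.one_apply_ne h, Matrix.diagonal_apply_ne _ h]

theorem unit_entry {v : Fin n → ℝ} (hv : v ⬝ᵥ v = 1 ∨ v = 0) (i : Fin n) : |v i| ≤ 1 := by
  rcases hv with h | h
  · have h1 : v i * v i ≤ v ⬝ᵥ v :=
      Finset.single_le_sum (f := fun i => v i * v i) (fun j _ => mul_self_nonneg _)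
        (Finset.mem_univ i)
    rw [h] at h1
    rw [abs_le]
    constructor <;> nlinarith
  · rw [h]
    simp

/-- The inverse of the needle applied to a vector. -/
theorem ni_mulVec (K : ℕ) (v x : Fin n → ℝ) (i : Fin n) :
    (ni K v *ᵥ x) i = (2 : ℝ) ^ K * (x i - (v ⬝ᵥ x) * v i) + (v ⬝ᵥ x) * v i := by
  have h2 : (2 : ℝ) ^ K ≠ 0 := by positivity
  have e1 : (vecMulVec v v *ᵥ x) i = (v ⬝ᵥ x) * v i := by
    unfold Matrix.mulVec dotProduct
    rw [Finset.sum_mul]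
    refine Finset.sum_congr rfl fun j _ => ?_
    change vecMulVec v v i j * x j = _
    rw [Matrix.vecMulVec_apply]
    ring
  unfold ni
  rw [Matrix.smul_mulVec, Pi.smul_apply, smul_eq_mul, Matrix.sub_mulVec, Pi.sub_apply,
    Matrix.one_mulVec, Matrix.smul_mulVec, Pi.smul_apply, smul_eq_mul, e1]
  field_simp
  ring

theorem inc_nd {K : ℕ} {v : Fin n → ℝ} (hv : v ⬝ᵥ v = 1 ∨ v = 0) :
    Inc (2 * n) (fb n K) (nd K v) := by
  intro i
  have h2 : (0 : ℝ) < (2 : ℝ) ^ K := by positivity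
  have h3 : ((2 : ℝ) ^ K)⁻¹ ≤ 1 := inv_le_one_of_one_le₀ (one_le_pow₀ (by norm_num))
  have h4 : (0 : ℝ) < ((2 : ℝ) ^ K)⁻¹ := by positivity
  rw [nd_inv hv]
  calc ∑ j, |(ni K v * fb n K) i j| ≤ ∑ _j : Fin n, (2 : ℝ) := by
        refine Finset.sum_le_sum fun j _ => ?_
        unfold ni fb
        rw [Matrix.mul_diagonal, Matrix.smul_apply, smul_eq_mul, Matrix.sub_apply,
          Matrix.smul_apply, smul_eq_mul, Matrix.vecMulVec_apply]
        have e1 : (2 : ℝ) ^ K * ((1 : Matrix (Fin n) (Fin n) ℝ) i j -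
            (1 - ((2 : ℝ) ^ K)⁻¹) * (v i * v j)) * ((2 : ℝ) ^ K)⁻¹ =
            (1 : Matrix (Fin n) (Fin n) ℝ) i j - (1 - ((2 : ℝ) ^ K)⁻¹) * (v i * v j) := by
          field_simp
        rw [e1]
        have k1 : |(1 : Matrix (Fin n) (Fin n) ℝ) i j| ≤ 1 := by
          rw [Matrix.one_apply]
          split_ifs <;> simp
        have k2 : |(1 - ((2 : ℝ) ^ K)⁻¹) * (v i * v j)| ≤ 1 := by
          rw [abs_mul, abs_mul]
          have a1 : |1 - ((2 : ℝ) ^ K)⁻¹| ≤ 1 := by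
            rw [abs_le]
            constructor <;> linarith
          have a2 := unit_entry hv i
          have a3 := unit_entry hv j
          have a4 := abs_nonneg (v i)
          have a5 := abs_nonneg (v j)
          have a6 : |v i| * |v j| ≤ 1 := by nlinarith
          have a7 : 0 ≤ |v i| * |v j| := by positivity
          nlinarith [abs_nonneg (1 - ((2 : ℝ) ^ K)⁻¹)]
        rw [abs_le] at k1 k2 ⊢
        constructor <;> linarith [k1.1, k1.2, k2.1, k2.2]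
    _ = 2 * n := by
        rw [Finset.sum_const, Finset.card_univ, Fintype.card_fin, nsmul_eq_mul]
        ring

theorem nd_mulVec {K : ℕ} {v : Fin n → ℝ} (hv : v ⬝ᵥ v = 1) : nd K v *ᵥ v = v := by
  have h2 : (2 : ℝ) ^ K ≠ 0 := by positivity
  have e1 : vecMulVec v v *ᵥ v = v := by
    funext i
    unfold Matrix.mulVec dotProduct
    have : ∑ j, vecMulVec v v i j * v j = v i * ∑ j, v j * v j := by
      rw [Finset.mul_sum]
      refine Finset.sum_congr rfl fun j _ => ?_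
      rw [Matrix.vecMulVec_apply]
      ring
    rw [this]
    have h1 : ∑ j, v j * v j = 1 := hv
    rw [h1, mul_one]
  unfold nd
  rw [Matrix.smul_mulVec, Matrix.add_mulVec, Matrix.one_mulVec, Matrix.smul_mulVec, e1]
  funext i
  simp only [Pi.smul_apply, Pi.add_apply, smul_eq_mul]
  field_simp
  ring

end Needle

section

variable {Ω Q₀ γ Λ : Type} [Fintype Ω] {n : ℕ} {p : Ω → ℝ} {P : Ω → Q₀} {g : Q₀ → γ}
  {ν : Q₀ → Fin n → ℝ} {L : Ω → Λ} {η M c c₁ θ g₀ κ : ℝ} {K : ℕ}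
  {Pj : Q₀ → Matrix (Fin n) (Fin n) ℝ}

open Classical in
/-- A direction along which the height is full is killed by a projection which kills the data. -/
theorem dir_of_dat (hdat : ∀ D : Dtm p P g ν (fb n K) (θ * κ) c,
      Pq D.κ (fun w => ∃ i j, Real.exp (-(g₀ * κ)) < |(Pj (D.Pt w) * D.V w) i j|) ≤ η)
    (hc : 2 * n ≤ c)
    {W ρ β : Type} [Fintype W] {q : W → ℝ} (q0 : ∀ w, 0 ≤ q w) (q1 : ∑ w, q w = 1)
    {Pt : W → Q₀} (lw : ∀ x, law q Pt x = law p P x) {R : W → ρ}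
    (hR : Inf q Pt R (fun w => g (Pt w)) ≤ θ * κ) {v : W → Fin n → ℝ}
    (hv : ∀ w, v w ⬝ᵥ v w = 1 ∨ v w = 0) (dv : Det q (fun w => (R w, g (Pt w))) v)
    {Y : W → β} {a : ℝ}
    (hY : ∀ w w', 0 < q w → 0 < q w' → Y w = Y w' → R w = R w' → g (Pt w) = g (Pt w') →
      |v w ⬝ᵥ (ν (Pt w) - ν (Pt w'))| ≤ a ∧
      ∀ i, |(ν (Pt w) - ν (Pt w')) i - (v w ⬝ᵥ (ν (Pt w) - ν (Pt w'))) * v w i| ≤
        a * ((2 : ℝ) ^ K)⁻¹)
    (hf : Pq q (fun w => v w ≠ 0) * (K * Real.log 2) + n * Real.log (2 * (2 * a + 1) + 1) -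
      CH q (fun w => fl K (ν (Pt w))) (fun w => (Y w, (R w, g (Pt w)))) ≤ θ * κ) :
    Pq q (fun w => ∃ i, n * Real.exp (-(g₀ * κ)) < |(Pj (Pt w) *ᵥ v w) i|) ≤ η := by
  have hlv : ∀ w, lv (nd K (v w)) - lv (fb n K) = if v w ≠ 0 then K * Real.log 2 else 0 := by
    intro w
    by_cases h : v w = 0
    · rw [if_neg (not_not.2 h), h, nd_zero]
      ring
    · rcases hv w with h' | h'
      · rw [if_pos h, lv_nd_one h']
        ring
      · exact absurd h' h
  have hE : Ex q (fun w => lv (nd K (v w)) - lv (fb n K)) =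
      Pq q (fun w => v w ≠ 0) * (K * Real.log 2) := by
    rw [Pq_eq]
    unfold Ex
    rw [Finset.sum_mul]
    refine Finset.sum_congr rfl fun w _ => ?_
    simp only [hlv]
    by_cases h : v w = 0 <;> simp [h]
  have dV : Det q (fun w => (R w, g (Pt w))) (fun w => nd K (v w)) := by
    intro w w' a b k
    have : v w = v w' := dv w w' a b k
    simp only
    rw [this]
  have hDF := DF_le_label q0 q1 (T := fun _ => fb n K) (V := fun w => nd K (v w))
    (fun w => ν (Pt w)) Y (fun w => (R w, g (Pt w))) dV (a := 2 * a) (by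
      intro w w' k k' e1 e2 i
      have e3 := Prod.ext_iff.mp e2
      obtain ⟨f1, f2⟩ := hY w w' k k' e1 e3.1 e3.2
      have f3 := f2 i
      rw [← Pi.sub_apply, ← Matrix.mulVec_sub, nd_inv (hv w), ni_mulVec]
      have h2 : (0 : ℝ) < (2 : ℝ) ^ K := by positivity
      have a0 : 0 ≤ a := (abs_nonneg _).trans f1
      have g1 : |(2 : ℝ) ^ K * ((ν (Pt w) - ν (Pt w')) i -
          (v w ⬝ᵥ (ν (Pt w) - ν (Pt w'))) * v w i)| ≤ a := by
        rw [abs_mul, abs_of_pos h2]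
        calc (2 : ℝ) ^ K * |(ν (Pt w) - ν (Pt w')) i -
              (v w ⬝ᵥ (ν (Pt w) - ν (Pt w'))) * v w i| ≤
              (2 : ℝ) ^ K * (a * ((2 : ℝ) ^ K)⁻¹) := mul_le_mul_of_nonneg_left f3 h2.le
          _ = a := by field_simp
      have g2 : |(v w ⬝ᵥ (ν (Pt w) - ν (Pt w'))) * v w i| ≤ a := by
        rw [abs_mul]
        calc |v w ⬝ᵥ (ν (Pt w) - ν (Pt w'))| * |v w i| ≤ a * 1 :=
              mul_le_mul f1 (unit_entry (hv w) i) (abs_nonneg _) a0
          _ = a := mul_one a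
      rw [abs_le] at g1 g2 ⊢
      constructor <;> linarith [g1.1, g1.2, g2.1, g2.2])
  have e1 : CH q (fun w => cl (fb n K) (ν (Pt w))) (fun w => (Y w, (R w, g (Pt w)))) =
      CH q (fun w => fl K (ν (Pt w))) (fun w => (Y w, (R w, g (Pt w)))) := by
    congr 1
    funext w
    exact cl_fb K _
  rw [e1, hE] at hDF
  have key := hdat ⟨W, inferInstance, q, q0, q1, Pt, lw, ρ, R, fun w => nd K (v w), dV,
      fun w => nd_det (hv w), fun w => (inc_nd (hv w)).mono hc, hR, by linarith⟩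
  refine (Pq_mono q0 fun w _ k => ?_).trans key
  obtain ⟨i, hi⟩ := k
  change ∃ i j, Real.exp (-(g₀ * κ)) < |(Pj (Pt w) * nd K (v w)) i j|
  by_contra hcon
  have hcon' : ∀ j, |(Pj (Pt w) * nd K (v w)) i j| ≤ Real.exp (-(g₀ * κ)) := by
    intro j
    by_contra hh
    exact hcon ⟨i, j, not_le.1 hh⟩
  have hvz : v w ⬝ᵥ v w = 1 := by
    rcases hv w with h | h
    · exact h
    · exfalso
      rw [h, Matrix.mulVec_zero, Pi.zero_apply, abs_zero] at hi
      have : 0 ≤ n * Real.exp (-(g₀ * κ)) := by positivity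
      linarith
  have e2 : Pj (Pt w) *ᵥ v w = (Pj (Pt w) * nd K (v w)) *ᵥ v w := by
    rw [← Matrix.mulVec_mulVec, nd_mulVec hvz]
  have e3 : |((Pj (Pt w) * nd K (v w)) *ᵥ v w) i| ≤ n * Real.exp (-(g₀ * κ)) := by
    have e4 : ((Pj (Pt w) * nd K (v w)) *ᵥ v w) i =
        ∑ j, (Pj (Pt w) * nd K (v w)) i j * v w j := rfl
    rw [e4]
    calc |∑ j, (Pj (Pt w) * nd K (v w)) i j * v w j| ≤
          ∑ j, |(Pj (Pt w) * nd K (v w)) i j * v w j| := Finset.abs_sum_le_sum_abs _ _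
      _ ≤ ∑ _j : Fin n, Real.exp (-(g₀ * κ)) := Finset.sum_le_sum fun j _ => by
          rw [abs_mul]
          calc |(Pj (Pt w) * nd K (v w)) i j| * |v w j| ≤ Real.exp (-(g₀ * κ)) * 1 :=
                mul_le_mul (hcon' j) (unit_entry (hv w) j) (abs_nonneg _) (Real.exp_pos _).le
            _ = Real.exp (-(g₀ * κ)) := mul_one _
      _ = n * Real.exp (-(g₀ * κ)) := by
          rw [Finset.sum_const, Finset.card_univ, Fintype.card_fin, nsmul_eq_mul]
  rw [e2] at hi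
  linarith

/-- **A direction along which the height is full is killed by the closed projection.** -/
theorem Prf.dir (F : Prf p P g ν (fb n K) L η M c c₁ θ g₀ κ Pj) (hc : 2 * n ≤ c)
    {W ρ β : Type} [Fintype W] {q : W → ℝ} (q0 : ∀ w, 0 ≤ q w) (q1 : ∑ w, q w = 1)
    {Pt : W → Q₀} (lw : ∀ x, law q Pt x = law p P x) {R : W → ρ}
    (hR : Inf q Pt R (fun w => g (Pt w)) ≤ θ * κ) {v : W → Fin n → ℝ}
    (hv : ∀ w, v w ⬝ᵥ v w = 1 ∨ v w = 0) (dv : Det q (fun w => (R w, g (Pt w))) v)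
    {Y : W → β} {a : ℝ}
    (hY : ∀ w w', 0 < q w → 0 < q w' → Y w = Y w' → R w = R w' → g (Pt w) = g (Pt w') →
      |v w ⬝ᵥ (ν (Pt w) - ν (Pt w'))| ≤ a ∧
      ∀ i, |(ν (Pt w) - ν (Pt w')) i - (v w ⬝ᵥ (ν (Pt w) - ν (Pt w'))) * v w i| ≤
        a * ((2 : ℝ) ^ K)⁻¹)
    (hf : Pq q (fun w => v w ≠ 0) * (K * Real.log 2) + n * Real.log (2 * (2 * a + 1) + 1) -
      CH q (fun w => fl K (ν (Pt w))) (fun w => (Y w, (R w, g (Pt w)))) ≤ θ * κ) :
    Pq q (fun w => ∃ i, n * Real.exp (-(g₀ * κ)) < |(Pj (Pt w) *ᵥ v w) i|) ≤ η :=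
  dir_of_dat F.dat hc q0 q1 lw hR hv dv hY hf

end

end Pool.MSD
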