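import Pool.Agent.H38.MSD.Max

/-!
# LEMMA MSD: the field of maximal bodies is visible and conserved
-/

set_option autoImplicit false

namespace Pool.MSD

open Matrix Finset Real
open Pool.Agent.H49.Ent Pool.Agent.H32.Dense Pool.FAD

section

variable {Ω Q₀ γ Λ β υ : Type} [Fintype Ω] {n : ℕ} {p : Ω → ℝ} {P : Ω → Q₀} {g : Q₀ → γ}
  {ν : Q₀ → Fin n → ℝ} {T : Matrix (Fin n) (Fin n) ℝ} {L : Ω → Λ} {b : γ → β} {U : Λ → υ}
  {Z : υ → γ → γ → Fin n → ℝ} {a₀ e a a' c c' : ℝ}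

/-- The deficit of containment. -/
noncomputable def dl (n : ℕ) (a a₀ c e : ℝ) (N : ℕ) (H₀ t : ℝ) : ℝ :=
  (1 + (As n a a₀ c e N + H₀) / N + Cd n n) / (t + Cd n n)

/-- The factor of containment. -/
noncomputable def Mt (n : ℕ) (t : ℝ) : ℝ := Cv n * Real.exp t * n

theorem Mt_nonneg (n : ℕ) (t : ℝ) : 0 ≤ Mt n t := by
  unfold Mt
  have := Cv_nonneg n
  positivity

/-- Two samples on one line. -/
theorem Ex_q3 (p0 : ∀ ω, 0 ≤ p ω) (L : Ω → Λ) (D : Dtm p P g ν T a c) (F : Ω → Ω → ℝ) :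
    Ex (glue p p L L) (fun w => F w.1 w.2) = Ex (q3 L D) (fun w => F w.1 w.2.1) := by
  classical
  unfold Ex
  rw [Fintype.sum_prod_type, Fintype.sum_prod_type]
  refine Finset.sum_congr rfl fun ω _ => ?_
  rw [Fintype.sum_prod_type]
  refine Finset.sum_congr rfl fun ω' _ => ?_
  change glue p p L L (ω, ω') * F ω ω' = ∑ x, q3 L D (ω, (ω', x)) * F ω ω'
  rw [← Finset.sum_mul]
  congr 1
  unfold q3 glue
  simp only
  by_cases hL : L ω = L ω'
  · rw [if_pos hL]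
    have s1 : ∀ x, (if L ω = L ω' then p ω * q2 D (ω', x) / law p L (L ω) else 0) =
        p ω / law p L (L ω) * q2 D (ω', x) := fun x => by
      rw [if_pos hL]
      ring
    rw [Finset.sum_congr rfl fun x _ => s1 x, ← Finset.mul_sum]
    have s2 : ∑ x, q2 D (ω', x) = p ω' := glue_fst p0 (q2_eq D) ω'
    rw [s2]
    ring
  · rw [if_neg hL]
    rw [Finset.sum_congr rfl fun x _ => if_neg hL, Finset.sum_const_zero]

theorem Pq_q3 (p0 : ∀ ω, 0 ≤ p ω) (L : Ω → Λ) (D : Dtm p P g ν T a c) (A : Ω → Ω → Prop) :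
    Pq (glue p p L L) (fun w => A w.1 w.2) = Pq (q3 L D) (fun w => A w.1 w.2.1) := by
  classical
  rw [Pq_eq, Pq_eq]
  exact Ex_q3 p0 L D (fun ω ω' => if A ω ω' then 1 else 0)

/-- **The field of maximal bodies.** -/
theorem msd_core (h : Lin p P g ν T L b U Z a₀ e) (hT : T.det ≠ 0) (he : 0 ≤ e) (ha : 0 ≤ a)
    (ha0 : 0 ≤ a₀) (hc : 1 ≤ c) {N : ℕ} (hN : 0 < N) {t : ℝ} (ht : 0 < t) {H₀ : ℝ}
    (hH : CH p (fun ω => cl T (ν (P ω))) (fun ω => g (P ω)) ≤ H₀) :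
    ∃ Vs : Q₀ → Matrix (Fin n) (Fin n) ℝ, (∀ x, (Vs x).det ≠ 0) ∧
      (∀ x, Inc (cs n c N) T (Vs x)) ∧
      Pq (glue p p L L) (fun w => ¬Inc (Mt n t * (Mt n t * Mt n t)) (Vs (P w.2)) (Vs (P w.1))) ≤
        5 * dl n a a₀ c e N H₀ t ∧
      (∀ D : Dtm p P g ν T a c, Pq D.κ (fun w => ¬Inc (Mt n t * Mt n t) (D.V w)
        (Vs (D.Pt w))) ≤ 3 * dl n a a₀ c e N H₀ t) ∧
      (∀ s, lv T < s → Pq p (fun ω => s + Cd n (Mt n t) < lv (Vs (P ω))) ≤
        2 * dl n a a₀ c e N H₀ t + (As n a a₀ c e N + H₀ + Cd n (cs n c N)) /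
          (s - lv T + Cd n (cs n c N))) ∧
      ∃ D : Dtm p P g ν T (As n a a₀ c e N) (cs n c N),
        Pq D.κ (fun w => ¬Inc (Mt n t) (Vs (D.Pt w)) (D.V w)) ≤ 2 * dl n a a₀ c e N H₀ t := by
  classical
  have hc0 : 0 ≤ c := by linarith
  obtain ⟨i, hi, D, hD⟩ := exists_opt (a := a) h.p0 h.p1 P g ν hT ha ha0 hc he hN
  obtain ⟨H₁, hH₁⟩ : ∃ H₁, H₁ = CH p (fun ω => cl T (ν (P ω))) (fun ω => g (P ω)) := ⟨_, rfl⟩
  rw [← hH₁] at hD hH
  obtain ⟨δ, hδ⟩ : ∃ δ, δ = dl n a a₀ c e N H₀ t := ⟨_, rfl⟩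
  obtain ⟨M, hM⟩ : ∃ M, M = Mt n t := ⟨_, rfl⟩
  rw [← hδ, ← hM]
  have hM0 : 0 ≤ M := by
    rw [hM]
    exact Mt_nonneg n t
  have hn0 : (0 : ℝ) ≤ n := Nat.cast_nonneg n
  have hCd := Cd_nonneg n hn0
  have hci : 0 ≤ cs n c i := cs_nonneg n hc0 i
  have hAi : 0 ≤ As n a a₀ c e i := As_nonneg ha ha0 hc0 he i
  have hAN : As n a a₀ c e i ≤ As n a a₀ c e N := by
    have : ∀ k, As n a a₀ c e i ≤ As n a a₀ c e (i + k) := by
      intro k
      induction k with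
      | zero => exact le_rfl
      | succ k ih =>
        have h1 := Ct_nonneg n (cs_nonneg n hc0 (i + k)) he
        have h2 := Cp_nonneg n (cs_nonneg n hc0 (i + k))
        have h3 := As_nonneg (n := n) ha ha0 hc0 he (i + k)
        change As n a a₀ c e i ≤ 6 * As n a a₀ c e (i + k) + 4 * a₀ +
          2 * Ct n (cs n c (i + k)) e + Cp n (cs n c (i + k))
        linarith
    have := this (N - i)
    rwa [show i + (N - i) = N by omega] at this
  -- every datum of the level is contained in the almost optimal one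
  have hCt : 0 ≤ Ct n (cs n c i) e := Ct_nonneg n hci he
  have hCp : 0 ≤ Cp n (cs n c i) := Cp_nonneg n hci
  have cont : ∀ {a' : ℝ} (D' : Dtm p P g ν T a' (cs n c i)),
      a' ≤ 2 * a₀ + 2 * As n a a₀ c e i + Ct n (cs n c i) e →
      Pq (jl D D') (fun w => ¬Inc M (D'.V w.2) (D.V w.1)) ≤ δ := by
    intro a' D' ha'
    have h1 : 2 * (As n a a₀ c e i + a') + Cp n (cs n c i) ≤ As n a a₀ c e (i + 1) := by
      change _ ≤ 6 * As n a a₀ c e i + 4 * a₀ + 2 * Ct n (cs n c i) e + Cp n (cs n c i)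
      linarith
    have h2 := hD ((join D D' hT hci).mono h1 (cs_succ n hc0 i))
    have h3 : vl ((join D D' hT hci).mono h1 (cs_succ n hc0 i)) = vl (join D D' hT hci) := rfl
    rw [h3] at h2
    have h4 := join_small D D' hT hci (δ := 1 + (As n a a₀ c e N + H₀) / N) ht (by
      have : (As n a a₀ c e N + H₁) / N ≤ (As n a a₀ c e N + H₀) / N :=
        div_le_div_of_nonneg_right (by linarith) (Nat.cast_nonneg N)
      linarith)
    rw [hM, hδ]
    exact h4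
  -- the choice of the field
  have h11 := cont D (by linarith)
  obtain ⟨f, hf⟩ : ∃ f : D.W → D.W → ℝ, f = fun w w' => (if Inc M (D.V w) (D.V w') then 0 else 1) +
    (if Inc M (D.V w') (D.V w) then (0 : ℝ) else 1) := ⟨_, rfl⟩
  obtain ⟨ws, hws⟩ := exists_sel D f
  have hf2 : Ex (jl D D) (fun w => f w.1 w.2) ≤ 2 * δ := by
    have e0 : ∀ {W : Type} (q : W → ℝ) [Fintype W] (A : W → Prop), Ex q (fun w => if A w then 0 else 1) =
        Pq q (fun w => ¬A w) := by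
      intro W q _ A
      rw [Pq_eq]
      unfold Ex
      refine Finset.sum_congr rfl fun w _ => ?_
      by_cases hA : A w <;> simp [hA]
    have e1 : Ex (jl D D) (fun w => f w.1 w.2) =
        Ex (jl D D) (fun w => if Inc M (D.V w.1) (D.V w.2) then 0 else 1) +
        Ex (jl D D) (fun w => if Inc M (D.V w.2) (D.V w.1) then 0 else 1) := by
      rw [← Ex_add, hf]
    have e2 := Ex_swap D (fun w w' => if Inc M (D.V w) (D.V w') then (0 : ℝ) else 1)
    rw [e1, e2, e0 (jl D D) (fun w => Inc M (D.V w.2) (D.V w.1))]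
    linarith
  -- the two failures
  have g1 : Pq D.κ (fun w => ¬Inc M (D.V w) (D.V (ws (D.Pt w))) ∨
      ¬Inc M (D.V (ws (D.Pt w))) (D.V w)) ≤ 2 * δ := by
    refine le_trans ?_ (hws.trans hf2)
    rw [Pq_eq]
    refine Ex_mono D.k0 fun w _ => ?_
    rw [hf]
    simp only
    by_cases k1 : Inc M (D.V w) (D.V (ws (D.Pt w))) <;>
    by_cases k2 : Inc M (D.V (ws (D.Pt w))) (D.V w) <;> simp [k1, k2]
  have g2 : Pq D.κ (fun w => ¬Inc M (D.V w) (D.V (ws (D.Pt w)))) ≤ 2 * δ :=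
    (Pq_mono D.k0 fun _ _ k => Or.inl k).trans g1
  have g3 : Pq D.κ (fun w => ¬Inc M (D.V (ws (D.Pt w))) (D.V w)) ≤ 2 * δ :=
    (Pq_mono D.k0 fun _ _ k => Or.inr k).trans g1
  -- containment of a datum in the field
  have cont2 : ∀ {a' : ℝ} (D' : Dtm p P g ν T a' (cs n c i)),
      a' ≤ 2 * a₀ + 2 * As n a a₀ c e i + Ct n (cs n c i) e →
      Pq D'.κ (fun w => ¬Inc (M * M) (D'.V w) (D.V (ws (D'.Pt w)))) ≤ 3 * δ := by
    intro a' D' ha'
    have h1 := cont D' ha'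
    have h2 : Pq D'.κ (fun w => ¬Inc (M * M) (D'.V w) (D.V (ws (D'.Pt w)))) =
        Pq (jl D D') (fun w => ¬Inc (M * M) (D'.V w.2) (D.V (ws (D'.Pt w.2)))) :=
      (Pq_glue_snd D'.k0 (jl_eq D D') (fun w => ¬Inc (M * M) (D'.V w)
        (D.V (ws (D'.Pt w))))).symm
    have h3 : Pq (jl D D') (fun w => ¬Inc M (D.V w.1) (D.V (ws (D.Pt w.1)))) ≤ 2 * δ := by
      refine le_trans (le_of_eq ?_) g2
      exact Pq_glue_fst D.k0 (jl_eq D D') (fun w => ¬Inc M (D.V w) (D.V (ws (D.Pt w))))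
    rw [h2]
    refine (Pq_or (jl_nonneg D D') (B := fun w => ¬Inc M (D'.V w.2) (D.V w.1))
      (C := fun w => ¬Inc M (D.V w.1) (D.V (ws (D.Pt w.1)))) fun w hw k => ?_).trans
      (by linarith)
    by_contra hcon
    rw [not_or, not_not, not_not] at hcon
    refine k ?_
    have e1 := (jl_pos D D' hw).2.2
    rw [← e1]
    exact Inc.trans (D.nz w.1) hM0 hcon.1 hcon.2
  have hN' : i ≤ N := hi.le
  refine ⟨fun x => D.V (ws x), fun x => D.nz _, fun x => (D.inc _).mono (cs_mono n hc0 hN'), ?_,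
    fun D' => ?_, fun s hs => ?_, D.mono hAN (cs_mono n hc0 hN'), ?_⟩
  · -- along the lines
    obtain ⟨D', hD'⟩ : ∃ D', D' = transp h hT he ha0 hci D := ⟨_, rfl⟩
    have k1 := cont2 (transp h hT he ha0 hci D) le_rfl
    change Pq (q3 L D) (fun w => ¬Inc (M * M) (D.V w.2.2) (D.V (ws (P w.1)))) ≤ 3 * δ at k1
    have k2 : Pq (q3 L D) (fun w => ¬Inc M (D.V (ws (D.Pt w.2.2))) (D.V w.2.2)) ≤ 2 * δ := by
      refine le_trans (le_of_eq ?_) g3
      have s1 : Pq (q3 L D) (fun w => ¬Inc M (D.V (ws (D.Pt w.2.2))) (D.V w.2.2)) =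
          Pq (q2 D) (fun w => ¬Inc M (D.V (ws (D.Pt w.2))) (D.V w.2)) :=
        Pq_glue_snd (q2_nonneg h.p0 D) (q3_eq h.p0 L D)
          (fun w => ¬Inc M (D.V (ws (D.Pt w.2))) (D.V w.2))
      rw [s1]
      exact Pq_glue_snd D.k0 (q2_eq D) (fun w => ¬Inc M (D.V (ws (D.Pt w))) (D.V w))
    have k3 : Pq (glue p p L L) (fun w => ¬Inc (M * (M * M)) (D.V (ws (P w.2)))
        (D.V (ws (P w.1)))) =
        Pq (q3 L D) (fun w => ¬Inc (M * (M * M)) (D.V (ws (P w.2.1))) (D.V (ws (P w.1)))) :=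
      Pq_q3 h.p0 L D (fun ω ω' => ¬Inc (M * (M * M)) (D.V (ws (P ω'))) (D.V (ws (P ω))))
    rw [k3]
    refine (Pq_or (q3_nonneg h.p0 L D)
      (B := fun w => ¬Inc (M * M) (D.V w.2.2) (D.V (ws (P w.1))))
      (C := fun w => ¬Inc M (D.V (ws (D.Pt w.2.2))) (D.V w.2.2)) fun w hw k => ?_).trans
      (by linarith)
    by_contra hcon
    rw [not_or, not_not, not_not] at hcon
    refine k ?_
    have e1 := (q3_pos h.p0 L D hw).2.2.2.2
    rw [e1, show M * (M * M) = (M * M) * M by ring]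
    exact Inc.trans (D.nz w.2.2) hM0 hcon.2 hcon.1
  · -- every datum
    have k1 : c ≤ cs n c i := cs_ge n hc0 i
    have k2 : a ≤ As n a a₀ c e i := As_ge ha ha0 hc0 he i
    exact cont2 (D'.mono k2 k1) (by linarith)
  · -- the volume
    have k1 : Pq p (fun ω => s + Cd n M < lv (D.V (ws (P ω)))) =
        Pq D.κ (fun w => s + Cd n M < lv (D.V (ws (D.Pt w)))) := by
      rw [← Pq_glue_fst h.p0 (q2_eq D) (fun ω => s + Cd n M < lv (D.V (ws (P ω)))),
        ← Pq_glue_snd D.k0 (q2_eq D) (fun w => s + Cd n M < lv (D.V (ws (D.Pt w))))]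
      have e1 : ∀ w, 0 < glue p D.κ P D.Pt w → P w.1 = D.Pt w.2 := fun w hw =>
        ((glue_pos_iff h.p0 D.k0 w).1 hw).2.2
      refine le_antisymm (Pq_mono (fun w => glue_nonneg h.p0 D.k0 w) fun w hw k => ?_)
        (Pq_mono (fun w => glue_nonneg h.p0 D.k0 w) fun w hw k => ?_)
      · rw [← e1 w hw]
        exact k
      · rw [e1 w hw]
        exact k
    rw [k1]
    have hCN : 0 ≤ Cd n (cs n c N) := Cd_nonneg n (cs_nonneg n hc0 N)
    have k2 := Pq_markov D.k0 (f := fun w => lv (D.V w) - lv T + Cd n (cs n c N))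
      (fun w _ => by
        have := lv_le hT (D.nz w) ((D.inc w).mono (cs_mono n hc0 hN'))
        linarith) (show 0 < s - lv T + Cd n (cs n c N) by linarith)
      (A := fun w => s < lv (D.V w)) (fun w _ k => by linarith)
    have k3 : Ex D.κ (fun w => lv (D.V w) - lv T + Cd n (cs n c N)) ≤
        As n a a₀ c e N + H₀ + Cd n (cs n c N) := by
      have e1 : Ex D.κ (fun w => lv (D.V w) - lv T + Cd n (cs n c N)) =
          vl D - lv T + Cd n (cs n c N) := by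
        rw [Ex_add, Ex_sub, Ex_const D.k1, Ex_const D.k1]
        rfl
      have e2 := vl_le D h.p0
      rw [← hH₁] at e2
      rw [e1]
      linarith
    have k4 : Pq D.κ (fun w => s < lv (D.V w)) ≤ (As n a a₀ c e N + H₀ + Cd n (cs n c N)) /
        (s - lv T + Cd n (cs n c N)) :=
      k2.trans (div_le_div_of_nonneg_right k3 (by linarith))
    refine (Pq_or D.k0 (B := fun w => ¬Inc M (D.V (ws (D.Pt w))) (D.V w))
      (C := fun w => s < lv (D.V w)) fun w hw k => ?_).trans (by linarith)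
    by_contra hcon
    rw [not_or, not_not, not_lt] at hcon
    have := lv_le (D.nz _) (D.nz w) hcon.1
    linarith [hcon.2]
  · -- the maximal datum
    exact g3

end

end Pool.MSD
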