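import Pool.Agent.H38.MSD.Cov

/-!
# LEMMA MSD: data with one direction of any length

`nl K ℓ u`: the body with a long axis of length `ℓ + 2 ^ (-K)` in the direction `u` (a unit vector or
`0`), the other axes have length `2 ^ (-K)`. If the height is full along `ℓ u`, given `R` and the
context, then the closed projection kills `ℓ u`.
-/

set_option autoImplicit false

namespace Pool.MSD

open Matrix Finset Real
open Pool.Agent.H49.Ent Pool.Agent.H32.Dense Pool.FAD Pool.STK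

section Needle

variable {n : ℕ}

/-- The needle with the axis `u` of length `ℓ`. -/
noncomputable def nl (K : ℕ) (ℓ : ℝ) (u : Fin n → ℝ) : Matrix (Fin n) (Fin n) ℝ :=
  ((2 : ℝ) ^ K)⁻¹ • 1 + ℓ • vecMulVec u u

/-- The coefficient of the inverse. -/
noncomputable def sl (K : ℕ) (ℓ : ℝ) : ℝ := ℓ / (ℓ + ((2 : ℝ) ^ K)⁻¹)

/-- Its inverse. -/
noncomputable def nli (K : ℕ) (ℓ : ℝ) (u : Fin n → ℝ) : Matrix (Fin n) (Fin n) ℝ :=
  (2 : ℝ) ^ K • (1 - sl K ℓ • vecMulVec u u)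

theorem sl_eq (K : ℕ) {ℓ : ℝ} (hℓ : 0 ≤ ℓ) :
    (2 : ℝ) ^ K * ℓ * (1 - sl K ℓ) = sl K ℓ := by
  have h2 : (0 : ℝ) < (2 : ℝ) ^ K := by positivity
  have h3 : 0 < ℓ + ((2 : ℝ) ^ K)⁻¹ := by positivity
  unfold sl
  field_simp
  ring

theorem sl_nonneg (K : ℕ) {ℓ : ℝ} (hℓ : 0 ≤ ℓ) : 0 ≤ sl K ℓ := by
  unfold sl
  positivity

theorem sl_le (K : ℕ) {ℓ : ℝ} (hℓ : 0 ≤ ℓ) : sl K ℓ ≤ 1 := by
  have h3 : 0 < ℓ + ((2 : ℝ) ^ K)⁻¹ := by positivity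
  unfold sl
  rw [div_le_one h3]
  have : (0 : ℝ) ≤ ((2 : ℝ) ^ K)⁻¹ := by positivity
  linarith

theorem nl_mul {K : ℕ} {ℓ : ℝ} (hℓ : 0 ≤ ℓ) {u : Fin n → ℝ} (hu : u ⬝ᵥ u = 1 ∨ u = 0) :
    nl K ℓ u * nli K ℓ u = 1 := by
  have h2 : (2 : ℝ) ^ K ≠ 0 := by positivity
  have e0 := sl_eq K hℓ
  unfold nl nli
  rw [Matrix.mul_smul, Matrix.add_mul, Matrix.mul_sub, Matrix.mul_sub, Matrix.smul_mul,
    Matrix.one_mul, Matrix.smul_mul, Matrix.one_mul, Matrix.smul_mul, Matrix.mul_one,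
    Matrix.mul_smul, Matrix.smul_mul, vmv_sq hu]
  ext i j
  simp only [Matrix.smul_apply, Matrix.add_apply, Matrix.sub_apply, smul_eq_mul]
  have e1 : (2 : ℝ) ^ K * (((2 : ℝ) ^ K)⁻¹ * (1 : Matrix (Fin n) (Fin n) ℝ) i j -
      ((2 : ℝ) ^ K)⁻¹ * (sl K ℓ * vecMulVec u u i j) +
      (ℓ * vecMulVec u u i j - sl K ℓ * (ℓ * vecMulVec u u i j))) =
      (1 : Matrix (Fin n) (Fin n) ℝ) i j + ((2 : ℝ) ^ K * ℓ * (1 - sl K ℓ) - sl K ℓ) *
        vecMulVec u u i j := by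
    field_simp
    ring
  rw [e1, e0, sub_self, zero_mul, add_zero]

theorem nl_det {K : ℕ} {ℓ : ℝ} (hℓ : 0 ≤ ℓ) {u : Fin n → ℝ} (hu : u ⬝ᵥ u = 1 ∨ u = 0) :
    (nl K ℓ u).det ≠ 0 := by
  intro h
  have := congrArg Matrix.det (nl_mul (K := K) hℓ hu)
  rw [Matrix.det_mul, h, zero_mul, Matrix.det_one] at this
  exact zero_ne_one this

theorem nl_inv {K : ℕ} {ℓ : ℝ} (hℓ : 0 ≤ ℓ) {u : Fin n → ℝ} (hu : u ⬝ᵥ u = 1 ∨ u = 0) :
    (nl K ℓ u)⁻¹ = nli K ℓ u :=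
  Matrix.inv_eq_right_inv (nl_mul hℓ hu)

theorem lv_nl {K : ℕ} {ℓ : ℝ} (hℓ : 0 ≤ ℓ) {u : Fin n → ℝ} (hu : u ⬝ᵥ u = 1 ∨ u = 0) :
    lv (nl K ℓ u) ≤ lv (fb n K) + Real.log (1 + (2 : ℝ) ^ K * ℓ) := by
  have h2 : (0 : ℝ) < (2 : ℝ) ^ K := by positivity
  have h3 : (0 : ℝ) ≤ (2 : ℝ) ^ K * ℓ := by positivity
  have e0 : nl K ℓ u = ((2 : ℝ) ^ K)⁻¹ • (1 + ((2 : ℝ) ^ K * ℓ) • vecMulVec u u) := by
    unfold nl
    rw [smul_add, smul_smul, ← mul_assoc, inv_mul_cancel₀ h2.ne', one_mul]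
  have e : (1 + ((2 : ℝ) ^ K * ℓ) • vecMulVec u u).det = 1 + (2 : ℝ) ^ K * ℓ * (u ⬝ᵥ u) := by
    have h1 : (1 + ((2 : ℝ) ^ K * ℓ) • vecMulVec u u) =
        1 + replicateCol Unit (((2 : ℝ) ^ K * ℓ) • u) * replicateRow Unit u := by
      congr 1
      ext i j
      simp [Matrix.mul_apply, Matrix.vecMulVec_apply, mul_assoc]
    rw [h1, Matrix.det_one_add_replicateCol_mul_replicateRow, dotProduct_smul, smul_eq_mul]
  have e1 : u ⬝ᵥ u ≤ 1 := by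
    rcases hu with h | h
    · rw [h]
    · rw [h]
      simp
  have e2 : 0 ≤ u ⬝ᵥ u := Finset.sum_nonneg fun i _ => mul_self_nonneg _
  have e3 : 0 < 1 + (2 : ℝ) ^ K * ℓ * (u ⬝ᵥ u) := by positivity
  have e4 : 1 + (2 : ℝ) ^ K * ℓ * (u ⬝ᵥ u) ≤ 1 + (2 : ℝ) ^ K * ℓ := by
    have := mul_le_mul_of_nonneg_left e1 h3
    linarith
  rw [e0]
  unfold lv
  rw [Matrix.det_smul, e, Fintype.card_fin, abs_mul, abs_of_pos e3, abs_of_pos (by positivity),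
    Real.log_mul (by positivity) e3.ne', Real.log_pow, Real.log_inv, Real.log_pow]
  have := lv_fb n K
  unfold lv at this
  rw [this]
  have e5 := Real.log_le_log e3 e4
  linarith

/-- The inverse of the needle applied to a vector. -/
theorem nli_mulVec (K : ℕ) {ℓ : ℝ} (hℓ : 0 ≤ ℓ) (u x : Fin n → ℝ) (i : Fin n) :
    (nli K ℓ u *ᵥ x) i = (2 : ℝ) ^ K * (x i - (u ⬝ᵥ x) * u i) +
      (u ⬝ᵥ x) / (ℓ + ((2 : ℝ) ^ K)⁻¹) * u i := by
  have h2 : (2 : ℝ) ^ K ≠ 0 := by positivity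
  have h3 : ℓ + ((2 : ℝ) ^ K)⁻¹ ≠ 0 := by positivity
  have e1 : (vecMulVec u u *ᵥ x) i = (u ⬝ᵥ x) * u i := by
    unfold Matrix.mulVec dotProduct
    rw [Finset.sum_mul]
    refine Finset.sum_congr rfl fun j _ => ?_
    change vecMulVec u u i j * x j = _
    rw [Matrix.vecMulVec_apply]
    ring
  have e2 : (2 : ℝ) ^ K * (1 - sl K ℓ) = 1 / (ℓ + ((2 : ℝ) ^ K)⁻¹) := by
    unfold sl
    field_simp
    ring
  unfold nli
  rw [Matrix.smul_mulVec, Pi.smul_apply, smul_eq_mul, Matrix.sub_mulVec, Pi.sub_apply,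
    Matrix.one_mulVec, Matrix.smul_mulVec, Pi.smul_apply, smul_eq_mul, e1]
  have e3 : (u ⬝ᵥ x) / (ℓ + ((2 : ℝ) ^ K)⁻¹) = (u ⬝ᵥ x) * ((2 : ℝ) ^ K * (1 - sl K ℓ)) := by
    rw [e2]
    ring
  rw [e3]
  ring

theorem inc_nl {K : ℕ} {ℓ : ℝ} (hℓ : 0 ≤ ℓ) {u : Fin n → ℝ} (hu : u ⬝ᵥ u = 1 ∨ u = 0) :
    Inc (2 * n) (fb n K) (nl K ℓ u) := by
  intro i
  have h2 : (0 : ℝ) < (2 : ℝ) ^ K := by positivity
  have s0 := sl_nonneg K hℓ
  have s1 := sl_le K hℓ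
  rw [nl_inv hℓ hu]
  calc ∑ j, |(nli K ℓ u * fb n K) i j| ≤ ∑ _j : Fin n, (2 : ℝ) := by
        refine Finset.sum_le_sum fun j _ => ?_
        unfold nli fb
        rw [Matrix.mul_diagonal, Matrix.smul_apply, smul_eq_mul, Matrix.sub_apply,
          Matrix.smul_apply, smul_eq_mul, Matrix.vecMulVec_apply]
        have e1 : (2 : ℝ) ^ K * ((1 : Matrix (Fin n) (Fin n) ℝ) i j -
            sl K ℓ * (u i * u j)) * ((2 : ℝ) ^ K)⁻¹ =
            (1 : Matrix (Fin n) (Fin n) ℝ) i j - sl K ℓ * (u i * u j) := by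
          field_simp
        rw [e1]
        have k1 : |(1 : Matrix (Fin n) (Fin n) ℝ) i j| ≤ 1 := by
          rw [Matrix.one_apply]
          split_ifs <;> simp
        have k2 : |sl K ℓ * (u i * u j)| ≤ 1 := by
          rw [abs_mul, abs_mul, abs_of_nonneg s0]
          have a2 := unit_entry hu i
          have a3 := unit_entry hu j
          have a6 : |u i| * |u j| ≤ 1 := mul_le_one₀ a2 (abs_nonneg _) a3
          exact mul_le_one₀ s1 (by positivity) a6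
        rw [abs_le] at k1 k2 ⊢
        constructor <;> linarith [k1.1, k1.2, k2.1, k2.2]
    _ = 2 * n := by
        rw [Finset.sum_const, Finset.card_univ, Fintype.card_fin, nsmul_eq_mul]
        ring

theorem nl_mulVec {K : ℕ} {ℓ : ℝ} {u : Fin n → ℝ} (hu : u ⬝ᵥ u = 1) :
    nl K ℓ u *ᵥ u = (((2 : ℝ) ^ K)⁻¹ + ℓ) • u := by
  have e1 : vecMulVec u u *ᵥ u = u := by
    funext i
    unfold Matrix.mulVec dotProduct
    have : ∑ j, vecMulVec u u i j * u j = u i * ∑ j, u j * u j := by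
      rw [Finset.mul_sum]
      refine Finset.sum_congr rfl fun j _ => ?_
      rw [Matrix.vecMulVec_apply]
      ring
    rw [this]
    have h1 : ∑ j, u j * u j = 1 := hu
    rw [h1, mul_one]
  unfold nl
  rw [Matrix.add_mulVec, Matrix.smul_mulVec, Matrix.one_mulVec, Matrix.smul_mulVec, e1, add_smul]

end Needle

section

variable {Ω Q₀ γ Λ : Type} [Fintype Ω] {n : ℕ} {p : Ω → ℝ} {P : Ω → Q₀} {g : Q₀ → γ}
  {ν : Q₀ → Fin n → ℝ} {L : Ω → Λ} {η M c c₁ θ g₀ κ : ℝ} {K : ℕ}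
  {Pj : Q₀ → Matrix (Fin n) (Fin n) ℝ}

open Classical in
/-- A direction along which the height is full is killed by a projection which kills the data; any
length. -/
theorem dirL_of_dat (hdat : ∀ D : Dtm p P g ν (fb n K) (θ * κ) c,
      Pq D.κ (fun w => ∃ i j, Real.exp (-(g₀ * κ)) < |(Pj (D.Pt w) * D.V w) i j|) ≤ η)
    (hc : 2 * n ≤ c)
    {W ρ β : Type} [Fintype W] {q : W → ℝ} (q0 : ∀ w, 0 ≤ q w) (q1 : ∑ w, q w = 1)
    {Pt : W → Q₀} (lw : ∀ x, law q Pt x = law p P x) {R : W → ρ}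
    (hR : Inf q Pt R (fun w => g (Pt w)) ≤ θ * κ) {u : W → Fin n → ℝ} {ℓ : W → ℝ}
    (hu : ∀ w, u w ⬝ᵥ u w = 1 ∨ u w = 0) (hℓ : ∀ w, 0 ≤ ℓ w)
    (dv : Det q (fun w => (R w, g (Pt w))) (fun w => (u w, ℓ w)))
    {Y : W → β} {a : ℝ}
    (hY : ∀ w w', 0 < q w → 0 < q w' → Y w = Y w' → R w = R w' → g (Pt w) = g (Pt w') →
      |u w ⬝ᵥ (ν (Pt w) - ν (Pt w'))| ≤ a * (ℓ w + ((2 : ℝ) ^ K)⁻¹) ∧
      ∀ i, |(ν (Pt w) - ν (Pt w')) i - (u w ⬝ᵥ (ν (Pt w) - ν (Pt w'))) * u w i| ≤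
        a * ((2 : ℝ) ^ K)⁻¹)
    (hf : Ex q (fun w => Real.log (1 + (2 : ℝ) ^ K * ℓ w)) + n * Real.log (2 * (2 * a + 1) + 1) -
      CH q (fun w => fl K (ν (Pt w))) (fun w => (Y w, (R w, g (Pt w)))) ≤ θ * κ) :
    Pq q (fun w => ∃ i, n * Real.exp (-(g₀ * κ)) < |ℓ w * (Pj (Pt w) *ᵥ u w) i|) ≤ η := by
  have hlv : ∀ w, lv (nl K (ℓ w) (u w)) - lv (fb n K) ≤ Real.log (1 + (2 : ℝ) ^ K * ℓ w) := by
    intro w
    have := lv_nl (K := K) (hℓ w) (hu w)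
    linarith
  have hE : Ex q (fun w => lv (nl K (ℓ w) (u w)) - lv (fb n K)) ≤
      Ex q (fun w => Real.log (1 + (2 : ℝ) ^ K * ℓ w)) := Ex_mono q0 fun w _ => hlv w
  have dV : Det q (fun w => (R w, g (Pt w))) (fun w => nl K (ℓ w) (u w)) := by
    intro w w' a b k
    obtain ⟨h1, h2⟩ := Prod.ext_iff.mp (dv w w' a b k)
    simp only at h1 h2 ⊢
    rw [h1, h2]
  have hDF := DF_le_label q0 q1 (T := fun _ => fb n K) (V := fun w => nl K (ℓ w) (u w))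
    (fun w => ν (Pt w)) Y (fun w => (R w, g (Pt w))) dV (a := 2 * a) (by
      intro w w' k k' e1 e2 i
      have e3 := Prod.ext_iff.mp e2
      obtain ⟨f1, f2⟩ := hY w w' k k' e1 e3.1 e3.2
      have f3 := f2 i
      have hpos : 0 < ℓ w + ((2 : ℝ) ^ K)⁻¹ := by
        have := hℓ w
        positivity
      rw [← Pi.sub_apply, ← Matrix.mulVec_sub, nl_inv (hℓ w) (hu w), nli_mulVec K (hℓ w)]
      have h2 : (0 : ℝ) < (2 : ℝ) ^ K := by positivity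
      have a0 : 0 ≤ a := by
        by_contra hneg
        push Not at hneg
        have := mul_neg_of_neg_of_pos hneg hpos
        have := abs_nonneg (u w ⬝ᵥ (ν (Pt w) - ν (Pt w')))
        linarith
      have g1 : |(2 : ℝ) ^ K * ((ν (Pt w) - ν (Pt w')) i -
          (u w ⬝ᵥ (ν (Pt w) - ν (Pt w'))) * u w i)| ≤ a := by
        rw [abs_mul, abs_of_pos h2]
        calc (2 : ℝ) ^ K * |(ν (Pt w) - ν (Pt w')) i -
              (u w ⬝ᵥ (ν (Pt w) - ν (Pt w'))) * u w i| ≤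
              (2 : ℝ) ^ K * (a * ((2 : ℝ) ^ K)⁻¹) := mul_le_mul_of_nonneg_left f3 h2.le
          _ = a := by field_simp
      have g2 : |(u w ⬝ᵥ (ν (Pt w) - ν (Pt w'))) / (ℓ w + ((2 : ℝ) ^ K)⁻¹) * u w i| ≤ a := by
        rw [abs_mul, abs_div, abs_of_pos hpos]
        calc |u w ⬝ᵥ (ν (Pt w) - ν (Pt w'))| / (ℓ w + ((2 : ℝ) ^ K)⁻¹) * |u w i| ≤ a * 1 := by
              refine mul_le_mul ?_ (unit_entry (hu w) i) (abs_nonneg _) a0
              rw [div_le_iff₀ hpos]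
              exact f1
          _ = a := mul_one a
      rw [abs_le] at g1 g2 ⊢
      constructor <;> linarith [g1.1, g1.2, g2.1, g2.2])
  have e1 : CH q (fun w => cl (fb n K) (ν (Pt w))) (fun w => (Y w, (R w, g (Pt w)))) =
      CH q (fun w => fl K (ν (Pt w))) (fun w => (Y w, (R w, g (Pt w)))) := by
    congr 1
    funext w
    exact cl_fb K _
  rw [e1] at hDF
  have key := hdat ⟨W, inferInstance, q, q0, q1, Pt, lw, ρ, R, fun w => nl K (ℓ w) (u w), dV,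
      fun w => nl_det (hℓ w) (hu w), fun w => (inc_nl (hℓ w) (hu w)).mono hc, hR, by linarith⟩
  refine (Pq_mono q0 fun w _ k => ?_).trans key
  obtain ⟨i, hi⟩ := k
  change ∃ i j, Real.exp (-(g₀ * κ)) < |(Pj (Pt w) * nl K (ℓ w) (u w)) i j|
  by_contra hcon
  have hcon' : ∀ j, |(Pj (Pt w) * nl K (ℓ w) (u w)) i j| ≤ Real.exp (-(g₀ * κ)) := by
    intro j
    by_contra hh
    exact hcon ⟨i, j, not_le.1 hh⟩
  have hvz : u w ⬝ᵥ u w = 1 := by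
    rcases hu w with h | h
    · exact h
    · exfalso
      rw [h, Matrix.mulVec_zero, Pi.zero_apply, mul_zero, abs_zero] at hi
      have : 0 ≤ n * Real.exp (-(g₀ * κ)) := by positivity
      linarith
  have e2 : (((2 : ℝ) ^ K)⁻¹ + ℓ w) • (Pj (Pt w) *ᵥ u w) =
      (Pj (Pt w) * nl K (ℓ w) (u w)) *ᵥ u w := by
    rw [← Matrix.mulVec_mulVec, nl_mulVec hvz, Matrix.mulVec_smul]
  have e3 : |((Pj (Pt w) * nl K (ℓ w) (u w)) *ᵥ u w) i| ≤ n * Real.exp (-(g₀ * κ)) := by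
    have e4 : ((Pj (Pt w) * nl K (ℓ w) (u w)) *ᵥ u w) i =
        ∑ j, (Pj (Pt w) * nl K (ℓ w) (u w)) i j * u w j := rfl
    rw [e4]
    calc |∑ j, (Pj (Pt w) * nl K (ℓ w) (u w)) i j * u w j| ≤
          ∑ j, |(Pj (Pt w) * nl K (ℓ w) (u w)) i j * u w j| := Finset.abs_sum_le_sum_abs _ _
      _ ≤ ∑ _j : Fin n, Real.exp (-(g₀ * κ)) := Finset.sum_le_sum fun j _ => by
          rw [abs_mul]
          calc |(Pj (Pt w) * nl K (ℓ w) (u w)) i j| * |u w j| ≤ Real.exp (-(g₀ * κ)) * 1 :=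
                mul_le_mul (hcon' j) (unit_entry (hu w) j) (abs_nonneg _) (Real.exp_pos _).le
            _ = Real.exp (-(g₀ * κ)) := mul_one _
      _ = n * Real.exp (-(g₀ * κ)) := by
          rw [Finset.sum_const, Finset.card_univ, Fintype.card_fin, nsmul_eq_mul]
  rw [← e2, Pi.smul_apply, smul_eq_mul, abs_mul] at e3
  rw [abs_mul, abs_of_nonneg (hℓ w)] at hi
  have e5 : ℓ w ≤ |((2 : ℝ) ^ K)⁻¹ + ℓ w| := by
    have h2 : (0 : ℝ) ≤ ((2 : ℝ) ^ K)⁻¹ := by positivity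
    rw [abs_of_nonneg (by linarith [hℓ w])]
    linarith
  have e6 := mul_le_mul_of_nonneg_right e5 (abs_nonneg ((Pj (Pt w) *ᵥ u w) i))
  linarith

end

end Pool.MSD
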