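import Pool.Agent.H38.MSD.Bod

/-!
# LEMMA MSD: the levels, and an almost optimal datum
-/

set_option autoImplicit false

namespace Pool.MSD

open Matrix Finset Real
open Pool.Agent.H49.Ent Pool.Agent.H32.Dense Pool.FAD

/-- The constants of inclusion. -/
noncomputable def cs (n : ℕ) (c : ℝ) (i : ℕ) : ℝ := ((n : ℝ) + 1) ^ i * c

/-- The levels. -/
noncomputable def As (n : ℕ) (a a₀ c e : ℝ) : ℕ → ℝ
  | 0 => a
  | i + 1 => 6 * As n a a₀ c e i + 4 * a₀ + 2 * Ct n (cs n c i) e + Cp n (cs n c i)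

theorem cs_nonneg (n : ℕ) {c : ℝ} (hc : 0 ≤ c) (i : ℕ) : 0 ≤ cs n c i := by
  unfold cs
  positivity

theorem cs_succ (n : ℕ) {c : ℝ} (hc : 0 ≤ c) (i : ℕ) : (n : ℝ) * cs n c i ≤ cs n c (i + 1) := by
  unfold cs
  rw [pow_succ]
  have h : 0 ≤ ((n : ℝ) + 1) ^ i * c := by positivity
  nlinarith

theorem cs_mono (n : ℕ) {c : ℝ} (hc : 0 ≤ c) {i j : ℕ} (h : i ≤ j) : cs n c i ≤ cs n c j := by
  unfold cs
  have h0 : (0 : ℝ) ≤ n := Nat.cast_nonneg n
  exact mul_le_mul_of_nonneg_right (pow_le_pow_right₀ (by linarith) h) hc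

theorem cs_ge (n : ℕ) {c : ℝ} (hc : 0 ≤ c) (i : ℕ) : c ≤ cs n c i := by
  have := cs_mono n hc (Nat.zero_le i)
  unfold cs at this ⊢
  rwa [pow_zero, one_mul] at this

section

variable {n : ℕ} {a a₀ c e : ℝ}

theorem As_nonneg (ha : 0 ≤ a) (h0 : 0 ≤ a₀) (hc : 0 ≤ c) (he : 0 ≤ e) (i : ℕ) :
    0 ≤ As n a a₀ c e i := by
  induction i with
  | zero => exact ha
  | succ i ih =>
    have h1 := Ct_nonneg n (cs_nonneg n hc i) he
    have h2 := Cp_nonneg n (cs_nonneg n hc i)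
    change 0 ≤ 6 * As n a a₀ c e i + 4 * a₀ + 2 * Ct n (cs n c i) e + Cp n (cs n c i)
    linarith

theorem As_ge (ha : 0 ≤ a) (h0 : 0 ≤ a₀) (hc : 0 ≤ c) (he : 0 ≤ e) (i : ℕ) :
    a ≤ As n a a₀ c e i := by
  induction i with
  | zero => exact le_rfl
  | succ i ih =>
    have h1 := Ct_nonneg n (cs_nonneg n hc i) he
    have h2 := Cp_nonneg n (cs_nonneg n hc i)
    have h3 := As_nonneg (n := n) ha h0 hc he i
    change a ≤ 6 * As n a a₀ c e i + 4 * a₀ + 2 * Ct n (cs n c i) e + Cp n (cs n c i)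
    linarith

/-- The growth of the levels. -/
theorem As_le (h0 : 0 ≤ a₀) (hc : 0 ≤ c) (he : 0 ≤ e) (N : ℕ) {B : ℝ}
    (hB : 4 * a₀ + 2 * Ct n (cs n c N) e + Cp n (cs n c N) ≤ B) (i : ℕ) (hi : i ≤ N) :
    As n a a₀ c e i + B ≤ 6 ^ i * (a + B) := by
  have hB0 : 0 ≤ B := by
    have h1 := Ct_nonneg n (cs_nonneg n hc N) he
    have h2 := Cp_nonneg n (cs_nonneg n hc N)
    linarith
  induction i with
  | zero =>
    rw [pow_zero, one_mul]
    exact le_rfl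
  | succ i ih =>
    have h1 := ih (by omega)
    have h2 := Ct_mono n (cs_nonneg n hc i) (cs_mono n hc (show i ≤ N by omega)) he
    have h3 := Cp_mono n (cs_nonneg n hc i) (cs_mono n hc (show i ≤ N by omega))
    change 6 * As n a a₀ c e i + 4 * a₀ + 2 * Ct n (cs n c i) e + Cp n (cs n c i) + B ≤
      6 ^ (i + 1) * (a + B)
    rw [pow_succ]
    nlinarith

end

section

variable {Ω Q₀ γ : Type} [Fintype Ω] {n : ℕ} {p : Ω → ℝ} {P : Ω → Q₀} {g : Q₀ → γ}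
  {ν : Q₀ → Fin n → ℝ} {T : Matrix (Fin n) (Fin n) ℝ} {a a' c : ℝ}

/-- The trivial datum. -/
def triv (p0 : ∀ ω, 0 ≤ p ω) (p1 : ∑ ω, p ω = 1) (P : Ω → Q₀) (g : Q₀ → γ)
    (ν : Q₀ → Fin n → ℝ) (hT : T.det ≠ 0) (ha : 0 ≤ a) (hc : 1 ≤ c) :
    Dtm p P g ν T a c where
  W := Ω
  ft := inferInstance
  κ := p
  k0 := p0
  k1 := p1
  Pt := P
  lw := fun _ => rfl
  ρ := Unit
  R := fun _ => ()
  V := fun _ => T
  dV := fun _ _ _ _ _ => rfl
  nz := fun _ => hT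
  inc := fun _ => (inc_one T hT).mono hc
  inf := by
    refine le_trans (le_of_eq ?_) ha
    unfold Inf
    rw [sub_eq_zero]
    refine CH_congr p0 ?_ ?_ ?_ ?_ <;>
    · intro ω ω' _ _ h
      simp only [Prod.mk.injEq] at h ⊢
      tauto
  df := by
    refine le_trans (le_of_eq ?_) ha
    have h1 : CH p (fun ω => cl T (ν (P ω))) (fun ω => (cl T (ν (P ω)), ((), g (P ω)))) = 0 :=
      CH_eq_zero p0 (fun ω ω' _ _ h => (Prod.ext_iff.mp h).1)
    have h2 : Ex p (fun _ => lv T - lv T) = 0 := by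
      rw [sub_self]
      exact Ex_const p1 0
    change Ex p (fun _ => lv T - lv T) -
      CH p (fun ω => cl T (ν (P ω))) (fun ω => (cl T (ν (P ω)), ((), g (P ω)))) = 0
    rw [h1, h2, sub_zero]

/-- The volume of a datum. -/
noncomputable def vl (D : Dtm p P g ν T a c) : ℝ := Ex D.κ (fun w => lv (D.V w))

theorem vl_triv (p0 : ∀ ω, 0 ≤ p ω) (p1 : ∑ ω, p ω = 1) (hT : T.det ≠ 0) (ha : 0 ≤ a)
    (hc : 1 ≤ c) : vl (triv p0 p1 P g ν hT ha hc) = lv T := by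
  change Ex p (fun _ => lv T) = lv T
  exact Ex_const p1 _

/-- The entropy of a function of the point. -/
theorem CH_Pt (D : Dtm p P g ν T a c) (p0 : ∀ ω, 0 ≤ p ω) {A B : Type} (f : Q₀ → A)
    (k : Q₀ → B) : CH D.κ (fun w => f (D.Pt w)) (fun w => k (D.Pt w)) =
      CH p (fun ω => f (P ω)) (fun ω => k (P ω)) := by
  rw [← CH_glue_snd D.k0 (q2_eq D) (fun w => f (D.Pt w)) (fun w => k (D.Pt w)),
    ← CH_glue_fst p0 (q2_eq D) (fun ω => f (P ω)) (fun ω => k (P ω))]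
  have e : ∀ w, 0 < glue p D.κ P D.Pt w → P w.1 = D.Pt w.2 := fun w hw =>
    ((glue_pos_iff p0 D.k0 w).1 hw).2.2
  exact CH_supp (fun w => glue_nonneg p0 D.k0 w) (fun w hw => by rw [e w hw])
    (fun w hw => by rw [e w hw])

/-- The volume is bounded by the entropy of the height. -/
theorem vl_le (D : Dtm p P g ν T a c) (p0 : ∀ ω, 0 ≤ p ω) :
    vl D ≤ lv T + a + CH p (fun ω => cl T (ν (P ω))) (fun ω => g (P ω)) := by
  have h1 := D.df
  unfold DF at h1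
  have h2 : CH D.κ (fun w => cl T (ν (D.Pt w)))
      (fun w => (cl (D.V w) (ν (D.Pt w)), (D.R w, g (D.Pt w)))) ≤
      CH D.κ (fun w => cl T (ν (D.Pt w))) (fun w => g (D.Pt w)) :=
    CH_mono_cond D.k0 fun w w' _ _ k => (Prod.ext_iff.mp (Prod.ext_iff.mp k).2).2
  have h3 := CH_Pt D p0 (fun x => cl T (ν x)) g
  have h4 : Ex D.κ (fun w => lv (D.V w) - lv T) = vl D - lv T := by
    have := Ex_sub D.κ (fun w => lv (D.V w)) (fun _ => lv T)
    rw [this, Ex_const D.k1]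
    rfl
  rw [h4] at h1
  linarith

end

section

variable {Ω Q₀ γ Λ β υ : Type} [Fintype Ω] {n : ℕ} {p : Ω → ℝ} {P : Ω → Q₀} {g : Q₀ → γ}
  {ν : Q₀ → Fin n → ℝ} {T : Matrix (Fin n) (Fin n) ℝ} {a a₀ c e : ℝ}

/-- **An almost optimal datum**: its volume is not increased much at the next level. -/
theorem exists_opt (p0 : ∀ ω, 0 ≤ p ω) (p1 : ∑ ω, p ω = 1) (P : Ω → Q₀) (g : Q₀ → γ)
    (ν : Q₀ → Fin n → ℝ) (hT : T.det ≠ 0) (ha : 0 ≤ a) (h0 : 0 ≤ a₀) (hc : 1 ≤ c) (he : 0 ≤ e)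
    {N : ℕ} (hN : 0 < N) : ∃ i < N, ∃ D : Dtm p P g ν T (As n a a₀ c e i) (cs n c i),
      ∀ D' : Dtm p P g ν T (As n a a₀ c e (i + 1)) (cs n c (i + 1)), vl D' ≤ vl D + 1 +
        (As n a a₀ c e N + CH p (fun ω => cl T (ν (P ω))) (fun ω => g (P ω))) / N := by
  obtain ⟨H₀, hH⟩ : ∃ H₀, H₀ = CH p (fun ω => cl T (ν (P ω))) (fun ω => g (P ω)) := ⟨_, rfl⟩
  obtain ⟨A, hA⟩ : ∃ A : ℕ → ℝ, A = As n a a₀ c e := ⟨_, rfl⟩
  have hc0 : 0 ≤ c := by linarith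
  have hA0 : ∀ i, 0 ≤ A i := fun i => by
    rw [hA]
    exact As_nonneg ha h0 hc0 he i
  -- the suprema
  obtain ⟨s, hs⟩ : ∃ s : ℕ → Set ℝ, s = fun i => {x | ∃ D : Dtm p P g ν T (A i) (cs n c i),
    x = vl D} := ⟨_, rfl⟩
  have hne : ∀ i, lv T ∈ s i := fun i => by
    rw [hs]
    exact ⟨triv p0 p1 P g ν hT (hA0 i) (hc.trans (cs_ge n hc0 i)), (vl_triv p0 p1 hT _ _).symm⟩
  have hbd : ∀ i, ∀ x ∈ s i, x ≤ lv T + A i + H₀ := fun i x hx => by
    rw [hs] at hx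
    obtain ⟨D, rfl⟩ := hx
    rw [hH]
    exact vl_le D p0
  have hba : ∀ i, BddAbove (s i) := fun i => ⟨_, fun x hx => hbd i x hx⟩
  -- the pigeonhole
  have key : ∃ i < N, sSup (s (i + 1)) ≤ sSup (s i) + (A N + H₀) / N := by
    by_contra hcon
    have hcon' : ∀ i, i < N → sSup (s i) + (A N + H₀) / N < sSup (s (i + 1)) := by
      intro i hi
      by_contra hh
      exact hcon ⟨i, hi, not_lt.1 hh⟩
    have h1 : ∀ i ≤ N, 0 < i → sSup (s 0) + i * ((A N + H₀) / N) < sSup (s i) := by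
      intro i
      induction i with
      | zero => exact fun _ h => absurd h (lt_irrefl 0)
      | succ i ih =>
        intro hi _
        have h2 := hcon' i (by omega)
        rcases Nat.eq_zero_or_pos i with hz | hz
        · subst hz
          push_cast
          linarith
        · have h3 := ih (by omega) hz
          push_cast
          linarith
    have h2 := h1 N le_rfl hN
    have h3 : lv T ≤ sSup (s 0) := le_csSup (hba 0) (hne 0)
    have h4 : sSup (s N) ≤ lv T + A N + H₀ := csSup_le ⟨_, hne N⟩ (hbd N)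
    have h5 : (N : ℝ) * ((A N + H₀) / N) = A N + H₀ := by
      have : (N : ℝ) ≠ 0 := by exact_mod_cast hN.ne'
      field_simp
    linarith
  obtain ⟨i, hi, hkey⟩ := key
  obtain ⟨x, hx, hx'⟩ := exists_lt_of_lt_csSup ⟨_, hne i⟩ (show sSup (s i) - 1 < sSup (s i) by
    linarith)
  rw [hs] at hx
  obtain ⟨D, hD⟩ := hx
  rw [← hA, ← hH]
  refine ⟨i, hi, D, fun D' => ?_⟩
  have h6 : vl D' ≤ sSup (s (i + 1)) := le_csSup (hba (i + 1)) (by
    rw [hs]
    exact ⟨D', rfl⟩)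
  rw [← hD]
  linarith

end

end Pool.MSD
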