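import Pool.Agent.H38.MSD.Prj

/-!
# LEMMA MSD: the closed projection

`msd`: if the heights of a line are translated along the line by a function of `U` and of the
contexts, `U` has little information about the height, and the height is not full given the context,
then there is an orthogonal projection `Pi x`, a function of the point `x`, which is the same at the
points of a line, kills the body of every datum, and is not zero with probability `≥ c₁ / 2 M - η`.
-/

set_option autoImplicit false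

namespace Pool.MSD

open Matrix Finset Real
open Pool.Agent.H49.Ent Pool.Agent.H32.Dense Pool.FAD

section Sel

variable {W S : Type} [Fintype W] {q : W → ℝ} {X : W → S}

/-- The choice of one sample for every value. -/
theorem exists_sel' (q0 : ∀ w, 0 ≤ q w) (q1 : ∑ w, q w = 1) (X : W → S) (f : W → W → ℝ) :
    ∃ ws : S → W, Ex q (fun w => f w (ws (X w))) ≤ Ex (glue q q X X) (fun w => f w.1 w.2) := by
  classical
  obtain ⟨Φ, hΦ⟩ : ∃ Φ : S → W → ℝ, Φ = fun x w' =>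
    ∑ w, if X w = x then q w * f w w' else 0 := ⟨_, rfl⟩
  have hne : Nonempty W := by
    by_contra hcon
    rw [not_nonempty_iff] at hcon
    rw [Finset.univ_eq_empty, Finset.sum_empty] at q1
    exact zero_ne_one q1
  have hsel : ∀ x, ∃ w' : W, ∀ w, 0 < q w → X w = x → Φ x w' ≤ Φ x w := by
    intro x
    by_cases hx : ∃ w, 0 < q w ∧ X w = x
    · obtain ⟨w', h1, h2⟩ := Finset.exists_min_image
        (Finset.univ.filter fun w => 0 < q w ∧ X w = x) (Φ x)
        ⟨hx.choose, Finset.mem_filter.mpr ⟨Finset.mem_univ _, hx.choose_spec⟩⟩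
      exact ⟨w', fun w a b => h2 w (Finset.mem_filter.mpr ⟨Finset.mem_univ _, a, b⟩)⟩
    · exact ⟨hne.some, fun w a b => absurd ⟨w, a, b⟩ hx⟩
  choose ws hws using hsel
  refine ⟨ws, ?_⟩
  have e1 : Ex q (fun w => f w (ws (X w))) =
      Ex (glue q q X X) (fun w => f w.1 (ws (X w.1))) :=
    (Ex_glue_fst q0 (fun _ => rfl) (fun w => f w (ws (X w)))).symm
  rw [e1]
  unfold Ex
  rw [Fintype.sum_prod_type_right, Fintype.sum_prod_type_right]
  refine Finset.sum_le_sum fun w' _ => ?_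
  have hgl : ∀ w, glue q q X X (w, w') = if X w = X w' then
      q w * (q w' / law q X (X w')) else 0 := by
    intro w
    unfold glue
    simp only
    split_ifs with h
    · rw [h]
      ring
    · rfl
  have hw0 : 0 ≤ q w' / law q X (X w') := div_nonneg (q0 w') (law_nonneg q0 _ _)
  have e2 : ∀ F : W → ℝ, ∑ w, glue q q X X (w, w') * F w =
      (q w' / law q X (X w')) * ∑ w, if X w = X w' then q w * F w else 0 := by
    intro F
    rw [Finset.mul_sum]
    refine Finset.sum_congr rfl fun w _ => ?_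
    rw [hgl w]
    split_ifs
    · ring
    · ring
  have e3 : ∑ w, glue q q X X (w, w') * f w (ws (X w)) =
      (q w' / law q X (X w')) * Φ (X w') (ws (X w')) := by
    rw [e2 (fun w => f w (ws (X w))), hΦ]
    congr 1
    refine Finset.sum_congr rfl fun w _ => ?_
    split_ifs with h
    · rw [h]
    · rfl
  have e4 : ∑ w, glue q q X X (w, w') * f w w' = (q w' / law q X (X w')) * Φ (X w') w' := by
    rw [e2 (fun w => f w w'), hΦ]
  change ∑ w, glue q q X X (w, w') * f w (ws (X w)) ≤ ∑ w, glue q q X X (w, w') * f w w'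
  rw [e3, e4]
  rcases (q0 w').eq_or_lt with h0 | h0
  · rw [← h0, zero_div, zero_mul, zero_mul]
  · exact mul_le_mul_of_nonneg_left (hws _ w' h0 rfl) hw0

theorem exists_selP (q0 : ∀ w, 0 ≤ q w) (q1 : ∑ w, q w = 1) (X : W → S) (A : W → W → Prop) :
    ∃ ws : S → W, Pq q (fun w => A w (ws (X w))) ≤ Pq (glue q q X X) (fun w => A w.1 w.2) := by
  classical
  obtain ⟨ws, hws⟩ := exists_sel' q0 q1 X (fun w w' => if A w w' then 1 else 0)
  refine ⟨ws, ?_⟩
  rw [Pq_eq, Pq_eq]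
  exact hws

/-- The law of two samples is symmetric. -/
theorem glue_symm (q : W → ℝ) (X : W → S) (w w' : W) :
    glue q q X X (w, w') = glue q q X X (w', w) := by
  classical
  unfold glue
  simp only
  by_cases h : X w = X w'
  · rw [if_pos h, if_pos h.symm, h]
    ring
  · rw [if_neg h, if_neg (fun k => h k.symm)]

theorem Pq_glue_symm (q : W → ℝ) (X : W → S) (A : W → W → Prop) :
    Pq (glue q q X X) (fun w => A w.1 w.2) = Pq (glue q q X X) (fun w => A w.2 w.1) := by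
  classical
  unfold Pq
  rw [Fintype.sum_prod_type, Fintype.sum_prod_type_right]
  refine Finset.sum_congr rfl fun w _ => Finset.sum_congr rfl fun w' _ => ?_
  rw [glue_symm]

/-- The pigeonhole for events: if every sample is in at most `k` of the events. -/
theorem exists_rare (q0 : ∀ w, 0 ≤ q w) (q1 : ∑ w, q w = 1) {J : ℕ} (hJ : 0 < J)
    (A : ℕ → W → Prop) (k : ℕ)
    (h : ∀ w, ∃ F : Finset ℕ, F.card ≤ k ∧ ∀ j < J, A j w → j ∈ F) :
    ∃ j < J, Pq q (A j) ≤ k / J := by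
  classical
  by_contra hcon
  have h1 : ∀ j ∈ Finset.range J, (k : ℝ) / J < Pq q (A j) := by
    intro j hj
    by_contra hh
    exact hcon ⟨j, Finset.mem_range.1 hj, not_lt.1 hh⟩
  have h2 : ∑ _j ∈ Finset.range J, (k : ℝ) / J < ∑ j ∈ Finset.range J, Pq q (A j) :=
    Finset.sum_lt_sum_of_nonempty ⟨0, Finset.mem_range.2 hJ⟩ h1
  rw [Finset.sum_const, Finset.card_range, nsmul_eq_mul] at h2
  have hJR : (J : ℝ) ≠ 0 := by exact_mod_cast hJ.ne'
  have h3 : (J : ℝ) * (k / J) = k := by field_simp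
  rw [h3] at h2
  have h4 : ∑ j ∈ Finset.range J, Pq q (A j) ≤ k := by
    unfold Pq
    rw [Finset.sum_comm]
    calc ∑ w, ∑ j ∈ Finset.range J, (if A j w then q w else 0) ≤ ∑ w, (k : ℝ) * q w := by
          refine Finset.sum_le_sum fun w _ => ?_
          obtain ⟨F, hF, hF'⟩ := h w
          rw [← Finset.sum_filter, Finset.sum_const, nsmul_eq_mul]
          refine mul_le_mul_of_nonneg_right ?_ (q0 w)
          exact_mod_cast (Finset.card_le_card fun j hj => by
            rw [Finset.mem_filter, Finset.mem_range] at hj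
            exact hF' j hj.1 hj.2).trans hF
      _ = k := by rw [← Finset.mul_sum, q1, mul_one]
  linarith

end Sel

/-- **The closed projection.** -/
structure Prf {Ω Q₀ γ Λ : Type} [Fintype Ω] {n : ℕ} (p : Ω → ℝ) (P : Ω → Q₀) (g : Q₀ → γ)
    (ν : Q₀ → Fin n → ℝ) (T : Matrix (Fin n) (Fin n) ℝ) (L : Ω → Λ) (η M c c₁ θ g₀ κ : ℝ)
    (Pi : Q₀ → Matrix (Fin n) (Fin n) ℝ) : Prop where
  sym : ∀ x, (Pi x)ᵀ = Pi x
  idm : ∀ x, Pi x * Pi x = Pi x
  /-- the projection is the same at two points of a line -/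
  con : Pq (glue p p L L) (fun w => ∃ i j, Real.exp (-(g₀ * κ)) <
    |Pi (P w.1) i j - Pi (P w.2) i j|) ≤ η
  /-- the projection is a function of the line -/
  lin : ∃ Φ : Λ → Matrix (Fin n) (Fin n) ℝ, Pq p (fun ω => ∃ i j, Real.exp (-(g₀ * κ)) <
    |Pi (P ω) i j - Φ (L ω) i j|) ≤ η
  /-- the projection kills the body of every datum -/
  dat : ∀ D : Dtm p P g ν T (θ * κ) c,
    Pq D.κ (fun w => ∃ i j, Real.exp (-(g₀ * κ)) < |(Pi (D.Pt w) * D.V w) i j|) ≤ η
  /-- the projection is not zero with a positive probability -/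
  pos : c₁ / (2 * M) - η ≤ Pq p (fun ω => 1 ≤ (Pi (P ω)).trace)
  /-- a closed covector -/
  cov : ∃ i, (c₁ / (2 * M) - η) / n ≤ Pq p (fun ω => 1 / (n : ℝ) ≤ Pi (P ω) i i)

/-- **LEMMA MSD.** -/
theorem msd (n : ℕ) {η M c e c₁ : ℝ} (hη : 0 < η) (hM : 1 ≤ M) (hc : 1 ≤ c) (he : 0 ≤ e)
    (hc₁ : 0 < c₁) : ∃ θ κ₀ g₀, 0 < θ ∧ 0 < κ₀ ∧ 0 < g₀ ∧ ∀ κ, κ₀ ≤ κ →
    ∀ {Ω Q₀ γ Λ β υ : Type} [Fintype Ω] {p : Ω → ℝ} {P : Ω → Q₀} {g : Q₀ → γ}
      {ν : Q₀ → Fin n → ℝ} {T : Matrix (Fin n) (Fin n) ℝ} {L : Ω → Λ} {b : γ → β} {U : Λ → υ}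
      {Z : υ → γ → γ → Fin n → ℝ} {a₀ : ℝ}, Lin p P g ν T L b U Z a₀ e → T.det ≠ 0 →
      0 ≤ a₀ → a₀ ≤ θ * κ →
      CH p (fun ω => cl T (ν (P ω))) (fun ω => g (P ω)) + lv T ≤ -(c₁ * κ) →
      -lv T ≤ M * κ →
      ∃ Pi : Q₀ → Matrix (Fin n) (Fin n) ℝ, Prf p P g ν T L η M c c₁ θ g₀ κ Pi := by
  classical
  have hn0 : (0 : ℝ) ≤ n := Nat.cast_nonneg n
  obtain ⟨J, hJ⟩ := exists_nat_gt (4 * n / η)
  have hJR : (0 : ℝ) < J := lt_of_le_of_lt (by positivity) hJ
  have hJ0 : 0 < J := by exact_mod_cast hJR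
  have hJη : n / (J : ℝ) ≤ η / 4 := by
    rw [div_lt_iff₀ hη] at hJ
    rw [div_le_div_iff₀ hJR (by norm_num)]
    linarith
  obtain ⟨ζ, hζ⟩ : ∃ ζ : ℝ, ζ = c₁ / (4 * (n + 1) * (J + 1)) := ⟨_, rfl⟩
  have hζ0 : 0 < ζ := by
    rw [hζ]
    positivity
  obtain ⟨ε, hε⟩ : ∃ ε : ℝ, ε = min (min 1 (η / 4)) (min (c₁ / 4) (ζ / 4)) := ⟨_, rfl⟩
  have hε0 : 0 < ε := by
    rw [hε]
    refine lt_min (lt_min one_pos (by linarith)) (lt_min (by linarith) (by linarith))
  have hε1 : ε ≤ 1 := by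
    rw [hε]
    exact (min_le_left _ _).trans (min_le_left _ _)
  have hε2 : ε ≤ η / 4 := by
    rw [hε]
    exact (min_le_left _ _).trans (min_le_right _ _)
  have hε3 : ε ≤ c₁ / 4 := by
    rw [hε]
    exact (min_le_right _ _).trans (min_le_left _ _)
  have hε4 : ε ≤ ζ / 4 := by
    rw [hε]
    exact (min_le_right _ _).trans (min_le_right _ _)
  obtain ⟨θ, κ₁, c', hθ, hκ₁, -, hbody⟩ := msd_body n hε0 hε1 hM hc he
  obtain ⟨κ₂, hκ₂⟩ : ∃ κ₂ : ℝ, κ₂ = 4 * (2 * ((n : ℝ) + 1) ^ 4) / ζ := ⟨_, rfl⟩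
  have hκ₂0 : 0 ≤ κ₂ := by
    rw [hκ₂]
    positivity
  refine ⟨θ, κ₁ + κ₂, ζ / 2, hθ, by linarith, by linarith, ?_⟩
  intro κ hκ Ω Q₀ γ Λ β υ _ p P g ν T L b U Z a₀ h hT ha0 ha0' hH hB
  have hκ0 : 0 < κ := by linarith
  have hCH := CH_nonneg h.p0 (fun ω => cl T (ν (P ω))) (fun ω => g (P ω))
  have hcκ : 0 < c₁ * κ := mul_pos hc₁ hκ0
  have hn : 0 < n := by
    rcases Nat.eq_zero_or_pos n with h0 | h0
    · exfalso
      subst h0
      have : lv T = 0 := by
        unfold lv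
        rw [Matrix.det_isEmpty, abs_one, Real.log_one]
      linarith
    · exact h0
  have hnR : (1 : ℝ) ≤ n := by exact_mod_cast hn
  obtain ⟨Vs, F⟩ := hbody κ (by linarith) h hT ha0 ha0' (by linarith)
  choose O O' d hax using fun x => exists_axs (Vs x) (F.nz x)
  -- the thresholds
  obtain ⟨τ, hτ⟩ : ∃ τ : ℕ → ℝ, τ = fun j : ℕ => Real.exp (-((j : ℝ) * (ζ * κ))) := ⟨_, rfl⟩
  have hτ0 : ∀ j, 0 < τ j := fun j => by
    rw [hτ]
    exact Real.exp_pos _
  have hζκ : 0 < ζ * κ := mul_pos hζ0 hκ0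
  have hτa : ∀ i j : ℕ, i ≤ j → τ j ≤ τ i := by
    intro i j hij
    rw [hτ]
    refine Real.exp_le_exp.2 ?_
    have : (i : ℝ) ≤ j := by exact_mod_cast hij
    nlinarith
  obtain ⟨j, hjJ, hj⟩ := exists_rare h.p0 h.p1 hJ0
    (fun j ω => ∃ i, τ (j + 1) < d (P ω) i ∧ d (P ω) i ≤ τ j) n (fun ω => by
      -- every axis is in at most one gap
      have hax1 : ∀ i : Fin n, ∃ k : ℕ, ∀ j, τ (j + 1) < d (P ω) i ∧ d (P ω) i ≤ τ j → j = k := by
        intro i
        by_cases hex : ∃ j, τ (j + 1) < d (P ω) i ∧ d (P ω) i ≤ τ j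
        · obtain ⟨k, hk1, hk2⟩ := hex
          refine ⟨k, fun j hj => ?_⟩
          rcases lt_trichotomy j k with hlt | heq | hgt
          · have := hτa (j + 1) k hlt
            linarith [hj.1]
          · exact heq
          · have := hτa (k + 1) j hgt
            linarith [hj.2]
        · exact ⟨0, fun j hj => absurd ⟨j, hj⟩ hex⟩
      choose k hk using hax1
      refine ⟨Finset.univ.image k, ?_, ?_⟩
      · exact Finset.card_image_le.trans (by rw [Finset.card_univ, Fintype.card_fin])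
      · intro j _ hj
        obtain ⟨i, hi⟩ := hj
        rw [Finset.mem_image]
        exact ⟨i, Finset.mem_univ _, (hk i j hi).symm⟩)
  obtain ⟨G, hG⟩ : ∃ G : Ω → Prop, G = fun ω => ∃ i, τ (j + 1) < d (P ω) i ∧
    d (P ω) i ≤ τ j := ⟨_, rfl⟩
  have hjG : Pq p G ≤ η / 4 := by
    rw [hG]
    exact hj.trans hJη
  have hnG : ∀ ω, ¬G ω → ∀ i, d (P ω) i ≤ τ (j + 1) ∨ τ j < d (P ω) i := by
    intro ω hω i
    by_contra hcon
    rw [not_or, not_le, not_lt] at hcon
    refine hω ?_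
    rw [hG]
    exact ⟨i, hcon.1, hcon.2⟩
  have hratio : τ (j + 1) / τ j = Real.exp (-(ζ * κ)) := by
    rw [hτ]
    simp only
    rw [← Real.exp_sub]
    congr 1
    push_cast
    ring
  -- the numerical estimate
  have hnum : 2 * ((n : ℝ) + 1) ^ 4 ≤ Real.exp (ζ * κ / 4) := by
    have h1 : 2 * ((n : ℝ) + 1) ^ 4 ≤ ζ * κ / 4 := by
      have : κ₂ ≤ κ := by linarith
      rw [hκ₂, div_le_iff₀ hζ0] at this
      linarith
    have h2 := Real.add_one_le_exp (ζ * κ / 4)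
    linarith
  have hE : Real.exp (ε * κ) ≤ Real.exp (ζ * κ / 4) := by
    refine Real.exp_le_exp.2 ?_
    have := mul_le_mul_of_nonneg_right hε4 hκ0.le
    linarith
  have hbnd : 2 * ((n : ℝ) + 1) ^ 4 * Real.exp (ε * κ) * Real.exp (-(ζ * κ)) ≤
      Real.exp (-(ζ / 2 * κ)) := by
    calc 2 * ((n : ℝ) + 1) ^ 4 * Real.exp (ε * κ) * Real.exp (-(ζ * κ)) ≤
          Real.exp (ζ * κ / 4) * Real.exp (ζ * κ / 4) * Real.exp (-(ζ * κ)) :=
          mul_le_mul_of_nonneg_right (mul_le_mul hnum hE (Real.exp_pos _).le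
            (Real.exp_pos _).le) (Real.exp_pos _).le
      _ = Real.exp (-(ζ / 2 * κ)) := by
          rw [← Real.exp_add, ← Real.exp_add]
          congr 1
          ring
  have hn4 : (n : ℝ) ^ 4 ≤ ((n : ℝ) + 1) ^ 4 := pow_le_pow_left₀ hn0 (by linarith) 4
  -- two points of a line
  have hcon : Pq (glue p p L L) (fun w => ∃ i k, Real.exp (-(ζ / 2 * κ)) <
      |pr (O (P w.1)) (d (P w.1)) (τ (j + 1)) i k -
        pr (O (P w.2)) (d (P w.2)) (τ (j + 1)) i k|) ≤ η := by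
    have gn : ∀ w, 0 ≤ glue p p L L w := fun w => glue_nonneg h.p0 h.p0 w
    have s1 : Pq (glue p p L L) (fun w => G w.1) = Pq p G :=
      Pq_glue_fst h.p0 (fun _ => rfl) G
    have s2 : Pq (glue p p L L) (fun w => G w.2) = Pq p G :=
      Pq_glue_snd h.p0 (fun _ => rfl) G
    have s3 : Pq (glue p p L L) (fun w => ¬Inc (Real.exp (ε * κ)) (Vs (P w.1)) (Vs (P w.2))) ≤
        ε := by
      rw [Pq_glue_symm p L (fun ω ω' => ¬Inc (Real.exp (ε * κ)) (Vs (P ω)) (Vs (P ω')))]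
      exact F.con
    have s4 : Pq (glue p p L L) (fun w => G w.1 ∨ G w.2) ≤ η / 4 + η / 4 :=
      (Pq_or gn (fun _ _ k => k)).trans (by rw [s1, s2]; linarith)
    have s5 : Pq (glue p p L L) (fun w => ¬Inc (Real.exp (ε * κ)) (Vs (P w.1)) (Vs (P w.2)) ∨
        ¬Inc (Real.exp (ε * κ)) (Vs (P w.2)) (Vs (P w.1))) ≤ ε + ε :=
      (Pq_or gn (fun _ _ k => k)).trans (add_le_add s3 F.con)
    refine (Pq_or gn (B := fun w => G w.1 ∨ G w.2)
      (C := fun w => ¬Inc (Real.exp (ε * κ)) (Vs (P w.1)) (Vs (P w.2)) ∨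
        ¬Inc (Real.exp (ε * κ)) (Vs (P w.2)) (Vs (P w.1))) fun w _ k => ?_).trans (by linarith)
    by_contra hcon
    rw [not_or, not_or, not_or, not_not, not_not] at hcon
    obtain ⟨i, l, hil⟩ := k
    have := pr_diff (hax (P w.1)) (hax (P w.2)) (F.nz _) (F.nz _) (hτ0 (j + 1)) (hτ0 j)
      (Real.exp_pos (ε * κ)).le hcon.2.2 hcon.2.1 (hnG _ hcon.1.1) (hnG _ hcon.1.2) i l
    rw [hratio] at this
    have h5 : 2 * ((n : ℝ) ^ 4 * Real.exp (ε * κ) * Real.exp (-(ζ * κ))) ≤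
        2 * ((n : ℝ) + 1) ^ 4 * Real.exp (ε * κ) * Real.exp (-(ζ * κ)) := by
      have h6 := mul_le_mul_of_nonneg_right (mul_le_mul_of_nonneg_right hn4
        (Real.exp_pos (ε * κ)).le) (Real.exp_pos (-(ζ * κ))).le
      linarith
    linarith
  -- the positive probability
  have hpos : c₁ / (2 * M) - η ≤ Pq p (fun ω =>
      1 ≤ (pr (O (P ω)) (d (P ω)) (τ (j + 1))).trace) := by
    have s1 := F.vol c₁ hc₁ hH hB
    have s2 : Pq p (fun ω => lv (Vs (P ω)) ≤ -((c₁ / 2 - ε) * κ)) ≤ Pq p (fun ω =>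
        1 ≤ (pr (O (P ω)) (d (P ω)) (τ (j + 1))).trace) := by
      refine Pq_mono h.p0 fun ω _ k => ?_
      have h1 : lv (Vs (P ω)) ≤ -(n * ((j + 1 : ℕ) * (ζ * κ))) := by
        have h2 : (n : ℝ) * ((j + 1 : ℕ) * ζ) ≤ c₁ / 4 := by
          have h3 : ((j + 1 : ℕ) : ℝ) ≤ J := by exact_mod_cast hjJ
          rw [hζ]
          have h4 : (n : ℝ) * ((j + 1 : ℕ) * (c₁ / (4 * (n + 1) * (J + 1)))) =
              c₁ / 4 * ((n / (n + 1)) * ((j + 1 : ℕ) / (J + 1))) := by
            field_simp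
          rw [h4]
          have h5 : (n : ℝ) / (n + 1) ≤ 1 := by
            rw [div_le_one (by linarith)]
            linarith
          have h6 : ((j + 1 : ℕ) : ℝ) / (J + 1) ≤ 1 := by
            rw [div_le_one (by linarith)]
            linarith
          have h7 : (0 : ℝ) ≤ (n : ℝ) / (n + 1) := by positivity
          have h8 : (0 : ℝ) ≤ ((j + 1 : ℕ) : ℝ) / (J + 1) := by positivity
          have h9 : (n : ℝ) / (n + 1) * (((j + 1 : ℕ) : ℝ) / (J + 1)) ≤ 1 := by
            calc (n : ℝ) / (n + 1) * (((j + 1 : ℕ) : ℝ) / (J + 1)) ≤ 1 * 1 :=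
                  mul_le_mul h5 h6 h8 (by norm_num)
              _ = 1 := one_mul 1
          nlinarith
        have h3 : (n : ℝ) * ((j + 1 : ℕ) * (ζ * κ)) = (n : ℝ) * ((j + 1 : ℕ) * ζ) * κ := by
          ring
        have h4 := mul_le_mul_of_nonneg_right h2 hκ0.le
        have h5 := mul_le_mul_of_nonneg_right hε3 hκ0.le
        have h6 : (c₁ / 2 - ε) * κ = c₁ / 2 * κ - ε * κ := by ring
        have h7 : c₁ / 4 * κ = c₁ / 2 * κ - c₁ / 4 * κ := by ring
        linarith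
      obtain ⟨i, hi⟩ := exists_short (hax (P ω)) h1 hn
      refine pr_trace (hax (P ω)).o2 _ _ (i := i) ?_
      rw [hτ]
      exact hi
    have : ε ≤ η := by linarith
    linarith
  refine ⟨fun x => pr (O x) (d x) (τ (j + 1)), fun x => pr_transpose _ _ _,
    fun x => pr_mul (hax x).o2 _ _, hcon, ?_, fun D => ?_, hpos, ?_⟩
  · -- a function of the line
    obtain ⟨ws, hws⟩ := exists_selP h.p0 h.p1 L (fun ω ω' => ∃ i k, Real.exp (-(ζ / 2 * κ)) <
      |pr (O (P ω)) (d (P ω)) (τ (j + 1)) i k - pr (O (P ω')) (d (P ω')) (τ (j + 1)) i k|)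
    exact ⟨fun l => pr (O (P (ws l))) (d (P (ws l))) (τ (j + 1)), hws.trans hcon⟩
  · -- the data
    refine (Pq_mono D.k0 fun w _ k => ?_).trans ((F.dat D).trans (by linarith))
    intro hinc
    obtain ⟨i, l, hil⟩ := k
    have h1 := pr_inc (hax (D.Pt w)) (F.nz _) (hτ0 (j + 1)).le hinc i l
    have h2 : τ (j + 1) ≤ Real.exp (-(ζ * κ)) := by
      rw [hτ]
      refine Real.exp_le_exp.2 ?_
      push_cast
      have : (0 : ℝ) ≤ j := Nat.cast_nonneg j
      nlinarith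
    have h3 : (n : ℝ) * (n * τ (j + 1) * Real.exp (ε * κ)) ≤
        2 * ((n : ℝ) + 1) ^ 4 * Real.exp (ε * κ) * Real.exp (-(ζ * κ)) := by
      have h4 : (n : ℝ) * n ≤ 2 * ((n : ℝ) + 1) ^ 4 := by
        have h5 : (n : ℝ) * n ≤ (n : ℝ) ^ 4 := by
          have : (1 : ℝ) ≤ (n : ℝ) * n := by nlinarith
          calc (n : ℝ) * n = (n * n) * 1 := (mul_one _).symm
            _ ≤ (n * n) * (n * n) := mul_le_mul_of_nonneg_left this (by positivity)
            _ = (n : ℝ) ^ 4 := by ring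
        have h6 : (0 : ℝ) ≤ ((n : ℝ) + 1) ^ 4 := by positivity
        linarith
      calc (n : ℝ) * (n * τ (j + 1) * Real.exp (ε * κ)) =
            n * n * (τ (j + 1) * Real.exp (ε * κ)) := by ring
        _ ≤ 2 * ((n : ℝ) + 1) ^ 4 * (Real.exp (-(ζ * κ)) * Real.exp (ε * κ)) :=
            mul_le_mul h4 (mul_le_mul_of_nonneg_right h2 (Real.exp_pos _).le)
              (mul_nonneg (hτ0 _).le (Real.exp_pos _).le) (by positivity)
        _ = _ := by ring
    linarith
  · -- the covector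
    by_contra hcon2
    have hcon3 : ∀ i : Fin n, Pq p (fun ω => 1 / (n : ℝ) ≤
        pr (O (P ω)) (d (P ω)) (τ (j + 1)) i i) < (c₁ / (2 * M) - η) / n := by
      intro i
      by_contra hh
      exact hcon2 ⟨i, not_lt.1 hh⟩
    have s1 : Pq p (fun ω => 1 ≤ (pr (O (P ω)) (d (P ω)) (τ (j + 1))).trace) ≤
        ∑ i : Fin n, Pq p (fun ω => 1 / (n : ℝ) ≤
          pr (O (P ω)) (d (P ω)) (τ (j + 1)) i i) := by
      unfold Pq
      rw [Finset.sum_comm]
      refine Finset.sum_le_sum fun ω _ => ?_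
      have nonneg : ∀ i ∈ (Finset.univ : Finset (Fin n)), (0 : ℝ) ≤ if 1 / (n : ℝ) ≤
          pr (O (P ω)) (d (P ω)) (τ (j + 1)) i i then p ω else 0 := by
        intro i _
        split_ifs
        · exact h.p0 ω
        · exact le_rfl
      by_cases ht : 1 ≤ (pr (O (P ω)) (d (P ω)) (τ (j + 1))).trace
      · rw [if_pos ht]
        have hex : ∃ i, 1 / (n : ℝ) ≤ pr (O (P ω)) (d (P ω)) (τ (j + 1)) i i := by
          by_contra hc2
          have hlt : ∀ i, pr (O (P ω)) (d (P ω)) (τ (j + 1)) i i < 1 / (n : ℝ) := fun i => by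
            by_contra hh
            exact hc2 ⟨i, not_lt.1 hh⟩
          have := Finset.sum_lt_sum_of_nonempty (s := Finset.univ)
            (f := fun i => pr (O (P ω)) (d (P ω)) (τ (j + 1)) i i) (g := fun _ => 1 / (n : ℝ))
            ⟨⟨0, hn⟩, Finset.mem_univ _⟩ fun i _ => hlt i
          rw [Finset.sum_const, Finset.card_univ, Fintype.card_fin, nsmul_eq_mul,
            mul_one_div_cancel (by linarith)] at this
          unfold Matrix.trace at ht
          simp only [Matrix.diag_apply] at ht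
          linarith
        obtain ⟨i, hi⟩ := hex
        refine le_trans (le_of_eq ?_) (Finset.single_le_sum nonneg (Finset.mem_univ i))
        rw [if_pos hi]
      · rw [if_neg ht]
        exact Finset.sum_nonneg nonneg
    have s2 : ∑ i : Fin n, Pq p (fun ω => 1 / (n : ℝ) ≤
          pr (O (P ω)) (d (P ω)) (τ (j + 1)) i i) <
        ∑ _i : Fin n, (c₁ / (2 * M) - η) / n :=
      Finset.sum_lt_sum_of_nonempty ⟨⟨0, hn⟩, Finset.mem_univ _⟩ fun i _ => hcon3 i
    rw [Finset.sum_const, Finset.card_univ, Fintype.card_fin, nsmul_eq_mul] at s2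
    have s3 : (n : ℝ) * ((c₁ / (2 * M) - η) / n) = c₁ / (2 * M) - η := by
      have : (n : ℝ) ≠ 0 := by linarith
      field_simp
    rw [s3] at s2
    linarith

end Pool.MSD
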