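import Pool.Agent.H38.MSD.Lvl

/-!
# LEMMA MSD: the field of maximal bodies

An almost optimal datum contains every datum of its level, and the choice of one value at every
point makes it a function of the point.
-/

set_option autoImplicit false

namespace Pool.MSD

open Matrix Finset Real
open Pool.Agent.H49.Ent Pool.Agent.H32.Dense Pool.FAD

section

variable {Ω Q₀ γ : Type} [Fintype Ω] {n : ℕ} {p : Ω → ℝ} {P : Ω → Q₀} {g : Q₀ → γ}
  {ν : Q₀ → Fin n → ℝ} {T : Matrix (Fin n) (Fin n) ℝ} {a a' c : ℝ}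

/-- If the volume of the join is small, the second body is contained in the first one. -/
theorem join_small (D : Dtm p P g ν T a c) (D' : Dtm p P g ν T a' c) (hT : T.det ≠ 0)
    (hc : 0 ≤ c) {δ t : ℝ} (ht : 0 < t) (h : vl (join D D' hT hc) ≤ vl D + δ) :
    Pq (jl D D') (fun w => ¬Inc (Cv n * Real.exp t * n) (D'.V w.2) (D.V w.1)) ≤
      (δ + Cd n n) / (t + Cd n n) := by
  obtain ⟨J, hJ⟩ : ∃ J, J = join D D' hT hc := ⟨_, rfl⟩
  have hi1 : ∀ w, Inc n (D.V w.1) ((join D D' hT hc).V w) := join_inc1 D D' hT hc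
  have hi2 : ∀ w, Inc n (D'.V w.2) ((join D D' hT hc).V w) := join_inc2 D D' hT hc
  have hn0 : (0 : ℝ) ≤ n := Nat.cast_nonneg n
  have hCd := Cd_nonneg n hn0
  obtain ⟨S, hS⟩ : ∃ S : D.W × D'.W → Matrix (Fin n) (Fin n) ℝ, S = (join D D' hT hc).V :=
    ⟨_, rfl⟩
  have hSn : ∀ w, (S w).det ≠ 0 := fun w => by
    rw [hS]
    exact (join D D' hT hc).nz w
  have hvl : vl (join D D' hT hc) = Ex (jl D D') (fun w => lv (S w)) := by
    rw [hS]
    rfl
  have hv1 : vl D = Ex (jl D D') (fun w => lv (D.V w.1)) :=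
    (Ex_glue_fst D.k0 (jl_eq D D') (fun w => lv (D.V w))).symm
  have key := Pq_markov (jl_nonneg D D') (f := fun w => lv (S w) - lv (D.V w.1) + Cd n n)
    (fun w _ => by
      have := lv_le (D.nz w.1) (hSn w) (by
        rw [hS]
        exact hi1 w)
      linarith) (show (0 : ℝ) < t + Cd n n by linarith)
    (A := fun w => ¬Inc (Cv n * Real.exp t * n) (D'.V w.2) (D.V w.1)) (fun w _ hw => by
      by_contra hlt
      refine hw ?_
      have h1 : lv (S w) - lv (D.V w.1) ≤ t := by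
        simp only [not_le] at hlt
        linarith
      have h2 : Inc (Cv n * Real.exp (lv (S w) - lv (D.V w.1))) (S w) (D.V w.1) :=
        inc_inv (D.nz w.1) (hSn w) (by
          rw [hS]
          exact hi1 w)
      have h3 : Inc (Cv n * Real.exp t) (S w) (D.V w.1) := h2.mono
        (mul_le_mul_of_nonneg_left (Real.exp_le_exp.2 h1) (Cv_nonneg n))
      exact Inc.trans (hSn w) hn0 (by
        rw [hS]
        exact hi2 w) h3)
  refine key.trans (div_le_div_of_nonneg_right ?_ (by linarith))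
  have e1 : Ex (jl D D') (fun w => lv (S w) - lv (D.V w.1) + Cd n n) =
      Ex (jl D D') (fun w => lv (S w)) - Ex (jl D D') (fun w => lv (D.V w.1)) + Cd n n := by
    rw [Ex_add, Ex_sub, Ex_const (jl_sum D D')]
  rw [e1, ← hvl, ← hv1]
  linarith

/-- The choice of one value at every point. -/
theorem exists_sel (D : Dtm p P g ν T a c) (f : D.W → D.W → ℝ) :
    ∃ ws : Q₀ → D.W, Ex D.κ (fun w => f w (ws (D.Pt w))) ≤ Ex (jl D D) (fun w => f w.1 w.2) := by
  classical
  obtain ⟨Φ, hΦ⟩ : ∃ Φ : Q₀ → D.W → ℝ, Φ = fun x w' =>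
    ∑ w, if D.Pt w = x then D.κ w * f w w' else 0 := ⟨_, rfl⟩
  have hne : Nonempty D.W := by
    by_contra hcon
    rw [not_nonempty_iff] at hcon
    have := D.k1
    rw [Finset.univ_eq_empty, Finset.sum_empty] at this
    exact zero_ne_one this
  have hsel : ∀ x, ∃ w' : D.W, ∀ w, 0 < D.κ w → D.Pt w = x → Φ x w' ≤ Φ x w := by
    intro x
    by_cases hx : ∃ w, 0 < D.κ w ∧ D.Pt w = x
    · obtain ⟨w', h1, h2⟩ := Finset.exists_min_image
        (Finset.univ.filter fun w => 0 < D.κ w ∧ D.Pt w = x) (Φ x)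
        ⟨hx.choose, Finset.mem_filter.mpr ⟨Finset.mem_univ _, hx.choose_spec⟩⟩
      exact ⟨w', fun w a b => h2 w (Finset.mem_filter.mpr ⟨Finset.mem_univ _, a, b⟩)⟩
    · exact ⟨hne.some, fun w a b => absurd ⟨w, a, b⟩ hx⟩
  choose ws hws using hsel
  refine ⟨ws, ?_⟩
  have e1 : Ex D.κ (fun w => f w (ws (D.Pt w))) =
      Ex (jl D D) (fun w => f w.1 (ws (D.Pt w.1))) :=
    (Ex_glue_fst D.k0 (jl_eq D D) (fun w => f w (ws (D.Pt w)))).symm
  rw [e1]
  unfold Ex
  rw [Fintype.sum_prod_type_right, Fintype.sum_prod_type_right]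
  refine Finset.sum_le_sum fun w' _ => ?_
  -- the weight
  have hgl : ∀ w, jl D D (w, w') = if D.Pt w = D.Pt w' then
      D.κ w * (D.κ w' / law D.κ D.Pt (D.Pt w')) else 0 := by
    intro w
    unfold jl glue
    simp only
    split_ifs with h
    · rw [h]
      ring
    · rfl
  have hw0 : 0 ≤ D.κ w' / law D.κ D.Pt (D.Pt w') :=
    div_nonneg (D.k0 w') (law_nonneg D.k0 _ _)
  have e2 : ∀ F : D.W → ℝ, ∑ w, jl D D (w, w') * F w =
      (D.κ w' / law D.κ D.Pt (D.Pt w')) *
        ∑ w, if D.Pt w = D.Pt w' then D.κ w * F w else 0 := by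
    intro F
    rw [Finset.mul_sum]
    refine Finset.sum_congr rfl fun w _ => ?_
    rw [hgl w]
    split_ifs
    · ring
    · ring
  have e3 : ∑ w, jl D D (w, w') * f w (ws (D.Pt w)) =
      (D.κ w' / law D.κ D.Pt (D.Pt w')) * Φ (D.Pt w') (ws (D.Pt w')) := by
    rw [e2 (fun w => f w (ws (D.Pt w))), hΦ]
    congr 1
    refine Finset.sum_congr rfl fun w _ => ?_
    split_ifs with h
    · rw [h]
    · rfl
  have e4 : ∑ w, jl D D (w, w') * f w w' =
      (D.κ w' / law D.κ D.Pt (D.Pt w')) * Φ (D.Pt w') w' := by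
    rw [e2 (fun w => f w w'), hΦ]
  change ∑ w, jl D D (w, w') * f w (ws (D.Pt w)) ≤ ∑ w, jl D D (w, w') * f w w'
  rw [e3, e4]
  rcases (D.k0 w').eq_or_lt with h0 | h0
  · rw [← h0, zero_div, zero_mul, zero_mul]
  · exact mul_le_mul_of_nonneg_left (hws _ w' h0 rfl) hw0

/-- The law of a symmetric pair. -/
theorem Ex_swap (D : Dtm p P g ν T a c) (f : D.W → D.W → ℝ) :
    Ex (jl D D) (fun w => f w.1 w.2) = Ex (jl D D) (fun w => f w.2 w.1) := by
  classical
  have hs : ∀ w w' : D.W, jl D D (w, w') = jl D D (w', w) := by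
    intro w w'
    unfold jl glue
    simp only
    by_cases h : D.Pt w = D.Pt w'
    · rw [if_pos h, if_pos h.symm, h]
      ring
    · rw [if_neg h, if_neg (fun k => h k.symm)]
  unfold Ex
  rw [Fintype.sum_prod_type, Fintype.sum_prod_type_right]
  refine Finset.sum_congr rfl fun w _ => Finset.sum_congr rfl fun w' _ => ?_
  rw [hs]

end

end Pool.MSD
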