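import Pool.Agent.H38.MSD.Bod

/-!
# Largest minors

`a : ι → ℝ ^ m` is a finite family of vectors. If the largest minor of order `r` is at least `ε` and
the minors of order `r + 1` are smaller than `ε'`, then every vector is a combination of the columns
of the largest minor with coefficients at most `1`, up to `ε' / ε`. The coefficients are linear
functions with coefficients `O(1 / ε)`.
-/

set_option autoImplicit false

namespace Pool.MSD

open Matrix Finset

section

variable {ι : Type*} {m : ℕ}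

/-- The minor of the rows `ρ` and of the columns `s`. -/
noncomputable def mn (a : ι → Fin m → ℝ) {r : ℕ} (ρ : Fin r → Fin m) (s : Fin r → ι) : ℝ :=
  (Matrix.of fun i j => a (s j) (ρ i)).det

theorem mn_zero (a : ι → Fin m → ℝ) (ρ : Fin 0 → Fin m) (s : Fin 0 → ι) : mn a ρ s = 1 := by
  unfold mn
  rw [Matrix.det_isEmpty]

theorem mn_big (a : ι → Fin m → ℝ) (ρ : Fin (m + 1) → Fin m) (s : Fin (m + 1) → ι) :
    mn a ρ s = 0 := by
  obtain ⟨i, j, hij, h⟩ := Fintype.exists_ne_map_eq_of_card_lt ρ (by simp)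
  unfold mn
  refine Matrix.det_zero_of_row_eq hij ?_
  funext l
  rw [Matrix.of_apply, Matrix.of_apply, h]

/-- The coefficients of `w` with respect to the columns of the minor. -/
noncomputable def cf (a : ι → Fin m → ℝ) {r : ℕ} (ρ : Fin r → Fin m) (s : Fin r → ι)
    (w : Fin m → ℝ) : Fin r → ℝ :=
  (Matrix.of fun i j => a (s j) (ρ i))⁻¹ *ᵥ fun i => w (ρ i)

/-- Cramer's rule. -/
theorem cf_eq (a : ι → Fin m → ℝ) {r : ℕ} {ρ : Fin r → Fin m} {s : Fin r → ι}
    (h : mn a ρ s ≠ 0) (t : ι) (b : Fin r) :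
    cf a ρ s (a t) b = mn a ρ (Function.update s b t) / mn a ρ s := by
  obtain ⟨A, hA⟩ : ∃ A : Matrix (Fin r) (Fin r) ℝ, A = Matrix.of fun i j => a (s j) (ρ i) :=
    ⟨_, rfl⟩
  have hd : A.det = mn a ρ s := by
    rw [hA]
    rfl
  have e1 : mn a ρ (Function.update s b t) = (A.updateCol b fun i => a t (ρ i)).det := by
    unfold mn
    congr 1
    ext i j
    by_cases hj : j = b
    · subst hj
      rw [Matrix.updateCol_self, Matrix.of_apply, Function.update_self]
    · rw [Matrix.updateCol_ne hj, Matrix.of_apply, Function.update_of_ne hj, hA, Matrix.of_apply]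
  unfold cf
  rw [← hA, e1, ← Matrix.cramer_apply, Matrix.cramer_eq_adjugate_mulVec, Matrix.inv_def,
    Matrix.smul_mulVec, Pi.smul_apply, smul_eq_mul, hd, Ring.inverse_eq_inv']
  field_simp

/-- The coefficients of a vector are bounded by the largest minor. -/
theorem cf_le (a : ι → Fin m → ℝ) {r : ℕ} {ρ : Fin r → Fin m} {s : Fin r → ι}
    (h : mn a ρ s ≠ 0) {t : ι} (ht : ∀ b, |mn a ρ (Function.update s b t)| ≤ |mn a ρ s|)
    (b : Fin r) : |cf a ρ s (a t) b| ≤ 1 := by
  rw [cf_eq a h, abs_div, div_le_one (abs_pos.2 h)]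
  exact ht b

/-- The error of the combination is a minor of order `r + 1`. -/
theorem cf_err (a : ι → Fin m → ℝ) {r : ℕ} {ρ : Fin r → Fin m} {s : Fin r → ι}
    (h : mn a ρ s ≠ 0) (t : ι) (i : Fin m) : ∃ (ρ' : Fin (r + 1) → Fin m) (s' : Fin (r + 1) → ι),
      |a t i - ∑ b, cf a ρ s (a t) b * a (s b) i| = |mn a ρ' s'| / |mn a ρ s| := by
  obtain ⟨A, hA⟩ : ∃ A : Matrix (Fin r) (Fin r) ℝ, A = Matrix.of fun i j => a (s j) (ρ i) :=
    ⟨_, rfl⟩
  have hd : A.det = mn a ρ s := by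
    rw [hA]
    rfl
  obtain ⟨e, -⟩ : ∃ e : Fin r ⊕ Unit ≃ Fin (r + 1), True :=
    ⟨(Equiv.sumCongr (Equiv.refl _) (Equiv.equivPUnit (Fin 1)).symm).trans finSumFinEquiv, trivial⟩
  refine ⟨(Sum.elim ρ fun _ => i) ∘ e.symm, (Sum.elim s fun _ => t) ∘ e.symm, ?_⟩
  have hu : IsUnit A.det := by
    rw [hd]
    exact isUnit_iff_ne_zero.2 h
  have e1 : mn a ((Sum.elim ρ fun _ => i) ∘ e.symm) ((Sum.elim s fun _ => t) ∘ e.symm) =
      (Matrix.fromBlocks A (Matrix.of fun i (_ : Unit) => a t (ρ i))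
        (Matrix.of fun (_ : Unit) j => a (s j) i) (Matrix.of fun (_ _ : Unit) => a t i)).det := by
    unfold mn
    rw [← Matrix.det_submatrix_equiv_self e]
    congr 1
    ext x y
    rw [Matrix.submatrix_apply, Matrix.of_apply]
    simp only [Function.comp_apply, Equiv.symm_apply_apply]
    rcases x with x | x <;> rcases y with y | y
    · rw [Matrix.fromBlocks_apply₁₁, hA]
      rfl
    · rfl
    · rfl
    · rfl
  have := Matrix.invertibleOfIsUnitDet A hu
  rw [e1, Matrix.det_fromBlocks₁₁, hd, abs_mul, mul_comm, mul_div_assoc,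
    div_self (abs_pos.2 h).ne', mul_one, Matrix.det_unique, Matrix.sub_apply, Matrix.of_apply,
    Matrix.invOf_eq_nonsing_inv]
  congr 2
  rw [Matrix.mul_assoc, Matrix.mul_apply]
  refine Finset.sum_congr rfl fun b _ => ?_
  rw [Matrix.of_apply, mul_comm]
  congr 1
  unfold cf
  rw [← hA]
  rfl

/-- The coefficients as linear functions. -/
noncomputable def lf (a : ι → Fin m → ℝ) {r : ℕ} (ρ : Fin r → Fin m) (s : Fin r → ι)
    (b : Fin r) (v : Fin m) : ℝ :=
  ∑ i : Fin r, if ρ i = v then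
    ((Matrix.of fun i j => a (s j) (ρ i) : Matrix (Fin r) (Fin r) ℝ)⁻¹ b i : ℝ) else 0

theorem cf_lf (a : ι → Fin m → ℝ) {r : ℕ} (ρ : Fin r → Fin m) (s : Fin r → ι)
    (w : Fin m → ℝ) (b : Fin r) : cf a ρ s w b = ∑ v, lf a ρ s b v * w v := by
  have e1 : ∀ v, lf a ρ s b v * w v = ∑ i : Fin r, (if ρ i = v then
      ((Matrix.of fun i j => a (s j) (ρ i) : Matrix (Fin r) (Fin r) ℝ)⁻¹ b i : ℝ) else 0) * w v :=
    fun v => Finset.sum_mul _ _ _
  rw [Finset.sum_congr rfl fun v _ => e1 v, Finset.sum_comm]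
  change ∑ i : Fin r, (Matrix.of fun i j => a (s j) (ρ i) : Matrix (Fin r) (Fin r) ℝ)⁻¹ b i *
    w (ρ i) = _
  refine Finset.sum_congr rfl fun i _ => ?_
  rw [Finset.sum_eq_single (ρ i)]
  · rw [if_pos rfl]
  · intro v _ hv
    rw [if_neg (Ne.symm hv), zero_mul]
  · intro h
    exact absurd (Finset.mem_univ _) h

/-- The size of the linear functions. -/
theorem lf_le (a : ι → Fin m → ℝ) (ha : ∀ t i, |a t i| ≤ 1) {r : ℕ} {ρ : Fin r → Fin m}
    {s : Fin r → ι} {ε : ℝ} (hε : 0 < ε) (h : ε ≤ |mn a ρ s|) (b : Fin r) (v : Fin m) :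
    |lf a ρ s b v| ≤ r * (r.factorial / ε) := by
  have h0 : mn a ρ s ≠ 0 := fun h1 => by
    rw [h1, abs_zero] at h
    linarith
  have hf : (0 : ℝ) ≤ r.factorial / ε := by positivity
  unfold lf
  refine (Finset.abs_sum_le_sum_abs _ _).trans ?_
  calc _ ≤ ∑ _i : Fin r, ((r.factorial : ℝ) / ε) := by
        refine Finset.sum_le_sum fun i _ => ?_
        by_cases hi : ρ i = v
        · rw [if_pos hi, Matrix.inv_def, Matrix.smul_apply, smul_eq_mul, Ring.inverse_eq_inv',
            abs_mul, abs_inv, Matrix.adjugate_apply]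
          have h1 : |((Matrix.of fun i j => a (s j) (ρ i)).updateRow i (Pi.single b 1)).det| ≤
              r.factorial * 1 ^ r := by
            refine det_bd fun x y => ?_
            by_cases hx : x = i
            · rw [hx, Matrix.updateRow_self]
              by_cases hy : y = b
              · rw [hy, Pi.single_eq_same, abs_one]
              · rw [Pi.single_eq_of_ne hy, abs_zero]
                exact zero_le_one
            · rw [Matrix.updateRow_ne hx, Matrix.of_apply]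
              exact ha _ _
          rw [one_pow, mul_one] at h1
          have h2 : |(Matrix.of fun i j => a (s j) (ρ i)).det|⁻¹ ≤ ε⁻¹ := inv_anti₀ hε h
          calc _ ≤ ε⁻¹ * (r.factorial : ℝ) :=
                mul_le_mul h2 h1 (abs_nonneg _) (inv_nonneg.2 hε.le)
            _ = (r.factorial : ℝ) / ε := by ring
        · rw [if_neg hi, abs_zero]
          exact hf
    _ = r * (r.factorial / ε) := by
        rw [Finset.sum_const, Finset.card_univ, Fintype.card_fin, nsmul_eq_mul]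

/-! ### The rank at the levels `ε` -/

/-- The family has rank `r` at the levels `ε`. -/
def Rk (a : ι → Fin m → ℝ) (ε : ℕ → ℝ) (r : ℕ) : Prop :=
  (∃ (ρ : Fin r → Fin m) (s : Fin r → ι), ε r ≤ |mn a ρ s|) ∧
    ∀ (ρ : Fin (r + 1) → Fin m) (s : Fin (r + 1) → ι), |mn a ρ s| < ε (r + 1)

theorem exists_Rk (a : ι → Fin m → ℝ) {ε : ℕ → ℝ} (h0 : ε 0 = 1) (hp : ∀ r, 0 < ε r) :
    ∃ r, r ≤ m ∧ Rk a ε r := by
  classical
  by_contra hcon
  push Not at hcon
  have key : ∀ r, r ≤ m + 1 → ∃ (ρ : Fin r → Fin m) (s : Fin r → ι), ε r ≤ |mn a ρ s| := by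
    intro r
    induction r with
    | zero =>
      intro _
      refine ⟨Fin.elim0, Fin.elim0, ?_⟩
      rw [mn_zero, abs_one, h0]
    | succ r ih =>
      intro hr
      have h1 := ih (by omega)
      by_contra h2
      push Not at h2
      exact hcon r (by omega) ⟨h1, fun ρ s => h2 ρ s⟩
  obtain ⟨ρ, s, h⟩ := key (m + 1) le_rfl
  rw [mn_big, abs_zero] at h
  linarith [hp (m + 1)]

/-- The largest minor of order `r`. -/
theorem exists_mx [Finite ι] (a : ι → Fin m → ℝ) {ε : ℝ} {r : ℕ}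
    (h : ∃ (ρ : Fin r → Fin m) (s : Fin r → ι), ε ≤ |mn a ρ s|) :
    ∃ (ρ : Fin r → Fin m) (s : Fin r → ι), ε ≤ |mn a ρ s| ∧
      ∀ (ρ' : Fin r → Fin m) (s' : Fin r → ι), |mn a ρ' s'| ≤ |mn a ρ s| := by
  obtain ⟨ρ, s, h⟩ := h
  have : Nonempty ((Fin r → Fin m) × (Fin r → ι)) := ⟨(ρ, s)⟩
  obtain ⟨x, hx⟩ := Finite.exists_max fun x : (Fin r → Fin m) × (Fin r → ι) => |mn a x.1 x.2|
  exact ⟨x.1, x.2, h.trans (hx (ρ, s)), fun ρ' s' => hx (ρ', s')⟩

end

end Pool.MSD
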