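import Pool.Agent.H38.MSD.Dir

/-!
# The digits of one coordinate along a needle

`sn s m v`: the needle with the axis `v` of length `2 ^ (-s)`, the other axes of length
`2 ^ (-(s + m))`. If the height is full in the needle, and `v` is close to the axis of the coordinate
`N`, then the digits of the coordinate `N` are full, given the digits of the others.
-/

set_option autoImplicit false

namespace Pool.MSD

open Matrix Finset Real
open Pool.Agent.H49.Ent Pool.Agent.H32.Dense Pool.FAD Pool.STK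

section Sn

variable {n : ℕ}

/-- The short needle. -/
noncomputable def sn (s m : ℕ) (v : Fin n → ℝ) : Matrix (Fin n) (Fin n) ℝ :=
  ((2 : ℝ) ^ s)⁻¹ • nd m v

theorem sn_det {s m : ℕ} {v : Fin n → ℝ} (hv : v ⬝ᵥ v = 1 ∨ v = 0) : (sn s m v).det ≠ 0 := by
  unfold sn
  rw [Matrix.det_smul]
  exact mul_ne_zero (by positivity) (nd_det hv)

theorem sn_inv {s m : ℕ} {v : Fin n → ℝ} (hv : v ⬝ᵥ v = 1 ∨ v = 0) :
    (sn s m v)⁻¹ = (2 : ℝ) ^ s • ni m v := by
  refine Matrix.inv_eq_right_inv ?_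
  unfold sn
  have h2 : (2 : ℝ) ^ s ≠ 0 := by positivity
  rw [Matrix.smul_mul, Matrix.mul_smul, smul_smul, inv_mul_cancel₀ h2, one_smul, nd_mul hv]

theorem lv_sn {s m : ℕ} {v : Fin n → ℝ} (hv : v ⬝ᵥ v = 1 ∨ v = 0) :
    lv (sn s m v) = lv (nd m v) - n * (s * Real.log 2) := by
  unfold lv sn
  rw [Matrix.det_smul, Fintype.card_fin, abs_mul, abs_of_pos (by positivity),
    Real.log_mul (by positivity) (abs_pos.2 (nd_det hv)).ne', Real.log_pow, Real.log_inv,
    Real.log_pow]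
  ring

/-- The volume against the fine body. -/
theorem lv_sn_sub {s m K : ℕ} (hK : s + m = K) {v : Fin n → ℝ} (hv : v ⬝ᵥ v = 1 ∨ v = 0) :
    lv (sn s m v) - lv (fb n K) = if v ≠ 0 then m * Real.log 2 else 0 := by
  rw [lv_sn hv, lv_fb]
  have e1 : (K : ℝ) = s + m := by
    rw [← hK]
    push_cast
    ring
  by_cases h : v = 0
  · rw [if_neg (not_not.2 h), h, nd_zero, lv_fb, e1]
    ring
  · rcases hv with h' | h'
    · rw [if_pos h, lv_nd_one h', lv_fb, e1]
      ring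
    · exact absurd h' h

theorem sn_inv_mulVec {s m : ℕ} {v : Fin n → ℝ} (hv : v ⬝ᵥ v = 1 ∨ v = 0) (x : Fin n → ℝ)
    (i : Fin n) : ((sn s m v)⁻¹ *ᵥ x) i =
      (2 : ℝ) ^ (s + m) * (x i - (v ⬝ᵥ x) * v i) + (2 : ℝ) ^ s * ((v ⬝ᵥ x) * v i) := by
  rw [sn_inv hv, Matrix.smul_mulVec, Pi.smul_apply, smul_eq_mul, ni_mulVec, pow_add]
  ring

/-- The fine body is contained in the needle. -/
theorem inc_sn_fb {s m K : ℕ} (hK : s + m = K) {v : Fin n → ℝ} (hv : v ⬝ᵥ v = 1 ∨ v = 0) :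
    Inc (2 * n) (fb n K) (sn s m v) := by
  have e : fb n K = ((2 : ℝ) ^ s)⁻¹ • fb n m := by
    unfold fb
    ext i j
    by_cases h : i = j
    · subst h
      rw [Matrix.smul_apply, Matrix.diagonal_apply_eq, Matrix.diagonal_apply_eq, smul_eq_mul,
        ← hK, pow_add, mul_inv]
    · rw [Matrix.smul_apply, Matrix.diagonal_apply_ne _ h, Matrix.diagonal_apply_ne _ h, smul_zero]
  intro i
  have h1 := inc_nd (K := m) hv i
  rw [nd_inv hv] at h1
  rw [sn_inv hv, e, Matrix.smul_mul, Matrix.mul_smul, smul_smul,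
    mul_inv_cancel₀ (by positivity), one_smul]
  exact h1

/-- The norm of a vector in terms of the two parts. -/
theorem sn_bound {s m : ℕ} {v : Fin n → ℝ} (hv : v ⬝ᵥ v = 1 ∨ v = 0) {y : Fin n → ℝ} {a : ℝ}
    (hy : ∀ i, |((sn s m v)⁻¹ *ᵥ y) i| ≤ a) (i : Fin n) :
    |y i - (v ⬝ᵥ y) * v i| ≤ (1 + n) * a / (2 : ℝ) ^ (s + m) ∧ |v ⬝ᵥ y| ≤ n * a / (2 : ℝ) ^ s := by
  have a0 : 0 ≤ a := (abs_nonneg _).trans (hy i)
  have hn0 : (0 : ℝ) ≤ n := Nat.cast_nonneg n
  have ps : (0 : ℝ) < (2 : ℝ) ^ s := by positivity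
  have pm : (0 : ℝ) < (2 : ℝ) ^ (s + m) := by positivity
  -- the component along the axis
  have h1 : |v ⬝ᵥ ((sn s m v)⁻¹ *ᵥ y)| ≤ n * a := by
    unfold dotProduct
    calc |∑ j, v j * ((sn s m v)⁻¹ *ᵥ y) j| ≤ ∑ j, |v j * ((sn s m v)⁻¹ *ᵥ y) j| :=
          Finset.abs_sum_le_sum_abs _ _
      _ ≤ ∑ _j : Fin n, a := Finset.sum_le_sum fun j _ => by
          rw [abs_mul]
          calc |v j| * |((sn s m v)⁻¹ *ᵥ y) j| ≤ 1 * a :=
                mul_le_mul (unit_entry hv j) (hy j) (abs_nonneg _) zero_le_one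
            _ = a := one_mul a
      _ = n * a := by
          rw [Finset.sum_const, Finset.card_univ, Fintype.card_fin, nsmul_eq_mul]
  have h2 : v ⬝ᵥ ((sn s m v)⁻¹ *ᵥ y) = (2 : ℝ) ^ s * (v ⬝ᵥ y) := by
    have e1 : v ⬝ᵥ ((sn s m v)⁻¹ *ᵥ y) = ∑ j, v j * ((2 : ℝ) ^ (s + m) * (y j - (v ⬝ᵥ y) * v j) +
        (2 : ℝ) ^ s * ((v ⬝ᵥ y) * v j)) := by
      unfold dotProduct
      refine Finset.sum_congr rfl fun j _ => ?_
      rw [sn_inv_mulVec hv]
      rfl
    have e2 : ∑ j, v j * ((2 : ℝ) ^ (s + m) * (y j - (v ⬝ᵥ y) * v j) +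
        (2 : ℝ) ^ s * ((v ⬝ᵥ y) * v j)) = (2 : ℝ) ^ (s + m) * (v ⬝ᵥ y - (v ⬝ᵥ y) * (v ⬝ᵥ v)) +
        (2 : ℝ) ^ s * ((v ⬝ᵥ y) * (v ⬝ᵥ v)) := by
      have f1 : v ⬝ᵥ y = ∑ j, v j * y j := rfl
      have f2 : v ⬝ᵥ v = ∑ j, v j * v j := rfl
      obtain ⟨c, hc⟩ : ∃ c, c = v ⬝ᵥ y := ⟨_, rfl⟩
      rw [← hc]
      rw [f2]
      have f3 : c = ∑ j, v j * y j := by rw [hc, f1]
      have f4 : ∑ j, v j * ((2 : ℝ) ^ (s + m) * (y j - c * v j) + (2 : ℝ) ^ s * (c * v j)) =
          (2 : ℝ) ^ (s + m) * (∑ j, v j * y j) - (2 : ℝ) ^ (s + m) * (c * ∑ j, v j * v j) +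
          (2 : ℝ) ^ s * (c * ∑ j, v j * v j) := by
        simp only [Finset.mul_sum]
        rw [← Finset.sum_sub_distrib, ← Finset.sum_add_distrib]
        refine Finset.sum_congr rfl fun j _ => ?_
        ring
      rw [f4, ← f3]
      ring
    rw [e1, e2]
    rcases hv with h | h
    · rw [h]
      ring
    · rw [h]
      simp
  have h3 : |v ⬝ᵥ y| ≤ n * a / (2 : ℝ) ^ s := by
    rw [le_div_iff₀ ps]
    rw [h2, abs_mul, abs_of_pos ps] at h1
    linarith
  refine ⟨?_, h3⟩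
  have h4 := hy i
  rw [sn_inv_mulVec hv] at h4
  have h5 : |(2 : ℝ) ^ s * ((v ⬝ᵥ y) * v i)| ≤ n * a := by
    rw [abs_mul, abs_mul, abs_of_pos ps]
    have h6 := unit_entry hv i
    have h7 : |v ⬝ᵥ y| * |v i| ≤ n * a / (2 : ℝ) ^ s * 1 :=
      mul_le_mul h3 h6 (abs_nonneg _) (by positivity)
    calc (2 : ℝ) ^ s * (|v ⬝ᵥ y| * |v i|) ≤ (2 : ℝ) ^ s * (n * a / (2 : ℝ) ^ s * 1) :=
          mul_le_mul_of_nonneg_left h7 ps.le
      _ = n * a := by field_simp
  have h8 : |(2 : ℝ) ^ (s + m) * (y i - (v ⬝ᵥ y) * v i)| ≤ a + n * a := by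
    rw [abs_le] at h4 h5 ⊢
    constructor <;> linarith [h4.1, h4.2, h5.1, h5.2]
  rw [abs_mul, abs_of_pos pm] at h8
  rw [le_div_iff₀ pm]
  linarith

end Sn

/-- All digits but those of the coordinate `N`. -/
def oth {n : ℕ} (N : Fin n) (y : Fin n → ℤ) : Fin n → ℤ := Function.update y N 0

section

variable {W ζ δ : Type} [Fintype W] {q : W → ℝ} {n : ℕ}

/-- The constant. -/
noncomputable def Cn (n : ℕ) : ℝ :=
  n * Real.log (2 * (4 * n + 4) + 1) + n * Real.log (2 * (4 * n + 4) + 1) + Cc n (2 * n)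

/-- **The digits of the coordinate `N` along the needle.** -/
theorem ndl_dig (q0 : ∀ w, 0 ≤ q w) (q1 : ∑ w, q w = 1) {N : Fin n} {s k K : ℕ} (hs : s ≤ k)
    (hk : k ≤ K) {v : W → Fin n → ℝ} (hv : ∀ w, v w ⬝ᵥ v w = 1 ∨ v w = 0) (x : W → Fin n → ℝ)
    (Z : W → ζ) (G : W → δ) (hG : Det q Z G) (dv : Det q Z v)
    (hN : ∀ w, ∀ i, i ≠ N → |v w i| ≤ 2 * ((2 : ℝ) ^ k)⁻¹) {a : ℝ}
    (hD : DF q (fun _ => fb n K) (fun w => sn s (K - s) (v w)) x Z ≤ a) :
    Pq q (fun w => v w ≠ 0) * ((k - s) * Real.log 2) ≤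
      CH q (fun w => fl k (x w)) (fun w => (oth N (fl k (x w)), G w)) + a + Cn n := by
  classical
  have hn0 : (0 : ℝ) ≤ n := Nat.cast_nonneg n
  have hsK : s ≤ K := hs.trans hk
  have eK : s + (K - s) = K := by omega
  have ek : k + (K - k) = K := by omega
  have dS : Det q Z (fun w => sn s (K - s) (v w)) := by
    intro w w' h h' e
    simp only
    rw [dv w w' h h' e]
  have dS' : Det q Z (fun w => sn k (K - k) (v w)) := by
    intro w w' h h' e
    simp only
    rw [dv w w' h h' e]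
  have dT : Det q Z (fun _ : W => fb n K) := fun w w' _ _ _ => rfl
  -- the volumes
  have hE : ∀ r ≤ K, Ex q (fun w => lv (sn r (K - r) (v w)) - lv (fb n K)) =
      Pq q (fun w => v w ≠ 0) * ((K - r) * Real.log 2) := by
    intro r hr
    rw [Pq_eq]
    unfold Ex
    rw [Finset.sum_mul]
    refine Finset.sum_congr rfl fun w _ => ?_
    simp only
    rw [lv_sn_sub (show r + (K - r) = K by omega) (hv w)]
    by_cases h : v w = 0
    · simp [h]
    · rw [if_pos h, if_pos h, Nat.cast_sub hr]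
      ring
  have h1 := hE s hsK
  have h2 := hE k hk
  -- the coarse needle and the small one
  have key := CH_count q0 q1 (T := fun _ => fb n K) (S := fun w => sn k (K - k) (v w)) x Z dT dS'
    (fun _ => det_fb n K) (fun w => sn_det (hv w)) (c := 2 * n) (by positivity)
    (fun w => inc_sn_fb ek (hv w))
  rw [h2] at key
  -- two points with one cell of the coarse needle
  have hcell : ∀ w w', 0 < q w → 0 < q w' → Z w = Z w' →
      cl (sn s (K - s) (v w)) (x w) = cl (sn s (K - s) (v w')) (x w') → ∀ i,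
      |(x w - x w') i - (v w ⬝ᵥ (x w - x w')) * v w i| ≤ (1 + n) / (2 : ℝ) ^ K ∧
      |v w ⬝ᵥ (x w - x w')| ≤ n / (2 : ℝ) ^ s := by
    intro w w' p p' e e' i
    have e1 : v w = v w' := dv w w' p p' e
    have h3 : ∀ j, |((sn s (K - s) (v w))⁻¹ *ᵥ (x w - x w')) j| ≤ 1 := by
      intro j
      rw [Matrix.mulVec_sub, Pi.sub_apply]
      rw [← e1] at e'
      exact abs_sub_of_floor (congrFun e' j)
    have h4 := sn_bound (hv w) h3 i
    rw [eK, mul_one, mul_one] at h4
    exact h4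
  -- the other digits, given the cell of the coarse needle
  have hO : CH q (fun w => oth N (fl k (x w))) (fun w => (cl (sn s (K - s) (v w)) (x w), Z w)) ≤
      n * Real.log (2 * (4 * n + 4) + 1) := by
    have := CH_le_vec q0 q1 (fun w => oth N (fl k (x w)))
      (fun w => (cl (sn s (K - s) (v w)) (x w), Z w)) (fun _ => (4 * n + 4 : ℝ)) (by
      intro w w' p p' e i
      obtain ⟨e1, e2⟩ := Prod.ext_iff.mp e
      by_cases hi : i = N
      · subst hi
        unfold oth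
        rw [Function.update_self, Function.update_self, sub_self, Int.cast_zero, abs_zero]
        positivity
      · unfold oth
        rw [Function.update_of_ne hi, Function.update_of_ne hi]
        obtain ⟨f1, f2⟩ := hcell w w' p p' e2 e1 i
        have f3 := hN w i hi
        have pk : (0 : ℝ) < (2 : ℝ) ^ k := by positivity
        have f4 : |(v w ⬝ᵥ (x w - x w')) * v w i| ≤ n * (2 * ((2 : ℝ) ^ k)⁻¹) := by
          rw [abs_mul]
          refine mul_le_mul (f2.trans ?_) f3 (abs_nonneg _) hn0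
          exact div_le_self hn0 (one_le_pow₀ (by norm_num))
        have f5 : (1 + n) / (2 : ℝ) ^ K ≤ (1 + n) * ((2 : ℝ) ^ k)⁻¹ := by
          rw [div_eq_mul_inv]
          refine mul_le_mul_of_nonneg_left ?_ (by linarith)
          exact inv_anti₀ pk (pow_le_pow_right₀ (by norm_num) hk)
        have f6 : |x w i - x w' i| ≤ (1 + 3 * n) * ((2 : ℝ) ^ k)⁻¹ := by
          have f7 : |(x w - x w') i| ≤ (1 + n) * ((2 : ℝ) ^ k)⁻¹ + n * (2 * ((2 : ℝ) ^ k)⁻¹) := by
            have := abs_add_le ((x w - x w') i - (v w ⬝ᵥ (x w - x w')) * v w i)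
              ((v w ⬝ᵥ (x w - x w')) * v w i)
            rw [sub_add_cancel] at this
            linarith
          rw [Pi.sub_apply] at f7
          refine f7.trans (le_of_eq ?_)
          ring
        have f8 : |(2 : ℝ) ^ k * x w i - (2 : ℝ) ^ k * x w' i| ≤ 1 + 3 * n := by
          rw [← mul_sub, abs_mul, abs_of_pos pk]
          calc (2 : ℝ) ^ k * |x w i - x w' i| ≤ (2 : ℝ) ^ k * ((1 + 3 * n) * ((2 : ℝ) ^ k)⁻¹) :=
                mul_le_mul_of_nonneg_left f6 pk.le
            _ = 1 + 3 * n := by field_simp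
        have f9 := floor_sub_le f8
        exact f9.trans (by linarith))
    rwa [Ex_const q1] at this
  -- the cell of the small needle, given the digits and the cell of the coarse one
  have hS : CH q (fun w => cl (sn k (K - k) (v w)) (x w))
      (fun w => (fl k (x w), (cl (sn s (K - s) (v w)) (x w), Z w))) ≤
      n * Real.log (2 * (4 * n + 4) + 1) := by
    have := CH_le_vec q0 q1 (fun w => cl (sn k (K - k) (v w)) (x w))
      (fun w => (fl k (x w), (cl (sn s (K - s) (v w)) (x w), Z w))) (fun _ => (4 * n + 4 : ℝ)) (by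
      intro w w' p p' e i
      obtain ⟨e0, e1⟩ := Prod.ext_iff.mp e
      obtain ⟨e1, e2⟩ := Prod.ext_iff.mp e1
      simp only at e0 e1 e2
      have e3 : v w = v w' := dv w w' p p' e2
      obtain ⟨f1, -⟩ := hcell w w' p p' e2 e1 i
      have pk : (0 : ℝ) < (2 : ℝ) ^ k := by positivity
      have pK : (0 : ℝ) < (2 : ℝ) ^ K := by positivity
      have g1 : ∀ j, |(x w - x w') j| ≤ ((2 : ℝ) ^ k)⁻¹ := by
        intro j
        have h3 : |(2 : ℝ) ^ k * x w j - (2 : ℝ) ^ k * x w' j| ≤ 1 :=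
          abs_sub_of_floor (congrFun e0 j)
        rw [← mul_sub, abs_mul, abs_of_pos pk] at h3
        rw [Pi.sub_apply, ← one_div, le_div_iff₀ pk]
        linarith
      have g2 : |v w ⬝ᵥ (x w - x w')| ≤ n * ((2 : ℝ) ^ k)⁻¹ := by
        unfold dotProduct
        calc |∑ j, v w j * (x w - x w') j| ≤ ∑ j, |v w j * (x w - x w') j| :=
              Finset.abs_sum_le_sum_abs _ _
          _ ≤ ∑ _j : Fin n, ((2 : ℝ) ^ k)⁻¹ := Finset.sum_le_sum fun j _ => by
              rw [abs_mul]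
              calc |v w j| * |(x w - x w') j| ≤ 1 * ((2 : ℝ) ^ k)⁻¹ :=
                    mul_le_mul (unit_entry (hv w) j) (g1 j) (abs_nonneg _) zero_le_one
                _ = ((2 : ℝ) ^ k)⁻¹ := one_mul _
          _ = n * ((2 : ℝ) ^ k)⁻¹ := by
              rw [Finset.sum_const, Finset.card_univ, Fintype.card_fin, nsmul_eq_mul]
      have g3 : |((sn k (K - k) (v w))⁻¹ *ᵥ (x w - x w')) i| ≤ (1 + n) + n := by
        rw [sn_inv_mulVec (hv w), ek]
        have g4 : |(2 : ℝ) ^ K * ((x w - x w') i - (v w ⬝ᵥ (x w - x w')) * v w i)| ≤ 1 + n := by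
          rw [abs_mul, abs_of_pos pK]
          rw [le_div_iff₀ pK] at f1
          linarith
        have g5 : |(2 : ℝ) ^ k * ((v w ⬝ᵥ (x w - x w')) * v w i)| ≤ n := by
          rw [abs_mul, abs_mul, abs_of_pos pk]
          calc (2 : ℝ) ^ k * (|v w ⬝ᵥ (x w - x w')| * |v w i|) ≤
                (2 : ℝ) ^ k * (n * ((2 : ℝ) ^ k)⁻¹ * 1) :=
                mul_le_mul_of_nonneg_left (mul_le_mul g2 (unit_entry (hv w) i) (abs_nonneg _)
                  (by positivity)) pk.le
            _ = n := by field_simp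
        exact (abs_add_le _ _).trans (add_le_add g4 g5)
      simp only [cl]
      rw [← e3]
      rw [Matrix.mulVec_sub, Pi.sub_apply] at g3
      exact (floor_sub_le g3).trans (by linarith))
    rwa [Ex_const q1] at this
  -- the chain of inequalities
  have c1 := mono_abs q0 (fun w => cl (fb n K) (x w)) (fun w => fl k (x w))
    (fun w => cl (sn s (K - s) (v w)) (x w)) Z
  have c1' : CH q (fun w => cl (fb n K) (x w)) (fun w => (cl (sn s (K - s) (v w)) (x w), Z w)) ≤
      CH q (fun w => fl k (x w)) (fun w => (cl (sn s (K - s) (v w)) (x w), Z w)) +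
      CH q (fun w => cl (fb n K) (x w))
        (fun w => (fl k (x w), (cl (sn s (K - s) (v w)) (x w), Z w))) :=
    CH_le_add q0 _ _ _
  have c2 := mono_abs q0 (fun w => cl (fb n K) (x w)) (fun w => cl (sn k (K - k) (v w)) (x w))
    (fun w => fl k (x w)) (fun w => (cl (sn s (K - s) (v w)) (x w), Z w))
  have c3 : CH q (fun w => cl (fb n K) (x w))
      (fun w => (cl (sn k (K - k) (v w)) (x w), (cl (sn s (K - s) (v w)) (x w), Z w))) ≤
      CH q (fun w => cl (fb n K) (x w)) (fun w => (cl (sn k (K - k) (v w)) (x w), Z w)) :=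
    CH_mono_cond q0 fun w w' _ _ e => by
      have e1 := Prod.ext_iff.mp e
      exact Prod.ext e1.1 (Prod.ext_iff.mp e1.2).2
  have c4 := mono_abs q0 (fun w => fl k (x w)) (fun w => oth N (fl k (x w)))
    (fun w => cl (sn s (K - s) (v w)) (x w)) Z
  have c5 : CH q (fun w => fl k (x w)) (fun w => (oth N (fl k (x w)), Z w)) ≤
      CH q (fun w => fl k (x w)) (fun w => (oth N (fl k (x w)), G w)) :=
    CH_mono_cond q0 fun w w' p p' e => by
      have e1 := Prod.ext_iff.mp e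
      exact Prod.ext e1.1 (hG w w' p p' e1.2)
  unfold DF at hD
  rw [h1] at hD
  unfold Cn
  have e9 : Pq q (fun w => v w ≠ 0) * ((k - s) * Real.log 2) =
      Pq q (fun w => v w ≠ 0) * ((K - s) * Real.log 2) -
      Pq q (fun w => v w ≠ 0) * ((K - k) * Real.log 2) := by ring
  rw [e9]
  linarith

end

end Pool.MSD
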