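import Pool.Agent.H38.MSD.Ndl

/-!
# LEMMA MSD with a designated coordinate

If the height in the coordinate `N` is not full, given the digits of the other coordinates, to every
depth, then the closed projection `Pi` satisfies `exp (- δ κ) ≤ Pi N N` with a positive probability
and kills every datum to `exp (- A δ κ)`, where `A` is any number fixed before.
-/

set_option autoImplicit false

namespace Pool.MSD

open Matrix Finset Real
open Pool.Agent.H49.Ent Pool.Agent.H32.Dense Pool.FAD Pool.STK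

section

variable {Ω Q₀ γ Λ β υ : Type} [Fintype Ω] {n : ℕ} {p : Ω → ℝ} {P : Ω → Q₀} {g : Q₀ → γ}
  {ν : Q₀ → Fin n → ℝ} {T : Matrix (Fin n) (Fin n) ℝ} {L : Ω → Λ} {ε M c c' θ κ : ℝ}
  {Vs : Q₀ → Matrix (Fin n) (Fin n) ℝ}

/-- **The closed projection with a designated coordinate.** -/
structure PrfN {Ω Q₀ γ Λ : Type} [Fintype Ω] {n : ℕ} (p : Ω → ℝ) (P : Ω → Q₀) (g : Q₀ → γ)
    (ν : Q₀ → Fin n → ℝ) (T : Matrix (Fin n) (Fin n) ℝ) (L : Ω → Λ) (η c c₀ θ g₀ δ κ : ℝ)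
    (N : Fin n) (Pi : Q₀ → Matrix (Fin n) (Fin n) ℝ) : Prop where
  sym : ∀ x, (Pi x)ᵀ = Pi x
  idm : ∀ x, Pi x * Pi x = Pi x
  /-- the projection is the same at two points of a line -/
  con : Pq (glue p p L L) (fun w => ∃ i j, Real.exp (-(g₀ * κ)) <
    |Pi (P w.1) i j - Pi (P w.2) i j|) ≤ η
  /-- the projection is a function of the line -/
  lin : ∃ Φ : Λ → Matrix (Fin n) (Fin n) ℝ, Pq p (fun ω => ∃ i j, Real.exp (-(g₀ * κ)) <
    |Pi (P ω) i j - Φ (L ω) i j|) ≤ η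
  /-- the projection kills the body of every datum -/
  dat : ∀ D : Dtm p P g ν T (θ * κ) c,
    Pq D.κ (fun w => ∃ i j, Real.exp (-(g₀ * κ)) < |(Pi (D.Pt w) * D.V w) i j|) ≤ η
  /-- the designated coordinate is not killed -/
  piv : c₀ / 2 - η ≤ Pq p (fun ω => Real.exp (-(δ * κ)) ≤ Pi (P ω) N N)

/-- An event at the point. -/
theorem Pq_law {W : Type} [Fintype W] {q : W → ℝ} {Pt : W → Q₀} (p0 : ∀ ω, 0 ≤ p ω)
    (q0 : ∀ w, 0 ≤ q w) (lw : ∀ x, law q Pt x = law p P x) (A : Q₀ → Prop) :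
    Pq q (fun w => A (Pt w)) = Pq p (fun ω => A (P ω)) := by
  have e : ∀ z, law p P z = law q Pt z := fun z => (lw z).symm
  rw [← Pq_glue_fst p0 e (fun ω => A (P ω)), ← Pq_glue_snd q0 e (fun w => A (Pt w))]
  have e1 : ∀ w, 0 < glue p q P Pt w → P w.1 = Pt w.2 := fun w hw =>
    ((glue_pos_iff p0 q0 w).1 hw).2.2
  refine le_antisymm (Pq_mono (fun w => glue_nonneg p0 q0 w) fun w hw k => ?_)
    (Pq_mono (fun w => glue_nonneg p0 q0 w) fun w hw k => ?_)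
  · rw [e1 w hw]
    exact k
  · rw [← e1 w hw]
    exact k

/-! ### A gap of the axes -/

variable {O O' : Q₀ → Matrix (Fin n) (Fin n) ℝ} {d : Q₀ → Fin n → ℝ} {τ τ' b : ℝ}

/-- An axis in the gap. -/
def Gp (P : Ω → Q₀) (d : Q₀ → Fin n → ℝ) (τ τ' : ℝ) (ω : Ω) : Prop :=
  ∃ i, τ < d (P ω) i ∧ d (P ω) i ≤ τ'

omit [Fintype Ω] in
theorem not_Gp {ω : Ω} (h : ¬Gp P d τ τ' ω) (i : Fin n) : d (P ω) i ≤ τ ∨ τ' < d (P ω) i := by
  by_contra hcon
  rw [not_or, not_le, not_lt] at hcon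
  exact h ⟨i, hcon.1, hcon.2⟩

/-- The projections at two points of a line. -/
theorem con_gap (p0 : ∀ ω, 0 ≤ p ω) (F : Fld p P g ν T L ε M c c' θ κ Vs)
    (hax : ∀ x, Axs (Vs x) (O x) (O' x) (d x)) (hτ : 0 < τ) (hτ' : 0 < τ')
    (hG : Pq p (Gp P d τ τ') ≤ b) :
    Pq (glue p p L L) (fun w => ∃ i k, 2 * (n ^ 4 * Real.exp (ε * κ) * (τ / τ')) <
      |pr (O (P w.1)) (d (P w.1)) τ i k - pr (O (P w.2)) (d (P w.2)) τ i k|) ≤
      (b + b) + (ε + ε) := by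
  have gn : ∀ w, 0 ≤ glue p p L L w := fun w => glue_nonneg p0 p0 w
  have s1 : Pq (glue p p L L) (fun w => Gp P d τ τ' w.1) = Pq p (Gp P d τ τ') :=
    Pq_glue_fst p0 (fun _ => rfl) _
  have s2 : Pq (glue p p L L) (fun w => Gp P d τ τ' w.2) = Pq p (Gp P d τ τ') :=
    Pq_glue_snd p0 (fun _ => rfl) _
  have s3 : Pq (glue p p L L) (fun w => ¬Inc (Real.exp (ε * κ)) (Vs (P w.1)) (Vs (P w.2))) ≤
      ε := by
    rw [Pq_glue_symm p L (fun ω ω' => ¬Inc (Real.exp (ε * κ)) (Vs (P ω)) (Vs (P ω')))]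
    exact F.con
  have s4 : Pq (glue p p L L) (fun w => Gp P d τ τ' w.1 ∨ Gp P d τ τ' w.2) ≤ b + b :=
    (Pq_or gn (fun _ _ k => k)).trans (by rw [s1, s2]; linarith)
  have s5 : Pq (glue p p L L) (fun w => ¬Inc (Real.exp (ε * κ)) (Vs (P w.1)) (Vs (P w.2)) ∨
      ¬Inc (Real.exp (ε * κ)) (Vs (P w.2)) (Vs (P w.1))) ≤ ε + ε :=
    (Pq_or gn (fun _ _ k => k)).trans (add_le_add s3 F.con)
  refine (Pq_or gn (B := fun w => Gp P d τ τ' w.1 ∨ Gp P d τ τ' w.2)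
    (C := fun w => ¬Inc (Real.exp (ε * κ)) (Vs (P w.1)) (Vs (P w.2)) ∨
      ¬Inc (Real.exp (ε * κ)) (Vs (P w.2)) (Vs (P w.1))) fun w _ k => ?_).trans
    (add_le_add s4 s5)
  by_contra hcon
  rw [not_or, not_or, not_or, not_not, not_not] at hcon
  obtain ⟨i, l, hil⟩ := k
  have := pr_diff (hax (P w.1)) (hax (P w.2)) (F.nz _) (F.nz _) hτ hτ'
    (Real.exp_pos (ε * κ)).le hcon.2.2 hcon.2.1 (not_Gp hcon.1.1) (not_Gp hcon.1.2) i l
  linarith

/-- The data are killed. -/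
theorem dat_gap (F : Fld p P g ν T L ε M c c' θ κ Vs)
    (hax : ∀ x, Axs (Vs x) (O x) (O' x) (d x)) (hτ : 0 < τ) (D : Dtm p P g ν T (θ * κ) c) :
    Pq D.κ (fun w => ∃ i j, n * (n * τ * Real.exp (ε * κ)) <
      |(pr (O (D.Pt w)) (d (D.Pt w)) τ * D.V w) i j|) ≤ ε := by
  refine (Pq_mono D.k0 fun w _ k => ?_).trans (F.dat D)
  intro hinc
  obtain ⟨i, l, hil⟩ := k
  have h1 := pr_inc (hax (D.Pt w)) (F.nz _) hτ.le hinc i l
  linarith

/-! ### The designated coordinate -/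

/-- The body contains a needle close to the axis of the coordinate `N`. -/
def Hn (N : Fin n) (s k : ℕ) (V : Matrix (Fin n) (Fin n) ℝ) (v : Fin n → ℝ) : Prop :=
  v ⬝ᵥ v = 1 ∧ (∀ i, i ≠ N → |v i| ≤ 2 * ((2 : ℝ) ^ k)⁻¹) ∧ ∀ i, |(V⁻¹ *ᵥ v) i| ≤ (2 : ℝ) ^ s

/-- If the projection almost kills the coordinate `N`, the body contains a needle. -/
theorem exists_Hn {N : Fin n} {s k : ℕ} (hk : 1 ≤ k) {V V' O O' : Matrix (Fin n) (Fin n) ℝ}
    {d : Fin n → ℝ} (h : Axs V O O' d) (hτ' : 0 < τ')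
    (hg : ∀ i, d i ≤ τ ∨ τ' < d i) {E : ℝ} (hi : Inc E V V') (hE : 0 ≤ E)
    (hs : 2 * (E * (n * (1 / τ'))) ≤ (2 : ℝ) ^ s)
    (hN : pr O d τ N N < (((2 : ℝ) ^ k)⁻¹) ^ 2) : ∃ v, Hn N s k V' v := by
  have hn0 : (0 : ℝ) ≤ n := Nat.cast_nonneg n
  obtain ⟨Y, y1, y2⟩ := pr_gap h hτ' hg
  obtain ⟨R, hR⟩ : ∃ R, R = pr O d τ := ⟨_, rfl⟩
  rw [← hR] at y1 hN
  have hsym : Rᵀ = R := by rw [hR, pr_transpose]
  have hidm : R * R = R := by rw [hR, pr_mul h.o2]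
  have hsq : R N N = ∑ i, R i N * R i N := by
    have := congrFun (congrFun hidm N) N
    rw [Matrix.mul_apply] at this
    rw [← this]
    refine Finset.sum_congr rfl fun i _ => ?_
    have e1 : R N i = R i N := by
      have := congrFun (congrFun hsym i) N
      rw [Matrix.transpose_apply] at this
      exact this
    rw [e1]
  have pk : (0 : ℝ) < (2 : ℝ) ^ k := by positivity
  have pk' : (0 : ℝ) < ((2 : ℝ) ^ k)⁻¹ := by positivity
  have hcol : ∀ i, |R i N| ≤ ((2 : ℝ) ^ k)⁻¹ := by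
    intro i
    have h1 : R i N * R i N ≤ R N N := by
      rw [hsq]
      exact Finset.single_le_sum (f := fun i => R i N * R i N) (fun j _ => mul_self_nonneg _)
        (Finset.mem_univ i)
    refine abs_le_of_sq_le_sq (by nlinarith) pk'.le
  have hNN0 : 0 ≤ R N N := by
    rw [hsq]
    exact Finset.sum_nonneg fun i _ => mul_self_nonneg _
  -- the vector
  obtain ⟨u, hu⟩ : ∃ u : Fin n → ℝ, u = fun i => (1 - R) i N := ⟨_, rfl⟩
  have hu1 : ∀ i, i ≠ N → u i = -R i N := by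
    intro i hi
    rw [hu]
    simp only
    rw [Matrix.sub_apply, Matrix.one_apply_ne hi, zero_sub]
  have huu : u ⬝ᵥ u = 1 - R N N := by
    have e1 : (1 - R) * (1 - R) = 1 - R := by
      rw [Matrix.sub_mul, Matrix.mul_sub, Matrix.mul_sub, hidm]
      simp
    have e2 : (1 - R)ᵀ = 1 - R := by
      rw [Matrix.transpose_sub, Matrix.transpose_one, hsym]
    have e3 := congrFun (congrFun e1 N) N
    rw [Matrix.mul_apply] at e3
    have e4 : u ⬝ᵥ u = ∑ i, (1 - R) N i * (1 - R) i N := by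
      unfold dotProduct
      refine Finset.sum_congr rfl fun i _ => ?_
      have e5 : (1 - R) N i = (1 - R) i N := by
        have := congrFun (congrFun e2 i) N
        rw [Matrix.transpose_apply] at this
        exact this
      rw [e5, hu]
    rw [e4, e3, Matrix.sub_apply, Matrix.one_apply_eq]
  have h4 : (((2 : ℝ) ^ k)⁻¹) ^ 2 ≤ 1 / 4 := by
    have h5 : (2 : ℝ) ≤ 2 ^ k := by
      calc (2 : ℝ) = 2 ^ 1 := (pow_one _).symm
        _ ≤ 2 ^ k := pow_le_pow_right₀ (by norm_num) hk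
    have h6 : ((2 : ℝ) ^ k)⁻¹ ≤ 1 / 2 := by
      rw [one_div]
      exact inv_anti₀ (by norm_num) h5
    nlinarith
  have hlow : 3 / 4 ≤ u ⬝ᵥ u := by
    rw [huu]
    linarith
  obtain ⟨l, hl⟩ : ∃ l, l = Real.sqrt (u ⬝ᵥ u) := ⟨_, rfl⟩
  have hl2 : l * l = u ⬝ᵥ u := by
    rw [hl]
    exact Real.mul_self_sqrt (by linarith)
  have hl0 : 0 ≤ l := by
    rw [hl]
    exact Real.sqrt_nonneg _
  have hl1 : 1 / 2 ≤ l := by
    by_contra hcon
    rw [not_le] at hcon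
    nlinarith
  have hl' : l⁻¹ ≤ 2 := by
    have : (2 : ℝ) = (1 / 2)⁻¹ := by norm_num
    rw [this]
    exact inv_anti₀ (by norm_num) hl1
  have hlp : 0 < l := by linarith
  refine ⟨l⁻¹ • u, ?_, fun i hi => ?_, fun i => ?_⟩
  · rw [smul_dotProduct, dotProduct_smul, smul_eq_mul, smul_eq_mul, ← hl2]
    field_simp
  · rw [Pi.smul_apply, smul_eq_mul, abs_mul, abs_of_pos (inv_pos.2 hlp), hu1 i hi, abs_neg]
    exact mul_le_mul hl' (hcol i) (abs_nonneg _) (by norm_num)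
  · have e1 : V'⁻¹ *ᵥ u = fun i => ((V'⁻¹ * V) * Y) i N := by
      funext j
      rw [Matrix.mul_assoc, ← y1, Matrix.mul_apply, hu]
      rfl
    rw [Matrix.mulVec_smul, Pi.smul_apply, smul_eq_mul, e1, abs_mul, abs_of_pos (inv_pos.2 hlp)]
    have e2 : |((V'⁻¹ * V) * Y) i N| ≤ E * (n * (1 / τ')) := by
      rw [Matrix.mul_apply]
      calc |∑ j, (V'⁻¹ * V) i j * Y j N| ≤ ∑ j, |(V'⁻¹ * V) i j * Y j N| :=
            Finset.abs_sum_le_sum_abs _ _
        _ ≤ ∑ j, |(V'⁻¹ * V) i j| * (n * (1 / τ')) := Finset.sum_le_sum fun j _ => by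
            rw [abs_mul]
            exact mul_le_mul_of_nonneg_left (y2 j N) (abs_nonneg _)
        _ = (∑ j, |(V'⁻¹ * V) i j|) * (n * (1 / τ')) := (Finset.sum_mul _ _ _).symm
        _ ≤ E * (n * (1 / τ')) := mul_le_mul_of_nonneg_right (hi i) (by positivity)
    have e3 : 0 ≤ E * (n * (1 / τ')) := by positivity
    calc l⁻¹ * |((V'⁻¹ * V) * Y) i N| ≤ 2 * (E * (n * (1 / τ'))) :=
          mul_le_mul hl' e2 (abs_nonneg _) (by norm_num)
      _ ≤ (2 : ℝ) ^ s := hs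

theorem sn_eq {s m K : ℕ} (hK : s + m = K) (v : Fin n → ℝ) :
    sn s m v = fb n K + (((2 : ℝ) ^ s)⁻¹ - ((2 : ℝ) ^ K)⁻¹) • vecMulVec v v := by
  have h2 : (2 : ℝ) ^ m ≠ 0 := by positivity
  have h3 : (2 : ℝ) ^ s ≠ 0 := by positivity
  have e1 : fb n K = ((2 : ℝ) ^ K)⁻¹ • (1 : Matrix (Fin n) (Fin n) ℝ) := by
    unfold fb
    ext i j
    by_cases h : i = j
    · subst h
      simp
    · simp [Matrix.diagonal_apply_ne _ h, Matrix.one_apply_ne h]
  unfold sn nd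
  rw [e1, ← hK, pow_add, smul_smul, mul_inv, smul_add, smul_smul, add_right_inj]
  congr 1
  field_simp

/-- A body with a needle contains the short needle. -/
theorem inc_sn {s m K : ℕ} (hK : s + m = K) {V : Matrix (Fin n) (Fin n) ℝ}
    (hi : Inc c' (fb n K) V) {v : Fin n → ℝ} (hv : v ⬝ᵥ v = 1 ∨ v = 0)
    (hV : ∀ i, |(V⁻¹ *ᵥ v) i| ≤ (2 : ℝ) ^ s) : Inc (c' + n) (sn s m v) V := by
  intro i
  have p1 : (0 : ℝ) < ((2 : ℝ) ^ s)⁻¹ := by positivity
  have p2 : (0 : ℝ) < ((2 : ℝ) ^ K)⁻¹ := by positivity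
  have p3 : ((2 : ℝ) ^ K)⁻¹ ≤ ((2 : ℝ) ^ s)⁻¹ :=
    inv_anti₀ (by positivity) (pow_le_pow_right₀ (by norm_num) (by omega))
  have e1 : ∀ j, (V⁻¹ * sn s m v) i j = (V⁻¹ * fb n K) i j +
      (((2 : ℝ) ^ s)⁻¹ - ((2 : ℝ) ^ K)⁻¹) * ((V⁻¹ *ᵥ v) i * v j) := by
    intro j
    rw [sn_eq hK, Matrix.mul_add, Matrix.add_apply, Matrix.mul_smul, Matrix.smul_apply,
      smul_eq_mul, Matrix.mul_vecMulVec]
    rfl
  calc ∑ j, |(V⁻¹ * sn s m v) i j| ≤ ∑ j, (|(V⁻¹ * fb n K) i j| + 1) := by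
        refine Finset.sum_le_sum fun j _ => ?_
        rw [e1]
        refine (abs_add_le _ _).trans (add_le_add le_rfl ?_)
        rw [abs_mul, abs_mul]
        have h1 : |((2 : ℝ) ^ s)⁻¹ - ((2 : ℝ) ^ K)⁻¹| ≤ ((2 : ℝ) ^ s)⁻¹ := by
          rw [abs_le]
          constructor <;> linarith
        calc |((2 : ℝ) ^ s)⁻¹ - ((2 : ℝ) ^ K)⁻¹| * (|(V⁻¹ *ᵥ v) i| * |v j|) ≤
              ((2 : ℝ) ^ s)⁻¹ * ((2 : ℝ) ^ s * 1) :=
              mul_le_mul h1 (mul_le_mul (hV i) (unit_entry hv j) (abs_nonneg _) (by positivity))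
                (mul_nonneg (abs_nonneg _) (abs_nonneg _)) p1.le
          _ = 1 := by
              rw [mul_one, inv_mul_cancel₀ (by positivity)]
    _ = (∑ j, |(V⁻¹ * fb n K) i j|) + n := by
        rw [Finset.sum_add_distrib, Finset.sum_const, Finset.card_univ, Fintype.card_fin,
          nsmul_eq_mul, mul_one]
    _ ≤ c' + n := add_le_add (hi i) le_rfl

/-- **The digits of the coordinate `N`, if the projection almost kills it.** -/
theorem piv_gap {K : ℕ} (p0 : ∀ ω, 0 ≤ p ω)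
    (F : Fld p P g ν (fb n K) L ε M c c' θ κ Vs) (hax : ∀ x, Axs (Vs x) (O x) (O' x) (d x))
    (hc' : 0 ≤ c') (hτ' : 0 < τ') (hG : Pq p (Gp P d τ τ') ≤ b) {N : Fin n} {s k : ℕ} (hk : 1 ≤ k)
    (hsk : s ≤ k) (hkK : k ≤ K) (hs : 2 * (Real.exp (ε * κ) * (n * (1 / τ'))) ≤ (2 : ℝ) ^ s) :
    (Pq p (fun ω => pr (O (P ω)) (d (P ω)) τ N N < (((2 : ℝ) ^ k)⁻¹) ^ 2) - (b + ε)) *
      ((k - s) * Real.log 2) ≤
      CH p (fun ω => fl k (ν (P ω))) (fun ω => (oth N (fl k (ν (P ω))), g (P ω))) +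
        (ε * κ + Cc n (c' + n)) + Cn n := by
  classical
  obtain ⟨D, hD⟩ := F.max
  obtain ⟨v, hv⟩ : ∃ v : D.W → Fin n → ℝ, v = fun w =>
    if h : ∃ v, Hn N s k (D.V w) v then h.choose else 0 := ⟨_, rfl⟩
  have hv1 : ∀ w, v w = 0 ∨ Hn N s k (D.V w) (v w) := by
    intro w
    rw [hv]
    simp only
    by_cases h : ∃ v, Hn N s k (D.V w) v
    · rw [dif_pos h]
      exact Or.inr h.choose_spec
    · rw [dif_neg h]
      exact Or.inl rfl
  have hv2 : ∀ w, (∃ v, Hn N s k (D.V w) v) → v w ≠ 0 := by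
    intro w h
    have e : v w = h.choose := by
      rw [hv]
      simp only
      rw [dif_pos h]
    rw [e]
    intro e0
    have h1 := h.choose_spec.1
    rw [e0] at h1
    simp at h1
  have hu : ∀ w, v w ⬝ᵥ v w = 1 ∨ v w = 0 := fun w => by
    rcases hv1 w with h | h
    · exact Or.inr h
    · exact Or.inl h.1
  have dv : Det D.κ (fun w => (D.R w, g (D.Pt w))) v := by
    intro w w' a a' e
    have e1 : D.V w = D.V w' := D.dV w w' a a' e
    rw [hv]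
    simp only
    rw [e1]
  have eK : s + (K - s) = K := by omega
  have hinc : ∀ w, Inc (c' + n) (sn s (K - s) (v w)) (D.V w) := by
    intro w
    refine inc_sn eK (D.inc w) (hu w) fun i => ?_
    rcases hv1 w with h | h
    · rw [h, Matrix.mulVec_zero, Pi.zero_apply, abs_zero]
      positivity
    · exact h.2.2 i
  have dS : Det D.κ (fun w => (D.R w, g (D.Pt w))) (fun w => sn s (K - s) (v w)) := by
    intro w w' a a' e
    simp only
    rw [dv w w' a a' e]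
  have hn0 : (0 : ℝ) ≤ n := Nat.cast_nonneg n
  have hDF := DF_mono D.k0 D.k1 (T := fun _ => fb n K) (W := fun w => sn s (K - s) (v w))
    (S := D.V) (fun w => ν (D.Pt w)) (fun w => (D.R w, g (D.Pt w))) dS D.dV
    (fun w => sn_det (hu w)) D.nz (a := c' + n) (by linarith) hinc
  have key := ndl_dig D.k0 D.k1 (N := N) hsk hkK hu (fun w => ν (D.Pt w))
    (fun w => (D.R w, g (D.Pt w))) (fun w => g (D.Pt w))
    (fun w w' _ _ e => (Prod.ext_iff.mp e).2) dv (fun w i hi => by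
      rcases hv1 w with h | h
      · rw [h, Pi.zero_apply, abs_zero]
        positivity
      · exact h.2.1 i hi) (a := ε * κ + Cc n (c' + n)) (by
      have := D.df
      linarith)
  have e1 : CH D.κ (fun w => fl k (ν (D.Pt w))) (fun w => (oth N (fl k (ν (D.Pt w))),
      g (D.Pt w))) = CH p (fun ω => fl k (ν (P ω)))
      (fun ω => (oth N (fl k (ν (P ω))), g (P ω))) :=
    CH_Pt D p0 (fun x => fl k (ν x)) (fun x => (oth N (fl k (ν x)), g x))
  rw [e1] at key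
  -- the probability
  have hpr : Pq p (fun ω => pr (O (P ω)) (d (P ω)) τ N N < (((2 : ℝ) ^ k)⁻¹) ^ 2) ≤
      Pq D.κ (fun w => v w ≠ 0) + (b + ε) := by
    rw [← Pq_law p0 D.k0 D.lw (fun x => pr (O x) (d x) τ N N < (((2 : ℝ) ^ k)⁻¹) ^ 2)]
    have g1 : Pq D.κ (fun w => ∃ i, τ < d (D.Pt w) i ∧ d (D.Pt w) i ≤ τ') ≤ b := by
      rw [Pq_law p0 D.k0 D.lw (fun x => ∃ i, τ < d x i ∧ d x i ≤ τ')]
      exact hG
    have g2 : Pq D.κ (fun w => (∃ i, τ < d (D.Pt w) i ∧ d (D.Pt w) i ≤ τ') ∨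
        ¬Inc (Real.exp (ε * κ)) (Vs (D.Pt w)) (D.V w)) ≤ b + ε :=
      (Pq_or D.k0 (fun _ _ k => k)).trans (add_le_add g1 hD)
    refine (Pq_or D.k0 (B := fun w => v w ≠ 0) (C := fun w =>
      (∃ i, τ < d (D.Pt w) i ∧ d (D.Pt w) i ≤ τ') ∨
        ¬Inc (Real.exp (ε * κ)) (Vs (D.Pt w)) (D.V w)) fun w _ h => ?_).trans
      (add_le_add le_rfl g2)
    by_contra hcon
    rw [not_or, not_or, not_not, not_not] at hcon
    obtain ⟨c1, c2, c3⟩ := hcon
    refine hv2 w ?_ c1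
    exact exists_Hn hk (hax (D.Pt w)) hτ' (fun i => by
      by_contra hc2
      rw [not_or, not_le, not_lt] at hc2
      exact c2 ⟨i, hc2.1, hc2.2⟩) c3 (Real.exp_pos _).le hs h
  have hks : 0 ≤ ((k : ℝ) - s) * Real.log 2 := by
    have : (s : ℝ) ≤ k := by exact_mod_cast hsk
    exact mul_nonneg (by linarith) (Real.log_nonneg (by norm_num))
  have h9 := mul_le_mul_of_nonneg_right (show
    Pq p (fun ω => pr (O (P ω)) (d (P ω)) τ N N < (((2 : ℝ) ^ k)⁻¹) ^ 2) - (b + ε) ≤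
      Pq D.κ (fun w => v w ≠ 0) by linarith) hks
  linarith

/-- **LEMMA MSD with a designated coordinate.** -/
theorem msdN (n : ℕ) {η c c₀ A M e : ℝ} (hη : 0 < η) (hc : 1 ≤ c) (hc₀ : 0 < c₀) (hc₀1 : c₀ ≤ 1)
    (hA : 1 ≤ A) (hM : 1 ≤ M) (he : 0 ≤ e) : ∃ θ κ₀ δ₀ : ℝ, 0 < θ ∧ 0 < κ₀ ∧ 0 < δ₀ ∧
    ∀ κ, κ₀ ≤ κ →
    ∀ {Ω Q₀ γ Λ β υ : Type} [Fintype Ω] {p : Ω → ℝ} {P : Ω → Q₀} {g : Q₀ → γ}
      {ν : Q₀ → Fin n → ℝ} {K : ℕ} {N : Fin n} {L : Ω → Λ} {b : γ → β} {U : Λ → υ}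
      {Z : υ → γ → γ → Fin n → ℝ} {a₀ : ℝ}, Lin p P g ν (fb n K) L b U Z a₀ e →
      0 ≤ a₀ → a₀ ≤ θ * κ → κ ≤ K * Real.log 2 →
      CH p (fun ω => fl K (ν (P ω))) (fun ω => g (P ω)) ≤ M * κ →
      (∀ k : ℕ, δ₀ * κ ≤ k → k * Real.log 2 ≤ κ →
        CH p (fun ω => fl k (ν (P ω))) (fun ω => (oth N (fl k (ν (P ω))), g (P ω))) ≤
          (1 - c₀) * (k * Real.log 2)) →
      ∃ δ, δ₀ ≤ δ ∧ A * δ ≤ 1 ∧ ∃ Pi : Q₀ → Matrix (Fin n) (Fin n) ℝ,
        PrfN p P g ν (fb n K) L η c c₀ θ (A * δ) δ κ N Pi := by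
  classical
  have hn0 : (0 : ℝ) ≤ n := Nat.cast_nonneg n
  obtain ⟨J, hJ⟩ := exists_nat_gt (4 * n / η)
  have hJR : (0 : ℝ) < J := lt_of_le_of_lt (by positivity) hJ
  have hJ0 : 0 < J := by exact_mod_cast hJR
  have hJη : n / (J : ℝ) ≤ η / 4 := by
    rw [div_lt_iff₀ hη] at hJ
    rw [div_le_div_iff₀ hJR (by norm_num)]
    linarith
  obtain ⟨B, hB⟩ : ∃ B : ℝ, B = 32 * A / c₀ := ⟨_, rfl⟩
  have hB32 : 32 * A ≤ B := by
    rw [hB, le_div_iff₀ hc₀]
    exact mul_le_of_le_one_right (by positivity) hc₀1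
  have hBc : c₀ * B = 32 * A := by
    rw [hB]
    field_simp
  have hB1 : 1 ≤ B := by linarith
  obtain ⟨ζ, hζ⟩ : ∃ ζ : ℝ, ζ = (B ^ J)⁻¹ := ⟨_, rfl⟩
  have hζ0 : 0 < ζ := by
    rw [hζ]
    positivity
  obtain ⟨t, ht⟩ : ∃ t : ℕ → ℝ, t = fun j : ℕ => ζ * B ^ j := ⟨_, rfl⟩
  have ht1 : ∀ j, t (j + 1) = B * t j := fun j => by
    rw [ht]
    simp only
    rw [pow_succ]
    ring
  have htζ : ∀ j, ζ ≤ t j := fun j => by
    rw [ht]
    simp only
    exact le_mul_of_one_le_right hζ0.le (one_le_pow₀ hB1)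
  have htJ : ∀ j, j ≤ J → t j ≤ 1 := fun j hj => by
    rw [ht, hζ]
    simp only
    rw [inv_mul_le_iff₀ (by positivity), mul_one]
    exact pow_le_pow_right₀ hB1 hj
  obtain ⟨ε, hε⟩ : ∃ ε : ℝ, ε = min (min 1 (η / 8)) (c₀ * ζ / 64) := ⟨_, rfl⟩
  have hε0 : 0 < ε := by
    rw [hε]
    exact lt_min (lt_min one_pos (by linarith)) (by positivity)
  have hε1 : ε ≤ 1 := by
    rw [hε]
    exact (min_le_left _ _).trans (min_le_left _ _)
  have hε2 : ε ≤ η / 8 := by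
    rw [hε]
    exact (min_le_left _ _).trans (min_le_right _ _)
  have hε3 : ε ≤ c₀ * ζ / 64 := by
    rw [hε]
    exact min_le_right _ _
  have hε4 : ε ≤ ζ / 64 := by
    have h1 : c₀ * ζ ≤ 1 * ζ := mul_le_mul_of_nonneg_right hc₀1 hζ0.le
    linarith
  obtain ⟨θ, κ₁, c', hθ, hκ₁, hc', hbody⟩ := msd_body n hε0 hε1 hM hc he
  obtain ⟨κ₂, hκ₂⟩ : ∃ κ₂ : ℝ, κ₂ = 64 * (2 * ((n : ℝ) + 1) ^ 4) / ζ +
    64 * (|Cc n (c' + n)| + |Cn n|) / ζ + 64 / ζ := ⟨_, rfl⟩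
  have hκ₂0 : 0 ≤ κ₂ := by
    rw [hκ₂]
    positivity
  refine ⟨θ, κ₁ + κ₂, 8 / c₀ * ζ, hθ, by linarith, by positivity, ?_⟩
  intro κ hκ Ω Q₀ γ Λ β υ _ p P g ν K N L b U Z a₀ h ha0 ha0' hK hH hNF
  have hκ0 : 0 < κ := by linarith
  have hζκ : 0 < ζ * κ := mul_pos hζ0 hκ0
  have hlog2 := Real.log_two_gt_d9
  have hlog2' := Real.log_two_lt_d9
  -- the numerical estimates
  have q1 : 64 * (2 * ((n : ℝ) + 1) ^ 4) ≤ ζ * κ := by
    have h1 : 64 * (2 * ((n : ℝ) + 1) ^ 4) / ζ ≤ κ := by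
      have h2 : 0 ≤ 64 * (|Cc n (c' + n)| + |Cn n|) / ζ := by positivity
      have h3 : 0 ≤ 64 / ζ := by positivity
      linarith
    rwa [div_le_iff₀' hζ0] at h1
  have q2 : 64 * (|Cc n (c' + n)| + |Cn n|) ≤ ζ * κ := by
    have h1 : 64 * (|Cc n (c' + n)| + |Cn n|) / ζ ≤ κ := by
      have h2 : 0 ≤ 64 * (2 * ((n : ℝ) + 1) ^ 4) / ζ := by positivity
      have h3 : 0 ≤ 64 / ζ := by positivity
      linarith
    rwa [div_le_iff₀' hζ0] at h1
  have q3 : 64 ≤ ζ * κ := by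
    have h1 : 64 / ζ ≤ κ := by
      have h2 : 0 ≤ 64 * (2 * ((n : ℝ) + 1) ^ 4) / ζ := by positivity
      have h3 : 0 ≤ 64 * (|Cc n (c' + n)| + |Cn n|) / ζ := by positivity
      linarith
    rwa [div_le_iff₀' hζ0] at h1
  have hn1 : (1 : ℝ) ≤ (n : ℝ) + 1 := by linarith
  have q4 : 2 * ((n : ℝ) + 1) ^ 4 ≤ Real.exp (ζ * κ / 64) := by
    have h2 := Real.add_one_le_exp (ζ * κ / 64)
    linarith
  have q5 : 2 * (n : ℝ) ≤ Real.exp (ζ * κ / 64) := by
    have h1 : (n : ℝ) + 1 ≤ ((n : ℝ) + 1) ^ 4 := le_self_pow₀ hn1 (by norm_num)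
    linarith
  have q6 : (n : ℝ) * n ≤ Real.exp (ζ * κ / 64) := by
    have h1 : ((n : ℝ) + 1) ^ 2 ≤ ((n : ℝ) + 1) ^ 4 := pow_le_pow_right₀ hn1 (by norm_num)
    have h2 : ((n : ℝ) + 1) ^ 2 = n * n + (2 * n + 1) := by ring
    have h3 : (0 : ℝ) ≤ ((n : ℝ) + 1) ^ 4 := by positivity
    rw [h2] at h1
    linarith
  obtain ⟨Vs, F⟩ := hbody κ (by linarith) h (det_fb n K) ha0 ha0' (by
    have e1 : CH p (fun ω => cl (fb n K) (ν (P ω))) (fun ω => g (P ω)) =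
        CH p (fun ω => fl K (ν (P ω))) (fun ω => g (P ω)) := by
      congr 1
      funext ω
      exact cl_fb K _
    rw [e1]
    exact hH)
  choose O O' d hax using fun x => exists_axs (Vs x) (F.nz x)
  obtain ⟨τ, hτ⟩ : ∃ τ : ℕ → ℝ, τ = fun j : ℕ => Real.exp (-(t j * κ)) := ⟨_, rfl⟩
  have hτ0 : ∀ j, 0 < τ j := fun j => by
    rw [hτ]
    exact Real.exp_pos _
  have htm : ∀ i j : ℕ, i ≤ j → t i ≤ t j := by
    intro i j hij
    rw [ht]
    simp only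
    exact mul_le_mul_of_nonneg_left (pow_le_pow_right₀ hB1 hij) hζ0.le
  have hτa : ∀ i j : ℕ, i ≤ j → τ j ≤ τ i := by
    intro i j hij
    rw [hτ]
    refine Real.exp_le_exp.2 ?_
    have := mul_le_mul_of_nonneg_right (htm i j hij) hκ0.le
    linarith
  obtain ⟨j, hjJ, hj⟩ := exists_rare h.p0 h.p1 hJ0
    (fun j ω => Gp P d (τ (j + 1)) (τ j) ω) n (fun ω => by
      have hax1 : ∀ i : Fin n, ∃ k : ℕ, ∀ j, τ (j + 1) < d (P ω) i ∧ d (P ω) i ≤ τ j → j = k := by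
        intro i
        by_cases hex : ∃ j, τ (j + 1) < d (P ω) i ∧ d (P ω) i ≤ τ j
        · obtain ⟨k, hk1, hk2⟩ := hex
          refine ⟨k, fun j hj => ?_⟩
          rcases lt_trichotomy j k with hlt | heq | hgt
          · have := hτa (j + 1) k hlt
            linarith [hj.1]
          · exact heq
          · have := hτa (k + 1) j hgt
            linarith [hj.2]
        · exact ⟨0, fun j hj => absurd ⟨j, hj⟩ hex⟩
      choose k hk using hax1
      refine ⟨Finset.univ.image k, ?_, ?_⟩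
      · exact Finset.card_image_le.trans (by rw [Finset.card_univ, Fintype.card_fin])
      · intro j _ hj
        obtain ⟨i, hi⟩ := hj
        rw [Finset.mem_image]
        exact ⟨i, Finset.mem_univ _, (hk i j hi).symm⟩)
  have hjG : Pq p (Gp P d (τ (j + 1)) (τ j)) ≤ η / 4 := hj.trans hJη
  -- the exponents
  obtain ⟨x, hx⟩ : ∃ x, x = t j * κ := ⟨_, rfl⟩
  have hx1 : ζ * κ ≤ x := by
    rw [hx]
    exact mul_le_mul_of_nonneg_right (htζ j) hκ0.le
  have hx0 : 0 < x := lt_of_lt_of_le hζκ hx1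
  have hτj : τ j = Real.exp (-x) := by
    rw [hτ, hx]
  have hτj1 : τ (j + 1) = Real.exp (-(B * x)) := by
    rw [hτ, hx]
    simp only
    rw [ht1]
    congr 2
    ring
  have hBx : 32 * x ≤ B * x := mul_le_mul_of_nonneg_right (by linarith) hx0.le
  obtain ⟨δ, hδ⟩ : ∃ δ, δ = 17 / c₀ * t j := ⟨_, rfl⟩
  have hAδ : A * δ = 17 / 32 * (B * t j) := by
    rw [hδ, hB]
    ring
  have hAδκ : A * δ * κ = 17 / 32 * (B * x) := by
    rw [hAδ, hx]
    ring
  have hδκ : δ * κ = 17 / c₀ * x := by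
    rw [hδ, hx]
    ring
  have hεκ : ε * κ ≤ ζ * κ / 64 := by
    have := mul_le_mul_of_nonneg_right hε4 hκ0.le
    linarith
  have hratio : τ (j + 1) / τ j = Real.exp (-(B * x) + x) := by
    rw [hτj, hτj1, ← Real.exp_sub]
    congr 1
    ring
  have hexpε : Real.exp (ε * κ) ≤ Real.exp (ζ * κ / 64) := Real.exp_le_exp.2 hεκ
  -- the two digits
  obtain ⟨s, hs⟩ : ∃ s : ℕ, s = ⌈3 / 2 * x / Real.log 2⌉₊ := ⟨_, rfl⟩
  obtain ⟨k, hk⟩ : ∃ k : ℕ, k = ⌈8 / c₀ * x / Real.log 2⌉₊ := ⟨_, rfl⟩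
  have hl0 : (0 : ℝ) < Real.log 2 := by linarith
  have hs1 : 3 / 2 * x ≤ s * Real.log 2 := by
    have := Nat.le_ceil (3 / 2 * x / Real.log 2)
    rw [← hs, div_le_iff₀ hl0] at this
    exact this
  have hs2 : s * Real.log 2 ≤ 2 * x := by
    have h1 := (Nat.ceil_lt_add_one (show 0 ≤ 3 / 2 * x / Real.log 2 by positivity)).le
    rw [← hs] at h1
    have h2 := mul_le_mul_of_nonneg_right h1 hl0.le
    rw [add_mul, div_mul_cancel₀ _ hl0.ne'] at h2
    linarith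
  have hk1 : 8 / c₀ * x ≤ k * Real.log 2 := by
    have := Nat.le_ceil (8 / c₀ * x / Real.log 2)
    rw [← hk, div_le_iff₀ hl0] at this
    exact this
  have hk2 : k * Real.log 2 ≤ 8 / c₀ * x + Real.log 2 := by
    have h1 := (Nat.ceil_lt_add_one (show 0 ≤ 8 / c₀ * x / Real.log 2 by positivity)).le
    rw [← hk] at h1
    have h2 := mul_le_mul_of_nonneg_right h1 hl0.le
    rw [add_mul, div_mul_cancel₀ _ hl0.ne'] at h2
    linarith
  have hic : 1 ≤ 1 / c₀ := by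
    rw [le_div_iff₀ hc₀]
    linarith
  have hic8 : 8 * x ≤ 8 / c₀ * x := by
    have h1 : (8 : ℝ) / c₀ = 8 * (1 / c₀) := by ring
    refine mul_le_mul_of_nonneg_right ?_ hx0.le
    rw [h1]
    linarith
  have hks : (s : ℝ) * Real.log 2 ≤ c₀ / 4 * (k * Real.log 2) := by
    have h1 : c₀ / 4 * (8 / c₀ * x) ≤ c₀ / 4 * (k * Real.log 2) :=
      mul_le_mul_of_nonneg_left hk1 (by positivity)
    have h2 : c₀ / 4 * (8 / c₀ * x) = 2 * x := by
      field_simp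
      ring
    linarith
  have hkl : 64 ≤ (k : ℝ) * Real.log 2 := by linarith
  have hkκ : (k : ℝ) * Real.log 2 ≤ κ := by
    have h1 : 8 / c₀ * x ≤ κ / 4 := by
      have h2 : B * t j ≤ 1 := by
        rw [← ht1]
        exact htJ _ hjJ
      have h3 : 32 / c₀ * t j ≤ B * t j := by
        refine mul_le_mul_of_nonneg_right ?_ (hζ0.le.trans (htζ j))
        rw [hB]
        exact div_le_div_of_nonneg_right (by linarith) hc₀.le
      have h4 : 8 / c₀ * t j ≤ 1 / 4 := by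
        have : (32 : ℝ) / c₀ * t j = 4 * (8 / c₀ * t j) := by ring
        linarith
      rw [hx]
      have h5 := mul_le_mul_of_nonneg_right h4 hκ0.le
      linarith
    have h6 : ζ * κ ≤ κ := by
      have h7 := mul_le_mul_of_nonneg_right ((htζ J).trans (htJ J le_rfl)) hκ0.le
      linarith
    linarith
  have hsk : s ≤ k := by
    have h1 : (s : ℝ) * Real.log 2 ≤ k * Real.log 2 := by
      have h2 : c₀ / 4 * (k * Real.log 2) ≤ 1 * (k * Real.log 2) :=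
        mul_le_mul_of_nonneg_right (by linarith) (by linarith)
      linarith
    exact_mod_cast le_of_mul_le_mul_right h1 hl0
  have hkK : k ≤ K := by
    have h1 : (k : ℝ) * Real.log 2 ≤ K * Real.log 2 := hkκ.trans hK
    exact_mod_cast le_of_mul_le_mul_right h1 hl0
  have hk1' : 1 ≤ k := by
    by_contra hcon
    have : k = 0 := by omega
    rw [this] at hkl
    norm_num at hkl
  have hpow : ∀ m : ℕ, (2 : ℝ) ^ m = Real.exp (m * Real.log 2) := fun m => by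
    rw [mul_comm, Real.exp_mul, Real.exp_log (by norm_num), Real.rpow_natCast]
  have hsc : 2 * (Real.exp (ε * κ) * (n * (1 / τ j))) ≤ (2 : ℝ) ^ s := by
    rw [hpow s, hτj]
    have e1 : (1 : ℝ) / Real.exp (-x) = Real.exp x := by
      rw [Real.exp_neg, one_div, inv_inv]
    rw [e1]
    calc 2 * (Real.exp (ε * κ) * (n * Real.exp x)) =
          Real.exp (ε * κ) * (2 * n) * Real.exp x := by ring
      _ ≤ Real.exp (ζ * κ / 64) * Real.exp (ζ * κ / 64) * Real.exp x :=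
          mul_le_mul_of_nonneg_right (mul_le_mul hexpε q5 (by positivity) (Real.exp_pos _).le)
            (Real.exp_pos _).le
      _ = Real.exp (ζ * κ / 64 + ζ * κ / 64 + x) := by rw [← Real.exp_add, ← Real.exp_add]
      _ ≤ Real.exp (s * Real.log 2) := Real.exp_le_exp.2 (by linarith)
  have hcon := con_gap h.p0 F hax (hτ0 (j + 1)) (hτ0 j) hjG
  have hpiv := piv_gap h.p0 F hax hc'.le (hτ0 j) hjG (N := N) hk1' hsk hkK hsc
  have hnf := hNF k (by
    have h1 : 8 / c₀ * ζ * κ ≤ 8 / c₀ * x := by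
      rw [mul_assoc]
      exact mul_le_mul_of_nonneg_left hx1 (by positivity)
    have h2 : (k : ℝ) * Real.log 2 ≤ k := by
      exact mul_le_of_le_one_right (Nat.cast_nonneg k) (by linarith)
    linarith) hkκ
  -- the closed projection along the lines
  have hcon' : Pq (glue p p L L) (fun w => ∃ i k, Real.exp (-(A * δ * κ)) <
      |pr (O (P w.1)) (d (P w.1)) (τ (j + 1)) i k -
        pr (O (P w.2)) (d (P w.2)) (τ (j + 1)) i k|) ≤ η := by
    refine (Pq_mono (fun w => glue_nonneg h.p0 h.p0 w) fun w _ k => ?_).trans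
      (hcon.trans (by linarith))
    obtain ⟨i, l, hil⟩ := k
    refine ⟨i, l, lt_of_le_of_lt ?_ hil⟩
    rw [hratio, hAδκ]
    calc 2 * ((n : ℝ) ^ 4 * Real.exp (ε * κ) * Real.exp (-(B * x) + x)) =
          2 * (n : ℝ) ^ 4 * Real.exp (ε * κ) * Real.exp (-(B * x) + x) := by ring
      _ ≤ Real.exp (ζ * κ / 64) * Real.exp (ζ * κ / 64) * Real.exp (-(B * x) + x) := by
          refine mul_le_mul_of_nonneg_right (mul_le_mul (le_trans ?_ q4) hexpε
            (Real.exp_pos _).le (Real.exp_pos _).le) (Real.exp_pos _).le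
          have : (n : ℝ) ^ 4 ≤ ((n : ℝ) + 1) ^ 4 := pow_le_pow_left₀ hn0 (by linarith) 4
          linarith
      _ = Real.exp (ζ * κ / 64 + ζ * κ / 64 + (-(B * x) + x)) := by
          rw [← Real.exp_add, ← Real.exp_add]
      _ ≤ Real.exp (-(17 / 32 * (B * x))) := Real.exp_le_exp.2 (by linarith)
  refine ⟨δ, ?_, ?_, fun x => pr (O x) (d x) (τ (j + 1)), fun x => pr_transpose _ _ _,
    fun x => pr_mul (hax x).o2 _ _, hcon', ?_, fun D => ?_, ?_⟩
  · rw [hδ]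
    have h1 : 8 / c₀ * ζ ≤ 8 / c₀ * t j := mul_le_mul_of_nonneg_left (htζ j) (by positivity)
    have h2 : 8 / c₀ * t j ≤ 17 / c₀ * t j :=
      mul_le_mul_of_nonneg_right (div_le_div_of_nonneg_right (by norm_num) hc₀.le)
        (hζ0.le.trans (htζ j))
    linarith
  · rw [hAδ, ← ht1]
    have := htJ _ (show j + 1 ≤ J from hjJ)
    linarith
  · obtain ⟨ws, hws⟩ := exists_selP h.p0 h.p1 L (fun ω ω' => ∃ i k, Real.exp (-(A * δ * κ)) <
      |pr (O (P ω)) (d (P ω)) (τ (j + 1)) i k - pr (O (P ω')) (d (P ω')) (τ (j + 1)) i k|)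
    exact ⟨fun l => pr (O (P (ws l))) (d (P (ws l))) (τ (j + 1)), hws.trans hcon'⟩
  · have h1 := dat_gap F hax (hτ0 (j + 1)) D
    refine (Pq_mono D.k0 fun w _ k => ?_).trans (h1.trans (by linarith))
    obtain ⟨i, l, hil⟩ := k
    refine ⟨i, l, lt_of_le_of_lt ?_ hil⟩
    rw [hτj1, hAδκ]
    calc (n : ℝ) * (n * Real.exp (-(B * x)) * Real.exp (ε * κ)) =
          n * n * Real.exp (ε * κ) * Real.exp (-(B * x)) := by ring
      _ ≤ Real.exp (ζ * κ / 64) * Real.exp (ζ * κ / 64) * Real.exp (-(B * x)) :=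
          mul_le_mul_of_nonneg_right (mul_le_mul q6 hexpε (Real.exp_pos _).le
            (Real.exp_pos _).le) (Real.exp_pos _).le
      _ = Real.exp (ζ * κ / 64 + ζ * κ / 64 + -(B * x)) := by
          rw [← Real.exp_add, ← Real.exp_add]
      _ ≤ Real.exp (-(17 / 32 * (B * x))) := Real.exp_le_exp.2 (by linarith)
  · -- the designated coordinate
    obtain ⟨X, hX⟩ : ∃ X, X = Pq p (fun ω => pr (O (P ω)) (d (P ω)) (τ (j + 1)) N N <
        (((2 : ℝ) ^ k)⁻¹) ^ 2) := ⟨_, rfl⟩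
    rw [← hX] at hpiv
    have hexp2 : Real.exp (-(δ * κ)) ≤ (((2 : ℝ) ^ k)⁻¹) ^ 2 := by
      have e1 : (((2 : ℝ) ^ k)⁻¹) ^ 2 = Real.exp (-(2 * (k * Real.log 2))) := by
        rw [hpow k, ← Real.exp_neg, ← Real.exp_nat_mul]
        congr 1
        push_cast
        ring
      rw [e1]
      refine Real.exp_le_exp.2 ?_
      rw [hδκ]
      have h1 : 2 * (8 / c₀ * x) + x ≤ 17 / c₀ * x := by
        have e2 : 17 / c₀ * x = 2 * (8 / c₀ * x) + 1 / c₀ * x := by ring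
        have e3 : 1 * x ≤ 1 / c₀ * x := mul_le_mul_of_nonneg_right hic hx0.le
        rw [e2]
        linarith
      linarith
    have hXc := Pq_compl h.p1 (fun ω => Real.exp (-(δ * κ)) ≤
      pr (O (P ω)) (d (P ω)) (τ (j + 1)) N N)
    have hXle : Pq p (fun ω => ¬Real.exp (-(δ * κ)) ≤ pr (O (P ω)) (d (P ω)) (τ (j + 1)) N N) ≤
        X := by
      rw [hX]
      refine Pq_mono h.p0 fun ω _ hω => ?_
      rw [not_le] at hω
      exact lt_of_lt_of_le hω hexp2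
    obtain ⟨y, hy⟩ : ∃ y, y = (k : ℝ) * Real.log 2 := ⟨_, rfl⟩
    have hks' : ((k : ℝ) - s) * Real.log 2 = y - s * Real.log 2 := by
      rw [hy]
      ring
    rw [hks'] at hpiv
    rw [← hy] at hnf hks hkl hk1
    obtain ⟨z, hz⟩ : ∃ z, z = y - s * Real.log 2 := ⟨_, rfl⟩
    rw [← hz] at hpiv
    have hz1 : (1 - c₀ / 4) * y ≤ z := by
      rw [hz]
      linarith
    have hy0 : 0 < y := by linarith
    have hz0 : 3 / 4 * y ≤ z := by
      have h1 : 3 / 4 * y ≤ (1 - c₀ / 4) * y :=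
        mul_le_mul_of_nonneg_right (by linarith) hy0.le
      linarith
    -- the error
    have he1 : ε * κ + Cc n (c' + n) + Cn n ≤ c₀ / 8 * z := by
      have h1 : ε * κ ≤ c₀ * (ζ * κ) / 64 := by
        have := mul_le_mul_of_nonneg_right hε3 hκ0.le
        linarith
      have h2 : Cc n (c' + n) + Cn n ≤ ζ * κ / 64 := by
        have h3 := le_abs_self (Cc n (c' + n))
        have h4 := le_abs_self (Cn n)
        linarith
      have h5 : 8 * x ≤ c₀ * y := by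
        have h6 := mul_le_mul_of_nonneg_left hk1 hc₀.le
        have h7 : c₀ * (8 / c₀ * x) = 8 * x := by
          field_simp
        linarith
      have h8 : c₀ * (ζ * κ) ≤ 1 * (ζ * κ) := mul_le_mul_of_nonneg_right hc₀1 hζκ.le
      have h9 : c₀ / 8 * (3 / 4 * y) ≤ c₀ / 8 * z :=
        mul_le_mul_of_nonneg_left hz0 (by positivity)
      linarith
    have he2 : (1 - c₀) * y ≤ (1 - 3 / 4 * c₀) * z := by
      have h1 : (1 - 3 / 4 * c₀) * ((1 - c₀ / 4) * y) ≤ (1 - 3 / 4 * c₀) * z :=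
        mul_le_mul_of_nonneg_left hz1 (by linarith)
      have h2 : (1 - 3 / 4 * c₀) * ((1 - c₀ / 4) * y) =
          (1 - c₀) * y + 3 / 16 * (c₀ * c₀ * y) := by ring
      have h3 : 0 ≤ c₀ * c₀ * y := by positivity
      linarith
    have hzp : 0 < z := by linarith
    have hfin : (X - (η / 4 + ε)) * z ≤ (1 - 5 / 8 * c₀) * z := by
      have : (1 - 5 / 8 * c₀) * z = (1 - 3 / 4 * c₀) * z + c₀ / 8 * z := by ring
      rw [this]
      linarith
    have hfin' := le_of_mul_le_mul_right hfin hzp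
    linarith

end

end Pool.MSD
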