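import Pool.Agent.H38.MSD.Thm

/-!
# LEMMA MSD: the projection to the thin axes
-/

set_option autoImplicit false

namespace Pool.MSD

open Matrix Finset Real
open Pool.Agent.H49.Ent Pool.Agent.H32.Dense Pool.FAD

section Prj

variable {n : ℕ}

/-- The axes of a body. -/
structure Axs (V O O' : Matrix (Fin n) (Fin n) ℝ) (d : Fin n → ℝ) : Prop where
  o1 : O * Oᵀ = 1
  o2 : Oᵀ * O = 1
  o3 : O' * O'ᵀ = 1
  o4 : O'ᵀ * O' = 1
  dp : ∀ i, 0 < d i
  eq : V = O * diagonal d * O'

theorem exists_axs (V : Matrix (Fin n) (Fin n) ℝ) (hV : V.det ≠ 0) :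
    ∃ O O' d, Axs V O O' d := by
  obtain ⟨O, O', d, h1, h2, h3, h4, h5, h6⟩ := exists_svd V hV
  exact ⟨O, O', d, h1, h2, h3, h4, h5, h6⟩

open Classical in
/-- The projection to the axes of length at most `τ`. -/
noncomputable def pr (O : Matrix (Fin n) (Fin n) ℝ) (d : Fin n → ℝ) (τ : ℝ) :
    Matrix (Fin n) (Fin n) ℝ :=
  O * diagonal (fun i => if d i ≤ τ then 1 else 0) * Oᵀ

theorem pr_transpose (O : Matrix (Fin n) (Fin n) ℝ) (d : Fin n → ℝ) (τ : ℝ) :
    (pr O d τ)ᵀ = pr O d τ := by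
  unfold pr
  rw [Matrix.transpose_mul, Matrix.transpose_mul, Matrix.transpose_transpose,
    Matrix.diagonal_transpose, Matrix.mul_assoc]

theorem pr_mul {O : Matrix (Fin n) (Fin n) ℝ} (h : Oᵀ * O = 1) (d : Fin n → ℝ) (τ : ℝ) :
    pr O d τ * pr O d τ = pr O d τ := by
  classical
  unfold pr
  have e1 : ∀ D E : Matrix (Fin n) (Fin n) ℝ, O * D * Oᵀ * (O * E * Oᵀ) = O * (D * E) * Oᵀ := by
    intro D E
    calc O * D * Oᵀ * (O * E * Oᵀ) = O * D * (Oᵀ * O) * E * Oᵀ := by
          simp only [Matrix.mul_assoc]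
      _ = O * (D * E) * Oᵀ := by rw [h, Matrix.mul_one, ← Matrix.mul_assoc O D E]
  rw [e1, Matrix.diagonal_mul_diagonal]
  congr 3
  funext i
  split_ifs <;> simp

/-- The trace. -/
theorem pr_trace {O : Matrix (Fin n) (Fin n) ℝ} (h : Oᵀ * O = 1) (d : Fin n → ℝ) (τ : ℝ)
    {i : Fin n} (hi : d i ≤ τ) : 1 ≤ (pr O d τ).trace := by
  classical
  unfold pr
  rw [Matrix.trace_mul_comm, ← Matrix.mul_assoc, h, Matrix.one_mul, Matrix.trace_diagonal]
  have h1 := Finset.single_le_sum (f := fun i => if d i ≤ τ then (1 : ℝ) else 0)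
    (fun j _ => by
      by_cases hj : d j ≤ τ
      · simp [hj]
      · simp [hj]) (Finset.mem_univ i)
  simp only [if_pos hi] at h1
  exact h1

theorem ent_mul {A B : Matrix (Fin n) (Fin n) ℝ} {a b : ℝ} (ha : 0 ≤ a)
    (hA : ∀ i j, |A i j| ≤ a) (hB : ∀ i j, |B i j| ≤ b) (i j : Fin n) :
    |(A * B) i j| ≤ n * (a * b) := by
  rw [Matrix.mul_apply]
  calc |∑ k, A i k * B k j| ≤ ∑ k, |A i k * B k j| := Finset.abs_sum_le_sum_abs _ _
    _ ≤ ∑ _k : Fin n, a * b := Finset.sum_le_sum fun k _ => by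
        rw [abs_mul]
        exact mul_le_mul (hA i k) (hB k j) (abs_nonneg _) ha
    _ = n * (a * b) := by
        rw [Finset.sum_const, Finset.card_univ, Fintype.card_fin, nsmul_eq_mul]

/-- The entries of a product of two orthogonal matrices and a diagonal one. -/
theorem ent_diag {O O' : Matrix (Fin n) (Fin n) ℝ} (h : O * Oᵀ = 1) (h' : O' * O'ᵀ = 1)
    {f : Fin n → ℝ} {a : ℝ} (hf : ∀ i, |f i| ≤ a) (i j : Fin n) :
    |(O * diagonal f * O') i j| ≤ n * a := by
  have e1 : (O * diagonal f * O') i j = ∑ k, O i k * f k * O' k j := by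
    rw [Matrix.mul_apply]
    refine Finset.sum_congr rfl fun k _ => ?_
    rw [Matrix.mul_diagonal]
  rw [e1]
  calc |∑ k, O i k * f k * O' k j| ≤ ∑ k, |O i k * f k * O' k j| :=
        Finset.abs_sum_le_sum_abs _ _
    _ ≤ ∑ _k : Fin n, a := Finset.sum_le_sum fun k _ => by
        rw [abs_mul, abs_mul]
        have h1 := orth_entry h i k
        have h2 := orth_entry h' k j
        have h3 := hf k
        have h4 := abs_nonneg (O i k)
        have h5 := abs_nonneg (f k)
        have h6 := abs_nonneg (O' k j)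
        calc |O i k| * |f k| * |O' k j| ≤ |O i k| * |f k| * 1 :=
              mul_le_mul_of_nonneg_left h2 (mul_nonneg h4 h5)
          _ = |O i k| * |f k| := mul_one _
          _ ≤ 1 * |f k| := mul_le_mul_of_nonneg_right h1 h5
          _ ≤ a := by rw [one_mul]; exact h3
    _ = n * a := by
        rw [Finset.sum_const, Finset.card_univ, Fintype.card_fin, nsmul_eq_mul]

/-- The projection of the body. -/
theorem pr_body {V O O' : Matrix (Fin n) (Fin n) ℝ} {d : Fin n → ℝ} (h : Axs V O O' d) {τ : ℝ}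
    (hτ : 0 ≤ τ) (i j : Fin n) : |(pr O d τ * V) i j| ≤ n * τ := by
  classical
  have e1 : pr O d τ * V = O * diagonal (fun i => (if d i ≤ τ then 1 else 0) * d i) * O' := by
    rw [h.eq]
    unfold pr
    calc O * diagonal (fun i => if d i ≤ τ then (1 : ℝ) else 0) * Oᵀ * (O * diagonal d * O') =
          O * diagonal (fun i => if d i ≤ τ then (1 : ℝ) else 0) * (Oᵀ * O) * diagonal d * O' := by
          simp only [Matrix.mul_assoc]
      _ = O * (diagonal (fun i => if d i ≤ τ then (1 : ℝ) else 0) * diagonal d) * O' := by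
          rw [h.o2, Matrix.mul_one, ← Matrix.mul_assoc O]
      _ = _ := by rw [Matrix.diagonal_mul_diagonal]
  rw [e1]
  refine ent_diag h.o1 h.o3 (fun k => ?_) i j
  split_ifs with hk
  · rw [one_mul, abs_of_pos (h.dp k)]
    exact hk
  · rw [zero_mul, abs_zero]
    exact hτ

/-- The complement of the projection, if there is a gap. -/
theorem pr_gap {V O O' : Matrix (Fin n) (Fin n) ℝ} {d : Fin n → ℝ} (h : Axs V O O' d) {τ τ' : ℝ}
    (hτ : 0 < τ') (hg : ∀ i, d i ≤ τ ∨ τ' < d i) :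
    ∃ Y : Matrix (Fin n) (Fin n) ℝ, 1 - pr O d τ = V * Y ∧ ∀ i j, |Y i j| ≤ n * (1 / τ') := by
  classical
  have o4 : O'ᵀ * O'ᵀᵀ = 1 := by
    rw [Matrix.transpose_transpose]
    exact h.o4
  have o2 : Oᵀ * Oᵀᵀ = 1 := by
    rw [Matrix.transpose_transpose]
    exact h.o2
  refine ⟨O'ᵀ * diagonal (fun i => if d i ≤ τ then 0 else 1 / d i) * Oᵀ, ?_, fun i j => ?_⟩
  · rw [h.eq]
    have e1 : O * diagonal d * O' * (O'ᵀ * diagonal (fun i => if d i ≤ τ then 0 else 1 / d i) * Oᵀ) =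
        O * diagonal (fun i => if d i ≤ τ then (0 : ℝ) else 1) * Oᵀ := by
      calc O * diagonal d * O' * (O'ᵀ * diagonal (fun i => if d i ≤ τ then 0 else 1 / d i) * Oᵀ) =
          O * diagonal d * (O' * O'ᵀ) * diagonal (fun i => if d i ≤ τ then 0 else 1 / d i) * Oᵀ := by
            simp only [Matrix.mul_assoc]
        _ = O * (diagonal d * diagonal (fun i => if d i ≤ τ then 0 else 1 / d i)) * Oᵀ := by
            rw [h.o3, Matrix.mul_one, ← Matrix.mul_assoc O]
        _ = _ := by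
            rw [Matrix.diagonal_mul_diagonal]
            congr 3
            funext i
            split_ifs
            · simp
            · exact mul_one_div_cancel (h.dp i).ne'
    rw [e1]
    unfold pr
    have e2 : (1 : Matrix (Fin n) (Fin n) ℝ) = O * diagonal (fun _ => (1 : ℝ)) * Oᵀ := by
      rw [Matrix.diagonal_one, Matrix.mul_one, h.o1]
    rw [e2, ← Matrix.sub_mul, ← Matrix.mul_sub, Matrix.diagonal_sub]
    congr 3
    funext i
    split_ifs <;> simp
  · refine ent_diag o4 o2 (fun k => ?_) i j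
    split_ifs with hk
    · rw [abs_zero]
      positivity
    · rcases hg k with h1 | h1
      · exact absurd h1 hk
      · rw [abs_of_pos (one_div_pos.2 (h.dp k))]
        exact one_div_le_one_div_of_le hτ h1.le

theorem inc_entry {E : ℝ} {V W : Matrix (Fin n) (Fin n) ℝ} (h : Inc E V W) (i j : Fin n) :
    |(W⁻¹ * V) i j| ≤ E :=
  (Finset.single_le_sum (f := fun j => |(W⁻¹ * V) i j|) (fun _ _ => abs_nonneg _)
    (Finset.mem_univ j)).trans (h i)

/-- The projection of a contained body. -/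
theorem pr_inc {V V' O O' : Matrix (Fin n) (Fin n) ℝ} {d : Fin n → ℝ} (h : Axs V O O' d)
    (hV : V.det ≠ 0) {τ E : ℝ} (hτ : 0 ≤ τ) (hi : Inc E V' V) (i j : Fin n) :
    |(pr O d τ * V') i j| ≤ n * (n * τ * E) := by
  have e1 : V' = V * (V⁻¹ * V') := by
    rw [← Matrix.mul_assoc, Matrix.mul_nonsing_inv _ (isUnit_iff_ne_zero.2 hV), Matrix.one_mul]
  rw [e1, ← Matrix.mul_assoc]
  exact ent_mul (by positivity) (pr_body h hτ) (inc_entry hi) i j

/-- **Comparison of the projections of two comparable bodies.** -/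
theorem pr_diff {V V' O O' Q Q' : Matrix (Fin n) (Fin n) ℝ} {d d' : Fin n → ℝ}
    (h : Axs V O O' d) (h' : Axs V' Q Q' d') (hV : V.det ≠ 0) (hV' : V'.det ≠ 0) {τ τ' E : ℝ}
    (hτ : 0 < τ) (hτ' : 0 < τ') (hE : 0 ≤ E) (hi : Inc E V' V) (hi' : Inc E V V')
    (hg : ∀ i, d i ≤ τ ∨ τ' < d i) (hg' : ∀ i, d' i ≤ τ ∨ τ' < d' i) (i j : Fin n) :
    |pr O d τ i j - pr Q d' τ i j| ≤ 2 * (n ^ 4 * E * (τ / τ')) := by
  obtain ⟨Y, y1, y2⟩ := pr_gap h hτ' hg
  obtain ⟨Y', y1', y2'⟩ := pr_gap h' hτ' hg'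
  have k1 : ∀ i j, |(pr O d τ * (1 - pr Q d' τ)) i j| ≤ n ^ 4 * E * (τ / τ') := by
    intro i j
    rw [y1', ← Matrix.mul_assoc]
    have := ent_mul (A := pr O d τ * V') (B := Y') (by positivity)
      (pr_inc h hV hτ.le hi) y2' i j
    refine this.trans (le_of_eq ?_)
    ring
  have k2 : ∀ i j, |(pr Q d' τ * (1 - pr O d τ)) i j| ≤ n ^ 4 * E * (τ / τ') := by
    intro i j
    rw [y1, ← Matrix.mul_assoc]
    have := ent_mul (A := pr Q d' τ * V) (B := Y) (by positivity)
      (pr_inc h' hV' hτ.le hi') y2 i j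
    refine this.trans (le_of_eq ?_)
    ring
  have e1 : pr O d τ - pr Q d' τ = pr O d τ * (1 - pr Q d' τ) -
      (pr Q d' τ * (1 - pr O d τ))ᵀ := by
    rw [Matrix.transpose_mul, Matrix.transpose_sub, Matrix.transpose_one, pr_transpose,
      pr_transpose, Matrix.mul_sub, Matrix.mul_one, Matrix.sub_mul, Matrix.one_mul]
    abel
  have e2 : pr O d τ i j - pr Q d' τ i j = (pr O d τ * (1 - pr Q d' τ)) i j -
      (pr Q d' τ * (1 - pr O d τ)) j i := by
    have := congrFun (congrFun e1 i) j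
    rw [Matrix.sub_apply, Matrix.sub_apply, Matrix.transpose_apply] at this
    exact this
  rw [e2]
  have f1 := k1 i j
  have f2 := k2 j i
  rw [abs_le] at f1 f2 ⊢
  constructor <;> linarith [f1.1, f1.2, f2.1, f2.2]

/-- The volume and the shortest axis. -/
theorem exists_short {V O O' : Matrix (Fin n) (Fin n) ℝ} {d : Fin n → ℝ} (h : Axs V O O' d)
    {s : ℝ} (hv : lv V ≤ -(n * s)) (hn : 0 < n) : ∃ i, d i ≤ Real.exp (-s) := by
  have o1 : |O.det| = 1 := by
    have := congrArg Matrix.det h.o1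
    rw [Matrix.det_mul, Matrix.det_transpose, Matrix.det_one] at this
    have h7 : |O.det| * |O.det| = 1 := by rw [← abs_mul, this, abs_one]
    nlinarith [abs_nonneg O.det]
  have o2 : |O'.det| = 1 := by
    have := congrArg Matrix.det h.o3
    rw [Matrix.det_mul, Matrix.det_transpose, Matrix.det_one] at this
    have h7 : |O'.det| * |O'.det| = 1 := by rw [← abs_mul, this, abs_one]
    nlinarith [abs_nonneg O'.det]
  have hd : 0 < ∏ i, d i := Finset.prod_pos fun i _ => h.dp i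
  have e1 : lv V = ∑ i, Real.log (d i) := by
    unfold lv
    rw [h.eq, Matrix.det_mul, Matrix.det_mul, abs_mul, abs_mul, o1, o2, Matrix.det_diagonal,
      one_mul, mul_one, abs_of_pos hd, Real.log_prod (fun i _ => (h.dp i).ne')]
  by_contra hcon
  have hcon' : ∀ i, -s < Real.log (d i) := by
    intro i
    by_contra hh
    refine hcon ⟨i, ?_⟩
    rw [not_lt] at hh
    rw [← Real.exp_log (h.dp i)]
    exact Real.exp_le_exp.2 hh
  have : ∑ _i : Fin n, (-s) < ∑ i, Real.log (d i) :=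
    Finset.sum_lt_sum_of_nonempty ⟨⟨0, hn⟩, Finset.mem_univ _⟩ fun i _ => hcon' i
  rw [Finset.sum_const, Finset.card_univ, Fintype.card_fin, nsmul_eq_mul] at this
  linarith

end Prj

end Pool.MSD
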