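import Pool.Agent.H38.MSD.Mat

/-!
# Own vectors are combinations of those of the mates

`Sp E D j`: every vector of the sample `j` is a combination of the vectors of the other samples, with
coefficients at most `m`, up to `E`. This fails for at most `m` samples, thus, by symmetry, with
probability at most `m / (k + 1)` for the own sample.
-/

set_option autoImplicit false

namespace Pool.MSD

open Matrix Finset
open Pool.Agent.H49.Ent Pool.Agent.H32.Dense Pool.STK Pool.SLO
open Pool.BFL (Pb)

section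

variable {J m k : ℕ}

/-- The vectors of the sample `j` are combinations of those of the others. -/
def Sp (E : ℝ) (D : Fin (k + 1) → Fin J → Fin m → ℝ) (j : Fin (k + 1)) : Prop :=
  ∀ l, ∃ c : Fin (k + 1) → Fin J → ℝ, (∀ i l', |c i l'| ≤ m) ∧ (∀ l', c j l' = 0) ∧
    ∀ a, |D j l a - ∑ i, ∑ l', c i l' * D i l' a| ≤ E

theorem Sp_perm (E : ℝ) (D : Fin (k + 1) → Fin J → Fin m → ℝ) (σ : Equiv.Perm (Fin (k + 1)))
    (j : Fin (k + 1)) : Sp E (fun i => D (σ i)) j ↔ Sp E D (σ j) := by
  have key : ∀ (D : Fin (k + 1) → Fin J → Fin m → ℝ) (σ : Equiv.Perm (Fin (k + 1)))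
      (j : Fin (k + 1)), Sp E D (σ j) → Sp E (fun i => D (σ i)) j := by
    intro D σ j h l
    obtain ⟨c, h1, h2, h3⟩ := h l
    refine ⟨fun i => c (σ i), fun i l' => h1 _ _, fun l' => h2 _, fun a => ?_⟩
    have e := Equiv.sum_comp σ fun i => ∑ l', c i l' * D i l' a
    rw [e]
    exact h3 a
  refine ⟨fun h => ?_, key D σ j⟩
  have h1 := key (fun i => D (σ i)) σ.symm (σ j) (by rwa [Equiv.symm_apply_apply])
  have e : (fun i => D (σ (σ.symm i))) = D := by
    funext i
    rw [Equiv.apply_symm_apply]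
  rwa [e] at h1

/-- The samples of the array. -/
theorem Sp_of {E : ℝ} (hE : 0 < E) {r : ℕ} (hr : r ≤ m) {D : Fin (k + 1) → Fin J → Fin m → ℝ}
    (hR : Rk (ar (fun x => x) D) (fun r => E ^ r) r) {j : Fin (k + 1)}
    (hb : ¬Bd (fun x => x) (fun r => E ^ r) r D j) : Sp E D j := by
  classical
  obtain ⟨ρ, s, h2, h3⟩ : ∃ (ρ : Fin r → Fin m) (s : Fin r → Fin (k + 1) × Fin J),
      (∀ b, (s b).1 ≠ j) ∧ ∀ (ρ' : Fin r → Fin m) (s' : Fin r → Fin (k + 1) × Fin J),
      |mn (ar (fun x => x) D) ρ' s'| ≤ |mn (ar (fun x => x) D) ρ s| := by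
    by_contra hcon
    exact hb ⟨hR, hcon⟩
  have h4 : E ^ r ≤ |mn (ar (fun x => x) D) ρ s| := by
    obtain ⟨ρ', s', h5⟩ := hR.1
    exact h5.trans (h3 ρ' s')
  have hne : mn (ar (fun x => x) D) ρ s ≠ 0 := by
    intro h5
    rw [h5, abs_zero] at h4
    have := pow_pos hE r
    linarith
  intro l
  obtain ⟨f, hf⟩ : ∃ f, f = cf (ar (fun x => x) D) ρ s (D j l) := ⟨_, rfl⟩
  have hc1 : ∀ b, |f b| ≤ 1 := by
    intro b
    rw [hf]
    exact cf_le (ar (fun x => x) D) hne (t := (j, l)) (fun b => h3 _ _) b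
  refine ⟨fun i l' => ∑ b : Fin r, if s b = (i, l') then f b else 0, fun i l' => ?_,
    fun l' => ?_, fun a => ?_⟩
  · refine (Finset.abs_sum_le_sum_abs _ _).trans ?_
    calc ∑ b : Fin r, |if s b = (i, l') then f b else 0| ≤ ∑ _b : Fin r, (1 : ℝ) := by
          refine Finset.sum_le_sum fun b _ => ?_
          split_ifs
          · exact hc1 b
          · rw [abs_zero]
            exact zero_le_one
      _ = r := by
          rw [Finset.sum_const, Finset.card_univ, Fintype.card_fin, nsmul_eq_mul, mul_one]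
      _ ≤ m := by exact_mod_cast hr
  · refine Finset.sum_eq_zero fun b _ => ?_
    rw [if_neg]
    intro h5
    exact h2 b (by rw [h5])
  · have e1 : ∑ i, ∑ l', (∑ b : Fin r, if s b = (i, l') then f b else 0) * D i l' a =
        ∑ b, f b * D (s b).1 (s b).2 a := by
      have e2 : ∀ i l', (∑ b : Fin r, if s b = (i, l') then f b else 0) * D i l' a =
          ∑ b, if s b = (i, l') then f b * D i l' a else 0 := by
        intro i l'
        rw [Finset.sum_mul]
        exact Finset.sum_congr rfl fun b _ => by split_ifs <;> simp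
      rw [Finset.sum_congr rfl fun i _ => Finset.sum_congr rfl fun l' _ => e2 i l']
      rw [← Fintype.sum_prod_type' (f := fun (i : Fin (k + 1)) (l : Fin J) =>
        ∑ b, if s b = (i, l) then f b * D i l a else 0), Finset.sum_comm]
      refine Finset.sum_congr rfl fun b _ => ?_
      rw [Finset.sum_eq_single (s b)]
      · rw [if_pos rfl]
      · intro y _ hy
        rw [if_neg]
        intro h1
        exact hy h1.symm
      · intro h1
        exact absurd (Finset.mem_univ _) h1
    rw [e1]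
    obtain ⟨ρ', s', h5⟩ := cf_err (ar (fun x => x) D) hne (j, l) a
    have h6 : |D j l a - ∑ b, f b * D (s b).1 (s b).2 a| =
        |mn (ar (fun x => x) D) ρ' s'| / |mn (ar (fun x => x) D) ρ s| := by
      rw [← h5, hf]
      rfl
    rw [h6]
    have h7 := (hR.2 ρ' s').le
    have h8 : (0 : ℝ) < E ^ r := pow_pos hE r
    calc |mn (ar (fun x => x) D) ρ' s'| / |mn (ar (fun x => x) D) ρ s| ≤ E ^ (r + 1) / E ^ r :=
          div_le_div₀ (pow_pos hE _).le h7 h8 h4
      _ = E := by
          rw [pow_succ]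
          field_simp

open Classical in
/-- At most `m` samples are exceptional. -/
theorem Sp_card {E : ℝ} (hE : 0 < E) (D : Fin (k + 1) → Fin J → Fin m → ℝ) :
    (univ.filter fun j => ¬Sp E D j).card ≤ m := by
  obtain ⟨r, hr, hR⟩ := exists_Rk (ar (fun x => x) D) (ε := fun r => E ^ r) (pow_zero E)
    (fun r => pow_pos hE r)
  refine (Finset.card_le_card ?_).trans ((Bd_card (fun x => x) (fun r => E ^ r) r D).trans hr)
  intro j hj
  rw [Finset.mem_filter] at hj ⊢
  refine ⟨hj.1, ?_⟩
  by_contra hcon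
  exact hj.2 (Sp_of hE hr hR hcon)

end

section

variable {Ω 𝒳 : Type} [Fintype Ω] {J m : ℕ} {p : Ω → ℝ}

/-- **The own vectors are combinations of those of the mates**, relative to a reference sample. -/
theorem own_span (hp : IsLaw p) (X : Ω → 𝒳) (d : Ω → Ω → Fin J → Fin m → ℝ) {E : ℝ}
    (hE : 0 < E) (k : ℕ) :
    Pb (tup p X (k + 1)) (fun v => ¬Sp E (fun i : Fin (k + 1) =>
      d (v (Fin.last (k + 1))) (v i.castSucc)) 0) ≤ m / (k + 1) := by
  classical
  have t0 := tup_nonneg hp.nonneg X (k + 1)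
  have tL := tup_isLaw hp X (k + 1)
  obtain ⟨D, hD⟩ : ∃ D : (Fin (k + 1 + 1) → Ω) → Fin (k + 1) → Fin J → Fin m → ℝ,
    D = fun v i => d (v (Fin.last (k + 1))) (v i.castSucc) := ⟨_, rfl⟩
  have h1 : ∀ j : Fin (k + 1), Pb (tup p X (k + 1)) (fun v => ¬Sp E (D v) j) =
      Pb (tup p X (k + 1)) (fun v => ¬Sp E (D v) 0) := by
    intro j
    rw [← pb_map (tup_perm hp.nonneg X (N := k + 1) (Equiv.swap (Fin.castSucc 0) (Fin.castSucc j)))
      (fun v => ¬Sp E (D v) 0)]
    congr 1
    funext v
    have e1 : D (v ∘ Equiv.swap (Fin.castSucc 0) (Fin.castSucc j)) =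
        fun i => D v (Equiv.swap 0 j i) := by
      rw [hD]
      funext i
      simp only [Function.comp_apply]
      have e2 : Equiv.swap (Fin.castSucc (0 : Fin (k + 1))) (Fin.castSucc j)
          (Fin.last (k + 1)) = Fin.last (k + 1) := by
        refine Equiv.swap_apply_of_ne_of_ne ?_ ?_
        · exact (Fin.castSucc_lt_last _).ne'
        · exact (Fin.castSucc_lt_last _).ne'
      have e3 : Equiv.swap (Fin.castSucc (0 : Fin (k + 1))) (Fin.castSucc j) i.castSucc =
          (Equiv.swap 0 j i).castSucc := by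
        by_cases h0 : i = 0
        · rw [h0, Equiv.swap_apply_left, Equiv.swap_apply_left]
        · by_cases hj : i = j
          · rw [hj, Equiv.swap_apply_right, Equiv.swap_apply_right]
          · rw [Equiv.swap_apply_of_ne_of_ne h0 hj, Equiv.swap_apply_of_ne_of_ne]
            · intro h
              exact h0 (Fin.castSucc_injective _ h)
            · intro h
              exact hj (Fin.castSucc_injective _ h)
      rw [e2, e3]
    refine propext (not_congr ?_)
    rw [e1, Sp_perm E (D v) (Equiv.swap 0 j) 0, Equiv.swap_apply_left]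
  have h2 : ∑ j : Fin (k + 1), Pb (tup p X (k + 1)) (fun v => ¬Sp E (D v) j) ≤ m := by
    unfold Pb
    rw [Finset.sum_comm]
    refine (Finset.sum_le_sum (g := fun v => (m : ℝ) * tup p X (k + 1) v) fun v _ => ?_).trans ?_
    · have h3 : ((univ.filter fun j => ¬Sp E (D v) j).card : ℝ) ≤ m := by
        exact_mod_cast Sp_card hE (D v)
      have h4 := mul_le_mul_of_nonneg_right h3 (t0 v)
      rw [← nsmul_eq_mul, ← Finset.sum_const, Finset.sum_filter] at h4
      refine le_trans (le_of_eq ?_) h4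
      exact Finset.sum_congr rfl fun j _ => by split_ifs <;> rfl
    · rw [← Finset.mul_sum, tL.sum_one, mul_one]
  rw [Finset.sum_congr rfl fun j _ => h1 j, Finset.sum_const, Finset.card_univ,
    Fintype.card_fin, nsmul_eq_mul] at h2
  rw [le_div_iff₀ (by positivity)]
  push_cast at h2
  rw [hD] at h2
  linarith

end

end Pool.MSD
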