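import Pool.Agent.H38.MSD.Fld

/-!
# LEMMA MSD: the theorem for bodies

`κ` is the size of the block in nats.
-/

set_option autoImplicit false

namespace Pool.MSD

open Matrix Finset Real
open Pool.Agent.H49.Ent Pool.Agent.H32.Dense Pool.FAD

section

variable {W : Type} [Fintype W] {q : W → ℝ}

theorem Pq_compl (h1 : ∑ w, q w = 1) (A : W → Prop) : Pq q A + Pq q (fun w => ¬A w) = 1 := by
  classical
  rw [Pq_eq, Pq_eq, ← Ex_add]
  refine Eq.trans ?_ (Ex_const h1 1)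
  unfold Ex
  refine Finset.sum_congr rfl fun w _ => ?_
  by_cases h : A w <;> simp [h]

end

/-- The body form of the conclusion. -/
structure Fld {Ω Q₀ γ Λ : Type} [Fintype Ω] {n : ℕ} (p : Ω → ℝ) (P : Ω → Q₀) (g : Q₀ → γ)
    (ν : Q₀ → Fin n → ℝ) (T : Matrix (Fin n) (Fin n) ℝ) (L : Ω → Λ) (ε M c c' θ κ : ℝ)
    (Vs : Q₀ → Matrix (Fin n) (Fin n) ℝ) : Prop where
  nz : ∀ x, (Vs x).det ≠ 0
  inc : ∀ x, Inc c' T (Vs x)
  /-- the field is the same at two points of a line -/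
  con : Pq (glue p p L L) (fun w => ¬Inc (Real.exp (ε * κ)) (Vs (P w.2)) (Vs (P w.1))) ≤ ε
  /-- the field contains every datum -/
  dat : ∀ D : Dtm p P g ν T (θ * κ) c,
    Pq D.κ (fun w => ¬Inc (Real.exp (ε * κ)) (D.V w) (Vs (D.Pt w))) ≤ ε
  /-- the field is small if the height is not full -/
  vol : ∀ c₁, 0 < c₁ → CH p (fun ω => cl T (ν (P ω))) (fun ω => g (P ω)) + lv T ≤ -(c₁ * κ) →
    -lv T ≤ M * κ → c₁ / (2 * M) - ε ≤ Pq p (fun ω => lv (Vs (P ω)) ≤ -((c₁ / 2 - ε) * κ))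
  /-- the height is full in the field -/
  max : ∃ D : Dtm p P g ν T (ε * κ) c',
    Pq D.κ (fun w => ¬Inc (Real.exp (ε * κ)) (Vs (D.Pt w)) (D.V w)) ≤ ε

/-- **LEMMA MSD for bodies.** -/
theorem msd_body (n : ℕ) {ε M c e : ℝ} (hε : 0 < ε) (hε1 : ε ≤ 1) (hM : 1 ≤ M) (hc : 1 ≤ c)
    (he : 0 ≤ e) : ∃ θ κ₀ c', 0 < θ ∧ 0 < κ₀ ∧ 0 < c' ∧ ∀ κ, κ₀ ≤ κ →
    ∀ {Ω Q₀ γ Λ β υ : Type} [Fintype Ω] {p : Ω → ℝ} {P : Ω → Q₀} {g : Q₀ → γ}
      {ν : Q₀ → Fin n → ℝ} {T : Matrix (Fin n) (Fin n) ℝ} {L : Ω → Λ} {b : γ → β} {U : Λ → υ}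
      {Z : υ → γ → γ → Fin n → ℝ} {a₀ : ℝ}, Lin p P g ν T L b U Z a₀ e → T.det ≠ 0 →
      0 ≤ a₀ → a₀ ≤ θ * κ → CH p (fun ω => cl T (ν (P ω))) (fun ω => g (P ω)) ≤ M * κ →
      ∃ Vs : Q₀ → Matrix (Fin n) (Fin n) ℝ, Fld p P g ν T L ε M c c' θ κ Vs := by
  have hn0 : (0 : ℝ) ≤ n := Nat.cast_nonneg n
  have hc0 : 0 ≤ c := by linarith
  obtain ⟨ρ, hρ⟩ : ∃ ρ : ℝ, ρ = ε ^ 2 / (30 * (n + 1)) := ⟨_, rfl⟩
  have hρ0 : 0 < ρ := by
    rw [hρ]
    positivity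
  have hρε : ρ ≤ ε / 30 := by
    rw [hρ, div_le_div_iff₀ (by positivity) (by norm_num)]
    nlinarith [mul_le_mul_of_nonneg_left hε1 hε.le]
  obtain ⟨N, hN⟩ := exists_nat_gt (3 * M / ρ)
  have hNR : (0 : ℝ) < N := lt_trans (by positivity) hN
  have hN0 : 0 < N := by exact_mod_cast hNR
  obtain ⟨θ, hθ⟩ : ∃ θ : ℝ, θ = ρ / (18 * 6 ^ N) := ⟨_, rfl⟩
  have hθ0 : 0 < θ := by
    rw [hθ]
    positivity
  -- the constants
  obtain ⟨C₃, hC₃⟩ : ∃ C₃ : ℝ, C₃ = 2 * Ct n (cs n c N) e + Cp n (cs n c N) := ⟨_, rfl⟩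
  have hcN := cs_nonneg n hc0 N
  have hC₃0 : 0 ≤ C₃ := by
    rw [hC₃]
    have h1 := Ct_nonneg n hcN he
    have h2 := Cp_nonneg n hcN
    linarith
  have hCd := Cd_nonneg n hn0
  have hCd' := Cd_nonneg n hcN
  obtain ⟨K₁, hK₁⟩ : ∃ K₁ : ℝ, K₁ = Cv n * n + 1 := ⟨_, rfl⟩
  have hCv := Cv_nonneg n
  have hK₁1 : 1 ≤ K₁ := by
    rw [hK₁]
    have := mul_nonneg hCv hn0
    linarith
  have hlK : 0 ≤ Real.log K₁ := Real.log_nonneg hK₁1
  have hK2 : 0 ≤ Real.log ((n.factorial : ℝ) * (2 * K₁) ^ n) := by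
    refine Real.log_nonneg ?_
    have h1 : (1 : ℝ) ≤ n.factorial := by exact_mod_cast Nat.factorial_pos n
    have h2 : (1 : ℝ) ≤ (2 * K₁) ^ n := one_le_pow₀ (by linarith)
    nlinarith
  obtain ⟨κ₀, hκ₀⟩ : ∃ κ₀ : ℝ, κ₀ = C₃ / θ + 3 * (1 + Cd n n) / ρ + 6 * Real.log K₁ / ε +
    Cd n (cs n c N) / ε + 2 * Real.log ((n.factorial : ℝ) * (2 * K₁) ^ n) / ε + 1 := ⟨_, rfl⟩
  have p1 : 0 ≤ C₃ / θ := by positivity
  have p2 : 0 ≤ 3 * (1 + Cd n n) / ρ := by positivity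
  have p3 : 0 ≤ 6 * Real.log K₁ / ε := by positivity
  have p4 : 0 ≤ Cd n (cs n c N) / ε := by positivity
  have p5 : 0 ≤ 2 * Real.log ((n.factorial : ℝ) * (2 * K₁) ^ n) / ε := by positivity
  refine ⟨θ, κ₀, cs n c N + 1, hθ0, by rw [hκ₀]; linarith, by linarith, ?_⟩
  intro κ hκ Ω Q₀ γ Λ β υ _ p P g ν T L b U Z a₀ h hT ha0 ha0' hH
  have hκ0 : 0 < κ := lt_of_lt_of_le (by rw [hκ₀]; linarith) hκ
  have q1 : C₃ ≤ θ * κ := by
    have : C₃ / θ ≤ κ := le_trans (by rw [hκ₀]; linarith) hκ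
    rwa [div_le_iff₀' hθ0] at this
  have q2 : 3 * (1 + Cd n n) ≤ ρ * κ := by
    have : 3 * (1 + Cd n n) / ρ ≤ κ := le_trans (by rw [hκ₀]; linarith) hκ
    rwa [div_le_iff₀' hρ0] at this
  have q3 : 6 * Real.log K₁ ≤ ε * κ := by
    have : 6 * Real.log K₁ / ε ≤ κ := le_trans (by rw [hκ₀]; linarith) hκ
    rwa [div_le_iff₀' hε] at this
  have q4 : Cd n (cs n c N) ≤ ε * κ := by
    have : Cd n (cs n c N) / ε ≤ κ := le_trans (by rw [hκ₀]; linarith) hκ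
    rwa [div_le_iff₀' hε] at this
  have q5 : 2 * Real.log ((n.factorial : ℝ) * (2 * K₁) ^ n) ≤ ε * κ := by
    have : 2 * Real.log ((n.factorial : ℝ) * (2 * K₁) ^ n) / ε ≤ κ :=
      le_trans (by rw [hκ₀]; linarith) hκ
    rwa [div_le_iff₀' hε] at this
  have hθκ : 0 < θ * κ := mul_pos hθ0 hκ0
  have hερ : 0 < ρ * κ := mul_pos hρ0 hκ0
  have hεκ : 0 < ε * κ := mul_pos hε hκ0
  -- the last level
  have hAN : As n (θ * κ) a₀ c e N ≤ ρ * κ / 3 := by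
    have h1 := As_le (a := θ * κ) ha0 hc0 he N (B := 5 * (θ * κ)) (by linarith) N le_rfl
    have h2 : (6 : ℝ) ^ N * (θ * κ + 5 * (θ * κ)) = ρ * κ / 3 := by
      rw [hθ]
      have : (6 : ℝ) ^ N ≠ 0 := by positivity
      field_simp
      ring
    linarith
  have hAN0 := As_nonneg (n := n) hθκ.le ha0 hc0 he N
  obtain ⟨t, ht⟩ : ∃ t : ℝ, t = ε * κ / (6 * (n + 1)) := ⟨_, rfl⟩
  have ht0 : 0 < t := by
    rw [ht]
    positivity
  have ht6 : 6 * t ≤ ε * κ := by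
    rw [ht, ← mul_div_assoc, div_le_iff₀ (by positivity)]
    nlinarith [mul_nonneg hn0 hεκ.le]
  have hnt : n * t ≤ ε * κ / 6 := by
    rw [ht, ← mul_div_assoc, div_le_div_iff₀ (by positivity) (by norm_num)]
    nlinarith [mul_nonneg hn0 hεκ.le]
  obtain ⟨H₀, hH₀⟩ : ∃ H₀, H₀ = CH p (fun ω => cl T (ν (P ω))) (fun ω => g (P ω)) := ⟨_, rfl⟩
  rw [← hH₀] at hH
  have hH₀0 : 0 ≤ H₀ := by
    rw [hH₀]
    exact CH_nonneg h.p0 _ _
  obtain ⟨Vs, v1, v2, v3, v4, v5, v6⟩ := msd_core h hT he hθκ.le ha0 hc hN0 ht0 hH₀.ge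
  -- the deficit of containment
  have hdl : dl n (θ * κ) a₀ c e N H₀ t ≤ ε / 5 := by
    unfold dl
    rw [div_le_iff₀ (by linarith)]
    have h1 : (As n (θ * κ) a₀ c e N + H₀) / N ≤ ρ * κ / 3 + ρ * κ / 3 := by
      rw [div_le_iff₀ hNR]
      have h2 : 3 * M < ρ * N := by
        have := hN
        rwa [div_lt_iff₀' hρ0] at this
      have h3 : (1 : ℝ) ≤ N := by exact_mod_cast hN0
      have h4 : 3 * (M * κ) ≤ ρ * κ * N := by nlinarith
      have h5 : ρ * κ ≤ ρ * κ * N := by nlinarith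
      linarith
    have h2 : ρ * κ = ε / 5 * t := by
      rw [hρ, ht]
      field_simp
      ring
    have h3 : 0 ≤ ε / 5 * Cd n n := by positivity
    have h4 : ε / 5 * (t + Cd n n) = ε / 5 * t + ε / 5 * Cd n n := by ring
    rw [h4]
    linarith
  -- the factors
  have hMt1 : Mt n t ≤ K₁ * Real.exp t := by
    unfold Mt
    rw [hK₁]
    have := Real.exp_pos t
    nlinarith
  have hMt0 := Mt_nonneg n t
  have hX1 : 1 ≤ K₁ * Real.exp t := by
    have : 1 ≤ Real.exp t := Real.one_le_exp ht0.le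
    nlinarith
  have hX : K₁ * Real.exp t * (K₁ * Real.exp t * (K₁ * Real.exp t)) ≤ Real.exp (ε * κ) := by
    have e1 : K₁ * Real.exp t = Real.exp (Real.log K₁ + t) := by
      rw [Real.exp_add, Real.exp_log (by linarith)]
    rw [e1, ← Real.exp_add, ← Real.exp_add]
    refine Real.exp_le_exp.2 ?_
    linarith
  have hM2 : Mt n t * Mt n t ≤ K₁ * Real.exp t * (K₁ * Real.exp t) :=
    mul_le_mul hMt1 hMt1 hMt0 (by linarith)
  have hM3 : Mt n t * (Mt n t * Mt n t) ≤ Real.exp (ε * κ) :=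
    (mul_le_mul hMt1 hM2 (mul_nonneg hMt0 hMt0) (by linarith)).trans hX
  have hM2' : Mt n t * Mt n t ≤ Real.exp (ε * κ) := by
    refine (hM2.trans ?_).trans hX
    have : 0 ≤ K₁ * Real.exp t * (K₁ * Real.exp t) := by positivity
    nlinarith
  refine ⟨Vs, v1, fun x => (v2 x).mono (by linarith), ?_, fun D => ?_, fun c₁ hc₁ w1 w2 => ?_, ?_⟩
  · refine (Pq_mono (fun w => glue_nonneg h.p0 h.p0 w) fun w _ k => ?_).trans
      (v3.trans (by linarith))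
    exact fun k' => k (k'.mono hM3)
  · refine (Pq_mono D.k0 fun w _ k => ?_).trans ((v4 D).trans (by linarith))
    exact fun k' => k (k'.mono hM2')
  · rw [← hH₀] at w1
    by_cases hsm : c₁ / (2 * M) ≤ ε
    · have := Pq_nonneg h.p0 (fun ω => lv (Vs (P ω)) ≤ -((c₁ / 2 - ε) * κ))
      linarith
    have hM0 : 0 < M := by linarith
    have hc₁' : 2 * M * ε < c₁ := by
      rw [not_le, lt_div_iff₀ (by positivity)] at hsm
      linarith
    have hc₁κ : 0 < c₁ * κ := mul_pos hc₁ hκ0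
    have z1 := v5 (-(c₁ * κ / 2)) (by linarith)
    obtain ⟨A, hA⟩ : ∃ A, A = As n (θ * κ) a₀ c e N := ⟨_, rfl⟩
    obtain ⟨C, hC⟩ : ∃ C, C = Cd n (cs n c N) := ⟨_, rfl⟩
    rw [← hA] at z1 hAN hAN0
    rw [← hC] at z1 q4 hCd'
    have z2 : C ≤ c₁ * κ / 2 := by
      have h7 : 2 * M * ε * κ < c₁ * κ := mul_lt_mul_of_pos_right hc₁' hκ0
      have h7' : 1 * (ε * κ) ≤ M * (ε * κ) := mul_le_mul_of_nonneg_right hM hεκ.le
      linarith
    have z3 : (A + H₀ + C) / (-(c₁ * κ / 2) - lv T + C) ≤ 1 - c₁ / (2 * M) + ε / 4 := by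
      have d0 : 0 < -(c₁ * κ / 2) - lv T + C := by linarith
      rw [div_le_iff₀ d0]
      obtain ⟨Y, hY⟩ : ∃ Y, Y = -(c₁ * κ / 2) - lv T + C := ⟨_, rfl⟩
      rw [← hY] at d0 ⊢
      have d1 : Y ≤ M * κ := by linarith
      have d2 : A + H₀ + C ≤ A + Y - c₁ * κ / 2 := by linarith
      have d3 : c₁ / (2 * M) * Y ≤ c₁ * κ / 2 := by
        rw [div_mul_eq_mul_div, div_le_iff₀ (by positivity)]
        nlinarith
      have d4 : A ≤ ε / 4 * Y := by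
        have h6 : c₁ * κ / 2 ≤ Y := by linarith
        have h7 : 2 * M * ε * κ < c₁ * κ := mul_lt_mul_of_pos_right hc₁' hκ0
        have h7' : 1 * (ε * κ) ≤ M * (ε * κ) := mul_le_mul_of_nonneg_right hM hεκ.le
        have h8 : ε * κ ≤ Y := by linarith
        have h10 : ρ ≤ ε * ε / 30 := by
          rw [hρ, div_le_div_iff₀ (by positivity) (by norm_num)]
          have : 0 ≤ n * (ε * ε) := by positivity
          nlinarith
        have h11 : ρ * κ ≤ ε * ε / 30 * κ := mul_le_mul_of_nonneg_right h10 hκ0.le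
        have h12 : ε * (ε * κ) ≤ ε * Y := mul_le_mul_of_nonneg_left h8 hε.le
        have h13 : 0 ≤ ε * Y := by positivity
        have h14 : ε * ε / 30 * κ = ε * (ε * κ) / 30 := by ring
        have h15 : ε / 4 * Y = ε * Y / 4 := by ring
        linarith
      have h16 : (1 - c₁ / (2 * M) + ε / 4) * Y = Y - c₁ / (2 * M) * Y + ε / 4 * Y := by ring
      rw [h16]
      linarith
    have z4 := Pq_compl h.p1 (fun ω => -(c₁ * κ / 2) + Cd n (Mt n t) < lv (Vs (P ω)))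
    have z5 : Pq p (fun ω => ¬(-(c₁ * κ / 2) + Cd n (Mt n t) < lv (Vs (P ω)))) ≤
        Pq p (fun ω => lv (Vs (P ω)) ≤ -((c₁ / 2 - ε) * κ)) := by
      refine Pq_mono h.p0 fun ω _ k => ?_
      rw [not_lt] at k
      have z6 : Cd n (Mt n t) ≤ ε * κ := by
        have e1 : (0 : ℝ) < n.factorial := by exact_mod_cast Nat.factorial_pos n
        have e2 : Mt n t + 1 ≤ 2 * K₁ * Real.exp t := by linarith
        have e3 : (Mt n t + 1) ^ n ≤ (2 * K₁ * Real.exp t) ^ n :=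
          pow_le_pow_left₀ (by linarith) e2 n
        have e4 : Cd n (Mt n t) ≤ Real.log ((n.factorial : ℝ) * (2 * K₁ * Real.exp t) ^ n) := by
          unfold Cd
          exact Real.log_le_log (by positivity) (mul_le_mul_of_nonneg_left e3 e1.le)
        have e5 : (n.factorial : ℝ) * (2 * K₁ * Real.exp t) ^ n =
            (n.factorial : ℝ) * (2 * K₁) ^ n * Real.exp (n * t) := by
          rw [mul_pow, ← Real.exp_nat_mul]
          ring
        rw [e5, Real.log_mul (by positivity) (Real.exp_pos _).ne', Real.log_exp] at e4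
        linarith
      have : (c₁ / 2 - ε) * κ = c₁ * κ / 2 - ε * κ := by ring
      linarith
    linarith
  · obtain ⟨D, hD⟩ := v6
    have m1 : Mt n t ≤ Real.exp (ε * κ) := by
      have e1 : K₁ * Real.exp t ≤ K₁ * Real.exp t * (K₁ * Real.exp t * (K₁ * Real.exp t)) := by
        have : 1 ≤ K₁ * Real.exp t * (K₁ * Real.exp t) := by nlinarith
        nlinarith
      exact (hMt1.trans e1).trans hX
    refine ⟨D.mono ?_ (by linarith), ?_⟩
    · have : ρ * κ ≤ ε / 30 * κ := mul_le_mul_of_nonneg_right hρε hκ0.le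
      linarith
    · refine (Pq_mono D.k0 fun w _ k => ?_).trans (hD.trans (by linarith))
      exact fun k' => k (k'.mono m1)

end Pool.MSD
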