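import Pool.Agent.H38.MSD.Dat

/-!
# LEMMA MSD: the transport of a datum along the line

`L` is the line. The heights of two points of one line differ by a function of `U` (a function of
the line) and of the contexts of the two points, up to the fine body `T`, and `U` has little
information about the height. A datum at the point `P'` of the line is a datum at the point `P`.
-/

set_option autoImplicit false

namespace Pool.MSD

open Matrix Finset Real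
open Pool.Agent.H49.Ent Pool.Agent.H32.Dense Pool.FAD

section

variable {Ω Q₀ γ Λ β υ : Type} [Fintype Ω] {n : ℕ}

/-- **The lines.** -/
structure Lin (p : Ω → ℝ) (P : Ω → Q₀) (g : Q₀ → γ) (ν : Q₀ → Fin n → ℝ)
    (T : Matrix (Fin n) (Fin n) ℝ) (L : Ω → Λ) (b : γ → β) (U : Λ → υ)
    (Z : υ → γ → γ → Fin n → ℝ) (a₀ e : ℝ) : Prop where
  p0 : ∀ ω, 0 ≤ p ω
  p1 : ∑ ω, p ω = 1
  bL : Det p L (fun ω => b (g (P ω)))
  h0 : CH p (fun ω => g (P ω)) (fun ω => b (g (P ω))) - CH p (fun ω => g (P ω)) L ≤ a₀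
  h1 : CH p (fun ω => ν (P ω)) (fun ω => g (P ω)) -
    CH p (fun ω => ν (P ω)) (fun ω => (U (L ω), g (P ω))) ≤ a₀
  tr : ∀ ω ω', 0 < p ω → 0 < p ω' → L ω = L ω' → ∀ i,
    |(T⁻¹ *ᵥ (ν (P ω') - ν (P ω) - Z (U (L ω)) (g (P ω)) (g (P ω')))) i| ≤ e

variable {p : Ω → ℝ} {P : Ω → Q₀} {g : Q₀ → γ} {ν : Q₀ → Fin n → ℝ}
  {T : Matrix (Fin n) (Fin n) ℝ} {L : Ω → Λ} {b : γ → β} {U : Λ → υ}
  {Z : υ → γ → γ → Fin n → ℝ} {a₀ e a a' c : ℝ}

/-- The datum attached to the sample. -/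
noncomputable def q2 (D : Dtm p P g ν T a c) : Ω × D.W → ℝ := glue p D.κ P D.Pt

/-- A sample on the line of a sample with datum. -/
noncomputable def q3 (L : Ω → Λ) (D : Dtm p P g ν T a c) : Ω × (Ω × D.W) → ℝ :=
  glue p (q2 D) L (fun w => L w.1)

theorem q2_eq (D : Dtm p P g ν T a c) (z : Q₀) : law p P z = law D.κ D.Pt z := (D.lw z).symm

theorem q2_nonneg (p0 : ∀ ω, 0 ≤ p ω) (D : Dtm p P g ν T a c) (w : Ω × D.W) : 0 ≤ q2 D w :=
  glue_nonneg p0 D.k0 w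

theorem q2_sum (p0 : ∀ ω, 0 ≤ p ω) (p1 : ∑ ω, p ω = 1) (D : Dtm p P g ν T a c) :
    ∑ w, q2 D w = 1 := by
  unfold q2
  rw [sum_glue p0 (q2_eq D), p1]

theorem q3_eq (p0 : ∀ ω, 0 ≤ p ω) (L : Ω → Λ) (D : Dtm p P g ν T a c) (z : Λ) :
    law p L z = law (q2 D) (fun w => L w.1) z := by
  unfold q2
  rw [law_glue_fst p0 (q2_eq D) L z]

theorem q3_nonneg (p0 : ∀ ω, 0 ≤ p ω) (L : Ω → Λ) (D : Dtm p P g ν T a c)
    (w : Ω × (Ω × D.W)) : 0 ≤ q3 L D w := glue_nonneg p0 (q2_nonneg p0 D) w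

theorem q3_sum (p0 : ∀ ω, 0 ≤ p ω) (p1 : ∑ ω, p ω = 1) (L : Ω → Λ) (D : Dtm p P g ν T a c) :
    ∑ w, q3 L D w = 1 := by
  unfold q3
  rw [sum_glue p0 (q3_eq p0 L D), p1]

theorem q3_pos (p0 : ∀ ω, 0 ≤ p ω) (L : Ω → Λ) (D : Dtm p P g ν T a c) {w : Ω × (Ω × D.W)}
    (h : 0 < q3 L D w) : 0 < p w.1 ∧ 0 < p w.2.1 ∧ 0 < D.κ w.2.2 ∧ L w.1 = L w.2.1 ∧
      P w.2.1 = D.Pt w.2.2 := by
  obtain ⟨h1, h2, h3⟩ := (glue_pos_iff p0 (q2_nonneg p0 D) w).1 h
  obtain ⟨h4, h5, h6⟩ := (glue_pos_iff p0 D.k0 w.2).1 h2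
  exact ⟨h1, h4, h5, h3, h6⟩

/-- Entropies of the sample with datum. -/
theorem CH_q3_snd (p0 : ∀ ω, 0 ≤ p ω) (L : Ω → Λ) (D : Dtm p P g ν T a c) {A B : Type}
    (X : Ω × D.W → A) (Y : Ω × D.W → B) :
    CH (q3 L D) (fun w => X w.2) (fun w => Y w.2) = CH (q2 D) X Y :=
  CH_glue_snd (q2_nonneg p0 D) (q3_eq p0 L D) X Y

theorem CH_q2_fst (p0 : ∀ ω, 0 ≤ p ω) (D : Dtm p P g ν T a c) {A B : Type} (X : Ω → A)
    (Y : Ω → B) : CH (q2 D) (fun w => X w.1) (fun w => Y w.1) = CH p X Y :=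
  CH_glue_fst p0 (q2_eq D) X Y

theorem CH_q2_snd (D : Dtm p P g ν T a c) {A B : Type} (X : D.W → A) (Y : D.W → B) :
    CH (q2 D) (fun w => X w.2) (fun w => Y w.2) = CH D.κ X Y :=
  CH_glue_snd D.k0 (q2_eq D) X Y

theorem CH_q3_fst (p0 : ∀ ω, 0 ≤ p ω) (L : Ω → Λ) (D : Dtm p P g ν T a c) {A B : Type}
    (X : Ω → A) (Y : Ω → B) : CH (q3 L D) (fun w => X w.1) (fun w => Y w.1) = CH p X Y :=
  CH_glue_fst p0 (q3_eq p0 L D) X Y

/-- Given the line, the first sample is independent of the second one with its datum. -/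
theorem q3_ci (p0 : ∀ ω, 0 ≤ p ω) (L : Ω → Λ) (D : Dtm p P g ν T a c) {A B : Type}
    (X : Ω → A) (Y : Ω × D.W → B) :
    CH (q3 L D) (fun w => X w.1) (fun w => (Y w.2, L w.1)) =
      CH (q3 L D) (fun w => X w.1) (fun w => L w.1) := by
  have h := glue_ci p0 (q2_nonneg p0 D) (q3_eq p0 L D) X Y
  have e : H (q3 L D) (fun w => (X w.1, (Y w.2, L w.1))) =
      H (q3 L D) (fun w => ((X w.1, Y w.2), L w.1)) := by
    refine H_congr (q3_nonneg p0 L D) ?_ ?_ <;>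
    · intro ω ω' _ _ h
      simp only [Prod.mk.injEq] at h ⊢
      tauto
  unfold CH
  unfold q3 at e ⊢
  rw [e]
  linarith

theorem q3_ci' (p0 : ∀ ω, 0 ≤ p ω) (L : Ω → Λ) (D : Dtm p P g ν T a c) {A B : Type}
    (X : Ω → A) (Y : Ω × D.W → B) :
    CH (q3 L D) (fun w => Y w.2) (fun w => (X w.1, L w.1)) =
      CH (q3 L D) (fun w => Y w.2) (fun w => L w.1) := by
  have h := glue_ci p0 (q2_nonneg p0 D) (q3_eq p0 L D) X Y
  have e : H (q3 L D) (fun w => (Y w.2, (X w.1, L w.1))) =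
      H (q3 L D) (fun w => ((X w.1, Y w.2), L w.1)) := by
    refine H_congr (q3_nonneg p0 L D) ?_ ?_ <;>
    · intro ω ω' _ _ h
      simp only [Prod.mk.injEq] at h ⊢
      tauto
  unfold CH
  unfold q3 at e ⊢
  rw [e]
  linarith

/-- Given the point, the value is independent of the sample. -/
theorem q2_ci (p0 : ∀ ω, 0 ≤ p ω) (D : Dtm p P g ν T a c) {A : Type} (X : Ω → A) :
    CH (q2 D) (fun w => D.R w.2) (fun w => (X w.1, P w.1)) =
      CH (q2 D) (fun w => D.R w.2) (fun w => P w.1) := by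
  have h := glue_ci p0 D.k0 (q2_eq D) X D.R
  have e : H (q2 D) (fun w => (D.R w.2, (X w.1, P w.1))) =
      H (q2 D) (fun w => ((X w.1, D.R w.2), P w.1)) := by
    refine H_congr (q2_nonneg p0 D) ?_ ?_ <;>
    · intro ω ω' _ _ h
      simp only [Prod.mk.injEq] at h ⊢
      tauto
  unfold CH
  unfold q2 at e ⊢
  rw [e]
  linarith

/-- The information of the value in the joint law. -/
theorem q2_inf (p0 : ∀ ω, 0 ≤ p ω) (D : Dtm p P g ν T a c) :
    CH (q2 D) (fun w => D.R w.2) (fun w => g (P w.1)) -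
      CH (q2 D) (fun w => D.R w.2) (fun w => P w.1) ≤ a := by
  have h := D.inf
  rw [Inf_eq D.k0 D.Pt D.R (fun w => g (D.Pt w)) (fun _ _ _ _ h => congrArg g h)] at h
  have e : ∀ w, 0 < q2 D w → P w.1 = D.Pt w.2 := fun w hw =>
    ((glue_pos_iff p0 D.k0 w).1 hw).2.2
  rw [CH_supp (q2_nonneg p0 D) (X' := fun w => D.R w.2) (Y' := fun w => g (D.Pt w.2))
      (fun _ _ => rfl) (fun w hw => by simp only [e w hw]),
    CH_supp (q2_nonneg p0 D) (X' := fun w => D.R w.2) (Y' := fun w => D.Pt w.2)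
      (fun _ _ => rfl) e, CH_q2_snd D D.R (fun w => g (D.Pt w)), CH_q2_snd D D.R D.Pt]
  exact h

/-- The information of the transported value. -/
theorem tr_inf (h : Lin p P g ν T L b U Z a₀ e) (D : Dtm p P g ν T a c) :
    Inf (q3 L D) (fun w => P w.1) (fun w => (g (P w.2.1), D.R w.2.2))
      (fun w => g (P w.1)) ≤ a₀ + a := by
  have n3 := q3_nonneg h.p0 L D
  have n2 := q2_nonneg h.p0 D
  rw [Inf_eq n3 _ _ _ (fun _ _ _ _ h => congrArg g h)]
  -- `b` at the two samples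
  have eb : ∀ w, 0 < q3 L D w → b (g (P w.1)) = b (g (P w.2.1)) := fun w hw => by
    obtain ⟨k1, k2, _, k4, _⟩ := q3_pos h.p0 L D hw
    exact h.bL w.1 w.2.1 k1 k2 k4
  have eL : ∀ w, 0 < q3 L D w → L w.1 = L w.2.1 := fun w hw => (q3_pos h.p0 L D hw).2.2.2.1
  have s1 : CH (q3 L D) (fun w => (g (P w.2.1), D.R w.2.2)) (fun w => g (P w.1)) ≤
      CH (q3 L D) (fun w => (g (P w.2.1), D.R w.2.2)) (fun w => b (g (P w.1))) :=
    CH_mono_cond n3 fun _ _ _ _ k => congrArg b k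
  have s2 : CH (q3 L D) (fun w => (g (P w.2.1), D.R w.2.2)) (fun w => (P w.1, L w.1)) ≤
      CH (q3 L D) (fun w => (g (P w.2.1), D.R w.2.2)) (fun w => P w.1) :=
    CH_mono_cond n3 fun _ _ _ _ k => (Prod.ext_iff.mp k).1
  rw [q3_ci' h.p0 L D P (fun w => (g (P w.1), D.R w.2))] at s2
  have s3 : CH (q3 L D) (fun w => (g (P w.2.1), D.R w.2.2)) (fun w => b (g (P w.1))) =
      CH (q2 D) (fun w => (g (P w.1), D.R w.2)) (fun w => b (g (P w.1))) := by
    rw [← CH_q3_snd h.p0 L D (fun w => (g (P w.1), D.R w.2)) (fun w => b (g (P w.1)))]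
    exact CH_supp n3 (fun _ _ => rfl) eb
  have s4 : CH (q3 L D) (fun w => (g (P w.2.1), D.R w.2.2)) (fun w => L w.1) =
      CH (q2 D) (fun w => (g (P w.1), D.R w.2)) (fun w => L w.1) := by
    rw [← CH_q3_snd h.p0 L D (fun w => (g (P w.1), D.R w.2)) (fun w => L w.1)]
    exact CH_supp n3 (fun _ _ => rfl) eL
  -- chain rules on `q2`
  have s5 := CH_chain n2 (fun w => D.R w.2) (fun w => g (P w.1)) (fun w => b (g (P w.1)))
  have s6 := CH_chain n2 (fun w => D.R w.2) (fun w => g (P w.1)) (fun w => L w.1)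
  have s7 : CH (q2 D) (fun w => (g (P w.1), D.R w.2)) (fun w => b (g (P w.1))) =
      CH (q2 D) (fun w => (D.R w.2, g (P w.1))) (fun w => b (g (P w.1))) := by
    refine CH_congr n2 ?_ ?_ ?_ ?_ <;>
    · intro ω ω' _ _ h
      simp only [Prod.mk.injEq] at h ⊢
      tauto
  have s8 : CH (q2 D) (fun w => (g (P w.1), D.R w.2)) (fun w => L w.1) =
      CH (q2 D) (fun w => (D.R w.2, g (P w.1))) (fun w => L w.1) := by
    refine CH_congr n2 ?_ ?_ ?_ ?_ <;>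
    · intro ω ω' _ _ h
      simp only [Prod.mk.injEq] at h ⊢
      tauto
  have s9 : CH (q2 D) (fun w => D.R w.2) (fun w => (g (P w.1), b (g (P w.1)))) ≤
      CH (q2 D) (fun w => D.R w.2) (fun w => g (P w.1)) :=
    CH_mono_cond n2 fun _ _ _ _ k => (Prod.ext_iff.mp k).1
  have s10 : CH (q2 D) (fun w => D.R w.2) (fun w => (L w.1, P w.1)) ≤
      CH (q2 D) (fun w => D.R w.2) (fun w => (g (P w.1), L w.1)) :=
    CH_mono_cond n2 fun w w' _ _ k => by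
      have k1 := Prod.ext_iff.mp k
      exact Prod.ext (congrArg g k1.2) k1.1
  rw [q2_ci h.p0 D L] at s10
  have s11 := q2_inf h.p0 D
  have s12 := h.h0
  have s13 := CH_q2_fst h.p0 D (fun ω => g (P ω)) (fun ω => b (g (P ω)))
  have s14 := CH_q2_fst h.p0 D (fun ω => g (P ω)) L
  linarith

end

end Pool.MSD
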