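import Pool.Agent.H38.MSD.Tra

/-!
# LEMMA MSD: the deficit of the transported datum
-/

set_option autoImplicit false

namespace Pool.MSD

open Matrix Finset Real
open Pool.Agent.H49.Ent Pool.Agent.H32.Dense Pool.FAD

/-- The constant of the comparison of the cells of two points. -/
noncomputable def Ct (n : ℕ) (c e : ℝ) : ℝ :=
  n * Real.log (2 * (2 + 2 * (c * e)) + 1) + n * Real.log (2 * (2 + 2 * e) + 1)

theorem Ct_nonneg (n : ℕ) {c e : ℝ} (hc : 0 ≤ c) (he : 0 ≤ e) : 0 ≤ Ct n c e := by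
  have h1 : ∀ x : ℝ, 0 ≤ x → 0 ≤ (n : ℝ) * Real.log (2 * (2 + 2 * x) + 1) := fun x hx =>
    mul_nonneg (Nat.cast_nonneg n) (Real.log_nonneg (by linarith))
  have h2 := h1 (c * e) (mul_nonneg hc he)
  have h3 := h1 e he
  unfold Ct
  linarith

section

variable {W ζ : Type} [Fintype W] {q : W → ℝ} {n : ℕ}

/-- A small difference in a larger body. -/
theorem inc_near {c e : ℝ} {T V : Matrix (Fin n) (Fin n) ℝ} (hT : T.det ≠ 0) (he : 0 ≤ e)
    (h : Inc c T V) {x : Fin n → ℝ} (hx : ∀ i, |(T⁻¹ *ᵥ x) i| ≤ e) (i : Fin n) :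
    |(V⁻¹ *ᵥ x) i| ≤ c * e := by
  have e1 : V⁻¹ *ᵥ x = (V⁻¹ * T) *ᵥ (T⁻¹ *ᵥ x) := by
    rw [Matrix.mulVec_mulVec, Matrix.mul_assoc, Matrix.mul_nonsing_inv _
      (isUnit_iff_ne_zero.2 hT), Matrix.mul_one]
  have e2 : (V⁻¹ *ᵥ x) i = ∑ j, (V⁻¹ * T) i j * (T⁻¹ *ᵥ x) j := by
    rw [e1]
    rfl
  rw [e2]
  calc |∑ j, (V⁻¹ * T) i j * (T⁻¹ *ᵥ x) j| ≤ ∑ j, |(V⁻¹ * T) i j * (T⁻¹ *ᵥ x) j| :=
        Finset.abs_sum_le_sum_abs _ _
    _ ≤ ∑ j, |(V⁻¹ * T) i j| * e := Finset.sum_le_sum fun j _ => by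
        rw [abs_mul]
        exact mul_le_mul_of_nonneg_left (hx j) (abs_nonneg _)
    _ = (∑ j, |(V⁻¹ * T) i j|) * e := (Finset.sum_mul _ _ _).symm
    _ ≤ c * e := mul_le_mul_of_nonneg_right (h i) he

/-- **Comparison of the cells of two points** whose difference is a function of the context up to
the fine body. -/
theorem cell_cmp (h0 : ∀ w, 0 ≤ q w) (h1 : ∑ w, q w = 1) {T : Matrix (Fin n) (Fin n) ℝ}
    (hT : T.det ≠ 0) {V : W → Matrix (Fin n) (Fin n) ℝ} (x y z : W → Fin n → ℝ) (S : W → ζ)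
    (hV : Det q S V) (hz : Det q S z) {c e : ℝ} (he : 0 ≤ e)
    (h : ∀ w, Inc c T (V w))
    (hd : ∀ w, 0 < q w → ∀ i, |(T⁻¹ *ᵥ (y w - x w - z w)) i| ≤ e) :
    CH q (fun w => cl T (y w)) (fun w => (cl (V w) (y w), S w)) ≤
      CH q (fun w => cl T (x w)) (fun w => (cl (V w) (x w), S w)) + Ct n c e := by
  -- the cells of `x` in the body, given those of `y`
  have k1 : CH q (fun w => cl (V w) (x w)) (fun w => (cl (V w) (y w), S w)) ≤
      n * Real.log (2 * (2 + 2 * (c * e)) + 1) := by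
    have key := CH_le_vec h0 h1 (fun w => cl (V w) (x w)) (fun w => (cl (V w) (y w), S w))
      (fun _ => 2 + 2 * (c * e)) (by
        intro w w' a b k i
        have e1 := Prod.ext_iff.mp k
        have e2 : V w = V w' := hV w w' a b e1.2
        have e3 : z w = z w' := hz w w' a b e1.2
        have e4 : cl (V w) (y w) = cl (V w) (y w') := by
          have := e1.1
          simp only at this
          rw [this, e2]
        have f1 := inc_near hT he (h w) (hd w a) i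
        have f2 := inc_near hT he (h w) (hd w' b) i
        have f3 := abs_sub_of_floor (congrFun e4 i)
        rw [← e3] at f2
        rw [Matrix.mulVec_sub, Matrix.mulVec_sub, Pi.sub_apply, Pi.sub_apply] at f1 f2
        have f4 : |((V w)⁻¹ *ᵥ x w) i - ((V w)⁻¹ *ᵥ x w') i| ≤ 1 + 2 * (c * e) := by
          rw [abs_le] at f1 f2 f3 ⊢
          constructor <;> linarith [f1.1, f1.2, f2.1, f2.2, f3.1, f3.2]
        have f5 := floor_sub_le f4
        rw [← e2]
        refine f5.trans (le_of_eq (by ring)))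
    rwa [Ex_const h1] at key
  have k2 : CH q (fun w => cl T (y w)) (fun w => (cl T (x w), S w)) ≤
      n * Real.log (2 * (2 + 2 * e) + 1) := by
    have key := CH_le_vec h0 h1 (fun w => cl T (y w)) (fun w => (cl T (x w), S w))
      (fun _ => 2 + 2 * e) (by
        intro w w' a b k i
        have e1 := Prod.ext_iff.mp k
        have e3 : z w = z w' := hz w w' a b e1.2
        have f1 := hd w a i
        have f2 := hd w' b i
        have f3 := abs_sub_of_floor (congrFun e1.1 i)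
        rw [← e3] at f2
        rw [Matrix.mulVec_sub, Matrix.mulVec_sub, Pi.sub_apply, Pi.sub_apply] at f1 f2
        have f4 : |(T⁻¹ *ᵥ y w) i - (T⁻¹ *ᵥ y w') i| ≤ 1 + 2 * e := by
          rw [abs_le] at f1 f2 f3 ⊢
          constructor <;> linarith [f1.1, f1.2, f2.1, f2.2, f3.1, f3.2]
        refine (floor_sub_le f4).trans (le_of_eq (by ring)))
    rwa [Ex_const h1] at key
  have s1 := CH_le_add h0 (fun w => cl T (y w)) (fun w => cl (V w) (x w))
    (fun w => (cl (V w) (y w), S w))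
  have s2 := CH_le_add h0 (fun w => cl T (y w)) (fun w => cl T (x w))
    (fun w => (cl (V w) (x w), (cl (V w) (y w), S w)))
  have s3 : CH q (fun w => cl T (x w)) (fun w => (cl (V w) (x w), (cl (V w) (y w), S w))) ≤
      CH q (fun w => cl T (x w)) (fun w => (cl (V w) (x w), S w)) :=
    CH_mono_cond h0 fun w w' _ _ k => by
      simp only [Prod.mk.injEq] at k ⊢
      exact ⟨k.1, k.2.2⟩
  have s4 : CH q (fun w => cl T (y w))
      (fun w => (cl T (x w), (cl (V w) (x w), (cl (V w) (y w), S w)))) ≤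
      CH q (fun w => cl T (y w)) (fun w => (cl T (x w), S w)) :=
    CH_mono_cond h0 fun w w' _ _ k => by
      simp only [Prod.mk.injEq] at k ⊢
      exact ⟨k.1, k.2.2.2⟩
  unfold Ct
  linarith

/-- A value `A` in the condition. -/
theorem cond_loss {α β δ ε : Type} (h0 : ∀ w, 0 ≤ q w) (X : W → α) (Y : W → β) (A : W → δ)
    (N : W → ε) (Z : W → ζ) (hX : Det q (fun w => (N w, Z w)) X)
    (hY : Det q (fun w => (N w, Z w)) Y) :
    CH q X (fun w => (Y w, Z w)) - (CH q A Z - CH q A (fun w => (N w, Z w))) ≤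
      CH q X (fun w => (Y w, (A w, Z w))) := by
  have s1 : H q (fun w => (A w, (N w, Z w))) + H q (fun w => (X w, (Y w, Z w))) ≤
      H q (fun w => (N w, Z w)) + H q (fun w => (X w, (Y w, (A w, Z w)))) := by
    refine submod h0 (fun w w' a b k => ?_) (fun w w' _ _ k => ?_) (fun w w' _ _ k => ?_)
    · exact Prod.ext (hX w w' a b k) (Prod.ext (hY w w' a b k) (Prod.ext_iff.mp k).2)
    · simp only [Prod.mk.injEq] at k ⊢
      exact ⟨k.1, k.2.1, k.2.2.2⟩
    · simp only [Prod.mk.injEq] at k ⊢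
      exact ⟨k.2.2.2.1, k.1.1, k.1.2⟩
  have s2 : H q (fun w => (Y w, (A w, Z w))) + H q Z ≤ H q (fun w => (A w, Z w)) +
      H q (fun w => (Y w, Z w)) := by
    refine submod h0 (fun w w' _ _ k => (Prod.ext_iff.mp k).2)
      (fun w w' _ _ k => (Prod.ext_iff.mp k).2) (fun w w' _ _ k => ?_)
    simp only [Prod.mk.injEq] at k ⊢
    exact ⟨k.2.1, k.1.1, k.1.2⟩
  unfold CH
  linarith

end

section

variable {Ω Q₀ γ Λ β υ : Type} [Fintype Ω] {n : ℕ} {p : Ω → ℝ} {P : Ω → Q₀} {g : Q₀ → γ}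
  {ν : Q₀ → Fin n → ℝ} {T : Matrix (Fin n) (Fin n) ℝ} {L : Ω → Λ} {b : γ → β} {U : Λ → υ}
  {Z : υ → γ → γ → Fin n → ℝ} {a₀ e a a' c : ℝ}

/-- The information of the context of the fresh point and of `U` about the height. -/
theorem tr_alpha (h : Lin p P g ν T L b U Z a₀ e) (D : Dtm p P g ν T a c) :
    CH (q3 L D) (fun w => (g (P w.1), U (L w.1))) (fun w => (D.R w.2.2, g (P w.2.1))) -
      CH (q3 L D) (fun w => (g (P w.1), U (L w.1)))
        (fun w => (ν (P w.2.1), (D.R w.2.2, g (P w.2.1)))) ≤ 2 * a₀ + a := by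
  have n3 := q3_nonneg h.p0 L D
  have n2 := q2_nonneg h.p0 D
  have eb : ∀ w, 0 < q3 L D w → b (g (P w.1)) = b (g (P w.2.1)) := fun w hw => by
    obtain ⟨k1, k2, _, k4, _⟩ := q3_pos h.p0 L D hw
    exact h.bL w.1 w.2.1 k1 k2 k4
  have eL : ∀ w, 0 < q3 L D w → L w.1 = L w.2.1 := fun w hw => (q3_pos h.p0 L D hw).2.2.2.1
  have c1 := CH_chain n3 (fun w => g (P w.1)) (fun w => U (L w.1))
    (fun w => (D.R w.2.2, g (P w.2.1)))
  have c2 := CH_chain n3 (fun w => g (P w.1)) (fun w => U (L w.1))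
    (fun w => (ν (P w.2.1), (D.R w.2.2, g (P w.2.1))))
  -- the context of the fresh point
  have c3 : CH (q3 L D) (fun w => g (P w.1))
      (fun w => (U (L w.1), (D.R w.2.2, g (P w.2.1)))) ≤
      CH (q3 L D) (fun w => g (P w.1)) (fun w => b (g (P w.1))) :=
    CH_mono_cond n3 fun w w' u v k => by
      simp only [Prod.mk.injEq] at k ⊢
      rw [eb w u, eb w' v, k.2.2]
  have c4 : CH (q3 L D) (fun w => g (P w.1))
      (fun w => ((ν (P w.2.1), (D.R w.2.2, g (P w.2.1))), L w.1)) ≤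
      CH (q3 L D) (fun w => g (P w.1))
        (fun w => (U (L w.1), (ν (P w.2.1), (D.R w.2.2, g (P w.2.1))))) :=
    CH_mono_cond n3 fun w w' u v k => by
      simp only [Prod.mk.injEq] at k ⊢
      exact ⟨congrArg U k.2, k.1⟩
  have c8 : CH (q3 L D) (fun w => g (P w.1))
      (fun w => ((ν (P w.2.1), (D.R w.2.2, g (P w.2.1))), L w.1)) =
      CH (q3 L D) (fun w => g (P w.1)) (fun w => L w.1) :=
    q3_ci h.p0 L D (fun ω => g (P ω)) (fun w => (ν (P w.1), (D.R w.2, g (P w.1))))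
  have c5 := CH_q3_fst h.p0 L D (fun ω => g (P ω)) (fun ω => b (g (P ω)))
  have c6 := CH_q3_fst h.p0 L D (fun ω => g (P ω)) L
  have c7 := h.h0
  -- the value of `U`
  have d1 : CH (q3 L D) (fun w => U (L w.1)) (fun w => (D.R w.2.2, g (P w.2.1))) ≤
      CH (q3 L D) (fun w => U (L w.2.1)) (fun w => g (P w.2.1)) := by
    rw [CH_supp n3 (X := fun w => U (L w.1)) (X' := fun w => U (L w.2.1))
      (Y := fun w => (D.R w.2.2, g (P w.2.1))) (Y' := fun w => (D.R w.2.2, g (P w.2.1)))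
      (fun w hw => by rw [eL w hw]) (fun _ _ => rfl)]
    exact CH_mono_cond n3 fun w w' _ _ k => (Prod.ext_iff.mp k).2
  have d2 : CH (q3 L D) (fun w => U (L w.1))
      (fun w => (ν (P w.2.1), (D.R w.2.2, g (P w.2.1)))) =
      CH (q2 D) (fun w => U (L w.1)) (fun w => (D.R w.2, (ν (P w.1), g (P w.1)))) := by
    rw [CH_supp n3 (X := fun w => U (L w.1)) (X' := fun w => U (L w.2.1))
      (Y := fun w => (ν (P w.2.1), (D.R w.2.2, g (P w.2.1))))
      (Y' := fun w => (ν (P w.2.1), (D.R w.2.2, g (P w.2.1))))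
      (fun w hw => by rw [eL w hw]) (fun _ _ => rfl)]
    rw [CH_q3_snd h.p0 L D (fun w => U (L w.1)) (fun w => (ν (P w.1), (D.R w.2, g (P w.1))))]
    refine CH_congr n2 ?_ ?_ ?_ ?_ <;>
    · intro ω ω' _ _ h
      simp only [Prod.mk.injEq] at h ⊢
      tauto
  have d3 : CH (q3 L D) (fun w => U (L w.2.1)) (fun w => g (P w.2.1)) =
      CH (q2 D) (fun w => U (L w.1)) (fun w => g (P w.1)) :=
    CH_q3_snd h.p0 L D (fun w => U (L w.1)) (fun w => g (P w.1))
  -- the symmetric form of the hypothesis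
  have d4 : CH (q2 D) (fun w => U (L w.1)) (fun w => g (P w.1)) -
      CH (q2 D) (fun w => U (L w.1)) (fun w => (ν (P w.1), g (P w.1))) ≤ a₀ := by
    rw [CH_q2_fst h.p0 D (fun ω => U (L ω)) (fun ω => g (P ω)),
      CH_q2_fst h.p0 D (fun ω => U (L ω)) (fun ω => (ν (P ω), g (P ω)))]
    have s1 := CH_chain h.p0 (fun ω => U (L ω)) (fun ω => ν (P ω)) (fun ω => g (P ω))
    have s2 := CH_chain h.p0 (fun ω => ν (P ω)) (fun ω => U (L ω)) (fun ω => g (P ω))
    have s3 : CH p (fun ω => (U (L ω), ν (P ω))) (fun ω => g (P ω)) =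
        CH p (fun ω => (ν (P ω), U (L ω))) (fun ω => g (P ω)) := by
      refine CH_congr h.p0 ?_ ?_ ?_ ?_ <;>
      · intro ω ω' _ _ h
        simp only [Prod.mk.injEq] at h ⊢
        tauto
    have s4 := h.h1
    linarith
  -- the value of the datum
  have d5 : CH (q2 D) (fun w => U (L w.1)) (fun w => (ν (P w.1), g (P w.1))) -
      CH (q2 D) (fun w => U (L w.1)) (fun w => (D.R w.2, (ν (P w.1), g (P w.1)))) ≤ a := by
    have s1 := CH_chain n2 (fun w => U (L w.1)) (fun w => D.R w.2)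
      (fun w => (ν (P w.1), g (P w.1)))
    have s2 := CH_chain n2 (fun w => D.R w.2) (fun w => U (L w.1))
      (fun w => (ν (P w.1), g (P w.1)))
    have s3 : CH (q2 D) (fun w => (U (L w.1), D.R w.2)) (fun w => (ν (P w.1), g (P w.1))) =
        CH (q2 D) (fun w => (D.R w.2, U (L w.1))) (fun w => (ν (P w.1), g (P w.1))) := by
      refine CH_congr n2 ?_ ?_ ?_ ?_ <;>
      · intro ω ω' _ _ h
        simp only [Prod.mk.injEq] at h ⊢
        tauto
    have s4 : CH (q2 D) (fun w => D.R w.2) (fun w => (ν (P w.1), g (P w.1))) ≤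
        CH (q2 D) (fun w => D.R w.2) (fun w => g (P w.1)) :=
      CH_mono_cond n2 fun _ _ _ _ k => (Prod.ext_iff.mp k).2
    have s5 : CH (q2 D) (fun w => D.R w.2) (fun w => (L w.1, P w.1)) ≤
        CH (q2 D) (fun w => D.R w.2) (fun w => (U (L w.1), (ν (P w.1), g (P w.1)))) :=
      CH_mono_cond n2 fun w w' _ _ k => by
        have k1 := Prod.ext_iff.mp k
        exact Prod.ext (congrArg U k1.1) (Prod.ext (congrArg ν k1.2) (congrArg g k1.2))
    rw [q2_ci h.p0 D L] at s5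
    have s6 := q2_inf h.p0 D
    linarith
  linarith

/-- **The deficit of the transported datum.** -/
theorem tr_df (h : Lin p P g ν T L b U Z a₀ e) (hT : T.det ≠ 0) (he : 0 ≤ e)
    (D : Dtm p P g ν T a c) :
    DF (q3 L D) (fun _ => T) (fun w => D.V w.2.2) (fun w => ν (P w.1))
      (fun w => ((g (P w.2.1), D.R w.2.2), g (P w.1))) ≤ 2 * a₀ + 2 * a + Ct n c e := by
  have n3 := q3_nonneg h.p0 L D
  have n2 := q2_nonneg h.p0 D
  have eP : ∀ w, 0 < q3 L D w → P w.2.1 = D.Pt w.2.2 := fun w hw =>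
    (q3_pos h.p0 L D hw).2.2.2.2
  -- the body is a function of the context
  have dV : Det (q3 L D) (fun w => (D.R w.2.2, g (P w.2.1))) (fun w => D.V w.2.2) := by
    intro w w' u v k
    have k1 := Prod.ext_iff.mp k
    refine D.dV w.2.2 w'.2.2 (q3_pos h.p0 L D u).2.2.1 (q3_pos h.p0 L D v).2.2.1
      (Prod.ext k1.1 ?_)
    have k2 : g (P w.2.1) = g (P w'.2.1) := k1.2
    simp only
    rw [← eP w u, ← eP w' v, k2]
  -- step A
  have sA := cell_cmp n3 (q3_sum h.p0 h.p1 L D) hT (V := fun w => D.V w.2.2)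
    (fun w => ν (P w.1)) (fun w => ν (P w.2.1))
    (fun w => Z (U (L w.1)) (g (P w.1)) (g (P w.2.1)))
    (fun w => ((g (P w.1), U (L w.1)), (D.R w.2.2, g (P w.2.1))))
    (fun w w' u v k => dV w w' u v (Prod.ext_iff.mp k).2)
    (fun w w' _ _ k => by
      simp only [Prod.mk.injEq] at k ⊢
      rw [k.1.1, k.1.2, k.2.2]) he (fun w => D.inc w.2.2)
    (fun w hw => by
      obtain ⟨k1, k2, _, k4, _⟩ := q3_pos h.p0 L D hw
      exact h.tr w.1 w.2.1 k1 k2 k4)
  -- step B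
  have sB := cond_loss n3 (fun w => cl T (ν (P w.2.1))) (fun w => cl (D.V w.2.2) (ν (P w.2.1)))
    (fun w => (g (P w.1), U (L w.1))) (fun w => ν (P w.2.1))
    (fun w => (D.R w.2.2, g (P w.2.1)))
    (fun w w' _ _ k => by
      simp only [Prod.mk.injEq] at k ⊢
      rw [k.1])
    (fun w w' u v k => by
      have k1 := Prod.ext_iff.mp k
      have k2 : D.V w.2.2 = D.V w'.2.2 := dV w w' u v k1.2
      have k3 : ν (P w.2.1) = ν (P w'.2.1) := k1.1
      simp only
      rw [k2, k3])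
  have sC := tr_alpha h D
  -- the deficit at the point of the datum
  have sD := D.df
  unfold DF at sD ⊢
  have e1 : Ex (q3 L D) (fun w => lv (D.V w.2.2) - lv T) =
      Ex D.κ (fun w => lv (D.V w) - lv T) := by
    have s1 : Ex (q3 L D) (fun w => lv (D.V w.2.2) - lv T) =
        Ex (q2 D) (fun w => lv (D.V w.2) - lv T) :=
      Ex_glue_snd n2 (q3_eq h.p0 L D) (fun w => lv (D.V w.2) - lv T)
    have s2 : Ex (q2 D) (fun w => lv (D.V w.2) - lv T) =
        Ex D.κ (fun w => lv (D.V w) - lv T) :=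
      Ex_glue_snd D.k0 (q2_eq D) (fun w => lv (D.V w) - lv T)
    rw [s1, s2]
  have e2 : CH (q3 L D) (fun w => cl T (ν (P w.2.1)))
      (fun w => (cl (D.V w.2.2) (ν (P w.2.1)), (D.R w.2.2, g (P w.2.1)))) =
      CH D.κ (fun w => cl T (ν (D.Pt w)))
        (fun w => (cl (D.V w) (ν (D.Pt w)), (D.R w, g (D.Pt w)))) := by
    rw [CH_supp n3 (X := fun w => cl T (ν (P w.2.1))) (X' := fun w => cl T (ν (D.Pt w.2.2)))
      (Y := fun w => (cl (D.V w.2.2) (ν (P w.2.1)), (D.R w.2.2, g (P w.2.1))))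
      (Y' := fun w => (cl (D.V w.2.2) (ν (D.Pt w.2.2)), (D.R w.2.2, g (D.Pt w.2.2))))
      (fun w hw => by rw [eP w hw]) (fun w hw => by rw [eP w hw])]
    rw [CH_q3_snd h.p0 L D (fun w => cl T (ν (D.Pt w.2)))
      (fun w => (cl (D.V w.2) (ν (D.Pt w.2)), (D.R w.2, g (D.Pt w.2)))),
      CH_q2_snd D (fun w => cl T (ν (D.Pt w)))
      (fun w => (cl (D.V w) (ν (D.Pt w)), (D.R w, g (D.Pt w))))]
  have e3 : CH (q3 L D) (fun w => cl T (ν (P w.1)))
      (fun w => (cl (D.V w.2.2) (ν (P w.1)),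
        ((g (P w.1), U (L w.1)), (D.R w.2.2, g (P w.2.1))))) ≤
      CH (q3 L D) (fun w => cl T (ν (P w.1)))
      (fun w => (cl (D.V w.2.2) (ν (P w.1)), ((g (P w.2.1), D.R w.2.2), g (P w.1)))) :=
    CH_mono_cond n3 fun w w' _ _ k => by
      simp only [Prod.mk.injEq] at k ⊢
      exact ⟨k.1, ⟨k.2.2.2, k.2.2.1⟩, k.2.1.1⟩
  linarith

/-- **The transported datum.** -/
noncomputable def transp (h : Lin p P g ν T L b U Z a₀ e) (hT : T.det ≠ 0) (he : 0 ≤ e)
    (ha : 0 ≤ a₀) (hc : 0 ≤ c) (D : Dtm p P g ν T a c) :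
    Dtm p P g ν T (2 * a₀ + 2 * a + Ct n c e) c where
  W := Ω × (Ω × D.W)
  ft := inferInstance
  κ := q3 L D
  k0 := q3_nonneg h.p0 L D
  k1 := q3_sum h.p0 h.p1 L D
  Pt := fun w => P w.1
  lw := fun x => law_glue_fst h.p0 (q3_eq h.p0 L D) P x
  ρ := γ × D.ρ
  R := fun w => (g (P w.2.1), D.R w.2.2)
  V := fun w => D.V w.2.2
  dV := by
    intro w w' u v k
    have k1 := Prod.ext_iff.mp k
    have k2 := Prod.ext_iff.mp k1.1
    have k3 : g (P w.2.1) = g (P w'.2.1) := k2.1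
    refine D.dV w.2.2 w'.2.2 (q3_pos h.p0 L D u).2.2.1 (q3_pos h.p0 L D v).2.2.1
      (Prod.ext k2.2 ?_)
    simp only
    rw [← (q3_pos h.p0 L D u).2.2.2.2, ← (q3_pos h.p0 L D v).2.2.2.2, k3]
  nz := fun w => D.nz w.2.2
  inc := fun w => D.inc w.2.2
  inf := by
    have h1 := tr_inf h D
    have h2 := D.a0
    have h3 := Ct_nonneg n hc he
    linarith
  df := tr_df h hT he D

end

end Pool.MSD
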